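import Pool.Agent.CB3.Defs

/-!
# Generic linear forms (module GENAVOID)

PROOF of `exists_generic`.  By `exists_good` there is `c0` good for all `E k`; by
`Subspace.biUnion_ne_univ_of_top_notMem` there is `c1` outside all `U ∈ T`.  On the line
`c0 + s • (c1 - c0)`: for each `k` the set of bad `s` is finite (`line_finite` with `s0 = 0`, exactly
as in the proof of `exists_good` in `Pool/Agent/CB/Abs.lean`), and for each `U ∈ T` at most one `s` has
`c0 + s • (c1 - c0) ∈ U` (two such `s` give `c1 - c0 ∈ U`, hence `c1 ∈ U`).  `K` is infinite.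
-/

set_option autoImplicit false
set_option linter.all false

noncomputable section

namespace Pool.Agent.CB3

open Pool.Agent.CB Module

variable {K W : Type*} [Field K] [AddCommGroup W] [Module K W] {n : ℕ}

theorem exists_generic [Infinite K] (X : Fin n → Module.End K W) {ι : Type*} (s : Finset ι)
    (E : ι → Submodule K W) (hE : ∀ k ∈ s, FiniteDimensional K (E k))
    (h : ∀ k ∈ s, ∃ c, Good X c (E k)) {T : Set (Submodule K (Fin n → K))} (hT : T.Finite)
    (hT' : ⊤ ∉ T) : ∃ c, (∀ k ∈ s, Good X c (E k)) ∧ ∀ U ∈ T, c ∉ U := by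
  classical
  obtain ⟨c0, hc0⟩ := exists_good X s E hE h
  have hc1 : ∃ c1 : Fin n → K, ∀ U ∈ T, c1 ∉ U := by
    have hne := Subspace.biUnion_ne_univ_of_top_notMem (k := K) (E := Fin n → K)
      (s := hT.toFinset) (by simpa using hT')
    obtain ⟨c1, hc1⟩ := (Set.ne_univ_iff_exists_notMem _).1 hne
    refine ⟨c1, fun U hU hcU => hc1 ?_⟩
    exact Set.mem_biUnion (show U ∈ (hT.toFinset) from hT.mem_toFinset.2 hU) hcU
  obtain ⟨c1, hc1⟩ := hc1
  have key : ∀ k ∈ s, {t : K | ¬ Good X (c0 + t • (c1 - c0)) (E k)}.Finite := by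
    intro k hk
    have hfk := hE k hk
    have hinj : ∀ t : K, Function.Injective (((L X c0).domRestrict (E k)) +
        t • ((L X (c1 - c0)).domRestrict (E k))) ↔ Good X (c0 + t • (c1 - c0)) (E k) := by
      intro t
      rw [← LinearMap.ker_eq_bot, Submodule.eq_bot_iff]
      constructor
      · intro hh w hw hw0
        have := hh ⟨w, hw⟩ (by
          rw [LinearMap.mem_ker]
          simpa [L_add, L_smul] using hw0)
        simpa using this
      · intro hh w hw0
        rw [LinearMap.mem_ker] at hw0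
        have := hh w.1 w.2 (by simpa [L_add, L_smul] using hw0)
        exact Subtype.ext this
    have hg0 : Good X (c0 + (0 : K) • (c1 - c0)) (E k) := by simpa using hc0 k hk
    have := line_finite ((L X c0).domRestrict (E k)) ((L X (c1 - c0)).domRestrict (E k)) 0
      ((hinj 0).2 hg0)
    refine this.subset ?_
    intro t ht
    intro hi
    exact ht ((hinj t).1 hi)
  have key2 : ∀ U ∈ T, {t : K | c0 + t • (c1 - c0) ∈ U}.Finite := by
    intro U hU
    apply Set.Subsingleton.finite
    intro t ht t' ht'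
    by_contra hne
    have hsub : (t - t') • (c1 - c0) ∈ U := by
      have h1 := U.sub_mem ht ht'
      have h2 : c0 + t • (c1 - c0) - (c0 + t' • (c1 - c0)) = (t - t') • (c1 - c0) := by
        rw [sub_smul]; abel
      rwa [h2] at h1
    have hd : c1 - c0 ∈ U := by
      have h1 := U.smul_mem (t - t')⁻¹ hsub
      rwa [smul_smul, inv_mul_cancel₀ (sub_ne_zero.2 hne), one_smul] at h1
    have hc0U : c0 ∈ U := by
      have h1 := U.sub_mem ht (U.smul_mem t hd)
      have h2 : c0 + t • (c1 - c0) - t • (c1 - c0) = c0 := by abel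
      rwa [h2] at h1
    have : c1 ∈ U := by
      have h1 := U.add_mem hd hc0U
      have h2 : c1 - c0 + c0 = c1 := by abel
      rwa [h2] at h1
    exact hc1 U hU this
  have hfin : ((⋃ k ∈ s, {t : K | ¬ Good X (c0 + t • (c1 - c0)) (E k)}) ∪
      (⋃ U ∈ T, {t : K | c0 + t • (c1 - c0) ∈ U})).Finite := by
    refine Set.Finite.union ?_ ?_
    · exact Set.Finite.biUnion (Finset.finite_toSet _) key
    · exact Set.Finite.biUnion hT key2
  obtain ⟨t, ht⟩ := hfin.exists_notMem
  refine ⟨c0 + t • (c1 - c0), fun k hk => ?_, fun U hU hcU => ?_⟩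
  · by_contra hcon
    exact ht (Or.inl (Set.mem_biUnion hk hcon))
  · exact ht (Or.inr (Set.mem_biUnion hU hcU))

end Pool.Agent.CB3
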