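import Pool.Agent.CB3.Defs

/-!
# Green's bound, second value (module GREEN2)

PROOF of `green2`.  First show: (*) if `finrank E ≤ 2 i` and `E ≤ D i` then some `c` has
`finrank (E ⊓ ker (L X c)) ≤ 1`.  Induction on `i`, for all `E`.  `i = 0`: `E = ⊥`.
Step `i → i + 1` (`E ≤ D (i+1)`, `finrank E ≤ 2 i + 2`): let `b` be the minimum over `c` of
`finrank (E ⊓ ker (L X c))` (`Nat.find`), attained at `c`; suppose `2 ≤ b`.  Put
`F = E ⊓ ker (L X c)`, `F' = E.map (L X c) ≤ D i`, `finrank F' = finrank E - b ≤ 2 i`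
(`Pool.Agent.CB.finrank_map_add_ker`).
Case `b ≤ i + 1`: by `exists_good_of_finrank_le` some linear form is good on `F` (degree `i + 1`); by
the induction hypothesis some `c'` has `finrank (F' ⊓ ker (L X c')) ≤ 1`, i.e. `c'` is good on a
complement `F''` of `F' ⊓ ker` in `F'` (`finrank F' ≤ finrank F'' + 1`).  `exists_good` gives ONE `c₁`
good on both `F` and `F''`, and then `finrank (F' ⊓ ker (L X c₁)) ≤ 1` (it meets `F''` trivially).
`L X c` maps `E ⊓ ker (L X c₁)` to `F' ⊓ ker (L X c₁)` (`L_comm`-type commutation of the two linear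
forms) with kernel `F ⊓ ker (L X c₁) = ⊥`, so `finrank (E ⊓ ker (L X c₁)) ≤ 1`, contradiction to the
minimality of `b ≥ 2`.
Case `i + 2 ≤ b`: `finrank F' ≤ i`, so some `c'` is good on `F'` (degree `i`).  For every `c'` good on
`F'`: `E ⊓ ker (L X c') ≤ F` (if `L X c' w = 0` then `L X c w ∈ F'` is killed by `L X c'`), and since
`finrank (E ⊓ ker (L X c')) ≥ b = finrank F` equality holds, so `L X c'` kills `F`.  For every `j` the
form `c' + s • Pi.single j 1` is good on `F'` for all but finitely many `s` (`line_finite`, or apply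
`exists_good` on a line), choose such `s ≠ 0`; both kill `F`, so `X j` kills `F`.  By `Sys.soc`,
`F = ⊥`, contradiction to `b ≥ 2`.
Finally from (*) take for `E'` a complement of `E ⊓ ker (L X c)` in `E`.
-/

set_option autoImplicit false
set_option linter.all false

noncomputable section

namespace Pool.Agent.CB3

open Pool.Agent.CB Module

variable {K W : Type*} [Field K] [AddCommGroup W] [Module K W] {n : ℕ}

/-- Two linear forms commute. -/
lemma G2_comm {X : Fin n → Module.End K W} (hX : ∀ i j, Commute (X i) (X j)) (c c' : Fin n → K)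
    (w : W) : L X c (L X c' w) = L X c' (L X c w) := by
  rw [L_apply X c' w, map_sum, L_apply X c' (L X c w)]
  refine Finset.sum_congr rfl fun j _ => ?_
  rw [map_smul, L_comm hX]

lemma G2_low {X : Fin n → Module.End K W} {D : ℕ → Submodule K W} (S : Sys X D) {i : ℕ}
    (c : Fin n → K) {w : W} (hw : w ∈ D (i + 1)) : L X c w ∈ D i :=
  L_mem (fun j w hw => S.lower i j w hw) hw

/-- Complements inside a finite-dimensional subspace. -/
lemma G2_compl (E A : Submodule K W) [FiniteDimensional K E] (hA : A ≤ E) :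
    ∃ E' : Submodule K W, E' ≤ E ∧ A ⊓ E' = ⊥ ∧ finrank K A + finrank K E' = finrank K E := by
  obtain ⟨C, hC⟩ := exists_isCompl A
  have h1 : FiniteDimensional K A := Submodule.finiteDimensional_of_le hA
  have h2 : FiniteDimensional K (C ⊓ E : Submodule K W) :=
    Submodule.finiteDimensional_of_le inf_le_right
  have h4 : A ⊓ (C ⊓ E) = ⊥ := by
    rw [← inf_assoc, hC.inf_eq_bot, bot_inf_eq]
  refine ⟨C ⊓ E, inf_le_right, h4, ?_⟩
  have h := Submodule.finrank_sup_add_finrank_inf_eq A (C ⊓ E)
  have h3 : A ⊔ C ⊓ E = E := by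
    rw [← sup_inf_assoc_of_le C hA, hC.sup_eq_top, top_inf_eq]
  rw [h3, h4, finrank_bot, add_zero] at h
  exact h.symm

/-- Disjoint subspaces. -/
lemma G2_disj {E A B : Submodule K W} [FiniteDimensional K E] (hA : A ≤ E) (hB : B ≤ E)
    (h : A ⊓ B = ⊥) : finrank K A + finrank K B ≤ finrank K E := by
  have h1 : FiniteDimensional K A := Submodule.finiteDimensional_of_le hA
  have h2 : FiniteDimensional K B := Submodule.finiteDimensional_of_le hB
  have h3 := Submodule.finrank_sup_add_finrank_inf_eq A B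
  rw [h, finrank_bot, add_zero] at h3
  rw [← h3]
  exact Submodule.finrank_mono (sup_le hA hB)

/-- If `c'` has a kernel of dimension at most one on `F'`, the form `c₁` is good on `F` and on a
complement, then `c₁` has a small kernel. -/
lemma G2_small [Infinite K] {X : Fin n → Module.End K W} (F F' : Submodule K W)
    [FiniteDimensional K F] [FiniteDimensional K F'] (hF : ∃ c, Good X c F)
    (hF' : ∃ c, finrank K (F' ⊓ LinearMap.ker (L X c) : Submodule K W) ≤ 1) :
    ∃ c, Good X c F ∧ finrank K (F' ⊓ LinearMap.ker (L X c) : Submodule K W) ≤ 1 := by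
  obtain ⟨c', hc'⟩ := hF'
  obtain ⟨F'', h1, h2, h3⟩ := G2_compl F' (F' ⊓ LinearMap.ker (L X c')) inf_le_left
  have hfd : FiniteDimensional K F'' := Submodule.finiteDimensional_of_le h1
  have hg : Good X c' F'' := by
    intro w hw hw0
    have : w ∈ (F' ⊓ LinearMap.ker (L X c')) ⊓ F'' := ⟨⟨h1 hw, LinearMap.mem_ker.2 hw0⟩, hw⟩
    rw [h2] at this
    exact (Submodule.mem_bot K).1 this
  obtain ⟨c₁, hc₁⟩ := exists_good X (Finset.univ : Finset Bool)
    (fun b => if b then F else F'') (by
      intro b _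
      cases b
      · simpa using hfd
      · simpa using ‹FiniteDimensional K F›) (by
      intro b _
      cases b
      · exact ⟨c', by simpa using hg⟩
      · simpa using hF)
  have ha : Good X c₁ F := by simpa using hc₁ true (Finset.mem_univ _)
  have hb : Good X c₁ F'' := by simpa using hc₁ false (Finset.mem_univ _)
  refine ⟨c₁, ha, ?_⟩
  have h4 : (F' ⊓ LinearMap.ker (L X c₁)) ⊓ F'' = ⊥ := by
    rw [eq_bot_iff]
    rintro w ⟨⟨-, hw1⟩, hw2⟩
    exact (Submodule.mem_bot K).2 (hb w hw2 (LinearMap.mem_ker.1 hw1))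
  have h5 := G2_disj (E := F') inf_le_left h1 h4
  omega

/-- Good forms near a good form. -/
lemma G2_line [Infinite K] {X : Fin n → Module.End K W} {F : Submodule K W}
    [FiniteDimensional K F] {c : Fin n → K} (hc : Good X c F) (d : Fin n → K) :
    ∃ s : K, s ≠ 0 ∧ Good X (c + s • d) F := by
  have hinj : ∀ t : K, Function.Injective (((L X c).domRestrict F) +
      t • ((L X d).domRestrict F)) ↔ Good X (c + t • d) F := by
    intro t
    rw [← LinearMap.ker_eq_bot, Submodule.eq_bot_iff]
    constructor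
    · intro hh w hw hw0
      have := hh ⟨w, hw⟩ (by
        rw [LinearMap.mem_ker]
        simpa [L_add, L_smul] using hw0)
      simpa using this
    · intro hh w hw0
      rw [LinearMap.mem_ker] at hw0
      have := hh w.1 w.2 (by simpa [L_add, L_smul] using hw0)
      exact Subtype.ext this
  have h1 := line_finite ((L X c).domRestrict F) ((L X d).domRestrict F) 0
    ((hinj 0).2 (by simpa using hc))
  obtain ⟨s, hs⟩ := (h1.union (Set.finite_singleton (0 : K))).exists_notMem
  rw [Set.mem_union, not_or] at hs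
  refine ⟨s, fun h => hs.2 (by simp [h]), ?_⟩
  have h2 := hs.1
  rw [Set.mem_setOf_eq, not_not] at h2
  exact (hinj s).1 h2

lemma G2_main [Infinite K] {X : Fin n → Module.End K W} {D : ℕ → Submodule K W} (S : Sys X D) :
    ∀ (i : ℕ) (E : Submodule K W), FiniteDimensional K E → E ≤ D i → finrank K E ≤ 2 * i →
      ∃ c, finrank K (E ⊓ LinearMap.ker (L X c) : Submodule K W) ≤ 1 := by
  classical
  intro i
  induction i with
  | zero =>
    intro E _ _ h
    refine ⟨0, ?_⟩
    have := Submodule.finrank_mono (inf_le_left : E ⊓ LinearMap.ker (L X 0) ≤ E)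
    omega
  | succ i ih =>
    intro E hfE hE h
    by_contra hcon
    push Not at hcon
    have hex : ∃ b, ∃ c, finrank K (E ⊓ LinearMap.ker (L X c) : Submodule K W) = b :=
      ⟨_, 0, rfl⟩
    obtain ⟨c, hc⟩ := Nat.find_spec hex
    have hmin : ∀ c', finrank K (E ⊓ LinearMap.ker (L X c) : Submodule K W) ≤
        finrank K (E ⊓ LinearMap.ker (L X c') : Submodule K W) := fun c' => by
      rw [hc]
      exact Nat.find_min' hex ⟨c', rfl⟩
    have hb2 := hcon c
    have hmk := finrank_map_add_ker (L X c) E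
    set F : Submodule K W := E ⊓ LinearMap.ker (L X c) with hF
    set F' : Submodule K W := E.map (L X c) with hF'
    have hfF : FiniteDimensional K F := Submodule.finiteDimensional_of_le inf_le_left
    have hfF' : FiniteDimensional K F' := inferInstance
    have hF'D : F' ≤ D i := by
      rintro _ ⟨w, hw, rfl⟩
      exact G2_low S c (hE hw)
    have hFD : F ≤ D (i + 1) := inf_le_left.trans hE
    by_cases hbi : finrank K F ≤ i + 1
    · obtain ⟨c₁, hg, hk⟩ := G2_small F F' (exists_good_of_finrank_le S (i + 1) F hFD hbi)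
        (ih F' hfF' hF'D (by omega))
      have hfe : FiniteDimensional K (E ⊓ LinearMap.ker (L X c₁) : Submodule K W) :=
        Submodule.finiteDimensional_of_le inf_le_left
      have h1 := finrank_map_add_ker (L X c) (E ⊓ LinearMap.ker (L X c₁))
      have h2 : (E ⊓ LinearMap.ker (L X c₁)) ⊓ LinearMap.ker (L X c) = ⊥ := by
        rw [eq_bot_iff]
        rintro w ⟨⟨hw1, hw2⟩, hw3⟩
        exact (Submodule.mem_bot K).2 (hg w ⟨hw1, hw3⟩ (LinearMap.mem_ker.1 hw2))
      have h3 : (E ⊓ LinearMap.ker (L X c₁)).map (L X c) ≤ F' ⊓ LinearMap.ker (L X c₁) := by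
        rintro _ ⟨w, ⟨hw1, hw2⟩, rfl⟩
        refine ⟨⟨w, hw1, rfl⟩, ?_⟩
        rw [SetLike.mem_coe, LinearMap.mem_ker, G2_comm S.comm, LinearMap.mem_ker.1 hw2, map_zero]
      have hfk : FiniteDimensional K (F' ⊓ LinearMap.ker (L X c₁) : Submodule K W) :=
        Submodule.finiteDimensional_of_le inf_le_left
      have h4 := Submodule.finrank_mono h3
      rw [h2, finrank_bot, add_zero] at h1
      have h5 := hcon c₁
      omega
    · obtain ⟨c', hc'⟩ := exists_good_of_finrank_le S i F' hF'D (by omega)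
      have hkill : ∀ d, Good X d F' → ∀ w ∈ F, L X d w = 0 := by
        intro d hd
        have h1 : E ⊓ LinearMap.ker (L X d) ≤ F := by
          rintro w ⟨hw1, hw2⟩
          refine ⟨hw1, ?_⟩
          rw [SetLike.mem_coe, LinearMap.mem_ker]
          refine hd _ ⟨w, hw1, rfl⟩ ?_
          rw [G2_comm S.comm, LinearMap.mem_ker.1 hw2, map_zero]
        have h2 : E ⊓ LinearMap.ker (L X d) = F :=
          Submodule.eq_of_le_of_finrank_le h1 (hmin d)
        intro w hw
        rw [← h2] at hw
        exact LinearMap.mem_ker.1 hw.2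
      have hX : ∀ j, ∀ w ∈ F, X j w = 0 := by
        intro j w hw
        obtain ⟨s, hs, hg⟩ := G2_line hc' (Pi.single j 1)
        have h1 := hkill _ hc' w hw
        have h2 := hkill _ hg w hw
        rw [L_add, L_smul, L_single, LinearMap.add_apply, h1, zero_add,
          LinearMap.smul_apply] at h2
        exact (smul_eq_zero.1 h2).resolve_left hs
      have hbot : F = ⊥ := by
        rw [eq_bot_iff]
        intro w hw
        exact (Submodule.mem_bot K).2 (S.soc i w (hFD hw) fun j => hX j w hw)
      rw [hbot, finrank_bot] at hb2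
      omega

theorem green2 [Infinite K] {X : Fin n → Module.End K W} {D : ℕ → Submodule K W} (S : Sys X D)
    (i : ℕ) (E : Submodule K W) [FiniteDimensional K E] (hE : E ≤ D i)
    (h : finrank K E ≤ 2 * i) :
    ∃ E' : Submodule K W, E' ≤ E ∧ finrank K E ≤ finrank K E' + 1 ∧ ∃ c, Good X c E' := by
  obtain ⟨c, hc⟩ := G2_main S i E inferInstance hE h
  obtain ⟨E', h1, h2, h3⟩ := G2_compl E (E ⊓ LinearMap.ker (L X c)) inf_le_left
  refine ⟨E', h1, by omega, c, ?_⟩
  intro w hw hw0
  have : w ∈ (E ⊓ LinearMap.ker (L X c)) ⊓ E' := ⟨⟨h1 hw, LinearMap.mem_ker.2 hw0⟩, hw⟩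
  rw [h2] at this
  exact (Submodule.mem_bot K).1 this

end Pool.Agent.CB3
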