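import Pool.Agent.CB3.Perp
import Pool.Agent.CB3.Green2
import Pool.Agent.CB3.GenAvoid

/-!
# Choice of two generic linear forms (module CHOICE)

PROOF of `exists_gen`.  `I := Ann φ`, `W` = functionals, `X = XX K N`, `S = MvPolynomial (Fin N) K`.
The set of conditions is handled by `exists_generic`.
Points: let `F` be the list of `A.F`; `EL (dg N D E) F N = (E, F N) :: EL (dg N D E) F (N-1)`, and
`Z = {x | ∀ a ∈ EL _ _ (N-1), eval x a.2 = 0 ∧ eval x (F N) = 1}` is finite by `finite_slice`.  If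
`lf a` does not vanish on `Z` then for every `p ≠ 0` with `lf a (p) = 0` some `F i`, `i < N`
(homogeneous of degree `D`, in `I`) does not vanish at `p`: otherwise `F N (p) ≠ 0` (`NZ`), scale `p` by a root
(`IsAlgClosed.exists_pow_nat_eq`, `eval_smul_hom`) into `Z`.
For `x ≠ 0`, `{a | eval x (lf a) = 0}` is a proper subspace of `Fin N → K` (see `exists_lf`); for a prime (any
ideal) `𝔮` with `X j ∉ 𝔮` for some `j`, `{a | lf a ∈ 𝔮}` is a proper subspace (`lf (Pi.single j 1) = X j`);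
also `{a | lf a ∈ I}` is proper since `hd I 1 ≠ 0` (`exists_lf_eq`).
Minimal primes: finite sets (`Ideal.finite_minimalPrimes_of_isNoetherianRing`), so finitely many for `i ≤ t + 1`.
`c`: outside all these subspaces for `Z`, `I` and the minimal primes of `low I i`, `i ≤ t + 1`, not containing all
variables.
`c'`: outside the subspaces for `Z` and the minimal primes of `low I i ⊔ (lf c)`, `i ≤ t + 1`, not containing all the
variables; and good on the following subspaces, `i ≤ t` (`J := I ⊔ (lf c)`): `PI J i` if `hd J i ≤ i`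
(`exists_good_of_finrank_le`, `finrank_PI`); the subspace `E' ≤ PI J i` with `finrank (PI J i) ≤ finrank E' + 1` from
`green2` if `hd J i ≤ 2 i`.
Then `G1`: `good_iff`.  `G2`: `PI (J ⊔ (lf c')) i = PI J i ⊓ ker` (`PI_sup_lf`) meets `E'` trivially, so it has
dimension `≤ 1`.  For `i > t`: all `hd` are zero (`hd_eq_zero_of_lt`, `hd_mono`).
-/

set_option autoImplicit false
set_option linter.all false

noncomputable section

namespace Pool.Agent.CB3

open Pool.Agent.CB Module MvPolynomial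

variable {K : Type*} [Field K] {N : ℕ}

/-- genericity properties of the two linear forms. -/
structure Gen (φ : MvPolynomial (Fin N) K →ₗ[K] K) (t D : ℕ) (c c' : Fin N → K) : Prop where
  cne : lf c ∉ Ann φ
  pc : ∀ p : Fin N → K, p ≠ 0 → eval p (lf c) = 0 →
    ∃ f ∈ Ann φ, ∃ k, k ≤ D ∧ f.IsHomogeneous k ∧ eval p f ≠ 0
  pc' : ∀ p : Fin N → K, p ≠ 0 → eval p (lf c') = 0 →
    ∃ f ∈ Ann φ, ∃ k, k ≤ D ∧ f.IsHomogeneous k ∧ eval p f ≠ 0
  G1 : ∀ i, hd (Ann φ ⊔ Ideal.span {lf c}) i ≤ i →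
    hd (Ann φ ⊔ Ideal.span {lf c} ⊔ Ideal.span {lf c'}) i = 0
  G2 : ∀ i, hd (Ann φ ⊔ Ideal.span {lf c}) i ≤ 2 * i →
    hd (Ann φ ⊔ Ideal.span {lf c} ⊔ Ideal.span {lf c'}) i ≤ 1
  P1 : ∀ i, i ≤ t + 1 → ∀ 𝔮 ∈ (low (Ann φ) i).minimalPrimes,
    (∃ j : Fin N, (X j : MvPolynomial (Fin N) K) ∉ 𝔮) → lf c ∉ 𝔮
  P2 : ∀ i, i ≤ t + 1 → ∀ 𝔮 ∈ (low (Ann φ) i ⊔ Ideal.span {lf c}).minimalPrimes,
    (∃ j : Fin N, (X j : MvPolynomial (Fin N) K) ∉ 𝔮) → lf c' ∉ 𝔮

/-- the linear map `a ↦ lf a` -/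
def lfL (K : Type*) [Field K] (N : ℕ) : (Fin N → K) →ₗ[K] MvPolynomial (Fin N) K where
  toFun := lf
  map_add' a b := by
    simp only [lf, Pi.add_apply, add_smul, Finset.sum_add_distrib]
  map_smul' r a := by
    simp only [lf, Pi.smul_apply, smul_eq_mul, mul_smul, Finset.smul_sum, RingHom.id_apply]

lemma lfL_apply (a : Fin N → K) : lfL K N a = lf a := rfl

lemma lf_pi_single (j : Fin N) : lf (Pi.single j 1 : Fin N → K) = X j := by
  classical
  unfold lf
  rw [Finset.sum_eq_single j]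
  · rw [Pi.single_eq_same, one_smul]
  · intro b _ hb
    rw [Pi.single_eq_of_ne hb, zero_smul]
  · intro h
    exact absurd (Finset.mem_univ j) h

/-- the linear forms in an ideal -/
def Uid (q : Ideal (MvPolynomial (Fin N) K)) : Submodule K (Fin N → K) :=
  (Submodule.restrictScalars K q).comap (lfL K N)

lemma mem_Uid {q : Ideal (MvPolynomial (Fin N) K)} {a : Fin N → K} :
    a ∈ Uid q ↔ lf a ∈ q := Iff.rfl

lemma Uid_ne_top {q : Ideal (MvPolynomial (Fin N) K)}
    (h : ∃ j : Fin N, (X j : MvPolynomial (Fin N) K) ∉ q) : Uid q ≠ ⊤ := by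
  obtain ⟨j, hj⟩ := h
  intro ht
  apply hj
  rw [← lf_pi_single, ← mem_Uid, ht]
  trivial

lemma slice [IsAlgClosed K] {φ : MvPolynomial (Fin N) K →ₗ[K] K} {t e D E : ℕ}
    (A : Adm φ t e D E) : ∃ Z : Set (Fin N → K), Z.Finite ∧ (∀ x ∈ Z, x ≠ 0) ∧
      ∀ c : Fin N → K, (∀ x ∈ Z, eval x (lf c) ≠ 0) → ∀ p : Fin N → K, p ≠ 0 →
        eval p (lf c) = 0 → ∃ f ∈ Ann φ, ∃ k, k ≤ D ∧ f.IsHomogeneous k ∧ eval p f ≠ 0 := by
  obtain ⟨F, hF1, hF2, hF3⟩ := A.F
  have hN := A.hN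
  have hD := A.hD
  have hDE := A.hDE
  obtain ⟨M, hM⟩ : ∃ M, N = M + 1 := ⟨N - 1, by omega⟩
  have hEL : EL (dg N D E) F N = (dg N D E N, F N) :: EL (dg N D E) F M := by
    have haux : ∀ (d : ℕ → ℕ) (n m : ℕ), n = m + 1 → EL d F n = (d n, F n) :: EL d F m := by
      rintro d _ m rfl
      rfl
    exact haux _ _ _ hM
  rw [hEL] at hF3
  have hdN : dg N D E N = E := by unfold dg; rw [if_neg (lt_irrefl N)]
  rw [hdN] at hF3
  have hFN : (F N).IsHomogeneous E := by
    have := hF1 N (by omega) le_rfl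
    rwa [hdN] at this
  have hdi : ∀ i, i ≤ M → dg N D E i = D := by
    intro i hi
    unfold dg
    rw [if_pos (by omega)]
  have hok : ∀ a ∈ EL (dg N D E) F M, okf a := by
    intro a ha
    obtain ⟨i, h1, h2, rfl⟩ := mem_EL.1 ha
    refine ⟨?_, hF1 i h1 (by omega)⟩
    simp only
    rw [hdi i h2]
    omega
  have hE1 : 1 ≤ E := by omega
  refine ⟨_, finite_slice hok hE1 hFN hF3, ?_, ?_⟩
  · rintro x ⟨-, hx⟩ rfl
    rw [eval_zero_of_hom hE1 hFN] at hx
    exact zero_ne_one hx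
  · intro c hc p hp hpc
    by_contra hcon
    push Not at hcon
    have hl : ∀ a ∈ EL (dg N D E) F M, eval p a.2 = 0 := by
      intro a ha
      obtain ⟨i, h1, h2, rfl⟩ := mem_EL.1 ha
      have h3 := hF1 i h1 (by omega)
      rw [hdi i h2] at h3
      exact hcon (F i) (hF2 i h1 (by omega)) D le_rfl h3
    have hfx : eval p (F N) ≠ 0 := by
      intro h0
      exact hp (hF3 p fun a ha => by
        rcases List.mem_cons.1 ha with rfl | ha
        · exact h0
        · exact hl a ha)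
    obtain ⟨z, hz⟩ := IsAlgClosed.exists_pow_nat_eq ((eval p (F N))⁻¹) (by omega : 0 < E)
    refine hc (fun j => z * p j) ⟨fun a ha => ?_, ?_⟩ ?_
    · rw [eval_smul_hom (hok a ha).2, hl a ha, mul_zero]
    · rw [eval_smul_hom hFN, hz, inv_mul_cancel₀ hfx]
    · rw [eval_smul_hom (lf_hom c), hpc, mul_zero]

/-- the ideals of points and the minimal primes to be avoided -/
lemma finite_primes (I : ℕ → Ideal (MvPolynomial (Fin N) K)) (n : ℕ) :
    {q : Ideal (MvPolynomial (Fin N) K) | ∃ i, i ≤ n ∧ q ∈ (I i).minimalPrimes ∧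
      ∃ j : Fin N, (X j : MvPolynomial (Fin N) K) ∉ q}.Finite := by
  have h1 : (⋃ i ∈ Set.Iic n, (I i).minimalPrimes).Finite :=
    (Set.finite_Iic n).biUnion fun i _ => Ideal.finite_minimalPrimes_of_isNoetherianRing _ _
  refine h1.subset ?_
  rintro q ⟨i, hi, hq, -⟩
  exact Set.mem_biUnion (Set.mem_Iic.2 hi) hq

lemma X_notMem_ker {x : Fin N → K} (hx : x ≠ 0) : ∃ j : Fin N,
    (X j : MvPolynomial (Fin N) K) ∉ RingHom.ker (eval x : MvPolynomial (Fin N) K →+* K) := by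
  obtain ⟨j, hj⟩ : ∃ j, x j ≠ 0 := by
    by_contra hcon
    push Not at hcon
    exact hx (funext hcon)
  refine ⟨j, ?_⟩
  rw [RingHom.mem_ker, eval_X]
  exact hj

theorem exists_gen [IsAlgClosed K] {φ : MvPolynomial (Fin N) K →ₗ[K] K} {t e D E : ℕ}
    (A : Adm φ t e D E) (h1 : 1 ≤ hd (Ann φ) 1) : ∃ c c', Gen φ t D c c' := by
  classical
  have hinf : Infinite K := IsAlgClosed.instInfinite
  obtain ⟨Z, hZ, hZ0, hZc⟩ := slice A
  have hHI : HI (Ann φ) := HI_Ann A.mem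
  -- the ideals of the points
  set TZ : Set (Ideal (MvPolynomial (Fin N) K)) :=
    (fun x => RingHom.ker (eval x : MvPolynomial (Fin N) K →+* K)) '' Z with hTZ
  have hTZf : TZ.Finite := hZ.image _
  have hTZj : ∀ q ∈ TZ, ∃ j : Fin N, (X j : MvPolynomial (Fin N) K) ∉ q := by
    rintro q ⟨x, hx, rfl⟩
    exact X_notMem_ker (hZ0 x hx)
  have hAj : ∃ j : Fin N, (X j : MvPolynomial (Fin N) K) ∉ Ann φ := by
    by_contra hcon
    push Not at hcon
    have h2 : hd (Ann φ) 1 = 0 := by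
      rw [hd_eq_zero_iff]
      intro x hx
      obtain ⟨c, rfl⟩ := exists_lf_eq hx
      unfold lf
      refine Ideal.sum_mem _ fun j _ => ?_
      rw [smul_eq_C_mul]
      exact Ideal.mul_mem_left _ _ (hcon j)
    omega
  -- first linear form
  set T1 : Set (Ideal (MvPolynomial (Fin N) K)) := TZ ∪ {Ann φ} ∪
    {q | ∃ i, i ≤ t + 1 ∧ q ∈ (low (Ann φ) i).minimalPrimes ∧
      ∃ j : Fin N, (X j : MvPolynomial (Fin N) K) ∉ q} with hT1
  have hT1f : T1.Finite := (hTZf.union (Set.finite_singleton _)).union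
    (finite_primes (fun i => low (Ann φ) i) (t + 1))
  have hT1j : ∀ q ∈ T1, ∃ j : Fin N, (X j : MvPolynomial (Fin N) K) ∉ q := by
    rintro q ((hq | hq) | ⟨i, hi, hq, hj⟩)
    · exact hTZj q hq
    · rw [Set.mem_singleton_iff] at hq
      rw [hq]
      exact hAj
    · exact hj
  obtain ⟨c, -, hc⟩ := exists_generic (W := MvPolynomial (Fin N) K →ₗ[K] K) (XX K N)
    (∅ : Finset ℕ) (fun _ => ⊥) (by simp) (by simp) (T := Uid '' T1) (hT1f.image _) (by
      rintro ⟨q, hq, hqt⟩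
      exact Uid_ne_top (hT1j q hq) hqt)
  have hc' : ∀ q ∈ T1, lf c ∉ q := fun q hq h => hc _ ⟨q, hq, rfl⟩ h
  set J : Ideal (MvPolynomial (Fin N) K) := Ann φ ⊔ Ideal.span {lf c} with hJ
  have hHJ : HI J := HI_sup hHI (HI_span (lf_hom c))
  -- second linear form
  set T2 : Set (Ideal (MvPolynomial (Fin N) K)) := TZ ∪
    {q | ∃ i, i ≤ t + 1 ∧ q ∈ (low (Ann φ) i ⊔ Ideal.span {lf c}).minimalPrimes ∧
      ∃ j : Fin N, (X j : MvPolynomial (Fin N) K) ∉ q} with hT2
  have hT2f : T2.Finite := hTZf.union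
    (finite_primes (fun i => low (Ann φ) i ⊔ Ideal.span {lf c}) (t + 1))
  have hT2j : ∀ q ∈ T2, ∃ j : Fin N, (X j : MvPolynomial (Fin N) K) ∉ q := by
    rintro q (hq | ⟨i, hi, hq, hj⟩)
    · exact hTZj q hq
    · exact hj
  have hE : ∀ i : ℕ, ∃ E' : Submodule K (MvPolynomial (Fin N) K →ₗ[K] K), E' ≤ PI J i ∧
      (∃ a, Good (XX K N) a E') ∧ (hd J i ≤ i → E' = PI J i) ∧
      (hd J i ≤ 2 * i → finrank K (PI J i) ≤ finrank K E' + 1) := by
    intro i
    by_cases h2 : hd J i ≤ i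
    · refine ⟨PI J i, le_rfl, ?_, fun _ => rfl, fun _ => Nat.le_succ _⟩
      exact exists_good_of_finrank_le (sysXX (K := K) (N := N)) i (PI J i) (PI_le J i)
        (by rw [finrank_PI hHJ]; exact h2)
    · by_cases h3 : hd J i ≤ 2 * i
      · obtain ⟨E', h4, h5, h6⟩ := green2 (sysXX (K := K) (N := N)) i (PI J i) (PI_le J i)
          (by rw [finrank_PI hHJ]; exact h3)
        exact ⟨E', h4, h6, fun h => absurd h h2, fun _ => h5⟩
      · refine ⟨⊥, bot_le, ⟨0, ?_⟩, fun h => absurd h h2, fun h => absurd h h3⟩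
        intro w hw _
        exact (Submodule.mem_bot K).1 hw
  choose E' hE1 hE2 hE3 hE4 using hE
  have hfin : ∀ i, FiniteDimensional K (E' i) := fun i =>
    Submodule.finiteDimensional_of_le (hE1 i)
  obtain ⟨a, ha, ha'⟩ := exists_generic (W := MvPolynomial (Fin N) K →ₗ[K] K) (XX K N)
    (Finset.range (t + 1)) E' (fun i _ => hfin i) (fun i _ => hE2 i) (T := Uid '' T2)
    (hT2f.image _) (by
      rintro ⟨q, hq, hqt⟩
      exact Uid_ne_top (hT2j q hq) hqt)
  have ha2 : ∀ q ∈ T2, lf a ∉ q := fun q hq h => ha' _ ⟨q, hq, rfl⟩ h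
  have hbig : ∀ i, t < i → hd (J ⊔ Ideal.span {lf a}) i = 0 := by
    intro i hi
    have h2 := hd_eq_zero_of_lt A.mem hi
    have h3 : Ann φ ≤ J ⊔ Ideal.span {lf a} := le_sup_left.trans le_sup_left
    have h4 := hd_mono h3 i
    omega
  refine ⟨c, a, ?_, ?_, ?_, ?_, ?_, ?_, ?_⟩
  · exact hc' _ (Or.inl (Or.inr rfl))
  · exact hZc c fun x hx => hc' _ (Or.inl (Or.inl ⟨x, hx, rfl⟩))
  · exact hZc a fun x hx => ha2 _ (Or.inl ⟨x, hx, rfl⟩)
  · intro i hi
    by_cases hit : t < i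
    · exact hbig i hit
    · have h2 := ha i (Finset.mem_range.2 (by omega))
      rw [hE3 i hi] at h2
      exact (good_iff hHJ).1 h2
  · intro i hi
    by_cases hit : t < i
    · rw [hbig i hit]
      exact Nat.zero_le 1
    · have h2 := ha i (Finset.mem_range.2 (by omega))
      have h3 := hE4 i hi
      rw [← finrank_PI (HI_sup hHJ (HI_span (lf_hom a))), PI_sup_lf]
      have h4 : E' i ⊓ (PI J i ⊓ LinearMap.ker (L (XX K N) a)) = ⊥ := by
        rw [Submodule.eq_bot_iff]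
        rintro w ⟨hw1, -, hw2⟩
        exact h2 w hw1 hw2
      have hf1 : FiniteDimensional K (E' i) := hfin i
      have hf2 : FiniteDimensional K (PI J i ⊓ LinearMap.ker (L (XX K N) a) : Submodule K _) :=
        Submodule.finiteDimensional_of_le (inf_le_left : _ ≤ PI J i)
      have h5 := Submodule.finrank_sup_add_finrank_inf_eq (E' i)
        (PI J i ⊓ LinearMap.ker (L (XX K N) a))
      rw [h4, finrank_bot, add_zero] at h5
      have h6 := Submodule.finrank_mono (R := K)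
        (sup_le (hE1 i) (inf_le_left : PI J i ⊓ LinearMap.ker (L (XX K N) a) ≤ PI J i))
      omega
  · intro i hi q hq hj
    exact hc' _ (Or.inr ⟨i, hi, hq, hj⟩)
  · intro i hi q hq hj
    exact ha2 _ (Or.inr ⟨i, hi, hq, hj⟩)

end Pool.Agent.CB3
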