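import Pool.Agent.CB3.Defs

/-!
# The numbers `TT` (module TNUM)

All statements are elementary (and checked numerically).  Hints: `TT D E e j = ∑ x ∈ range (e+1)` of
`T0 D E (j - x)` over `x ≤ j`.  A convenient way is to work with the integer valued function
`Z y = max 0 (min (min (y + 1) D) (D + E - 1 - y))` on `ℤ`, to show `(T0 D E j : ℤ) = Z j`, `Z y = 0`
for `y < 0` and for `y > D + E - 2`, `Z (D + E - 2 - y) = Z y`, and
`(TT D E e j : ℤ) = ∑ x ∈ range (e+1), Z (j - x)` by induction on `e` (cases on `j`).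
* `TT_symm`: `Finset.sum_range_reflect`.
* `TT_sum`: `∑_{j ≤ D + E - 2} T0 D E j = D E` (three ranges `j < D`, `D ≤ j < E`, `j ≥ E`), then
  induction on `e` with `TT D E (e+1) (j+1) = T0 D E (j+1) + TT D E e j`.
* `TT_succ`: the difference telescopes to `Z (i+1) - Z (i - e)`, then compare with `gam` by cases
  (`omega` after unfolding the minima), using `e + 1 ≤ D ≤ E`, `2 (i + 1) ≤ t`.
* `TT_small`: for `j ≤ e` only terms `T0 D E x = x + 1`, `x ≤ j < D` occur.
-/

set_option autoImplicit false
set_option linter.all false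

noncomputable section

namespace Pool.Agent.CB3

theorem TT_zero_right {D E : ℕ} (hD : 1 ≤ D) (hE : 1 ≤ E) (e : ℕ) : TT D E e 0 = 1 := by
  have h : T0 D E 0 = 1 := by
    unfold T0
    omega
  cases e with
  | zero => rw [TT]; exact h
  | succ e => rw [TT]; exact h

theorem T0_le_TT (D E e j : ℕ) : T0 D E j ≤ TT D E e j := by
  cases e with
  | zero => rw [TT]
  | succ e =>
    cases j with
    | zero => rw [TT]
    | succ j => rw [TT]; exact Nat.le_add_right _ _

/-- Integer version of `T0`. -/
def TZ (D E : ℕ) (y : ℤ) : ℤ := max 0 (min (min (y + 1) D) (D + E - 1 - y))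

theorem TZ_T0 {D E : ℕ} (hD : 1 ≤ D) (j : ℕ) : (T0 D E j : ℤ) = TZ D E j := by
  unfold T0 TZ
  omega

theorem TZ_neg (D E : ℕ) {y : ℤ} (hy : y < 0) : TZ D E y = 0 := by
  unfold TZ
  omega

theorem TT_cast {D E : ℕ} (hD : 1 ≤ D) (e j : ℕ) :
    (TT D E e j : ℤ) = ∑ x ∈ Finset.range (e + 1), TZ D E ((j : ℤ) - x) := by
  induction e generalizing j with
  | zero =>
    rw [TT, TZ_T0 hD]
    simp
  | succ e ih =>
    cases j with
    | zero =>
      rw [TT, TZ_T0 hD, Finset.sum_range_succ']
      rw [Finset.sum_eq_zero]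
      · simp
      · intro x _
        apply TZ_neg
        push_cast
        omega
    | succ j =>
      rw [TT, Finset.sum_range_succ']
      push_cast
      rw [ih j, TZ_T0 hD]
      push_cast
      rw [add_comm]
      congr 1
      apply Finset.sum_congr rfl
      intro x _
      congr 1
      ring

theorem TT_symm {D E : ℕ} (hD : 1 ≤ D) (hE : 1 ≤ E) {e i j : ℕ} (h : i + j + 2 = e + D + E) :
    TT D E e i = TT D E e j := by
  have key : (TT D E e i : ℤ) = TT D E e j := by
    rw [TT_cast hD, TT_cast hD, ← Finset.sum_range_reflect]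
    apply Finset.sum_congr rfl
    intro x hx
    rw [Finset.mem_range] at hx
    unfold TZ
    omega
  exact_mod_cast key

theorem TT_zero {D E : ℕ} (hD : 1 ≤ D) (hE : 1 ≤ E) {e j : ℕ} (h : e + D + E ≤ j + 1) :
    TT D E e j = 0 := by
  have key : (TT D E e j : ℤ) = 0 := by
    rw [TT_cast hD]
    apply Finset.sum_eq_zero
    intro x hx
    rw [Finset.mem_range] at hx
    unfold TZ
    omega
  exact_mod_cast key

theorem T0_sum {D E n : ℕ} (hDE : D ≤ E) (hn : D + E ≤ n + 1) :
    ∑ j ∈ Finset.range n, T0 D E j = D * E := by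
  induction D with
  | zero =>
    rw [zero_mul]
    apply Finset.sum_eq_zero
    intro x _
    unfold T0
    omega
  | succ D ih =>
    have h1 : ∀ j, T0 (D + 1) E j = T0 D E j + if D ≤ j ∧ j < D + E then 1 else 0 := by
      intro j
      unfold T0
      split_ifs <;> omega
    have h2 : ∑ j ∈ Finset.range n, (if D ≤ j ∧ j < D + E then 1 else 0) = E := by
      rw [Finset.sum_boole]
      have : Finset.filter (fun j => D ≤ j ∧ j < D + E) (Finset.range n) = Finset.Ico D (D + E) := by
        ext j
        simp only [Finset.mem_filter, Finset.mem_range, Finset.mem_Ico]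
        omega
      rw [this, Nat.card_Ico]
      simp
    simp_rw [h1]
    rw [Finset.sum_add_distrib, ih (by omega) (by omega), h2]
    ring

theorem TT_sum {D E : ℕ} (hD : 1 ≤ D) (hDE : D ≤ E) (e : ℕ) {t : ℕ} (ht : t + 2 = e + D + E) :
    ∑ j ∈ Finset.range (t + 1), TT D E e j = (e + 1) * D * E := by
  induction e generalizing t with
  | zero =>
    simp only [TT]
    rw [T0_sum hDE (by omega)]
    ring
  | succ e ih =>
    obtain ⟨s, rfl⟩ : ∃ s, t = s + 1 := ⟨t - 1, by omega⟩
    rw [Finset.sum_range_succ']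
    simp only [TT]
    rw [Finset.sum_add_distrib, ih (t := s) (by omega)]
    have h := T0_sum (n := s + 2) hDE (by omega)
    rw [Finset.sum_range_succ'] at h
    have : ∑ x ∈ Finset.range (s + 1), T0 D E (x + 1) + (e + 1) * D * E + T0 D E 0 =
        (∑ x ∈ Finset.range (s + 1), T0 D E (x + 1) + T0 D E 0) + (e + 1) * D * E := by ring
    rw [this, h]
    ring

theorem TT_succ {e D E t i : ℕ} (hD : e + 1 ≤ D) (hDE : D ≤ E) (ht : t + 2 = e + D + E)
    (hi : 2 * (i + 1) ≤ t) : TT D E e (i + 1) = TT D E e i + gam e D t (i + 1) := by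
  have h1 : ∑ x ∈ Finset.range (e + 1), TZ D E (((i + 1 : ℕ) : ℤ) - x) -
      ∑ x ∈ Finset.range (e + 1), TZ D E ((i : ℤ) - x) =
      TZ D E ((i : ℤ) + 1) - TZ D E ((i : ℤ) - e) := by
    rw [Finset.sum_range_succ', Finset.sum_range_succ (fun x : ℕ => TZ D E ((i : ℤ) - x)) e]
    have : ∑ x ∈ Finset.range e, TZ D E (((i + 1 : ℕ) : ℤ) - ((x + 1 : ℕ) : ℤ)) =
        ∑ x ∈ Finset.range e, TZ D E ((i : ℤ) - x) := by
      apply Finset.sum_congr rfl
      intro x _
      congr 1
      push_cast
      ring
    rw [this]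
    push_cast
    simp only [sub_zero]
    ring
  have h2 : TZ D E ((i : ℤ) + 1) - TZ D E ((i : ℤ) - e) = gam e D t (i + 1) := by
    unfold TZ gam
    omega
  have h3 := TT_cast (D := D) (E := E) (by omega) e (i + 1)
  have h4 := TT_cast (D := D) (E := E) (by omega) e i
  omega

theorem TT_small {e D E j : ℕ} (hD : e + 1 ≤ D) (hDE : D ≤ E) (hj : j ≤ e) :
    2 * TT D E e j = (j + 1) * (j + 2) := by
  induction e generalizing j with
  | zero =>
    have : j = 0 := by omega
    subst this
    rw [TT_zero_right (by omega) (by omega)]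
  | succ e ih =>
    cases j with
    | zero => rw [TT_zero_right (by omega) (by omega)]
    | succ j =>
      rw [TT, mul_add, ih (by omega) (by omega)]
      have : T0 D E (j + 1) = j + 2 := by
        unfold T0
        omega
      rw [this]
      ring

end Pool.Agent.CB3
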