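import Pool.Agent.CB3.LinHF
import Pool.Agent.CB3.TNum
import Pool.Agent.CB.CIK1

/-!
# The case of at most three variables (module SMALL)

PROOF of `small`.  `I₀ := Ann φ`, `hd I₀ 1 ≤ 3`, so the linear forms in `I₀` (a subspace of the
`N`-dimensional space of linear forms, `finrank_S`/`Cn N 1 = N`) have dimension `≥ N - 3`: there is an
invertible linear substitution `f, g : Fin N → MvPolynomial` (`f i = lf (row i)`; extend `N - 3`
linearly independent vectors of `{c | lf c ∈ I₀}` to a basis of `Fin N → K`; inverse matrix for `g`, as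
in `CI_linear`) with `f i ∈ I₀` for `i < N - 3`.  Let `zs : List` be the corresponding list of `N - 3`
forms; `WR` by `WR_linear`, so `Ht` (`WR.ht`).
1. Extend by `ext_all` (file `CIHeight.lean`, pattern of use: `k1_core` in `CIK1.lean`) with the
   system of parameters `A.F` (degrees `dg N D E`, `WR` by `CI_of_NZ`) to a list `l` of forms of `I₀`
   of degrees `1,…,1 (N-3 times), D, D, E` with `Ht`, hence `NZ` (`NZ_of_Ht`), `CI l` (`CI_of_NZ`).
2. `sd l = 2 (D - 1) + (E - 1) = t + γ`, `γ = D - 1 - e ≥ 1`.  `CI.exists_dual`, `exists_repr`: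
   `φ = act g₀ Ψ`, `g₀` homogeneous of degree `γ`, `Ann Ψ = IL l`, `Ann φ = col (IL l) g₀` (`Ann_act`).
3. `g₀ ∉ IL zs` (otherwise `g₀ ∈ IL l = Ann Ψ` and `φ = 0`), and `IL zs` is prime (the automorphism
   `aeval g` maps it to `span (X '' _)`; or argue directly with monomials as in `WR_linear`), so
   `(γ, g₀) :: zs` is `WR`, hence `Ht`; extend by `ext_all` with respect to `l` (as in the last part
   of `k1_core`, `J = IL l ⊔ span {g₀}`) to `l'` of degrees `1,…,1, γ, D, E` with `CI l'`,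
   `IL l' ≤ IL l ⊔ span {g₀}`.
4. Hilbert functions: `hd_col` for `g₀`: `hd (Ann φ) j = hd (IL l) (j + γ) - hd (IL l ⊔ (g₀)) (j + γ)
   ≥ hd (IL l) (j + γ) - hd (IL l') (j + γ)`.
5. For a `WR` list `a :: q` : `hd (IL (a :: q)) m = hd (IL q) m - hd (IL q) (m - a.1)` if `a.1 ≤ m`
   and `= hd (IL q) m` otherwise (`hd_col`, `NZD.col_eq`, `hd_low`).  So it depends only on the
   degrees; use `WR_perm` to write `l ~ (D, _) :: (E, _) :: (D, _) :: zs`,
   `l' ~ (γ, _) :: (E, _) :: (D, _) :: zs`.  `hd (IL zs) m = Cn 3 m` (`hd_linear`, `r = 3`).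
   Let `W m` be the Hilbert function of `(E,_) :: (D,_) :: zs`: `W m = ∑_{i ≤ m} T0 D E i`
   (`Cn 3 m = ∑_{i ≤ m} (i + 1)`, differences).  Then `hd (IL l) m = W m - W (m - D)`,
   `hd (IL l') m = W m - W (m - γ)` and at `m = j + γ`, since `D = γ + e + 1`:
   `hd (Ann φ) j ≥ W j - W (j - (e+1))` (second term `0` if `j < e + 1`) `= TT D E e j`
   (induction on `e`: `TT D E e j + W (j - (e+1)) = W j`).
-/

set_option autoImplicit false
set_option linter.all false

noncomputable section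

namespace Pool.Agent.CB3

open Pool.Agent.CB Module MvPolynomial

variable {K : Type*} [Field K] {N : ℕ}

namespace SmallAux

/-- the ideal generated by independent linear forms is prime -/
lemma lin_prime (f g : Fin N → MvPolynomial (Fin N) K)
    (h1 : ∀ i, aeval g (f i) = X i) (h2 : ∀ i, aeval f (g i) = X i)
    (T : List (Fin N)) {a b : MvPolynomial (Fin N) K}
    (hab : a * b ∈ IL (T.map fun i => ((1 : ℕ), f i)))
    (ha : a ∉ IL (T.map fun i => ((1 : ℕ), f i))) :
    b ∈ IL (T.map fun i => ((1 : ℕ), f i)) := by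
  classical
  set I := IL (T.map fun i => ((1 : ℕ), f i)) with hI
  let θ : MvPolynomial (Fin N) K →ₐ[K] MvPolynomial (Fin N) K :=
    aeval fun i => if i ∈ T then 0 else X i
  let Θ : MvPolynomial (Fin N) K →ₐ[K] MvPolynomial (Fin N) K := θ.comp (aeval g)
  have hfI : ∀ i ∈ T, f i ∈ I := fun i hi =>
    mem_IL (a := ((1 : ℕ), f i)) (List.mem_map.2 ⟨i, hi, rfl⟩)
  have hfg : ∀ u, aeval f (aeval g u) = u := by
    intro u
    have : (aeval f).comp (aeval g) = AlgHom.id K (MvPolynomial (Fin N) K) := by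
      apply algHom_ext
      intro i
      rw [AlgHom.comp_apply, aeval_X, h2]
      rfl
    exact congrArg (fun k : MvPolynomial (Fin N) K →ₐ[K] MvPolynomial (Fin N) K => k u) this
  have hle : I ≤ RingHom.ker Θ := by
    rw [hI]
    refine IL_le fun c hc => ?_
    obtain ⟨i, hi, rfl⟩ := List.mem_map.1 hc
    rw [RingHom.mem_ker]
    change θ (aeval g (f i)) = 0
    rw [h1]
    simp [θ, hi]
  have hge : ∀ u, Θ u = 0 → u ∈ I := by
    intro u hu
    have h3 : (Ideal.Quotient.mkₐ K I).comp (aeval f) =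
        (Ideal.Quotient.mkₐ K I).comp ((aeval f).comp θ) := by
      apply algHom_ext
      intro i
      rw [AlgHom.comp_apply, AlgHom.comp_apply, AlgHom.comp_apply, aeval_X]
      by_cases hi : i ∈ T
      · have h4 : θ (X i) = 0 := by simp [θ, hi]
        rw [h4, map_zero, map_zero]
        exact Ideal.Quotient.eq_zero_iff_mem.2 (hfI i hi)
      · have h4 : θ (X i) = X i := by simp [θ, hi]
        rw [h4, aeval_X]
    have h5 := congrArg (fun k : MvPolynomial (Fin N) K →ₐ[K] _ => k (aeval g u)) h3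
    simp only [AlgHom.comp_apply] at h5
    rw [hfg] at h5
    have h6 : θ (aeval g u) = 0 := hu
    rw [h6, map_zero, map_zero] at h5
    exact Ideal.Quotient.eq_zero_iff_mem.1 h5
  have h7 : Θ (a * b) = 0 := hle hab
  rw [map_mul] at h7
  rcases mul_eq_zero.1 h7 with h8 | h8
  · exact absurd (hge a h8) ha
  · exact hge b h8

/-- summation of the Hilbert function recursion -/
lemma sum_rec {q q' r r' : ℕ → ℕ} {d : ℕ}
    (hq : ∀ m, q m = ∑ i ∈ Finset.range (m + 1), q' i)
    (hr0 : ∀ m, m < d → r m = q m) (hr : ∀ m, q m + r (m + d) = q (m + d))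
    (hr0' : ∀ m, m < d → r' m = q' m) (hr' : ∀ m, q' m + r' (m + d) = q' (m + d)) (m : ℕ) :
    r m = ∑ i ∈ Finset.range (m + 1), r' i := by
  by_cases hm : m < d
  · rw [hr0 m hm, hq m]
    refine Finset.sum_congr rfl fun i hi => (hr0' i ?_).symm
    rw [Finset.mem_range] at hi
    omega
  · obtain ⟨i, rfl⟩ := Nat.exists_eq_add_of_le' (not_lt.1 hm)
    have h1 := hr i
    rw [hq i, hq (i + d)] at h1
    have h2 : ∑ k ∈ Finset.range (i + d + 1), r' k + ∑ k ∈ Finset.range (i + 1), q' k =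
        ∑ k ∈ Finset.range (i + d + 1), q' k := by
      have e1 : i + d + 1 = d + (i + 1) := by omega
      rw [e1, Finset.sum_range_add _ d (i + 1), Finset.sum_range_add _ d (i + 1)]
      have h3 : ∑ k ∈ Finset.range d, r' k = ∑ k ∈ Finset.range d, q' k :=
        Finset.sum_congr rfl fun k hk => hr0' k (Finset.mem_range.1 hk)
      have h4 : ∑ k ∈ Finset.range (i + 1), q' (d + k) = ∑ k ∈ Finset.range (i + 1), q' k +
          ∑ k ∈ Finset.range (i + 1), r' (d + k) := by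
        rw [← Finset.sum_add_distrib]
        refine Finset.sum_congr rfl fun k _ => ?_
        have := hr' k
        rw [add_comm d k]
        exact this.symm
      rw [h3, h4]
      ring
    omega

lemma Cn3_sum (m : ℕ) : Cn 3 m = ∑ i ∈ Finset.range (m + 1), (i + 1) := by
  have h1 := Cn_three m
  have h2 : 2 * ∑ i ∈ Finset.range (m + 1), (i + 1) = (m + 1) * (m + 2) := by
    clear h1
    induction m with
    | zero => simp
    | succ m ih =>
      rw [Finset.sum_range_succ, mul_add, ih]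
      ring
  omega

/-- the summatory function of `T0` -/
def Wf (D E m : ℕ) : ℕ := ∑ i ∈ Finset.range (m + 1), T0 D E i

lemma Wf_succ (D E m : ℕ) : Wf D E (m + 1) = Wf D E m + T0 D E (m + 1) := by
  unfold Wf
  rw [Finset.sum_range_succ]

lemma TT_Wf (D E e : ℕ) : (∀ j, j ≤ e → TT D E e j = Wf D E j) ∧
    ∀ m, TT D E e (m + (e + 1)) + Wf D E m = Wf D E (m + (e + 1)) := by
  induction e with
  | zero =>
    refine ⟨?_, ?_⟩
    · intro j hj
      have : j = 0 := by omega
      subst this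
      simp [TT, Wf]
    · intro m
      rw [zero_add, Wf_succ]
      simp only [TT]
      omega
  | succ e ih =>
    obtain ⟨ih1, ih2⟩ := ih
    refine ⟨?_, ?_⟩
    · intro j hj
      cases j with
      | zero => simp [TT, Wf]
      | succ j =>
        rw [Wf_succ, ← ih1 j (by omega)]
        simp only [TT]
        omega
    · intro m
      have h1 := ih2 m
      have e1 : m + (e + 1 + 1) = (m + (e + 1)) + 1 := by omega
      rw [e1, Wf_succ]
      simp only [TT]
      omega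

lemma hd_WR {a : ℕ × MvPolynomial (Fin N) K} {l : List (ℕ × MvPolynomial (Fin N) K)}
    (hok : ∀ b ∈ a :: l, okf b) (h : WR (a :: l)) :
    (∀ m, m < a.1 → hd (IL (a :: l)) m = hd (IL l) m) ∧
      ∀ m, hd (IL l) m + hd (IL (a :: l)) (m + a.1) = hd (IL l) (m + a.1) := by
  have hok' : ∀ b ∈ l, okf b := fun b hb => hok b (List.mem_cons_of_mem _ hb)
  have ha := hok a List.mem_cons_self
  have hI := HI_IL hok'
  rw [IL_cons]
  refine ⟨fun m hm => hd_low hI ha.2 hm, fun m => ?_⟩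
  have h1 := hd_col hI ha.2 m
  rw [h.2.col_eq] at h1
  exact h1

/-- Hilbert functions of complete intersections over three variables -/
lemma hilb3 {l : List (ℕ × MvPolynomial (Fin N) K)} (hl : ∀ m, hd (IL l) m = Cn 3 m)
    {D E x : ℕ} (hDE : D ≤ E) {p q s : MvPolynomial (Fin N) K}
    (hok : ∀ b ∈ (x, p) :: (E, q) :: (D, s) :: l, okf b)
    (h : WR ((x, p) :: (E, q) :: (D, s) :: l)) :
    (∀ m, m < x → hd (IL ((x, p) :: (E, q) :: (D, s) :: l)) m = Wf D E m) ∧
      ∀ m, Wf D E m + hd (IL ((x, p) :: (E, q) :: (D, s) :: l)) (m + x) = Wf D E (m + x) := by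
  have hok1 : ∀ b ∈ (E, q) :: (D, s) :: l, okf b := fun b hb => hok b (List.mem_cons_of_mem _ hb)
  have hok2 : ∀ b ∈ (D, s) :: l, okf b := fun b hb => hok1 b (List.mem_cons_of_mem _ hb)
  have h1 := hd_WR hok2 h.1.1
  have h2 := hd_WR hok1 h.1
  have h3 := hd_WR hok h
  simp only at h1 h2 h3
  have e1 : ∀ m, hd (IL ((D, s) :: l)) m = ∑ i ∈ Finset.range (m + 1), min (i + 1) D := by
    refine sum_rec (q := hd (IL l)) (q' := fun i => i + 1) (d := D) ?_ h1.1 h1.2 ?_ ?_
    · intro m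
      rw [hl, Cn3_sum]
    · intro m hm
      omega
    · intro m
      omega
  have e2 : ∀ m, hd (IL ((E, q) :: (D, s) :: l)) m = Wf D E m := by
    unfold Wf
    refine sum_rec (q := hd (IL ((D, s) :: l))) (q' := fun i => min (i + 1) D) (d := E) e1
      h2.1 h2.2 ?_ ?_
    · intro m hm
      unfold T0
      omega
    · intro m
      unfold T0
      omega
  simp only [e2] at h3
  exact h3

/-- `lf` as a linear map -/
def lfL : (Fin N → K) →ₗ[K] MvPolynomial (Fin N) K where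
  toFun := lf
  map_add' := by
    intro a b
    unfold lf
    rw [← Finset.sum_add_distrib]
    refine Finset.sum_congr rfl fun i _ => ?_
    rw [Pi.add_apply, add_smul]
  map_smul' := by
    intro c a
    unfold lf
    rw [Finset.smul_sum]
    refine Finset.sum_congr rfl fun i _ => ?_
    rw [Pi.smul_apply, smul_eq_mul, mul_smul]
    rfl

/-- a basis adapted to a subspace -/
lemma exists_adapted (V : Submodule K (Fin N → K)) {r : ℕ} (hr : r ≤ finrank K V) :
    ∃ b : Fin N → (Fin N → K), LinearIndependent K b ∧ ∀ i, i.val < r → b i ∈ V := by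
  classical
  obtain ⟨W, hW⟩ := Submodule.exists_isCompl V
  let bV := Module.finBasis K V
  let bW := Module.finBasis K W
  let B := (bV.prod bW).map (Submodule.prodEquivOfIsCompl V W hW)
  have hN : finrank K V + finrank K W = N := by
    rw [Submodule.finrank_add_eq_of_isCompl hW]
    simp
  let e : Fin (finrank K V) ⊕ Fin (finrank K W) ≃ Fin N := finSumFinEquiv.trans (finCongr hN)
  let B' := B.reindex e
  refine ⟨B', B'.linearIndependent, fun i hi => ?_⟩
  have h1 : i = e (Sum.inl ⟨i.val, lt_of_lt_of_le hi hr⟩) := by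
    apply Fin.ext
    simp [e]
  rw [h1]
  simp only [B', Basis.reindex_apply, Equiv.symm_apply_apply, B, Basis.map_apply]
  rw [Submodule.coe_prodEquivOfIsCompl']
  simp

/-- an invertible linear substitution adapted to the linear forms of an ideal -/
lemma exists_subst {I : Ideal (MvPolynomial (Fin N) K)} {r : ℕ}
    (hr : r ≤ finrank K (Jn I 1)) :
    ∃ f g : Fin N → MvPolynomial (Fin N) K, (∀ i, aeval g (f i) = X i) ∧
      (∀ i, aeval f (g i) = X i) ∧ (∀ i, (f i).IsHomogeneous 1) ∧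
      (∀ i, (g i).IsHomogeneous 1) ∧ ∀ i, i.val < r → f i ∈ I := by
  classical
  let V : Submodule K (Fin N → K) := (Submodule.restrictScalars K I).comap lfL
  have hV : r ≤ finrank K V := by
    refine hr.trans ?_
    have h1 : Jn I 1 ≤ V.map lfL := by
      intro x hx
      obtain ⟨c, rfl⟩ := exists_lf_eq hx.2
      exact ⟨c, hx.1, rfl⟩
    exact (Submodule.finrank_mono h1).trans (Submodule.finrank_map_le _ _)
  obtain ⟨c, hc, hcV⟩ := exists_adapted V hV
  let C' : Matrix (Fin N) (Fin N) K := Matrix.of c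
  have hunit : IsUnit C' := Matrix.linearIndependent_rows_iff_isUnit.1 hc
  obtain ⟨B, hB1, hB2⟩ : ∃ B : Matrix (Fin N) (Fin N) K, C' * B = 1 ∧ B * C' = 1 := by
    obtain ⟨u, hu⟩ := hunit
    refine ⟨((u⁻¹ : (Matrix (Fin N) (Fin N) K)ˣ) : Matrix (Fin N) (Fin N) K), ?_, ?_⟩
    · rw [← hu]; exact u.mul_inv
    · rw [← hu]; exact u.inv_mul
  have hlf : ∀ (h : Fin N → MvPolynomial (Fin N) K) (e : Fin N → K),
      aeval h (lf e) = ∑ j, e j • h j := by
    intro h e
    simp [lf, map_sum]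
  have key : ∀ (P Q : Matrix (Fin N) (Fin N) K), P * Q = 1 → ∀ i,
      ∑ j, P i j • lf (Q j) = X i := by
    intro P Q hPQ i
    unfold lf
    simp only [Finset.smul_sum, smul_smul]
    rw [Finset.sum_comm]
    simp only [← Finset.sum_smul]
    have : ∀ k, ∑ j, P i j * Q j k = (1 : Matrix (Fin N) (Fin N) K) i k := by
      intro k
      rw [← hPQ, Matrix.mul_apply]
    simp only [this, Matrix.one_apply]
    simp
  refine ⟨fun i => lf (c i), fun i => lf (B i), ?_, ?_, fun i => lf_hom _, fun i => lf_hom _,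
    fun i hi => hcV i hi⟩
  · intro i
    rw [hlf]
    exact key C' B hB1 i
  · intro i
    rw [hlf]
    exact key B C' hB2 i

lemma Cn_one (r : ℕ) : Cn r 1 = r := by
  induction r with
  | zero => simp [Cn]
  | succ r ih =>
    simp only [Cn, ih]
    omega

lemma EL_lin {r : ℕ} (hr : r ≤ N) {D' : ℕ → ℕ} {E' : ℕ → MvPolynomial (Fin N) K}
    {f : Fin N → MvPolynomial (Fin N) K} (hD : ∀ i, i ≤ r → D' i = 1)
    (hE : ∀ i : Fin N, E' (i.val + 1) = f i) :
    ∃ T : List (Fin N), T.Nodup ∧ T.length = r ∧ (∀ i ∈ T, i.val < r) ∧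
      EL D' E' r = T.map fun i => ((1 : ℕ), f i) := by
  induction r with
  | zero =>
    exact ⟨[], List.nodup_nil, rfl, by simp, rfl⟩
  | succ r ih =>
    obtain ⟨T, h1, h2, h3, h4⟩ := ih (by omega) (fun i hi => hD i (by omega))
    refine ⟨⟨r, hr⟩ :: T, ?_, ?_, ?_, ?_⟩
    · rw [List.nodup_cons]
      refine ⟨fun h => ?_, h1⟩
      have := h3 _ h
      simp at this
    · rw [List.length_cons, h2]
    · intro i hi
      rcases List.mem_cons.1 hi with rfl | hi
      · simp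
      · have := h3 i hi
        omega
    · rw [List.map_cons, ← h4, EL, hD (r + 1) le_rfl, ← hE ⟨r, hr⟩]

end SmallAux

open SmallAux in
theorem small [IsAlgClosed K] {φ : MvPolynomial (Fin N) K →ₗ[K] K} {t e D E : ℕ}
    (A : Adm φ t e D E) (h1 : hd (Ann φ) 1 ≤ 3) (j : ℕ) : TT D E e j ≤ hd (Ann φ) j := by
  classical
  have hinf : Infinite K := IsAlgClosed.instInfinite
  obtain ⟨hφ, hφ0, hN, hnum, heD, hDE, F, hF, hFφ, hnz⟩ := A
  obtain ⟨n, rfl⟩ := Nat.exists_eq_add_of_le' hN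
  -- the linear forms
  have hr : n ≤ finrank K (Jn (Ann φ) 1) := by
    have h2 := hd_add (Ann φ) 1
    rw [finrank_S, SmallAux.Cn_one] at h2
    omega
  obtain ⟨f, g, hfg, hgf, hf, hg, hfA⟩ := exists_subst hr
  have hd1 : ∀ i, 1 ≤ i → i ≤ n + 3 → 1 ≤ dg (n + 3) D E i := by
    intro i _ _
    unfold dg
    split_ifs <;> omega
  have hmono : ∀ i j, 1 ≤ i → i ≤ j → j ≤ n + 3 → dg (n + 3) D E i ≤ dg (n + 3) D E j := by
    intro i j _ _ _
    unfold dg
    split_ifs <;> omega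
  have hokF := okf_EL hd1 hF
  have hciF : CI (EL (dg (n + 3) D E) F (n + 3)) := CI_of_NZ _ (EL_length _ _ _) hokF hnz
  obtain ⟨D', hD'⟩ : ∃ D' : ℕ → ℕ, D' = fun i => if i ≤ n then 1 else dg (n + 3) D E i :=
    ⟨_, rfl⟩
  obtain ⟨E', hE'⟩ : ∃ E' : ℕ → MvPolynomial (Fin (n + 3)) K,
      E' = fun i => if h : i - 1 < n + 3 then f ⟨i - 1, h⟩ else 0 := ⟨_, rfl⟩
  have hD'0 : ∀ i, i ≤ n → D' i = 1 := by
    intro i hi
    rw [hD']
    simp only
    rw [if_pos hi]
  have hD'1 : ∀ i, n < i → D' i = dg (n + 3) D E i := by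
    intro i hi
    rw [hD']
    simp only
    rw [if_neg (by omega)]
  have hE'f : ∀ i : Fin (n + 3), E' (i.val + 1) = f i := by
    intro i
    rw [hE']
    simp only
    rw [dif_pos (by simp)]
    congr 1
  have hE'0 : ∀ i, 1 ≤ i → i ≤ n → ∃ k : Fin (n + 3), k.val < n ∧ E' i = f k := by
    intro i hi1 hi2
    refine ⟨⟨i - 1, by omega⟩, by simp; omega, ?_⟩
    rw [← hE'f]
    congr 1
    simp
    omega
  obtain ⟨T, hTn, hTl, -, hT⟩ := EL_lin (by omega : n ≤ n + 3) hD'0 hE'f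
  have hWRz : WR (EL D' E' n) := by
    rw [hT]
    exact WR_linear f g hfg hgf T hTn
  obtain ⟨G₁, hG1, hG2, hG3⟩ := ext_all (by omega : n ≤ n + 3) hd1 hmono hF hciF.wr hFφ
    hWRz.ht (fun i hi _ => hD'1 i hi)
  have hzs : EL D' G₁ n = EL D' E' n := EL_congr fun i _ hi => ⟨rfl, hG1 i hi⟩
  have hD'pos : ∀ i, 1 ≤ i → i ≤ n + 3 → 1 ≤ D' i := by
    intro i h1 h2
    rcases Nat.lt_or_ge n i with h | h
    · rw [hD'1 i h]; exact hd1 i h1 h2
    · rw [hD'0 i h]
  have hG1hom : ∀ i, 1 ≤ i → i ≤ n + 3 → (G₁ i).IsHomogeneous (D' i) := by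
    intro i h1 h2
    rcases Nat.lt_or_ge n i with h | h
    · exact (hG2 i h h2).2
    · rw [hG1 i h, hD'0 i h]
      obtain ⟨k, -, hk⟩ := hE'0 i h1 h
      rw [hk]
      exact hf k
  have hG1mem : ∀ i, 1 ≤ i → i ≤ n + 3 → G₁ i ∈ Ann φ := by
    intro i h1 h2
    rcases Nat.lt_or_ge n i with h | h
    · exact (hG2 i h h2).1
    · rw [hG1 i h]
      obtain ⟨k, hkn, hk⟩ := hE'0 i h1 h
      rw [hk]
      exact hfA k hkn
  have hD'mono : ∀ i j, 1 ≤ i → i ≤ j → j ≤ n + 3 → D' i ≤ D' j := by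
    intro i j h1 h2 h3
    rcases Nat.lt_or_ge n i with h | h
    · rw [hD'1 i h, hD'1 j (by omega)]
      exact hmono i j h1 h2 h3
    · rw [hD'0 i h]
      exact hD'pos j (by omega) h3
  have hokG := okf_EL hD'pos hG1hom
  have hciG : CI (EL D' G₁ (n + 3)) := CI_of_NZ _ (EL_length _ _ _) hokG
    (NZ_of_Ht (EL_length _ _ _) hokG hG3)
  obtain ⟨I, hIdef⟩ : ∃ I, I = IL (EL D' G₁ (n + 3)) := ⟨_, rfl⟩
  have hIA : I ≤ Ann φ := by
    rw [hIdef]
    refine IL_le fun b hb => ?_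
    obtain ⟨i, h1, h2, rfl⟩ := mem_EL.1 hb
    exact hG1mem i h1 h2
  have hIG : ∀ i, 1 ≤ i → i ≤ n + 3 → G₁ i ∈ I := by
    intro i h1 h2
    rw [hIdef]
    exact mem_IL (a := (D' i, G₁ i)) (mem_EL.2 ⟨i, h1, h2, rfl⟩)
  have hHI : HI I := by rw [hIdef]; exact HI_IL hokG
  have hDn1 : D' (n + 1) = D := by
    rw [hD'1 _ (by omega)]
    unfold dg
    rw [if_pos (by omega)]
  have hDn2 : D' (n + 2) = D := by
    rw [hD'1 _ (by omega)]
    unfold dg
    rw [if_pos (by omega)]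
  have hDn3 : D' (n + 3) = E := by
    rw [hD'1 _ (by omega)]
    unfold dg
    rw [if_neg (by omega)]
  have hl : EL D' G₁ (n + 3) = (E, G₁ (n + 3)) :: (D, G₁ (n + 2)) :: (D, G₁ (n + 1)) ::
      EL D' E' n := by
    have h2 : EL D' G₁ (n + 3) = (D' (n + 3), G₁ (n + 3)) :: (D' (n + 2), G₁ (n + 2)) ::
      (D' (n + 1), G₁ (n + 1)) :: EL D' G₁ n := rfl
    rw [h2, hzs, hDn1, hDn2, hDn3]
  obtain ⟨γ, hγ⟩ : ∃ γ, γ + e + 1 = D := ⟨D - 1 - e, by omega⟩
  have hγ1 : 1 ≤ γ := by omega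
  have hsd : sd (EL D' G₁ (n + 3)) = t + γ := by
    have hz : sd (EL D' E' n) = 0 := by
      rw [hT, sd, List.map_map]
      apply List.sum_eq_zero
      intro x hx
      obtain ⟨i, -, rfl⟩ := List.mem_map.1 hx
      rfl
    rw [hl]
    unfold sd at hz ⊢
    rw [List.map_cons, List.map_cons, List.map_cons, List.sum_cons, List.sum_cons,
      List.sum_cons, hz]
    simp only
    omega
  obtain ⟨Ψ, hΨ, hAΨ⟩ := CI.exists_dual hokG hciG
  obtain ⟨g₀, hg₀, hgφ⟩ := exists_repr hΨ hφ hsd.symm (by rw [hAΨ, ← hIdef]; exact hIA)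
  have hAcol : Ann φ = col I g₀ := by
    rw [← hgφ, Ann_act, hAΨ, ← hIdef]
  have hg0z : g₀ ∉ IL (EL D' E' n) := by
    intro h2
    have h3 : IL (EL D' E' n) ≤ Ann Ψ := by
      rw [hAΨ]
      refine IL_le fun b hb => ?_
      rw [hl]
      exact mem_IL (List.mem_cons_of_mem _ (List.mem_cons_of_mem _ (List.mem_cons_of_mem _ hb)))
    have h4 := mem_Ann.1 (h3 h2)
    rw [hgφ] at h4
    exact hφ0 h4
  -- second extension
  obtain ⟨D₂, hD₂⟩ : ∃ D₂ : ℕ → ℕ, D₂ = fun i => if i ≤ n then 1 else if i ≤ n + 1 then γ else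
    dg (n + 3) D E i := ⟨_, rfl⟩
  obtain ⟨E₂, hE₂⟩ : ∃ E₂ : ℕ → MvPolynomial (Fin (n + 3)) K,
      E₂ = fun i => if i ≤ n then E' i else g₀ := ⟨_, rfl⟩
  have hD20 : ∀ i, i ≤ n → D₂ i = 1 := by
    intro i hi
    rw [hD₂]
    simp only
    rw [if_pos hi]
  have hD21 : D₂ (n + 1) = γ := by
    rw [hD₂]
    simp only
    rw [if_neg (by omega), if_pos (by omega)]
  have hD22 : ∀ i, n + 1 < i → D₂ i = D' i := by
    intro i hi
    rw [hD₂, hD'1 i (by omega)]
    simp only
    rw [if_neg (by omega), if_neg (by omega)]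
  have hE20 : ∀ i, i ≤ n → E₂ i = E' i := by
    intro i hi
    rw [hE₂]
    simp only
    rw [if_pos hi]
  have hE21 : E₂ (n + 1) = g₀ := by
    rw [hE₂]
    simp only
    rw [if_neg (by omega)]
  have hz2 : EL D₂ E₂ (n + 1) = (γ, g₀) :: EL D' E' n := by
    rw [EL, hD21, hE21]
    congr 1
    exact EL_congr fun i _ hi => ⟨by rw [hD20 i hi, hD'0 i hi], hE20 i hi⟩
  have hWR2 : WR (EL D₂ E₂ (n + 1)) := by
    rw [hz2]
    refine ⟨hWRz, fun u hu => ?_⟩
    rw [hT] at hu hg0z ⊢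
    exact lin_prime f g hfg hgf T hu hg0z
  obtain ⟨G, hGa, hGb, hGc⟩ := ext_all (J := I) (by omega : n + 1 ≤ n + 3) hD'pos hD'mono hG1hom
    hciG.wr hIG hWR2.ht (fun i hi _ => hD22 i hi)
  have hGz : EL D₂ G (n + 1) = (γ, g₀) :: EL D' E' n := by
    rw [← hz2]
    exact EL_congr fun i _ hi => ⟨rfl, hGa i hi⟩
  have hl2 : EL D₂ G (n + 3) = (E, G (n + 3)) :: (D, G (n + 2)) :: (γ, g₀) :: EL D' E' n := by
    have h2 : EL D₂ G (n + 3) = (D₂ (n + 3), G (n + 3)) :: (D₂ (n + 2), G (n + 2)) ::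
      EL D₂ G (n + 1) := rfl
    rw [h2, hGz, hD22 _ (by omega), hD22 _ (by omega), hDn2, hDn3]
  have hD2pos : ∀ i, 1 ≤ i → i ≤ n + 3 → 1 ≤ D₂ i := by
    intro i h1 h2
    rcases Nat.lt_or_ge (n + 1) i with h | h
    · rw [hD22 i h]; exact hD'pos i h1 h2
    · rcases Nat.lt_or_ge n i with h' | h'
      · have : i = n + 1 := by omega
        subst this
        rw [hD21]; exact hγ1
      · rw [hD20 i h']
  have hGhom : ∀ i, 1 ≤ i → i ≤ n + 3 → (G i).IsHomogeneous (D₂ i) := by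
    intro i h1 h2
    rcases Nat.lt_or_ge (n + 1) i with h | h
    · exact (hGb i h h2).2
    · rcases Nat.lt_or_ge n i with h' | h'
      · have : i = n + 1 := by omega
        subst this
        rw [hD21, hGa _ le_rfl, hE21]; exact hg₀
      · rw [hD20 i h', hGa i h, hE20 i h']
        obtain ⟨k, -, hk⟩ := hE'0 i h1 h'
        rw [hk]
        exact hf k
  have hGmem : ∀ i, 1 ≤ i → i ≤ n + 3 → G i ∈ I ⊔ Ideal.span {g₀} := by
    intro i h1 h2
    rcases Nat.lt_or_ge (n + 1) i with h | h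
    · exact Ideal.mem_sup_left (hGb i h h2).1
    · rcases Nat.lt_or_ge n i with h' | h'
      · have : i = n + 1 := by omega
        subst this
        rw [hGa _ le_rfl, hE21]
        exact Ideal.mem_sup_right (Ideal.mem_span_singleton_self g₀)
      · rw [hGa i h, hE20 i h', ← hG1 i h']
        exact Ideal.mem_sup_left (hIG i h1 h2)
  have hokG2 := okf_EL hD2pos hGhom
  have hciG2 : CI (EL D₂ G (n + 3)) := CI_of_NZ _ (EL_length _ _ _) hokG2
    (NZ_of_Ht (EL_length _ _ _) hokG2 hGc)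
  have hle : IL (EL D₂ G (n + 3)) ≤ I ⊔ Ideal.span {g₀} := by
    refine IL_le fun b hb => ?_
    obtain ⟨i, h1, h2, rfl⟩ := mem_EL.1 hb
    exact hGmem i h1 h2
  -- Hilbert functions
  have hCn : ∀ m, hd (IL (EL D' E' n)) m = Cn 3 m := by
    intro m
    rw [hT]
    exact hd_linear f g hfg hgf hf hg 3 T hTn (by omega) m
  have hp1 : (EL D' G₁ (n + 3)).Perm
      ((D, G₁ (n + 2)) :: (E, G₁ (n + 3)) :: (D, G₁ (n + 1)) :: EL D' E' n) := by
    rw [hl]
    exact List.Perm.swap _ _ _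
  have hp2 : (EL D₂ G (n + 3)).Perm
      ((γ, g₀) :: (E, G (n + 3)) :: (D, G (n + 2)) :: EL D' E' n) := by
    rw [hl2]
    exact ((List.Perm.swap _ _ _).cons _).trans (List.Perm.swap _ _ _)
  have hH1 := hilb3 hCn hDE (fun b hb => hokG b (hp1.mem_iff.2 hb)) (WR_perm hp1 hokG hciG.wr)
  have hH2 := hilb3 hCn hDE (fun b hb => hokG2 b (hp2.mem_iff.2 hb)) (WR_perm hp2 hokG2 hciG2.wr)
  rw [← IL_perm hp1, ← hIdef] at hH1
  rw [← IL_perm hp2] at hH2
  have h2 := hd_col hHI hg₀ j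
  rw [← hAcol] at h2
  have h3 := hd_mono hle (j + γ)
  have h4 := hH2.2 j
  obtain ⟨h5, h6⟩ := TT_Wf D E e
  by_cases hj : j ≤ e
  · have h7 := hH1.1 (j + γ) (by omega)
    rw [h5 j hj]
    omega
  · obtain ⟨m, rfl⟩ := Nat.exists_eq_add_of_le' (show e + 1 ≤ j by omega)
    have h7 := hH1.2 m
    have h8 := h6 m
    have e1 : m + (e + 1) + γ = m + D := by omega
    rw [e1] at h2 h3 h4
    omega

end Pool.Agent.CB3
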