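import Pool.Agent.CB3.Ctx
import Pool.Agent.CB3.Small

/-!
# Pointwise lower bounds and the total degree (module CORE)

PROOF of `fail_or`.  If `hd (Ann φ) 1 ≤ 3` use `small`.  Otherwise, if the inequality fails for some `i`, it fails for
some `j` with `2 j ≤ t` (`TT_symm`, `hd_symm`; for `i > t` `TT_zero`), take the least failing `j` (`Nat.find`), `e ≥ 1`
(for `e = 0` the inequality is `gor_bound` with `δ = E`, `e_gor = D - 1`), use `ctx` and `num_main`.

PROOF of `pw`.  Strong induction on `e` with `fail_or` (`σ = 0`): the exceptional alternative has `D = e + 2`.  The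
induction hypothesis for `e' < e` applies since `e' + 3 ≤ D`.

PROOF of `total`.  `pw` gives the hypothesis `IH` of `fail_or`.  If `TT ≤ hd` everywhere, sum (`TT_sum`).  Otherwise by
`fail_or` with `σ = 0` (`j` the least failing index): `D = E = e + 2`, `4 ≤ e`, `t = 3 e + 2` even, `t ≤ 2 j + 2`,
`5 ≤ h 1 ∨ 7 ≤ h 2`; and with `σ = 1` : `TT D E e i ≤ hd (Ann φ) i + 1` for all `i`.  Let `P = t / 2`; failing indices
`i ≤ P` satisfy `i ≥ P - 1`, so (symmetry) all failing indices are in `{P - 1, P, P + 1}` and the total deficit is `≤ 3`.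
`TT 1 = 3`, `TT 2 = 6` (`TT_small`), `4 ≤ h 1` (as `small` does not apply), indices `1, t-1` contribute a surplus of
`2 (h 1 - 3) ≥ 2` and, if `h 1 = 4`, `h 2 ≥ 7`, indices `2, t - 2` contribute `≥ 2` more; `1, 2 < P - 1`.
So the sum is `≥ TT_sum - 3 + 4`.
-/

set_option autoImplicit false
set_option linter.all false

noncomputable section

namespace Pool.Agent.CB3

open Pool.Agent.CB Module MvPolynomial

variable {K : Type*} [Field K] {N : ℕ}

theorem fail_or [IsAlgClosed K] {φ : MvPolynomial (Fin N) K →ₗ[K] K} {t e D E σ : ℕ}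
    (A : Adm φ t e D E) (hσ : σ ≤ 1)
    (IH : ∀ (e' : ℕ), e' < e → ∀ (t' : ℕ) (ψ : MvPolynomial (Fin N) K →ₗ[K] K),
      Adm ψ t' e' D E → ∀ i, TT D E e' i ≤ hd (Ann ψ) i) :
    (∀ i, TT D E e i ≤ hd (Ann φ) i + σ) ∨
    (4 ≤ hd (Ann φ) 1 ∧ σ = 0 ∧ D = e + 2 ∧ E = e + 2 ∧ 4 ≤ e ∧ 2 ∣ t ∧
      (5 ≤ hd (Ann φ) 1 ∨ 7 ≤ hd (Ann φ) 2) ∧
      ∀ i, 2 * i + 2 < t → TT D E e i ≤ hd (Ann φ) i) := by
  classical
  by_cases h1 : hd (Ann φ) 1 ≤ 3
  · left
    intro i
    exact (small A h1 i).trans (Nat.le_add_right _ _)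
  push Not at h1
  by_cases hall : ∀ i, TT D E e i ≤ hd (Ann φ) i + σ
  · exact Or.inl hall
  right
  push Not at hall
  obtain ⟨i, hi⟩ := hall
  have hD := A.hD
  have hDE := A.hDE
  have hnum := A.num
  have hit : i ≤ t := by
    by_contra hcon
    push Not at hcon
    have := TT_zero (D := D) (E := E) (by omega) (by omega) (e := e) (j := i) (by omega)
    omega
  have hex : ∃ j, hd (Ann φ) j + σ < TT D E e j := ⟨i, hi⟩
  set j := Nat.find hex with hj
  have hjf : hd (Ann φ) j + σ < TT D E e j := Nat.find_spec hex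
  have hmin : ∀ i, i < j → TT D E e i ≤ hd (Ann φ) i + σ := by
    intro i hi
    have := Nat.find_min hex hi
    omega
  have hjt : 2 * j ≤ t := by
    have hji : j ≤ i := Nat.find_min' hex hi
    by_cases h2 : 2 * i ≤ t
    · omega
    · have h3 : hd (Ann φ) (t - i) + σ < TT D E e (t - i) := by
        rw [hd_symm A.mem (show (t - i) + i = t by omega),
          TT_symm (D := D) (E := E) (by omega) (by omega) (e := e) (i := t - i) (j := i) (by omega)]
        exact hi
      have h4 : j ≤ t - i := Nat.find_min' hex h3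
      omega
  rcases Nat.eq_zero_or_pos e with he | he
  · exfalso
    subst he
    have h2 := gor_bound A.mem A.ne A.baseFree (e := D - 1) (by omega) j hjt
    rw [finrank_P_eq] at h2
    have h3 : TT D E 0 j = T0 D E j := by simp [TT]
    rw [h3] at hjf
    unfold T0 at hjf
    omega
  · obtain ⟨hb, b, Sf, HN⟩ := ctx A he hσ (by omega) IH hjt hjf hmin
    obtain ⟨h2, h3, h4, h5, h6, h7, h8⟩ := num_main HN
    refine ⟨by omega, h2, h3, h4, h5, h7, h8, fun i hi => ?_⟩
    have := hmin i (by omega)
    omega

theorem pw [IsAlgClosed K] (e : ℕ) : ∀ {t D E : ℕ} {φ : MvPolynomial (Fin N) K →ₗ[K] K},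
    Adm φ t e D E → e + 3 ≤ D → ∀ i, TT D E e i ≤ hd (Ann φ) i := by
  induction e using Nat.strong_induction_on with
  | _ e ih =>
    intro t D E φ A hD i
    rcases fail_or A (Nat.zero_le 1) (fun e' he' t' ψ B => ih e' he' B (by omega)) with h | h
    · exact h i
    · have := h.2.2.1
      omega

theorem total [IsAlgClosed K] {φ : MvPolynomial (Fin N) K →ₗ[K] K} {t e D E : ℕ}
    (A : Adm φ t e D E) : (e + 1) * D * E ≤ ∑ s ∈ Finset.range (t + 1), hd (Ann φ) s := by
  have hD := A.hD
  have hDE := A.hDE
  have hnum := A.num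
  have IH : ∀ (e' : ℕ), e' < e → ∀ (t' : ℕ) (ψ : MvPolynomial (Fin N) K →ₗ[K] K),
      Adm ψ t' e' D E → ∀ i, TT D E e' i ≤ hd (Ann ψ) i :=
    fun e' he' t' ψ B => pw e' B (by omega)
  rw [← TT_sum (D := D) (E := E) (by omega) hDE e hnum]
  rcases fail_or A (Nat.zero_le 1) IH with h | h
  · exact Finset.sum_le_sum fun s _ => h s
  obtain ⟨h4, -, hD2, hE2, he4, ⟨P, hP⟩, h57, hlow⟩ := h
  rcases fail_or A le_rfl IH with h | h
  swap
  · exact absurd h.2.1 one_ne_zero
  set H : ℕ → ℕ := hd (Ann φ) with hH
  have hsym : ∀ i, i ≤ t → TT D E e (t - i) = TT D E e i ∧ H (t - i) = H i := by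
    intro i hi
    refine ⟨TT_symm (by omega) (by omega) (by omega), hd_symm A.mem (by omega)⟩
  have hP7 : 7 ≤ P := by omega
  have hT1 : TT D E e 1 = 3 := by
    have := TT_small (e := e) (D := D) (E := E) (j := 1) (by omega) hDE (by omega)
    omega
  have hT2 : TT D E e 2 = 6 := by
    have := TT_small (e := e) (D := D) (E := E) (j := 2) (by omega) hDE (by omega)
    omega
  -- outside of the middle
  have hout : ∀ i, i ≤ t → i ≠ P - 1 → i ≠ P → i ≠ P + 1 → TT D E e i ≤ H i := by
    intro i hi h5 h6 h7
    by_cases h8 : 2 * i + 2 < t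
    · exact hlow i h8
    · have h9 := hlow (t - i) (by omega)
      rw [(hsym i hi).1] at h9
      have h10 := (hsym i hi).2
      omega
  set x := H 1 - 3 with hx
  set y := H 2 - 6 with hy
  have hxy : 2 ≤ x + y := by omega
  have h22 : 6 ≤ H 2 := by
    have := hlow 2 (by omega)
    omega
  let a : ℕ → ℕ := fun s => (if s = P - 1 then 1 else 0) + (if s = P then 1 else 0) +
    (if s = P + 1 then 1 else 0)
  let b : ℕ → ℕ := fun s => (if s = 1 then x else 0) + (if s = t - 1 then x else 0) +
    (if s = 2 then y else 0) + (if s = t - 2 then y else 0)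
  have hpt : ∀ s ∈ Finset.range (t + 1), TT D E e s + b s ≤ H s + a s := by
    intro s hs
    rw [Finset.mem_range] at hs
    by_cases hm : s = P - 1 ∨ s = P ∨ s = P + 1
    · have hb0 : b s = 0 := by
        simp only [b]
        rw [if_neg (by omega), if_neg (by omega), if_neg (by omega), if_neg (by omega)]
      have ha1 : 1 ≤ a s := by
        simp only [a]
        rcases hm with hm | hm | hm
        · rw [if_pos hm]; omega
        · rw [if_pos hm]; omega
        · rw [if_pos hm]; omega
      have := h s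
      omega
    · have h9 := hout s (by omega) (by omega) (by omega) (by omega)
      by_cases hs1 : s = 1
      · have hb0 : b s = x := by
          simp only [b]
          rw [if_pos hs1, if_neg (by omega), if_neg (by omega), if_neg (by omega)]
          rfl
        rw [hb0, hs1, hT1]
        omega
      by_cases hs2 : s = t - 1
      · have hb0 : b s = x := by
          simp only [b]
          rw [if_neg hs1, if_pos hs2, if_neg (by omega), if_neg (by omega)]
          omega
        have h10 := hsym 1 (by omega)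
        rw [hb0, hs2, h10.1, h10.2, hT1]
        omega
      by_cases hs3 : s = 2
      · have hb0 : b s = y := by
          simp only [b]
          rw [if_neg hs1, if_neg hs2, if_pos hs3, if_neg (by omega)]
          omega
        rw [hb0, hs3, hT2]
        omega
      by_cases hs4 : s = t - 2
      · have hb0 : b s = y := by
          simp only [b]
          rw [if_neg hs1, if_neg hs2, if_neg hs3, if_pos hs4]
          omega
        have h10 := hsym 2 (by omega)
        rw [hb0, hs4, h10.1, h10.2, hT2]
        omega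
      have hb0 : b s = 0 := by
        simp only [b]
        rw [if_neg hs1, if_neg hs2, if_neg hs3, if_neg hs4]
      rw [hb0]
      omega
  have hsum := Finset.sum_le_sum hpt
  have e1 : ∑ s ∈ Finset.range (t + 1), (TT D E e s + b s) =
      ∑ s ∈ Finset.range (t + 1), TT D E e s + ∑ s ∈ Finset.range (t + 1), b s :=
    Finset.sum_add_distrib
  have e2 : ∑ s ∈ Finset.range (t + 1), (H s + a s) =
      ∑ s ∈ Finset.range (t + 1), H s + ∑ s ∈ Finset.range (t + 1), a s :=
    Finset.sum_add_distrib
  have hite : ∀ (k z : ℕ), k ≤ t → ∑ s ∈ Finset.range (t + 1), (if s = k then z else 0) = z := by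
    intro k z hk
    rw [Finset.sum_ite_eq']
    rw [if_pos (Finset.mem_range.2 (by omega))]
  have hsa : ∑ s ∈ Finset.range (t + 1), a s = 3 := by
    simp only [a, Finset.sum_add_distrib]
    rw [hite _ _ (by omega), hite _ _ (by omega), hite _ _ (by omega)]
  have hsb : ∑ s ∈ Finset.range (t + 1), b s = x + x + y + y := by
    simp only [b, Finset.sum_add_distrib]
    rw [hite _ _ (by omega), hite _ _ (by omega), hite _ _ (by omega), hite _ _ (by omega)]
  omega

end Pool.Agent.CB3
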