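import Pool.Agent.CB3.NumA

/-!
# The numerical theorem (module NUMB)

`NumData` collects what the algebra gives about a minimal failing index `j`; `num_main` derives that
we are in one exceptional situation.

PROOF of `num_main`.  `p := t / 2`, `P := (t + 1) / 2` (`P + p = t`), `γ i := gam e D t i`.
Note `t ≥ 3 e + 2`, so `p ≥ e + 1`; `1 ≤ j` (`TT_zero_right`, `h0`), `j ≤ p`.
A. `hb j + 1 + σ ≤ T0 D E j ≤ j + 1`, so `hb j ≤ j`, `b j = 0` (`G1`); by `B0`, `b x = 0` for `x ≥ j`,
   by `B1` `hb` is nonincreasing on `[j, ∞)`, and by `F2` strictly decreasing on `[max j (D-1), ∞)`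
   as long as it is nonzero.
B. `TT_succ` at `j - 1`, `fail` and `mn (j-1)` give `h j < h (j-1) + γ j`; `idt j` gives
   `hb j < hb (t+1-j) + γ j`.  If `hb (t+1-j) ≥ 1`: if `j ≤ D - 1` then (strict decrease from `D-1` to
   `t+1-j`) `hb j ≥ hb (D-1) ≥ hb (t+1-j) + (t + 1 - j - (D-1)) = hb (t+1-j) + (e + E - j)`
   contradicting `γ j ≤ e + 1`, `j < E`; if `j ≥ D` then `hb j ≥ hb (t+1-j) + (t + 1 - 2 j)`
   contradicting `γ j ≤ t + 1 - 2 j`.  So `hb (t+1-j) = 0`, `hb j < γ j`, `j < e + D`.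
C. `hb x = 0` for `x ≥ e + D - 1`: if `j ≤ D-1` then `hb (D-1) ≤ hb j ≤ γ j - 1 ≤ e` and strict decrease;
   if `j ≥ D`, `hb j ≤ e + D - j - 1` and strict decrease.  Hence (`idt`) `h i = h (i-1) + hb i` for
   `1 ≤ i ≤ E` (then `t + 1 - i ≥ e + D - 1`) and for `1 ≤ i ≤ j` (then `t + 1 - i ≥ t + 1 - j`).
D. (SD) If `1 ≤ i`, `b i = 0`, `1 ≤ hb i` and (`i ≤ e` or `hb i ≤ e`) then `hb (i+1) < hb i`:
   `hb (i+1) ≤ hb i` by `B0`, `B1`; if `D ≤ i + 1` use `F2`; otherwise `i + 1 < D ≤ E`, and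
   `hb (i+1) = hb i` is excluded by `NP` (the recursions of C hold at `i` and `i + 1`, and
   `E + i ≤ t + 1`, `D + i ≤ t + 1`, `min (hb i) i ≤ e`).
E. If `t = 2 p` then `1 ≤ hb p`.  If `t = 2 p + 1` then `2 ≤ hb p` provided `hb (p+1) < hb p` holds
   whenever `1 ≤ hb p`.  Proof.  First: if `E ≥ p + 1` then `hb (E - 1) ≥ 1`, because `hb (E-1) = 0` gives `hb E = 0` and, by C and `idt (e+D-1)`
   (`t + 1 - (e + D - 1) = E`), `h (e+D-1) = h (e+D-2)`, i.e. `h (E-1) = h E` by `hsym`,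
   contradicting `F4 (E-1)`.  Now `t = 2p`: if `E ≥ p + 1` then `hb p ≥ hb (E-1) ≥ 1`; if `E ≤ p` and
   `hb p = 0` then `hb (p+1) = 0`, `idt p` gives `h p = h (p-1) = h (p+1)`, contradicting `F4 p`.
   `t = 2p+1`: if `hb (p+1) = 0` and `E ≤ p+1` then `F4'`; if `hb (p+1) = 0` and `E ≥ p + 2` then
   `hb (E-1) ≥ 1` contradicts monotonicity (`E - 1 ≥ p + 1`); if `hb (p+1) ≥ 1` then `hb p ≥ 1` and the
   strictness assumption gives `hb p ≥ 2`.
F. (LB) If `1 ≤ i₀ ≤ p` and `hb (i+1) < hb i` for all `i ≥ i₀` with `hb i ≥ 1`, then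
   `P + 1 - i ≤ hb i` for `i₀ ≤ i ≤ p` (downward induction from E).
G. Case I: there is no `a` with `2 ≤ a ≤ e`, `¬ Surf a`, `hb a ≤ 2 a`.  Then `(i+1)^2 ≤ h i` for
   `1 ≤ i ≤ e` (induction: `S1` if `Surf i`, otherwise `hb i ≥ 2 i + 1` and C).  If `j ≤ e` this
   contradicts `fail` (`TT_small`).  If `j > e`: for `e < i ≤ j`, `min (γ i) (P + 1 - i) ≤ hb i`
   (if `hb i < γ i` then `hb i ≤ e < i`, `b i = 0` by `G1`, SD holds from `i` on, LB).  Summing from
   `e` to `j` with `TT_succ` and C: `h j ≥ h e + (TT j - TT e) - ∑ (γ i - (P+1-i))`, and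
   `h e - TT e ≥ e (e+1)/2 ≥ e^2/4 ≥ ∑` by `L1`.
H. Case II: take the least such `a`.  As before `(i+1)^2 ≤ h i` for `1 ≤ i < a`; in particular `j ≥ a`
   and `a^2 ≤ h (a-1)`.  `¬ Surf i` for `i ≥ a` (`S3`); `b a ≤ 1` (`G2`), so `b (a+1) = 0` (`S2`),
   `b i = 0` for `i ≥ a+1`; `hb (a+1) ≤ hb a` (`B1`).
   (β) `hb (e+1) ≥ e + 1`.  By SD, `hb i ≥ 2 (e + 1) - i` for `a + 1 ≤ i ≤ e + 1`, `hb a ≥ 2 e + 1 - a`;
   with `hb a ≤ 2 a`: `2 e + 1 ≤ 3 a`.  So `hb i ≥ i + 1` for `a ≤ i ≤ e`; if `j ≤ e` this contradicts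
   `fail`.  If `j > e`: `h e - TT e ≥ a(a-1)/2 + 2(e-a) + (e-a)^2 ≥ e^2/4` and conclude as in G.
   (α) `hb (e+1) ≤ e`.  SD holds for all `i ≥ a + 1` (`hb i ≤ hb (e+1) ≤ e` for `i ≥ e+1`), so by LB
   (`a + 1 ≤ p`) `hb i ≥ P + 1 - i` for `a + 1 ≤ i ≤ p`, `hb a ≥ hb (a+1) ≥ P - a`, so `P ≤ 3 a`; and if
   `P - a ≤ a` then `hb a ≥ P + 1 - a` (if `hb a ≤ a` then `b a = 0` and SD holds at `a`).
   Apply `L2` with `V = h j` (`h j = h (a-1) + hb a + ∑_{a<i≤j} hb i`); hypothesis `hj` of `L2` holds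
   because `P + 1 - j ≤ hb j < γ j`.  Since `h j + σ < TT j` we get `σ = 0` and the special case.
   Finally, in the special case, if `h 1 = 4` and `h 2 ≤ 6`, then `hb 2 ≤ 2`, `b 2 = 0`, `hb 3 ≤ 2`,
   `h 3 ≤ 8 < 10 = TT 3`, contradicting `mn 3` (`3 < j` because `t = 3 e + 2 ≥ 14`, `t ≤ 2 j + 2`).
-/

set_option autoImplicit false
set_option linter.all false

noncomputable section

namespace Pool.Agent.CB3

structure NumData (e D E t σ j : ℕ) (h hb b : ℕ → ℕ) (Surf : ℕ → Prop) : Prop where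
  num : t + 2 = e + D + E
  he : 1 ≤ e
  hD : e + 2 ≤ D
  hDE : D ≤ E
  hσ : σ ≤ 1
  h0 : h 0 = 1
  h1 : 4 ≤ h 1
  jt : 2 * j ≤ t
  fail : h j + σ < TT D E e j
  mn : ∀ i, i < j → TT D E e i ≤ h i + σ
  hsym : ∀ i k, i + k = t → h i = h k
  idt : ∀ i, 1 ≤ i → i ≤ t → h i + hb (t + 1 - i) = h (i - 1) + hb i
  hbj : hb j + 1 + σ ≤ T0 D E j
  G1 : ∀ i, hb i ≤ i → b i = 0
  G2 : ∀ i, hb i ≤ 2 * i → b i ≤ 1
  B0 : ∀ i, b i = 0 → b (i + 1) = 0
  B1 : ∀ i, b (i + 1) = 0 → hb (i + 1) ≤ hb i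
  F2 : ∀ i, D ≤ i + 1 → b i = 0 → hb i ≠ 0 → hb (i + 1) < hb i
  F4 : ∀ i, E ≤ i + 1 → i < t → hb i = 0 → h i ≠ h (i + 1)
  F4' : ∀ p, t = 2 * p + 1 → E ≤ p + 1 → hb (p + 1) = 0 → 2 ≤ hb p
  NP : ∀ i, 1 ≤ i → b i = 0 → 1 ≤ hb i → hb (i + 1) = hb i → h i = h (i - 1) + hb i →
    h (i + 1) = h i + hb (i + 1) → E + i ≤ t + 1 → D + i ≤ t + 1 →
    D + E + min (hb i) i ≤ t + 2 → False
  S1 : ∀ i, 1 ≤ i → i ≤ e + 1 → Surf i → (i + 1) ^ 2 ≤ h i
  S2 : ∀ i, 1 ≤ i → ¬ Surf (i + 1) → b i ≤ 1 → b (i + 1) = 0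
  S3 : ∀ i, Surf (i + 1) → Surf i

theorem bz {b : ℕ → ℕ} (B0 : ∀ i, b i = 0 → b (i + 1) = 0) {i : ℕ} (h : b i = 0) :
    ∀ x, i ≤ x → b x = 0 := by
  intro x hx
  induction x, hx using Nat.le_induction with
  | base => exact h
  | succ n hn ih => exact B0 n ih

theorem hbm {b hb : ℕ → ℕ} (B0 : ∀ i, b i = 0 → b (i + 1) = 0)
    (B1 : ∀ i, b (i + 1) = 0 → hb (i + 1) ≤ hb i) {i x y : ℕ} (h : b i = 0) (hx : i ≤ x)
    (hxy : x ≤ y) : hb y ≤ hb x := by
  induction y, hxy using Nat.le_induction with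
  | base => exact le_rfl
  | succ n hn ih => exact (B1 n (bz B0 h _ (by omega))).trans ih

theorem hbs {hb : ℕ → ℕ} {x y : ℕ} (hxy : x ≤ y) (hm : ∀ z, x ≤ z → z < y → hb (z + 1) ≤ hb z)
    (hs : ∀ z, x ≤ z → z < y → hb z ≠ 0 → hb (z + 1) < hb z) (hy : hb y ≠ 0) :
    hb y + (y - x) ≤ hb x := by
  induction y, hxy using Nat.le_induction with
  | base => simp
  | succ n hn ih =>
    have h1 := hm n hn (by omega)
    have h2 := hs n hn (by omega) (by omega)
    have h3 := ih (fun z h3 h4 => hm z h3 (by omega)) (fun z h3 h4 => hs z h3 (by omega)) (by omega)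
    omega

theorem LBl {hb : ℕ → ℕ} {i₀ p P : ℕ} (hp : P + 1 - p ≤ hb p)
    (hm : ∀ z, i₀ ≤ z → hb (z + 1) ≤ hb z)
    (hs : ∀ z, i₀ ≤ z → 1 ≤ hb z → hb (z + 1) < hb z) (hpP : p ≤ P) (k : ℕ) :
    ∀ i, i + k = p → i₀ ≤ i → P + 1 - i ≤ hb i := by
  induction k with
  | zero =>
    intro i hi _
    have : i = p := by omega
    rw [this]
    exact hp
  | succ k ih =>
    intro i hi h0
    have h1 := ih (i + 1) (by omega) (by omega)
    have h2 := hm i h0
    have h3 := hs i h0 (by omega)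
    omega

theorem sum_rec {h g : ℕ → ℕ} {x y : ℕ} (hxy : x ≤ y)
    (hr : ∀ i, x < i → i ≤ y → h i = h (i - 1) + g i) :
    h y = h x + ∑ i ∈ Finset.Ioc x y, g i := by
  induction y, hxy using Nat.le_induction with
  | base => simp
  | succ n hn ih =>
    rw [Finset.sum_Ioc_succ_top hn, hr (n + 1) (by omega) le_rfl, Nat.add_sub_cancel,
      ih (fun i h1 h2 => hr i h1 (by omega)), add_assoc]

theorem ar1 {n x y : ℕ} (h2 : (n + 1) ^ 2 ≤ x) (hs : 2 * (n + 1) < y) :
    (n + 1 + 1) ^ 2 ≤ x + y := by nlinarith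

theorem ar2 {j T x : ℕ} (h1 : 2 * T = (j + 1) * (j + 2)) (h2 : (j + 1) ^ 2 ≤ x) : T ≤ x := by
  nlinarith

theorem ar3 {e T x : ℕ} (h1 : 2 * T = (e + 1) * (e + 2)) (h2 : (e + 1) ^ 2 ≤ x) :
    e ^ 2 + 4 * T ≤ 4 * x := by nlinarith

theorem ar4 {a x y : ℕ} (h1 : a ^ 2 ≤ x) (h2 : a + 1 ≤ y) (h3 : 2 ≤ a) :
    (a + 1) * (a + 2) ≤ 2 * (x + y) := by nlinarith

theorem ar5 {n x y : ℕ} (h1 : (n + 1) * (n + 2) ≤ 2 * x) (h2 : n + 2 ≤ y) :
    (n + 1 + 1) * (n + 1 + 2) ≤ 2 * (x + y) := by nlinarith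

theorem ar6 {a e n x y : ℤ} (h3 : 2 * a ^ 2 + 2 * (2 * e + 1 - a)
      + (n - a) * (4 * (e + 1) - (n + a + 1)) ≤ 2 * x) (h6 : 2 * (e + 1) - (n + 1) ≤ y) :
    2 * a ^ 2 + 2 * (2 * e + 1 - a) + (n + 1 - a) * (4 * (e + 1) - (n + 1 + a + 1))
      ≤ 2 * (x + y) := by
  have e1 : (n + 1 - a) * (4 * (e + 1) - (n + 1 + a + 1))
      = (n - a) * (4 * (e + 1) - (n + a + 1)) + 2 * (2 * (e + 1) - (n + 1)) := by ring
  rw [e1]
  linarith

theorem ar7 {a x : ℕ} (ha2 : 2 ≤ a) :
    (0 : ℤ) ≤ ((a : ℤ) - x) ^ 2 + 2 * (x : ℤ) ^ 2 + 8 * x - 2 * a := by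
  have hx0 : (0 : ℤ) ≤ x := by positivity
  rcases Nat.lt_or_ge a 3 with h6 | h6
  · have h7 : (a : ℤ) = 2 := by omega
    rw [h7]
    nlinarith
  · have h7 : (3 : ℤ) ≤ a := by exact_mod_cast h6
    nlinarith [sq_nonneg (3 * (x : ℤ) - a + 4)]

theorem ar8 {a x T y : ℤ} (h3 : 2 * a ^ 2 + 2 * (2 * (a + x) + 1 - a)
      + ((a + x) - a) * (4 * ((a + x) + 1) - ((a + x) + a + 1)) ≤ 2 * y)
    (h4 : 2 * T = ((a + x) + 1) * ((a + x) + 2))
    (f0 : 0 ≤ (a - x) ^ 2 + 2 * x ^ 2 + 8 * x - 2 * a) :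
    (a + x) ^ 2 + 4 * T ≤ 4 * y := by
  nlinarith

theorem num_main {e D E t σ j : ℕ} {h hb b : ℕ → ℕ} {Surf : ℕ → Prop}
    (H : NumData e D E t σ j h hb b Surf) :
    σ = 0 ∧ D = e + 2 ∧ E = e + 2 ∧ 4 ≤ e ∧ t ≤ 2 * j + 2 ∧ 2 ∣ t ∧ (5 ≤ h 1 ∨ 7 ≤ h 2) := by
  obtain ⟨num, he, hD, hDE, hσ, h0, h1, jt, fail, mn, hsym, idt, hbj, G1, G2, B0, B1, F2, F4, F4',
    NP, S1, S2, S3⟩ := H
  obtain ⟨p, hp⟩ : ∃ p, p = t / 2 := ⟨_, rfl⟩
  obtain ⟨P, hP⟩ : ∃ P, P = (t + 1) / 2 := ⟨_, rfl⟩
  have hPp : P + p = t := by omega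
  have hpe : e + 1 ≤ p := by omega
  have hjp : j ≤ p := by omega
  have hj1 : 1 ≤ j := by
    by_contra hc
    have hj0 : j = 0 := by omega
    subst hj0
    rw [TT_zero_right (by omega) (by omega), h0] at fail
    omega
  -- A
  have hT0 : T0 D E j ≤ j + 1 := by
    unfold T0
    omega
  have bj0 : b j = 0 := G1 j (by omega)
  have mono : ∀ x y, j ≤ x → x ≤ y → hb y ≤ hb x := fun x y hx hxy => hbm B0 B1 bj0 hx hxy
  have bx0 : ∀ x, j ≤ x → b x = 0 := bz B0 bj0
  have gdef : ∀ i, gam e D t i ≤ e + 1 ∧ gam e D t i ≤ i + 1 ∧ gam e D t i ≤ e + D - i ∧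
      gam e D t i ≤ t + 1 - 2 * i := by
    intro i
    unfold gam
    omega
  have hTs : ∀ i, 1 ≤ i → 2 * i ≤ t → TT D E e i = TT D E e (i - 1) + gam e D t i := by
    intro i hi1 hi2
    have h2 := TT_succ (e := e) (D := D) (E := E) (t := t) (i := i - 1) (by omega) hDE num (by omega)
    rwa [Nat.sub_add_cancel hi1] at h2
  -- B
  have hTj := hTs j hj1 jt
  have hmj := mn (j - 1) (by omega)
  have hidj := idt j hj1 (by omega)
  have hlt : hb j < hb (t + 1 - j) + gam e D t j := by omega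
  have hgj := gdef j
  have hz : hb (t + 1 - j) = 0 := by
    by_contra hne
    rcases Nat.lt_or_ge j D with hjD | hjD
    · have h3 := hbs (x := D - 1) (y := t + 1 - j) (hb := hb) (by omega)
        (fun z hz1 _ => mono z (z + 1) (by omega) (by omega))
        (fun z hz1 hz2 hz3 => F2 z (by omega) (bx0 z (by omega)) hz3) hne
      have h4 := mono j (D - 1) le_rfl (by omega)
      omega
    · have h3 := hbs (x := j) (y := t + 1 - j) (hb := hb) (by omega)
        (fun z hz1 _ => mono z (z + 1) (by omega) (by omega))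
        (fun z hz1 hz2 hz3 => F2 z (by omega) (bx0 z (by omega)) hz3) hne
      omega
  have hbjγ : hb j < gam e D t j := by omega
  have hjeD : j < e + D := by omega
  -- C
  have hub : ∀ x0, x0 = max (D - 1) j → ∀ k, hb (x0 + k) ≤ e + D - 1 - (x0 + k) := by
    intro x0 hx0 k
    induction k with
    | zero =>
      rw [Nat.add_zero]
      have h3 := mono j x0 le_rfl (by omega)
      omega
    | succ k ih =>
      have h3 := mono (x0 + k) (x0 + k + 1) (by omega) (by omega)
      by_cases hc : hb (x0 + k) = 0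
      · have h4 : hb (x0 + (k + 1)) = 0 := by
          rw [← add_assoc]; omega
        rw [h4]
        omega
      · have h4 := F2 (x0 + k) (by omega) (bx0 _ (by omega)) hc
        rw [← add_assoc]
        omega
  have hzero : ∀ x, e + D - 1 ≤ x → hb x = 0 := by
    intro x hx
    have h3 := hub _ rfl (x - max (D - 1) j)
    rw [show max (D - 1) j + (x - max (D - 1) j) = x by omega] at h3
    omega
  have hrec1 : ∀ i, 1 ≤ i → i ≤ E → h i = h (i - 1) + hb i := by
    intro i hi1 hi2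
    have h3 := idt i hi1 (by omega)
    rw [hzero (t + 1 - i) (by omega)] at h3
    omega
  have hrec2 : ∀ i, 1 ≤ i → i ≤ j → h i = h (i - 1) + hb i := by
    intro i hi1 hi2
    have h3 := idt i hi1 (by omega)
    have h4 := mono (t + 1 - j) (t + 1 - i) (by omega) (by omega)
    omega
  -- D
  have SD : ∀ i, 1 ≤ i → b i = 0 → 1 ≤ hb i → (i ≤ e ∨ hb i ≤ e) → hb (i + 1) < hb i := by
    intro i hi hbi hb1 hor
    have hle := B1 i (B0 i hbi)
    by_cases hDi : D ≤ i + 1
    · exact F2 i hDi hbi (by omega)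
    · by_contra hcon
      have heq : hb (i + 1) = hb i := by omega
      refine NP i hi hbi hb1 heq (hrec1 i hi (by omega)) ?_ (by omega) (by omega) (by omega)
      have h3 := hrec1 (i + 1) (by omega) (by omega)
      rwa [Nat.add_sub_cancel] at h3
  -- E
  have hE1 : p + 1 ≤ E → 1 ≤ hb (E - 1) := by
    intro hE
    by_contra hc
    have e0 : hb (E - 1) = 0 := by omega
    have e1 := mono (E - 1) E (by omega) (by omega)
    have e2 := hrec1 E (by omega) le_rfl
    have e3 := F4 (E - 1) (by omega) (by omega) e0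
    rw [Nat.sub_add_cancel (by omega)] at e3
    omega
  have hE2 : (1 ≤ hb p → hb (p + 1) < hb p) → P + 1 - p ≤ hb p := by
    intro hs
    rcases Nat.even_or_odd' t with ⟨q, hq | hq⟩
    · have h3 : 1 ≤ hb p := by
        by_cases hE : p + 1 ≤ E
        · have h4 := hE1 hE
          have h5 := mono p (E - 1) (by omega) (by omega)
          omega
        · by_contra hc
          have z0 : hb p = 0 := by omega
          have z1 := mono p (p + 1) (by omega) (by omega)
          have i1 := idt p (by omega) (by omega)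
          rw [show t + 1 - p = p + 1 by omega] at i1
          have i2 := hsym (p - 1) (p + 1) (by omega)
          have i3 := F4 p (by omega) (by omega) z0
          omega
      omega
    · by_cases hc : hb (p + 1) = 0
      · by_cases hE : E ≤ p + 1
        · have h3 := F4' p (by omega) hE hc
          omega
        · have h3 := hE1 (by omega)
          have h4 := mono (p + 1) (E - 1) (by omega) (by omega)
          omega
      · have h3 := mono p (p + 1) (by omega) (by omega)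
        have h4 := hs (by omega)
        omega
  -- F
  have LB : ∀ i₀, 1 ≤ i₀ → b i₀ = 0 → i₀ ≤ p → (∀ i, i₀ ≤ i → 1 ≤ hb i → hb (i + 1) < hb i) →
      ∀ i, i₀ ≤ i → i ≤ p → P + 1 - i ≤ hb i := by
    intro i₀ h01 hb0 h0p hs i hi hip
    exact LBl (hE2 (hs p h0p)) (fun z hz => B1 z (bz B0 hb0 _ (by omega))) hs (by omega) (p - i) i
      (by omega) hi
  -- squares
  have hsq : ∀ a, a ≤ e + 1 → (∀ i, 2 ≤ i → i < a → Surf i ∨ 2 * i < hb i) →
      ∀ i, 1 ≤ i → i < a → (i + 1) ^ 2 ≤ h i := by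
    intro a hae hS i hi
    induction i, hi using Nat.le_induction with
    | base =>
      intro _
      norm_num
      exact h1
    | succ n hn ih =>
      intro hna
      rcases hS (n + 1) (by omega) hna with hs | hs
      · exact S1 (n + 1) (by omega) (by omega) hs
      · have h2 := ih (by omega)
        have h3 := hrec1 (n + 1) (by omega) (by omega)
        rw [Nat.add_sub_cancel] at h3
        rw [h3]
        exact ar1 h2 hs
  -- the end of G and H
  have hfin : e < j → e ^ 2 + 4 * TT D E e e ≤ 4 * h e → False := by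
    intro hej h4
    have hlow : ∀ i ∈ Finset.Ioc e j,
        gam e D t i ≤ hb i + (gam e D t i - ((t + 1) / 2 + 1 - i)) := by
      intro i hi
      rw [Finset.mem_Ioc] at hi
      by_cases hc : gam e D t i ≤ hb i
      · omega
      · have hg := gdef i
        have b0 := G1 i (by omega)
        have h5 := LB i (by omega) b0 (by omega) (fun x hx hx1 => SD x (by omega) (bz B0 b0 x hx) hx1
          (Or.inr (by
            have h6 := hbm B0 B1 b0 le_rfl hx
            omega))) i le_rfl (by omega)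
        omega
    have s1 := sum_rec (x := e) (y := j) (h := h) (g := hb) hej.le
      (fun i h1 h2 => hrec2 i (by omega) h2)
    have s2 := sum_rec (x := e) (y := j) (h := TT D E e) (g := gam e D t) hej.le
      (fun i h1 h2 => hTs i (by omega) (by omega))
    have s3 := Finset.sum_le_sum hlow
    rw [Finset.sum_add_distrib] at s3
    have s4 := L1 hD hDE num j (by omega)
    omega
  have hsmall : j ≤ e → (j + 1) ^ 2 ≤ h j → False := by
    intro hje h3
    have h4 := TT_small (e := e) (D := D) (E := E) (j := j) (by omega) hDE hje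
    have h5 := ar2 h4 h3
    omega
  have hTe := TT_small (e := e) (D := D) (E := E) (j := e) (by omega) hDE le_rfl
  by_cases hcase : ∃ a, 2 ≤ a ∧ a ≤ e ∧ ¬ Surf a ∧ hb a ≤ 2 * a
  swap
  · exfalso
    push Not at hcase
    have hS : ∀ i, 1 ≤ i → i < e + 1 → (i + 1) ^ 2 ≤ h i := hsq (e + 1) le_rfl (by
      intro i h2 h3
      by_cases hs : Surf i
      · exact Or.inl hs
      · exact Or.inr (hcase i h2 (by omega) hs))
    by_cases hje : j ≤ e
    · exact hsmall hje (hS j hj1 (by omega))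
    · refine hfin (by omega) ?_
      exact ar3 hTe (hS e he (by omega))
  · classical
    obtain ⟨a, ⟨ha2, hae, hSa, hba⟩, hmin⟩ : ∃ a, (2 ≤ a ∧ a ≤ e ∧ ¬ Surf a ∧ hb a ≤ 2 * a) ∧
        ∀ i < a, ¬ (2 ≤ i ∧ i ≤ e ∧ ¬ Surf i ∧ hb i ≤ 2 * i) :=
      ⟨Nat.find hcase, Nat.find_spec hcase, fun i hi => Nat.find_min hcase hi⟩
    have hS : ∀ i, 1 ≤ i → i < a → (i + 1) ^ 2 ≤ h i := hsq a (by omega) (by
      intro i h2 h3
      by_cases hs : Surf i
      · exact Or.inl hs
      · refine Or.inr ?_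
        by_contra hc
        exact hmin i h3 ⟨h2, by omega, hs, by omega⟩)
    have haj : a ≤ j := by
      by_contra hc
      exact hsmall (by omega) (hS j hj1 (by omega))
    have ha1 : a ^ 2 ≤ h (a - 1) := by
      have h3 := hS (a - 1) (by omega) (by omega)
      rwa [Nat.sub_add_cancel (by omega)] at h3
    have hSi : ∀ i, a ≤ i → ¬ Surf i := by
      intro i hi
      induction i, hi using Nat.le_induction with
      | base => exact hSa
      | succ n hn ih => exact fun hs => ih (S3 n hs)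
    have hb1 : b (a + 1) = 0 := S2 a (by omega) (hSi (a + 1) (by omega)) (G2 a hba)
    have hm1 : hb (a + 1) ≤ hb a := B1 a hb1
    have bz1 := bz B0 hb1
    have mono1 : ∀ x y, a + 1 ≤ x → x ≤ y → hb y ≤ hb x :=
      fun x y hx hxy => hbm B0 B1 hb1 hx hxy
    have hra := hrec1 a (by omega) (by omega)
    by_cases hβ : e + 1 ≤ hb (e + 1)
    · exfalso
      have low1 : ∀ i, a + 1 ≤ i → i ≤ e + 1 → 2 * (e + 1) - i ≤ hb i := by
        intro i hi1 hi2
        have h3 := hbs (hb := hb) (x := i) (y := e + 1) hi2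
          (fun z h1 h2 => mono1 z (z + 1) (by omega) (by omega))
          (fun z h1 h2 h3 => SD z (by omega) (bz1 z (by omega)) (by omega) (Or.inl (by omega)))
          (by omega)
        omega
      have low2 : 2 * e + 1 - a ≤ hb a := by
        have h3 := low1 (a + 1) le_rfl (by omega)
        omega
      have ha3 : 2 * e + 1 ≤ 3 * a := by omega
      by_cases hje : j ≤ e
      · have key : ∀ y, a ≤ y → y ≤ e → (y + 1) * (y + 2) ≤ 2 * h y := by
          intro y hy
          induction y, hy using Nat.le_induction with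
          | base =>
            intro _
            rw [hra]
            exact ar4 ha1 (by omega) ha2
          | succ n hn ih =>
            intro hne
            have h3 := ih (by omega)
            have h4 := hrec1 (n + 1) (by omega) (by omega)
            rw [Nat.add_sub_cancel] at h4
            have h5 := low1 (n + 1) (by omega) (by omega)
            have h6 : n + 2 ≤ hb (n + 1) := by omega
            rw [h4]
            exact ar5 h3 h6
        have h3 := key j haj hje
        have h4 := TT_small (e := e) (D := D) (E := E) (j := j) (by omega) hDE hje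
        omega
      · refine hfin (by omega) ?_
        have key : ∀ y, a ≤ y → y ≤ e → 2 * (a : ℤ) ^ 2 + 2 * (2 * e + 1 - a)
            + ((y : ℤ) - a) * (4 * (e + 1) - (y + a + 1)) ≤ 2 * h y := by
          intro y hy
          induction y, hy using Nat.le_induction with
          | base =>
            intro _
            have h3 : (2 * (e : ℤ) + 1 - a) ≤ hb a := by omega
            have h4 : (a : ℤ) ^ 2 ≤ h (a - 1) := by exact_mod_cast ha1
            have h5 : (h a : ℤ) = h (a - 1) + hb a := by exact_mod_cast hra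
            rw [h5]
            linarith
          | succ n hn ih =>
            intro hne
            have h3 := ih (by omega)
            have h4 := hrec1 (n + 1) (by omega) (by omega)
            rw [Nat.add_sub_cancel] at h4
            have h5 := low1 (n + 1) (by omega) (by omega)
            have h6 : 2 * ((e : ℤ) + 1) - (n + 1) ≤ hb (n + 1) := by omega
            have h7 : (h (n + 1) : ℤ) = h n + hb (n + 1) := by exact_mod_cast h4
            rw [h7]
            push_cast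
            exact ar6 h3 h6
        have h3 := key e hae le_rfl
        have h4 : (2 : ℤ) * TT D E e e = (e + 1) * (e + 2) := by exact_mod_cast hTe
        have h5 : (e : ℤ) ^ 2 + 4 * TT D E e e ≤ 4 * h e := by
          obtain ⟨x, hx⟩ : ∃ x : ℕ, e = a + x := ⟨e - a, by omega⟩
          have hx' : (e : ℤ) = a + x := by exact_mod_cast hx
          rw [hx'] at h3 h4 ⊢
          exact ar8 h3 h4 (ar7 ha2)
        exact_mod_cast h5
    · have SD1 : ∀ i, a + 1 ≤ i → 1 ≤ hb i → hb (i + 1) < hb i := by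
        intro i hi h1i
        refine SD i (by omega) (bz1 i hi) h1i ?_
        by_cases hie : i ≤ e
        · exact Or.inl hie
        · exact Or.inr (by
            have h3 := mono1 (e + 1) i (by omega) (by omega)
            omega)
      have LB1 := LB (a + 1) (by omega) hb1 (by omega) SD1
      have c0 := LB1 (a + 1) le_rfl (by omega)
      have c3 : P - a ≤ a → P + 1 - a ≤ hb a := by
        intro hPa
        by_cases hc : hb a ≤ a
        · have b0 := G1 a hc
          have h3 := SD a (by omega) b0 (by omega) (Or.inl hae)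
          omega
        · omega
      have s1 := sum_rec (x := a) (y := j) (h := h) (g := hb) haj
        (fun i h1 h2 => hrec2 i (by omega) h2)
      have s2 : ∑ i ∈ Finset.Ioc a j, ((t + 1) / 2 + 1 - i) ≤ ∑ i ∈ Finset.Ioc a j, hb i :=
        Finset.sum_le_sum (fun i hi => by
          rw [Finset.mem_Ioc] at hi
          rw [← hP]
          exact LB1 i (by omega) (by omega))
      obtain ⟨r1, r2⟩ := L2 (a := a) (j := j) (V := h j) hD hDE num ha2 hae (by omega) haj jt (by
          intro haj1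
          have h3 := LB1 j haj1 hjp
          omega) (by omega) (by
          intro h3
          have h4 := c3 (by omega)
          omega)
      rcases r2 with r2 | ⟨q1, q2, q3, q4, q5⟩
      · omega
      · refine ⟨by omega, q1, q2, q3, q4, q5, ?_⟩
        by_contra hc
        push Not at hc
        have w2 := hrec1 2 (by omega) (by omega)
        have w3 := hrec1 3 (by omega) (by omega)
        norm_num at w2 w3
        have b2 := G1 2 (by omega)
        have w4 := B1 2 (B0 2 b2)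
        have w5 := mn 3 (by omega)
        have w6 := TT_small (e := e) (D := D) (E := E) (j := 3) (by omega) hDE (by omega)
        norm_num at w4 w6
        omega

end Pool.Agent.CB3
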