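import Pool.Agent.CB3.Perp

/-!
# Operators commuting up to rank one, and the middle degree (module RANKONE)

PROOF of `rank_one`.  Strong induction on `finrank K V` (all `T`, all `ℓ`).  If every `T j` is a scalar,
take any `v ≠ 0`.  Otherwise let `T k` be non-scalar with eigenvalue `μ`, `A = T k - μ`, so
`ker A ≠ ⊥, ⊤`, and `A (T j v) - T j (A v) ∈ ℓ` for all `j, v`.
If `ker A` is stable under all `T j`, restrict to it (commutators lie in `ℓ.comap subtype`, of
dimension `≤ 1`) and use the induction hypothesis.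
Otherwise there are `v ∈ ker A`, `j` with `A (T j v) ≠ 0`; as `A (T j v) = A (T j v) - T j (A v) ∈ ℓ`
and `finrank ℓ ≤ 1`, `ℓ = span {A (T j v)} ≤ range A`.  Then `range A` is stable under all `T i`:
`T i (A u) = A (T i u) - (A (T i u) - T i (A u)) ∈ range A + ℓ ≤ range A`.  `range A ≠ ⊥` (A is not
zero) and `finrank (range A) < finrank V` (`ker A ≠ ⊥`).  Restrict to `range A`.

PROOF of `base_mid`.  `I := Ann φ`.  Suppose `hd (I ⊔ (lf c)) p ≤ 1`.  `A := PI I (p+1) = P φ p`,
`B := PI I p = P φ (p+1)` (`PI_Ann`), `finrank A = finrank B` by `finrank_P_symm` (`hd_symm`).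
`f = L (XX K N) c` maps `A` to `B` injectively (`good_iff` with `h0`), hence bijectively.  The kernel of
`f` on `B` is `PI (I ⊔ (lf c)) p`, of dimension `≤ 1`.  On `B` define `T j = X j ∘ (f|A)⁻¹`
(as in `flat`, file `Abs.lean`).  For `b ∈ B`: `f (T j (T k b)) = X j (T k b)= X j X k (f|A)⁻¹ b`
[`f (T j b') = X j b'` because `f` commutes with `X j`], symmetric in `j, k`, so
`T j (T k b) - T k (T j b) ∈ ker f ⊓ B`.  `B ≠ ⊥`: `hd I p ≠ 0` because `hd I t ≠ 0` (`φ ≠ 0`,
`φ ∈ PI`: `act 1 φ ∈ P φ 0`) and `hd_zero_le`.  `rank_one` gives `b ≠ 0` with `T j b = p' j • b`;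
`ψ := (f|A)⁻¹ b ∈ A` satisfies `X j ψ = p' j • f ψ`, `ψ ≠ 0`, so `base_of_eigen` gives a point `p' ≠ 0`
at which all forms of degree `≤ p + 1` of `I` vanish (`act_eq_zero_of_PI`), contradicting
`BaseFree φ E`, `E ≤ p + 1`.
-/

set_option autoImplicit false
set_option linter.all false

noncomputable section

namespace Pool.Agent.CB3

open Pool.Agent.CB Module MvPolynomial

universe u1 u2 u3

/-- passage to a stable proper subspace -/
lemma rank_one_sub {K : Type u1} {V : Type u2} [Field K] [AddCommGroup V] [Module K V]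
    [FiniteDimensional K V] {ι : Type u3} (T : ι → Module.End K V)
    (ℓ : Submodule K V) (hℓ : finrank K ℓ ≤ 1)
    (hT : ∀ i j v, T i (T j v) - T j (T i v) ∈ ℓ) (W : Submodule K V) (hW : W ≠ ⊥)
    (hst : ∀ j, ∀ w ∈ W, T j w ∈ W)
    (ih : ∀ (T' : ι → Module.End K W) (ℓ' : Submodule K W), Nontrivial W → finrank K ℓ' ≤ 1 →
      (∀ i j v, T' i (T' j v) - T' j (T' i v) ∈ ℓ') →
      ∃ v : W, v ≠ 0 ∧ ∃ χ : ι → K, ∀ j, T' j v = χ j • v) :
    ∃ v : V, v ≠ 0 ∧ ∃ χ : ι → K, ∀ j, T j v = χ j • v := by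
  have hle : finrank K (ℓ.comap W.subtype) ≤ 1 := by
    have h1 : (ℓ.comap W.subtype).map W.subtype ≤ ℓ := Submodule.map_comap_le _ _
    have h2 := Submodule.finrank_mono h1
    have h3 : finrank K ((ℓ.comap W.subtype).map W.subtype) = finrank K (ℓ.comap W.subtype) :=
      (LinearEquiv.finrank_eq (Submodule.equivMapOfInjective _ W.injective_subtype _)).symm
    omega
  obtain ⟨v, hv, χ, hχ⟩ := ih (fun j => (T j).restrict (hst j)) (ℓ.comap W.subtype)
    (Submodule.nontrivial_iff_ne_bot.2 hW) hle (fun i j v => by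
      rw [Submodule.mem_comap]
      exact hT i j v)
  refine ⟨v, fun h => hv (Subtype.ext h), χ, fun j => ?_⟩
  exact congrArg Subtype.val (hχ j)

lemma rank_one_aux {K : Type u1} [Field K] [IsAlgClosed K] {ι : Type u3} (n : ℕ) :
    ∀ (V : Type u2) [AddCommGroup V] [Module K V] [FiniteDimensional K V] [Nontrivial V]
      (T : ι → Module.End K V) (ℓ : Submodule K V), finrank K V = n → finrank K ℓ ≤ 1 →
      (∀ i j v, T i (T j v) - T j (T i v) ∈ ℓ) →
      ∃ v : V, v ≠ 0 ∧ ∃ χ : ι → K, ∀ j, T j v = χ j • v := by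
  induction n using Nat.strong_induction_on with
  | _ n ih =>
    intro V _ _ _ _ T ℓ hn hℓ hT
    by_cases hs : ∀ j, ∃ μ : K, ∀ v, T j v = μ • v
    · choose μ hμ using hs
      obtain ⟨v, hv⟩ := exists_ne (0 : V)
      exact ⟨v, hv, μ, fun j => hμ j v⟩
    push Not at hs
    obtain ⟨k, hk⟩ := hs
    obtain ⟨μ, hμ⟩ := Module.End.exists_eigenvalue (T k)
    obtain ⟨u0, hu0⟩ := hμ.exists_hasEigenvector
    obtain ⟨u1, hu1⟩ := hk μ
    let A : Module.End K V := T k - μ • LinearMap.id
    have hA : ∀ v, A v = T k v - μ • v := fun v => rfl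
    have hcomm : ∀ j v, A (T j v) - T j (A v) ∈ ℓ := by
      intro j v
      have : A (T j v) - T j (A v) = T k (T j v) - T j (T k v) := by
        rw [hA, hA, map_sub, map_smul]
        abel
      rw [this]
      exact hT k j v
    have hker0 : LinearMap.ker A ≠ ⊥ := by
      intro hb
      have h1 : u0 ∈ LinearMap.ker A := by
        rw [LinearMap.mem_ker, hA, hu0.apply_eq_smul, sub_self]
      rw [hb] at h1
      exact hu0.2 ((Submodule.mem_bot K).1 h1)
    have hA1 : A u1 ≠ 0 := by
      rw [hA]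
      exact sub_ne_zero.2 hu1
    have hsum := LinearMap.finrank_range_add_finrank_ker A
    by_cases hst : ∀ j, ∀ w ∈ LinearMap.ker A, T j w ∈ LinearMap.ker A
    · refine rank_one_sub T ℓ hℓ hT (LinearMap.ker A) hker0 hst ?_
      intro T' ℓ' hnt hℓ' hT'
      have hlt : finrank K (LinearMap.ker A) < n := by
        have h1 : LinearMap.range A ≠ ⊥ := by
          intro hb
          have h2 : A u1 ∈ LinearMap.range A := ⟨u1, rfl⟩
          rw [hb] at h2
          exact hA1 ((Submodule.mem_bot K).1 h2)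
        have h3 := Submodule.one_le_finrank_iff.2 h1
        omega
      exact ih _ hlt (LinearMap.ker A) T' ℓ' rfl hℓ' hT'
    · push Not at hst
      obtain ⟨j, v, hv, hjv⟩ := hst
      have hv0 : A v = 0 := hv
      have hne : A (T j v) ≠ 0 := hjv
      have hmem : A (T j v) ∈ ℓ := by
        have := hcomm j v
        rwa [hv0, map_zero, sub_zero] at this
      have hℓle : ℓ ≤ LinearMap.range A := by
        have h1 : Submodule.span K {A (T j v)} ≤ ℓ := by
          rw [Submodule.span_singleton_le_iff_mem]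
          exact hmem
        have h2 : Submodule.span K {A (T j v)} = ℓ := by
          apply Submodule.eq_of_le_of_finrank_le h1
          rw [finrank_span_singleton hne]
          exact hℓ
        rw [← h2, Submodule.span_singleton_le_iff_mem]
        exact ⟨_, rfl⟩
      refine rank_one_sub T ℓ hℓ hT (LinearMap.range A) ?_ ?_ ?_
      · intro hb
        have h2 : A u1 ∈ LinearMap.range A := ⟨u1, rfl⟩
        rw [hb] at h2
        exact hA1 ((Submodule.mem_bot K).1 h2)
      · rintro i _ ⟨w, rfl⟩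
        have h1 : T i (A w) = A (T i w) - (A (T i w) - T i (A w)) := by abel
        rw [h1]
        exact Submodule.sub_mem _ ⟨_, rfl⟩ (hℓle (hcomm i w))
      · intro T' ℓ' hnt hℓ' hT'
        have hlt : finrank K (LinearMap.range A) < n := by
          have h3 := Submodule.one_le_finrank_iff.2 hker0
          omega
        exact ih _ hlt (LinearMap.range A) T' ℓ' rfl hℓ' hT'

theorem rank_one {K V : Type*} [Field K] [IsAlgClosed K] [AddCommGroup V] [Module K V]
    [FiniteDimensional K V] [Nontrivial V] {ι : Type*} (T : ι → Module.End K V)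
    (ℓ : Submodule K V) (hℓ : finrank K ℓ ≤ 1)
    (hT : ∀ i j v, T i (T j v) - T j (T i v) ∈ ℓ) :
    ∃ v : V, v ≠ 0 ∧ ∃ χ : ι → K, ∀ j, T j v = χ j • v :=
  rank_one_aux _ V T ℓ rfl hℓ hT

/-- Almost flat: common eigenvector when the linear form is bijective from `A` to `B` and has a
kernel of dimension at most one on `B`. -/
lemma flat1 {K W : Type*} [Field K] [IsAlgClosed K] [AddCommGroup W] [Module K W] {n : ℕ}
    {X : Fin n → Module.End K W} {D : ℕ → Submodule K W} (S : Sys X D) {c : Fin n → K}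
    {A B : Submodule K W} [FiniteDimensional K A] [FiniteDimensional K B]
    (hAB : ∀ j, ∀ w ∈ A, X j w ∈ B) (hgA : Good X c A)
    (hdim : finrank K A = finrank K B) (hne : B ≠ ⊥)
    (hk : finrank K (B ⊓ LinearMap.ker (L X c) : Submodule K W) ≤ 1) :
    ∃ p : Fin n → K, ∃ ψ ∈ A, ψ ≠ 0 ∧ (∀ j, X j ψ = p j • L X c ψ) := by
  let f : A →ₗ[K] B := (L X c).restrict (fun w hw => L_mem hAB hw)
  have hf : Function.Injective f := by
    rw [← LinearMap.ker_eq_bot, Submodule.eq_bot_iff]
    intro w hw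
    rw [LinearMap.mem_ker] at hw
    have : L X c w.1 = 0 := by
      have := congrArg Subtype.val hw
      simpa [f] using this
    exact Subtype.ext (hgA w.1 w.2 this)
  let e : A ≃ₗ[K] B := LinearEquiv.ofInjectiveOfFinrankEq f hf hdim
  have he : ∀ a : A, ((e a : B) : W) = L X c a := by
    intro a
    have : e a = f a := rfl
    rw [this]; rfl
  have hes : ∀ b : B, L X c ((e.symm b : A) : W) = b := by
    intro b
    rw [← he, e.apply_symm_apply]
  let T : Fin n → Module.End K B := fun j =>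
    ((X j).restrict (fun w hw => hAB j w hw) : A →ₗ[K] B) ∘ₗ e.symm.toLinearMap
  have hTv : ∀ j (b : B), ((T j b : B) : W) = X j ((e.symm b : A) : W) := fun j b => rfl
  have hLT : ∀ j (b : B), L X c ((T j b : B) : W) = X j (b : W) := by
    intro j b
    rw [hTv, L_comm S.comm, hes]
  let ℓ : Submodule K B := (LinearMap.ker (L X c)).comap B.subtype
  have hℓ : finrank K ℓ ≤ 1 := by
    have h1 : ℓ.map B.subtype = B ⊓ LinearMap.ker (L X c) := by
      rw [Submodule.map_comap_subtype]
    have h3 : finrank K (ℓ.map B.subtype) = finrank K ℓ :=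
      (LinearEquiv.finrank_eq (Submodule.equivMapOfInjective _ B.injective_subtype _)).symm
    rw [← h3, h1]
    exact hk
  have hT : ∀ i j v, T i (T j v) - T j (T i v) ∈ ℓ := by
    intro i j v
    rw [Submodule.mem_comap, LinearMap.mem_ker, map_sub, map_sub]
    change L X c ((T i (T j v) : B) : W) - L X c ((T j (T i v) : B) : W) = 0
    rw [hLT, hLT, hTv, hTv, sub_eq_zero]
    exact LinearMap.congr_fun (S.comm i j).eq _
  have : Nontrivial B := Submodule.nontrivial_iff_ne_bot.2 hne
  obtain ⟨b, hb, p, hp⟩ := rank_one T ℓ hℓ hT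
  refine ⟨p, (e.symm b : A), (e.symm b).2, ?_, ?_⟩
  · intro h0
    have : e.symm b = 0 := Subtype.ext h0
    exact hb ((LinearEquiv.map_eq_zero_iff e.symm).1 this)
  · intro j
    have := congrArg Subtype.val (hp j)
    rw [hTv] at this
    rw [this, hes]
    simp

variable {K : Type*} [Field K] {N : ℕ}

theorem base_mid [IsAlgClosed K] {φ : MvPolynomial (Fin N) K →ₗ[K] K} {t p E : ℕ}
    (hφ : φ ∈ DD K N t) (hφ0 : φ ≠ 0) (ht : t = 2 * p + 1) (hE : E ≤ p + 1)
    (hb : BaseFree φ E) {c : Fin N → K} (h0 : hd (Ann φ ⊔ Ideal.span {lf c}) (p + 1) = 0) :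
    2 ≤ hd (Ann φ ⊔ Ideal.span {lf c}) p := by
  by_contra hcon
  push Not at hcon
  have hI : HI (Ann φ) := HI_Ann hφ
  have hdim : finrank K (PI (Ann φ) (p + 1)) = finrank K (PI (Ann φ) p) := by
    rw [finrank_PI hI, finrank_PI hI]
    exact hd_symm hφ (by omega)
  have hdt : hd (Ann φ) t ≠ 0 := by
    rw [hd_symm hφ (show t + 0 = t by omega), ← finrank_P_eq]
    have : 1 ≤ finrank K (P φ 0) := by
      rw [Submodule.one_le_finrank_iff]
      intro hb
      have : act 1 φ ∈ P φ 0 := ⟨1, isHomogeneous_one _ _, rfl⟩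
      rw [hb] at this
      apply hφ0
      have h1 : act 1 φ = 0 := by simpa using this
      apply LinearMap.ext
      intro f
      have := LinearMap.congr_fun h1 f
      simpa using this
    omega
  have hne : PI (Ann φ) p ≠ ⊥ := by
    intro hb
    apply hdt
    refine hd_zero_le (i := p) ?_ (by omega)
    rw [← finrank_PI hI, hb]
    simp
  have hk : finrank K (PI (Ann φ) p ⊓ LinearMap.ker (L (XX K N) c) :
      Submodule K (MvPolynomial (Fin N) K →ₗ[K] K)) ≤ 1 := by
    rw [← PI_sup_lf, finrank_PI (HI_sup hI (HI_span (lf_hom c)))]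
    omega
  obtain ⟨q, ψ, hψ, hψ0, hX⟩ := flat1 (sysXX (K := K) (N := N)) (c := c)
    (A := PI (Ann φ) (p + 1)) (B := PI (Ann φ) p) (fun j w hw => XX_PI j w hw)
    ((good_iff hI).2 h0) hdim hne hk
  obtain ⟨hq0, hq1⟩ := base_of_eigen hψ.1 hψ0 hX
  obtain ⟨g, k, hg, hk, hgφ, hev⟩ := hb q hq0
  exact hev (hq1 g k hg (by omega) (act_eq_zero_of_PI hψ hgφ))

end Pool.Agent.CB3
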