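import Pool.Agent.CB3.Perp

/-!
# A prime of dimension three (module SURFB)

PROOF of `surf_prime`.  Let `p ≠ 0` be the point of `Surf`, `𝔭` the kernel of
`θ = aeval (fun i => C (p i) * T) : MvPolynomial (Fin N) K → Polynomial K` (prime, see `NZ_of_Ht` in
`CIHeight.lean`; a form `f` with `f(p) = 0` is in `𝔭` by `aeval_smul_const`).  Choose `j` with
`p j ≠ 0`: `X j ∉ 𝔭`.  `low I i ⊔ (lf c) ≤ 𝔭` and `lf c' ∈ 𝔭`.  Take a minimal prime `𝔔₁ ≤ 𝔭` of
`low I i ⊔ (lf c)` (`Ideal.exists_minimalPrimes_le`) and a minimal prime `𝔔 ≤ 𝔔₁` of `low I i`.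
`X j ∉ 𝔔₁, 𝔔`, so `lf c ∉ 𝔔` (`hc`), `lf c' ∉ 𝔔₁` (`hc'`).
Independence: let `F ≠ 0` with `aeval ![lf c, lf c', X j] F ∈ 𝔔`.  Write `F = X 0 ^ k * F'` with
`X 0 ∤ F'`; as `lf c ∉ 𝔔`, `F'(…) ∈ 𝔔 ≤ 𝔔₁`; since `lf c ∈ 𝔔₁`, `G(lf c', X j) ∈ 𝔔₁` where
`G = F'(0, ·, ·) ≠ 0`.  Similarly remove powers of the first variable of `G` (`lf c' ∉ 𝔔₁`) and set it
to zero (`lf c' ∈ 𝔭`, `𝔔₁ ≤ 𝔭`): a nonzero polynomial `H` in one variable with `H(X j) ∈ 𝔭`, i.e.
`H (p j T) = 0` in `Polynomial K`, contradiction.  (Convenient: `finSuccEquiv` twice, or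
`Polynomial (Polynomial (Polynomial K))`; `X ∤ F'` is `coeff 0 ≠ 0`, e.g. use
`Polynomial.exists_eq_pow_rootMultiplicity_mul_and_not_dvd` or `natTrailingDegree`/`divX`, or the
minimal exponent of the variable.)
-/

set_option autoImplicit false
set_option linter.all false

noncomputable section

namespace Pool.Agent.CB3

open Pool.Agent.CB Module MvPolynomial

variable {K : Type*} [Field K] {N : ℕ}

/-- One step: a polynomial over `S` evaluated at `u ∈ 𝔔₁ ∖ 𝔔`. -/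
private lemma SurfB_step {S A : Type*} [CommRing S] [CommRing A] (φ : S →+* A) (u : A)
    {𝔔 𝔔₁ : Ideal A} (hprime : 𝔔.IsPrime) (hle : 𝔔 ≤ 𝔔₁) (hu : u ∉ 𝔔) (hu₁ : u ∈ 𝔔₁)
    (hφ : ∀ s : S, φ s ∈ 𝔔₁ → s = 0) (G : Polynomial S) (hG : Polynomial.eval₂ φ u G ∈ 𝔔) :
    G = 0 := by
  have key : ∀ n : ℕ, ∀ G : Polynomial S, G.natDegree < n → Polynomial.eval₂ φ u G ∈ 𝔔 → G = 0 := by
    intro n
    induction n with
    | zero => intro G h; omega
    | succ n ih =>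
      intro G hdeg hG
      have e := Polynomial.divX_mul_X_add G
      have h1 : Polynomial.eval₂ φ u G =
          Polynomial.eval₂ φ u G.divX * u + φ (G.coeff 0) := by
        conv_lhs => rw [← e]
        rw [Polynomial.eval₂_add, Polynomial.eval₂_mul_X, Polynomial.eval₂_C]
      have h2 : φ (G.coeff 0) ∈ 𝔔₁ := by
        have h3 : φ (G.coeff 0) = Polynomial.eval₂ φ u G - Polynomial.eval₂ φ u G.divX * u := by
          rw [h1]; ring
        rw [h3]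
        exact 𝔔₁.sub_mem (hle hG) (𝔔₁.mul_mem_left _ hu₁)
      have h4 := hφ _ h2
      rw [h4, map_zero, add_zero] at h1
      rw [h1] at hG
      have h5 : Polynomial.eval₂ φ u G.divX ∈ 𝔔 := (hprime.mem_or_mem hG).resolve_right hu
      have h6 : G.divX = 0 := by
        by_cases hd : G.natDegree = 0
        · have h7 : G = Polynomial.C (G.coeff 0) := Polynomial.eq_C_of_natDegree_eq_zero hd
          rw [h7, Polynomial.divX_C]
        · refine ih _ ?_ h5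
          rw [Polynomial.natDegree_divX_eq_natDegree_tsub_one]
          omega
      rw [← e, h6, h4, zero_mul, map_zero, add_zero]
  exact key (G.natDegree + 1) G (Nat.lt_succ_self _) hG

/-- The same in the language of several variables. -/
private lemma SurfB_cons {A : Type*} [CommRing A] [Algebra K A] {n : ℕ} (f : Fin n → A) (u : A)
    {𝔔 𝔔₁ : Ideal A} (hprime : 𝔔.IsPrime) (hle : 𝔔 ≤ 𝔔₁) (hu : u ∉ 𝔔) (hu₁ : u ∈ 𝔔₁)
    (hf : ∀ F : MvPolynomial (Fin n) K, aeval f F ∈ 𝔔₁ → F = 0)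
    (F : MvPolynomial (Fin (n + 1)) K)
    (hF : aeval (Fin.cons u f : Fin (n + 1) → A) F ∈ 𝔔) : F = 0 := by
  set φ : MvPolynomial (Fin n) K →+* A :=
    ((aeval f : MvPolynomial (Fin n) K →ₐ[K] A) : MvPolynomial (Fin n) K →+* A) with hφ
  have e : (Polynomial.eval₂RingHom φ u).comp
      ((finSuccEquiv K n : MvPolynomial (Fin (n + 1)) K ≃ₐ[K] _) :
        MvPolynomial (Fin (n + 1)) K →+* Polynomial (MvPolynomial (Fin n) K)) =
      ((aeval (Fin.cons u f : Fin (n + 1) → A) : MvPolynomial (Fin (n + 1)) K →ₐ[K] A) :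
        MvPolynomial (Fin (n + 1)) K →+* A) := by
    apply MvPolynomial.ringHom_ext
    · intro a
      have h1 : (finSuccEquiv K n) (C a) = Polynomial.C (C a) := by
        simp [finSuccEquiv_apply]
      simp [h1, hφ]
    · intro i
      refine Fin.cases ?_ (fun j => ?_) i
      · simp [finSuccEquiv_X_zero]
      · simp [finSuccEquiv_X_succ, hφ]
  have e2 : Polynomial.eval₂ φ u (finSuccEquiv K n F) = aeval (Fin.cons u f : Fin (n + 1) → A) F :=
    congrArg (fun k : MvPolynomial (Fin (n + 1)) K →+* A => k F) e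
  have h := SurfB_step φ u hprime hle hu hu₁ (fun s hs => hf s hs) (finSuccEquiv K n F)
    (by rw [e2]; exact hF)
  exact (map_eq_zero_iff _ (finSuccEquiv K n).injective).1 h

theorem surf_prime [Infinite K] {I : Ideal (MvPolynomial (Fin N) K)} {c c' : Fin N → K} {i : ℕ}
    (hc : ∀ 𝔮 ∈ (low I i).minimalPrimes, (∃ j : Fin N, (X j : MvPolynomial (Fin N) K) ∉ 𝔮) →
      lf c ∉ 𝔮)
    (hc' : ∀ 𝔮 ∈ (low I i ⊔ Ideal.span {lf c}).minimalPrimes,
      (∃ j : Fin N, (X j : MvPolynomial (Fin N) K) ∉ 𝔮) → lf c' ∉ 𝔮)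
    (hS : Surf I c c' i) :
    ∃ (𝔔 : Ideal (MvPolynomial (Fin N) K)) (j : Fin N), 𝔔.IsPrime ∧ low I i ≤ 𝔔 ∧
      ∀ F : MvPolynomial (Fin 3) K, aeval ![lf c, lf c', X j] F ∈ 𝔔 → F = 0 := by
  obtain ⟨p, hp0, hpI, hpc, hpc'⟩ := hS
  obtain ⟨j, hj⟩ : ∃ j, p j ≠ 0 := by
    by_contra hcon
    push Not at hcon
    exact hp0 (funext hcon)
  set θ : MvPolynomial (Fin N) K →ₐ[K] Polynomial K :=
    aeval (fun i => algebraMap K (Polynomial K) (p i) * Polynomial.X) with hθ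
  set 𝔭 : Ideal (MvPolynomial (Fin N) K) := RingHom.ker θ with h𝔭
  have h𝔭p : 𝔭.IsPrime := RingHom.ker_isPrime θ
  have hmem : ∀ (f : MvPolynomial (Fin N) K) (k : ℕ), f.IsHomogeneous k → eval p f = 0 → f ∈ 𝔭 := by
    intro f k hf h0
    have h2 := aeval_smul_const (R := Polynomial K) p Polynomial.X hf
    rw [h𝔭, RingHom.mem_ker, hθ]
    change aeval (fun i => algebraMap K (Polynomial K) (p i) * Polynomial.X) f = 0
    rw [h2, h0, map_zero, zero_mul]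
  have hlow : low I i ≤ 𝔭 := by
    unfold low
    rw [Ideal.span_le]
    rintro f ⟨hfI, k, hk, hf⟩
    exact hmem f k hf (hpI f hfI k hk hf)
  have hlc : lf c ∈ 𝔭 := hmem _ 1 (lf_hom c) hpc
  have hlc' : lf c' ∈ 𝔭 := hmem _ 1 (lf_hom c') hpc'
  have hXj : (X j : MvPolynomial (Fin N) K) ∉ 𝔭 := by
    intro h
    rw [h𝔭, RingHom.mem_ker, hθ, aeval_X] at h
    rcases mul_eq_zero.1 h with h | h
    · exact hj ((map_eq_zero_iff _ (algebraMap K (Polynomial K)).injective).1 h)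
    · exact Polynomial.X_ne_zero h
  have hsup : low I i ⊔ Ideal.span {lf c} ≤ 𝔭 := by
    refine sup_le hlow ?_
    rw [Ideal.span_le, Set.singleton_subset_iff]
    exact hlc
  obtain ⟨𝔔₁, h𝔔₁, h𝔔₁le⟩ := Ideal.exists_minimalPrimes_le hsup
  have h𝔔₁p : 𝔔₁.IsPrime := h𝔔₁.1.1
  have h𝔔₁I : low I i ⊔ Ideal.span {lf c} ≤ 𝔔₁ := h𝔔₁.1.2
  obtain ⟨𝔔, h𝔔, h𝔔le⟩ := Ideal.exists_minimalPrimes_le (le_sup_left.trans h𝔔₁I)
  have h𝔔p : 𝔔.IsPrime := h𝔔.1.1
  have hX1 : (X j : MvPolynomial (Fin N) K) ∉ 𝔔₁ := fun h => hXj (h𝔔₁le h)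
  have hX : (X j : MvPolynomial (Fin N) K) ∉ 𝔔 := fun h => hX1 (h𝔔le h)
  have hl : lf c ∉ 𝔔 := hc 𝔔 h𝔔 ⟨j, hX⟩
  have hl' : lf c' ∉ 𝔔₁ := hc' 𝔔₁ h𝔔₁ ⟨j, hX1⟩
  have hl1 : lf c ∈ 𝔔₁ := h𝔔₁I (Ideal.mem_sup_right (Ideal.mem_span_singleton_self _))
  -- the irrelevant ideal
  set 𝔪 : Ideal (MvPolynomial (Fin N) K) :=
    RingHom.ker (eval (0 : Fin N → K) : MvPolynomial (Fin N) K →+* K) with h𝔪
  have hcompare : 𝔭 ≤ 𝔪 := by
    intro f hf
    change eval (0 : Fin N → K) f = 0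
    have h2 : θ f = 0 := hf
    have h3 : Polynomial.eval 0 (θ f) = eval (0 : Fin N → K) f := by
      have h4 : ((Polynomial.evalRingHom (0 : K)).comp (θ : MvPolynomial (Fin N) K →+* Polynomial K)) =
          (eval (0 : Fin N → K) : MvPolynomial (Fin N) K →+* K) := by
        apply MvPolynomial.ringHom_ext
        · intro c
          simp [θ]
        · intro i
          simp [θ]
      exact congrArg (fun k : MvPolynomial (Fin N) K →+* K => k f) h4
    rw [← h3, h2, Polynomial.eval_zero]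
  have hXm : (X j : MvPolynomial (Fin N) K) ∈ 𝔪 := by
    change eval (0 : Fin N → K) (X j) = 0
    rw [eval_X]
    rfl
  -- level zero
  have base : ∀ F : MvPolynomial (Fin 0) K,
      aeval (fun i : Fin 0 => (i.elim0 : MvPolynomial (Fin N) K)) F ∈ 𝔪 → F = 0 := by
    intro F hF
    obtain ⟨a, rfl⟩ := MvPolynomial.C_surjective (Fin 0) F
    rw [MvPolynomial.aeval_C] at hF
    change eval (0 : Fin N → K) (C a) = 0 at hF
    rw [eval_C] at hF
    rw [hF, map_zero]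
  have l1 := SurfB_cons (fun i : Fin 0 => (i.elim0 : MvPolynomial (Fin N) K)) (X j) h𝔭p hcompare
    hXj hXm base
  have l2 := SurfB_cons _ (lf c') h𝔔₁p h𝔔₁le hl' hlc' l1
  have l3 := SurfB_cons _ (lf c) h𝔔p h𝔔le hl hl1 l2
  refine ⟨𝔔, j, h𝔔p, h𝔔.1.2, ?_⟩
  intro F hF
  refine l3 F ?_
  have e : (![lf c, lf c', X j] : Fin 3 → MvPolynomial (Fin N) K) =
      Fin.cons (lf c) (Fin.cons (lf c') (Fin.cons (X j)
        (fun i : Fin 0 => (i.elim0 : MvPolynomial (Fin N) K)))) := by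
    funext k
    fin_cases k <;> rfl
  rw [← e]
  exact hF

end Pool.Agent.CB3
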