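import Pool.Agent.CB3.Defs

/-!
# Primes of `K[w₀, w₁, w₂, w₃]` meeting `K[w₁, w₂, w₃]` trivially (module SURFA)

PROOF of `hom_of_mul`.  Substitute `X i ↦ C (X i) * T` (a ring hom `θ` from `MvPolynomial σ K` to
`Polynomial (MvPolynomial σ K)`): `θ f = C f * T ^ d` if `f` is homogeneous of degree `d` and in general
`θ f = ∑ m, C (homogeneousComponent m f) * T ^ m`.  From `θ f = θ a * θ b`, `natDegree` and
`natTrailingDegree` are additive (domain) and equal for `θ f`, so equal for `θ a`; hence `a` has only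
one nonzero homogeneous component.

PROOF of `principal`.  Pseudo-division in `A[X]`, `A = MvPolynomial (Fin 3) K`: a prime `q` of `A[X]` in an
ideal which contains no nonzero constant divides every element of the ideal.
-/

set_option autoImplicit false
set_option linter.all false

noncomputable section

namespace Pool.Agent.CB3

open MvPolynomial

/-- the grading homomorphism. -/
def surfAGr (σ K : Type*) [Field K] : MvPolynomial σ K →ₐ[K] Polynomial (MvPolynomial σ K) :=
  aeval (fun i => Polynomial.C (X i) * Polynomial.X)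

theorem surfAGr_monomial {σ K : Type*} [Field K] (s : σ →₀ ℕ) (c : K) :
    surfAGr σ K (monomial s c) = Polynomial.C (monomial s c) * Polynomial.X ^ (s.degree) := by
  classical
  unfold surfAGr
  rw [aeval_monomial, monomial_eq, Finsupp.prod, Finsupp.prod]
  simp only [mul_pow]
  rw [Finset.prod_mul_distrib, Finset.prod_pow_eq_pow_sum, Polynomial.C_mul, map_prod, mul_assoc]
  simp only [Polynomial.C_pow]
  rfl

theorem surfAGr_coeff {σ K : Type*} [Field K] (f : MvPolynomial σ K) (m : ℕ) :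
    (surfAGr σ K f).coeff m = homogeneousComponent m f := by
  classical
  induction f using MvPolynomial.induction_on' with
  | monomial s c =>
    rw [surfAGr_monomial, Polynomial.coeff_C_mul, Polynomial.coeff_X_pow]
    have h : (monomial s c).IsHomogeneous s.degree := isHomogeneous_monomial c rfl
    rw [homogeneousComponent_of_mem h]
    by_cases hm : m = s.degree
    · simp [hm]
    · simp [hm]
  | add p q hp hq =>
    rw [map_add, Polynomial.coeff_add, hp, hq, map_add]

theorem surfAGr_inj {σ K : Type*} [Field K] {f : MvPolynomial σ K} (hf : surfAGr σ K f = 0) :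
    f = 0 := by
  rw [← sum_homogeneousComponent f]
  refine Finset.sum_eq_zero fun i _ => ?_
  rw [← surfAGr_coeff, hf, Polynomial.coeff_zero]

theorem hom_of_mul {σ K : Type*} [Field K] {a b f : MvPolynomial σ K} {d : ℕ}
    (hf : f.IsHomogeneous d) (hf0 : f ≠ 0) (hab : f = a * b) : ∃ m, a.IsHomogeneous m := by
  classical
  have hθ : surfAGr σ K f = surfAGr σ K a * surfAGr σ K b := by rw [hab, map_mul]
  have ha0 : surfAGr σ K a ≠ 0 := fun h => hf0 (by rw [hab, surfAGr_inj h, zero_mul])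
  have hb0 : surfAGr σ K b ≠ 0 := fun h => hf0 (by rw [hab, surfAGr_inj h, mul_zero])
  have hc : ∀ k, k ≠ d → (surfAGr σ K f).coeff k = 0 := by
    intro k hk
    rw [surfAGr_coeff, homogeneousComponent_of_mem hf, if_neg]
    exact hk
  have hfd : (surfAGr σ K f).coeff d ≠ 0 := by
    rw [surfAGr_coeff, homogeneousComponent_of_mem hf, if_pos rfl]
    exact hf0
  have h1 : (surfAGr σ K f).natDegree = d := by
    by_contra h
    have h2 := hc _ h
    rw [Polynomial.coeff_natDegree, Polynomial.leadingCoeff_eq_zero] at h2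
    rw [h2, Polynomial.coeff_zero] at hfd
    exact hfd rfl
  have h2 : (surfAGr σ K f).natTrailingDegree = d := by
    by_contra h
    have h2 := hc _ h
    have h3 : (surfAGr σ K f).trailingCoeff = 0 := h2
    rw [Polynomial.trailingCoeff_eq_zero] at h3
    rw [h3, Polynomial.coeff_zero] at hfd
    exact hfd rfl
  rw [hθ, Polynomial.natDegree_mul ha0 hb0] at h1
  rw [hθ, Polynomial.natTrailingDegree_mul ha0 hb0] at h2
  have h3 := Polynomial.natTrailingDegree_le_natDegree (surfAGr σ K a)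
  have h4 := Polynomial.natTrailingDegree_le_natDegree (surfAGr σ K b)
  have h5 : (surfAGr σ K a).natTrailingDegree = (surfAGr σ K a).natDegree := by omega
  refine ⟨(surfAGr σ K a).natDegree, ?_⟩
  have h6 : a = homogeneousComponent (surfAGr σ K a).natDegree a := by
    conv_lhs => rw [← sum_homogeneousComponent a]
    have h7 : ∀ k, k ≠ (surfAGr σ K a).natDegree → homogeneousComponent k a = 0 := by
      intro k hk
      rw [← surfAGr_coeff]
      rcases Nat.lt_or_gt_of_ne hk with h | h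
      · exact Polynomial.coeff_eq_zero_of_lt_natTrailingDegree (by omega)
      · exact Polynomial.coeff_eq_zero_of_natDegree_lt h
    refine Finset.sum_eq_single _ (fun k _ hk => h7 k hk) ?_
    intro hk
    exact homogeneousComponent_eq_zero _ _ (by simpa using hk)
  have h8 := homogeneousComponent_isHomogeneous (surfAGr σ K a).natDegree a
  rwa [← h6] at h8

open Polynomial in
theorem surfA_pseudo {A : Type*} [CommRing A] [IsDomain A] {𝔮 : Ideal (Polynomial A)}
    {g : Polynomial A} (hg : g ∈ 𝔮) (hg0 : g ≠ 0)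
    (hmin : ∀ v ∈ 𝔮, v ≠ 0 → g.natDegree ≤ v.natDegree) :
    ∀ (n : ℕ) (v : Polynomial A), v ∈ 𝔮 → v.natDegree ≤ n →
      ∃ (k : ℕ) (s : Polynomial A), Polynomial.C g.leadingCoeff ^ k * v = g * s := by
  intro n
  induction n with
  | zero =>
    intro v hv hn
    by_cases hv0 : v = 0
    · exact ⟨0, 0, by simp [hv0]⟩
    · have h1 := hmin v hv hv0
      have h2 : g.natDegree = 0 := by omega
      refine ⟨1, v, ?_⟩
      rw [pow_one, Polynomial.leadingCoeff, h2, ← Polynomial.eq_C_of_natDegree_eq_zero h2]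
  | succ n ih =>
    intro v hv hn
    by_cases hv0 : v = 0
    · exact ⟨0, 0, by simp [hv0]⟩
    have h1 := hmin v hv hv0
    have hc0 : g.leadingCoeff ≠ 0 := Polynomial.leadingCoeff_ne_zero.mpr hg0
    have hl0 : v.leadingCoeff ≠ 0 := Polynomial.leadingCoeff_ne_zero.mpr hv0
    have hCc : (Polynomial.C g.leadingCoeff : Polynomial A) ≠ 0 := by
      rwa [Ne, Polynomial.C_eq_zero]
    have hCl : (Polynomial.C v.leadingCoeff : Polynomial A) ≠ 0 := by
      rwa [Ne, Polynomial.C_eq_zero]
    set w : Polynomial A := Polynomial.C v.leadingCoeff * Polynomial.X ^ (v.natDegree - g.natDegree)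
      with hw
    have hw0 : w ≠ 0 := mul_ne_zero hCl (pow_ne_zero _ Polynomial.X_ne_zero)
    have hp0 : Polynomial.C g.leadingCoeff * v ≠ 0 := mul_ne_zero hCc hv0
    have hwd : w.natDegree = v.natDegree - g.natDegree := by
      rw [hw, Polynomial.natDegree_C_mul_X_pow _ _ hl0]
    have hwl : w.leadingCoeff = v.leadingCoeff := by
      rw [hw, Polynomial.leadingCoeff_mul, Polynomial.leadingCoeff_C, Polynomial.leadingCoeff_X_pow,
        mul_one]
    have hdeg : (Polynomial.C g.leadingCoeff * v).degree = (g * w).degree := by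
      rw [Polynomial.degree_eq_natDegree hp0, Polynomial.degree_eq_natDegree (mul_ne_zero hg0 hw0),
        Polynomial.natDegree_mul hCc hv0, Polynomial.natDegree_mul hg0 hw0, Polynomial.natDegree_C,
        hwd]
      congr 1
      omega
    have hlc : (Polynomial.C g.leadingCoeff * v).leadingCoeff = (g * w).leadingCoeff := by
      rw [Polynomial.leadingCoeff_mul, Polynomial.leadingCoeff_mul, Polynomial.leadingCoeff_C, hwl]
    have hlt := Polynomial.degree_sub_lt hdeg hp0 hlc
    set v' := Polynomial.C g.leadingCoeff * v - g * w with hv'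
    have hv'𝔮 : v' ∈ 𝔮 := 𝔮.sub_mem (𝔮.mul_mem_left _ hv) (𝔮.mul_mem_right _ hg)
    by_cases hv'0 : v' = 0
    · refine ⟨1, w, ?_⟩
      rw [pow_one]
      exact sub_eq_zero.mp hv'0
    have h3 : v'.natDegree ≤ n := by
      rw [Polynomial.degree_eq_natDegree hv'0, Polynomial.degree_eq_natDegree hp0,
        Polynomial.natDegree_mul hCc hv0, Polynomial.natDegree_C, zero_add] at hlt
      have h4 : v'.natDegree < v.natDegree := by exact_mod_cast hlt
      omega
    obtain ⟨k, s, hks⟩ := ih v' hv'𝔮 h3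
    refine ⟨k + 1, s + Polynomial.C g.leadingCoeff ^ k * w, ?_⟩
    rw [mul_add, ← hks, hv']
    ring

theorem surfA_key {A : Type*} [CommRing A] [IsDomain A] {𝔮 : Ideal (Polynomial A)}
    (hA : ∀ a : A, Polynomial.C a ∈ 𝔮 → a = 0) {q : Polynomial A} (hq : Prime q) (hq𝔮 : q ∈ 𝔮) :
    ∀ u ∈ 𝔮, q ∣ u := by
  classical
  have hconst : ∀ v ∈ 𝔮, v.natDegree = 0 → v = 0 := by
    intro v hv h0
    rw [Polynomial.eq_C_of_natDegree_eq_zero h0] at hv ⊢
    rw [hA _ hv, Polynomial.C_0]
  -- a nonzero element of least degree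
  have hex : ∃ n, ∃ g ∈ 𝔮, g ≠ 0 ∧ g.natDegree = n := ⟨_, q, hq𝔮, hq.ne_zero, rfl⟩
  obtain ⟨g, hg, hg0, hgn⟩ := Nat.find_spec hex
  have hmin : ∀ v ∈ 𝔮, v ≠ 0 → g.natDegree ≤ v.natDegree := by
    intro v hv hv0
    rw [hgn]
    exact Nat.find_min' hex ⟨v, hv, hv0, rfl⟩
  have hc0 : g.leadingCoeff ≠ 0 := Polynomial.leadingCoeff_ne_zero.mpr hg0
  have hCc : (Polynomial.C g.leadingCoeff : Polynomial A) ≠ 0 := by
    rwa [Ne, Polynomial.C_eq_zero]
  have hqg : q ∣ g := by
    obtain ⟨k, s, hks⟩ := surfA_pseudo hg hg0 hmin q.natDegree q hq𝔮 le_rfl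
    have h1 : q ∣ g * s := ⟨Polynomial.C g.leadingCoeff ^ k, by rw [← hks]; ring⟩
    rcases hq.dvd_or_dvd h1 with h | ⟨s', hs'⟩
    · exact h
    · exfalso
      rw [hs'] at hks
      have h2 : Polynomial.C g.leadingCoeff ^ k = g * s' :=
        mul_left_cancel₀ hq.ne_zero (by rw [← mul_assoc] at hks; linear_combination hks)
      have hs0 : s' ≠ 0 := by
        rintro rfl
        rw [mul_zero] at h2
        exact pow_ne_zero k hCc h2
      have h3 : (Polynomial.C g.leadingCoeff ^ k : Polynomial A).natDegree = 0 := by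
        rw [← Polynomial.C_pow, Polynomial.natDegree_C]
      rw [h2, Polynomial.natDegree_mul hg0 hs0] at h3
      exact hg0 (hconst g hg (by omega))
  intro u hu
  obtain ⟨k, s, hks⟩ := surfA_pseudo hg hg0 hmin u.natDegree u hu le_rfl
  have h1 : q ∣ Polynomial.C g.leadingCoeff ^ k * u := by
    rw [hks]
    exact hqg.mul_right s
  rcases hq.dvd_or_dvd h1 with h | h
  · exfalso
    obtain ⟨r, hr⟩ := hq.dvd_of_dvd_pow h
    have hr0 : r ≠ 0 := by
      rintro rfl
      rw [mul_zero] at hr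
      exact hCc hr
    have h3 : (Polynomial.C g.leadingCoeff : Polynomial A).natDegree = 0 :=
      Polynomial.natDegree_C _
    rw [hr, Polynomial.natDegree_mul hq.ne_zero hr0] at h3
    exact hq.ne_zero (hconst q hq𝔮 (by omega))
  · exact h

theorem surfA_fse {K : Type*} [Field K] {n : ℕ} (g : MvPolynomial (Fin n) K) :
    (finSuccEquiv K n).symm (Polynomial.C g) = rename Fin.succ g := by
  rw [AlgEquiv.symm_apply_eq]
  induction g using MvPolynomial.induction_on with
  | C a =>
    rw [rename_C]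
    exact ((finSuccEquiv K n).commutes a).symm
  | add p q hp hq => rw [Polynomial.C_add, hp, hq, map_add, map_add]
  | mul_X p i hp =>
    rw [Polynomial.C_mul, hp, map_mul, map_mul, rename_X, finSuccEquiv_X_succ]

theorem principal {K : Type*} [Field K] {𝔮 : Ideal (MvPolynomial (Fin 4) K)} (h𝔮 : 𝔮.IsPrime)
    (hA : ∀ g : MvPolynomial (Fin 3) K, rename Fin.succ g ∈ 𝔮 → g = 0)
    {f : MvPolynomial (Fin 4) K} {i : ℕ} (hf : f.IsHomogeneous i) (hf0 : f ≠ 0) (hf𝔮 : f ∈ 𝔮) :
    ∃ (δ : ℕ) (q : MvPolynomial (Fin 4) K), 1 ≤ δ ∧ q.IsHomogeneous δ ∧ q ∈ 𝔮 ∧ q ≠ 0 ∧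
      ∀ u ∈ 𝔮, q ∣ u := by
  classical
  have hbot : 𝔮 ≠ ⊥ := by
    rintro rfl
    exact hf0 (by simpa using hf𝔮)
  obtain ⟨q, hq𝔮, hq⟩ := h𝔮.exists_mem_prime_of_ne_bot hbot
  set Φ := finSuccEquiv K 3 with hΦ
  have hΦq : Prime (Φ q) := (MulEquiv.prime_iff Φ).mpr hq
  have hall : ∀ u ∈ 𝔮, q ∣ u := by
    intro u hu
    have h1 := surfA_key (𝔮 := 𝔮.comap (Φ.symm : Polynomial (MvPolynomial (Fin 3) K) →+* _))
      (fun a ha => hA a (by
        rw [← surfA_fse]
        exact ha)) hΦq
      (by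
        rw [Ideal.mem_comap]
        show Φ.symm (Φ q) ∈ 𝔮
        rw [AlgEquiv.symm_apply_apply]
        exact hq𝔮) (Φ u)
      (by
        rw [Ideal.mem_comap]
        show Φ.symm (Φ u) ∈ 𝔮
        rw [AlgEquiv.symm_apply_apply]
        exact hu)
    obtain ⟨r, hr⟩ := h1
    refine ⟨Φ.symm r, Φ.injective ?_⟩
    rw [map_mul, AlgEquiv.apply_symm_apply, hr]
  obtain ⟨b, hb⟩ := hall f hf𝔮
  obtain ⟨δ, hδ⟩ := hom_of_mul hf hf0 hb
  refine ⟨δ, q, ?_, hδ, hq𝔮, hq.ne_zero, hall⟩
  by_contra h0
  have h1 : δ = 0 := by omega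
  rw [h1] at hδ
  have h2 : q = C (coeff 0 q) := by
    rw [← totalDegree_eq_zero_iff_eq_C]
    exact (totalDegree_zero_iff_isHomogeneous _).mpr hδ
  have h3 : coeff 0 q ≠ 0 := by
    intro h
    rw [h, C_0] at h2
    exact hq.ne_zero h2
  apply hq.not_unit
  rw [h2]
  exact (isUnit_iff_ne_zero.mpr h3).map C

end Pool.Agent.CB3
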