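import Pool.Agent.CB3.LinHF
import Pool.Agent.CB3.SurfA

/-!
# The Hilbert function is at least quadratic on a surface (module SURFC)

PROOF of `surf_bound`.  `I := Ann φ`.  The forms `lf c, lf c', X j` are linearly independent modulo
`I₁` (the linear forms of `I`): a relation `F` of degree one with `aeval … F ∈ I` is in
`low I i ≤ 𝔔` (`1 ≤ i`), so `F = 0`.  As `hd I 1 ≥ 4`, there is a variable `X k` such that
`X k, lf c, lf c', X j` are linearly independent modulo `I₁` (otherwise all variables, hence all linear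
forms, are in `I₁ + span {lf c, lf c', X j}` and `hd I 1 ≤ 3`).
`θ := aeval ![X k, lf c, lf c', X j] : R → S`, `R = MvPolynomial (Fin 4) K`.  `𝔮 := 𝔔.comap θ` is prime and
satisfies `hA` of `principal` (`θ (rename succ g) = aeval ![lf c, lf c', X j] g`).
`V := θ⁻¹(I) ∩ R_i ≤ 𝔮` (forms of degree `i` of `I` are in `low I i ≤ 𝔔`).
Dimension: `R_i / V` embeds into `S_i / I_i`, so `finrank R_i - finrank V ≤ hd I i`
(`finrank_map_add_inf_ker` for `R_i → S/I`, compare with `hd_add`).
Claim: `finrank V + (i+1)^2 ≤ finrank R_i = Cn 4 i`.  If `V = ⊥`: `Cn_four_ge`.  Otherwise take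
`0 ≠ f ∈ V` and `q, δ` from `principal`.  If `δ ≥ 2`: `V ≤ q * R_{i-δ}` (`δ ≤ i`; `f = q u` with `f`, `q`
homogeneous: replace `u` by its component) so `finrank V ≤ Cn 4 (i - δ) ≤ Cn 4 (i - 2)` and `Cn_four`
(if `δ > i`, `V = ⊥`).  If `δ = 1`: `θ q` is a linear form, not in `I` (independence of the four forms
modulo `I₁`).  Claim: `θ⁻¹(I) ∩ R_m = 0` for all `m ≤ i`, by induction on `m`: `m = 0`: a nonzero
constant in `Ann φ` gives `φ = 0`.  `m ≥ 1`: `0 ≠ u ∈ R_m`, `θ u ∈ I`, is in `𝔮`, so `u = q v`,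
`v ∈ R_{m-1}`, `v ≠ 0`; `θ q * θ v ∈ I`, by `hZ` (`m - 1 + 1 ≤ i`) `θ v ∈ I`, contradiction to the
induction hypothesis.  So `V = ⊥`, contradiction.
-/

set_option autoImplicit false
set_option linter.all false

noncomputable section

namespace Pool.Agent.CB3

open Pool.Agent.CB Module MvPolynomial

variable {K : Type*} [Field K] {N : ℕ}

/-- the forms of degree one are spanned by the variables -/
lemma SurfC_exists {I : Ideal (MvPolynomial (Fin N) K)} (h1 : 4 ≤ hd I 1)
    (a b c : MvPolynomial (Fin N) K) :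
    ∃ k : Fin N, (X k : MvPolynomial (Fin N) K) ∉ Jn I 1 ⊔ Submodule.span K {a, b, c} := by
  classical
  by_contra hcon
  push Not at hcon
  have h2 : homogeneousSubmodule (Fin N) K 1 ≤ Jn I 1 ⊔ Submodule.span K {a, b, c} := by
    rw [homogeneousSubmodule_one_eq_span_X, Submodule.span_le]
    rintro _ ⟨k, rfl⟩
    exact hcon k
  haveI : FiniteDimensional K (Submodule.span K ({a, b, c} : Set (MvPolynomial (Fin N) K))) :=
    FiniteDimensional.span_of_finite K (by simp)
  have h3 : finrank K (homogeneousSubmodule (Fin N) K 1) ≤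
      finrank K (Jn I 1 ⊔ Submodule.span K {a, b, c} : Submodule K (MvPolynomial (Fin N) K)) :=
    Submodule.finrank_mono h2
  have h4 : finrank K (Submodule.span K ({a, b, c} : Set (MvPolynomial (Fin N) K))) ≤ 3 := by
    have h5 := finrank_span_finset_le_card (R := K) ({a, b, c} : Finset (MvPolynomial (Fin N) K))
    have h6 : ({a, b, c} : Finset (MvPolynomial (Fin N) K)).card ≤ 3 := Finset.card_le_three
    have h7 : ((({a, b, c} : Finset (MvPolynomial (Fin N) K))) : Set (MvPolynomial (Fin N) K)) =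
      {a, b, c} := by simp
    rw [h7] at h5
    exact h5.trans h6
  have h5 := Submodule.finrank_add_le_finrank_add_finrank (Jn I 1)
    (Submodule.span K ({a, b, c} : Set (MvPolynomial (Fin N) K)))
  have h6 := hd_add I 1
  omega

lemma SurfC_Cn_mono (r a b : ℕ) (h : a ≤ b) : Cn (r + 1) a ≤ Cn (r + 1) b := by
  induction b, h using Nat.le_induction with
  | base => exact le_rfl
  | succ b _ ih =>
    refine ih.trans ?_
    have h : Cn (r + 1) (b + 1) = Cn (r + 1) b + Cn r (b + 1) := by rw [Cn]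
    omega

/-- linear forms in four variables -/
lemma SurfC_lin {q : MvPolynomial (Fin 4) K} (hq : q.IsHomogeneous 1) :
    ∃ a : Fin 4 → K, q = ∑ l, a l • X l := by
  have h : q ∈ homogeneousSubmodule (Fin 4) K 1 := hq
  rw [homogeneousSubmodule_one_eq_span_X] at h
  obtain ⟨a, ha⟩ := (Submodule.mem_span_range_iff_exists_fun K).1 h
  exact ⟨a, ha.symm⟩

/-- comparison of Hilbert functions -/
lemma SurfC_comap {M : ℕ} {I : Ideal (MvPolynomial (Fin N) K)}
    (θ : MvPolynomial (Fin M) K →ₐ[K] MvPolynomial (Fin N) K) (i : ℕ)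
    (hθ : ∀ u : MvPolynomial (Fin M) K, u.IsHomogeneous i → (θ u).IsHomogeneous i) :
    hd (I.comap (θ : MvPolynomial (Fin M) K →+* MvPolynomial (Fin N) K)) i ≤ hd I i := by
  set I' : Submodule K (MvPolynomial (Fin N) K) := Submodule.restrictScalars K I with hI'
  have e1 := finrank_map_add_inf_ker (I'.mkQ ∘ₗ θ.toLinearMap) (homogeneousSubmodule (Fin M) K i)
  have e2 := finrank_map_add_inf_ker (I'.mkQ) (homogeneousSubmodule (Fin N) K i)
  have k1 : (homogeneousSubmodule (Fin M) K i ⊓ LinearMap.ker (I'.mkQ ∘ₗ θ.toLinearMap)) =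
      Jn (I.comap (θ : MvPolynomial (Fin M) K →+* MvPolynomial (Fin N) K)) i := by
    ext u
    rw [Submodule.mem_inf, LinearMap.mem_ker, mem_Jn, LinearMap.comp_apply, Submodule.mkQ_apply,
      Submodule.Quotient.mk_eq_zero, and_comm]
    rfl
  have k2 : (homogeneousSubmodule (Fin N) K i ⊓ LinearMap.ker (I'.mkQ)) = Jn I i := by
    rw [Submodule.ker_mkQ, inf_comm]
    rfl
  rw [k1] at e1
  rw [k2] at e2
  have h3 : (homogeneousSubmodule (Fin M) K i).map (I'.mkQ ∘ₗ θ.toLinearMap) ≤
      (homogeneousSubmodule (Fin N) K i).map I'.mkQ := by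
    rintro _ ⟨u, hu, rfl⟩
    exact ⟨θ u, hθ u hu, rfl⟩
  have h4 := Submodule.finrank_mono h3
  have h5 := hd_add (I.comap (θ : MvPolynomial (Fin M) K →+* MvPolynomial (Fin N) K)) i
  have h6 := hd_add I i
  omega

theorem surf_bound {φ : MvPolynomial (Fin N) K →ₗ[K] K} {t i : ℕ} (hφ : φ ∈ DD K N t)
    (hφ0 : φ ≠ 0) (hi : 1 ≤ i) (h1 : 4 ≤ hd (Ann φ) 1) {c c' : Fin N → K}
    {𝔔 : Ideal (MvPolynomial (Fin N) K)} {j : Fin N} (h𝔔 : 𝔔.IsPrime)
    (hlow : low (Ann φ) i ≤ 𝔔)
    (hind : ∀ F : MvPolynomial (Fin 3) K, aeval ![lf c, lf c', X j] F ∈ 𝔔 → F = 0)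
    (hZ : ∀ (q v : MvPolynomial (Fin N) K) (β : ℕ), q.IsHomogeneous 1 → q ∉ Ann φ →
      v.IsHomogeneous β → β + 1 ≤ i → q * v ∈ Ann φ → v ∈ Ann φ) :
    (i + 1) ^ 2 ≤ hd (Ann φ) i := by
  classical
  obtain ⟨k, hk⟩ := SurfC_exists h1 (lf c) (lf c') (X j)
  obtain ⟨θ, hθ⟩ : ∃ θ : MvPolynomial (Fin 4) K →ₐ[K] MvPolynomial (Fin N) K,
    θ = aeval ![X k, lf c, lf c', X j] := ⟨_, rfl⟩
  have hθhom : ∀ (m : ℕ) (u : MvPolynomial (Fin 4) K), u.IsHomogeneous m →
      (θ u).IsHomogeneous m := by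
    intro m u hu
    have h := hu.aeval ![(X k : MvPolynomial (Fin N) K), lf c, lf c', X j] (n := 1) (by
      intro l
      fin_cases l
      · exact isHomogeneous_X K k
      · exact lf_hom c
      · exact lf_hom c'
      · exact isHomogeneous_X K j)
    rw [one_mul] at h
    rw [hθ]
    exact h
  -- independence modulo `I`
  have hind4 : ∀ q : MvPolynomial (Fin 4) K, q.IsHomogeneous 1 → θ q ∈ Ann φ → q = 0 := by
    intro q hq hqI
    obtain ⟨a, rfl⟩ := SurfC_lin hq
    have e : θ (∑ l, a l • X l) = a 0 • X k + (a 1 • lf c + a 2 • lf c' + a 3 • X j) := by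
      rw [map_sum, Fin.sum_univ_four]
      simp only [map_smul]
      rw [hθ, aeval_X, aeval_X, aeval_X, aeval_X]
      simp only [Matrix.cons_val_zero, Matrix.cons_val_one, Matrix.cons_val]
      abel
    have hmemspan : a 1 • lf c + a 2 • lf c' + a 3 • (X j : MvPolynomial (Fin N) K) ∈
        Submodule.span K {lf c, lf c', (X j : MvPolynomial (Fin N) K)} := by
      refine Submodule.add_mem _ (Submodule.add_mem _ ?_ ?_) ?_
      · exact Submodule.smul_mem _ _ (Submodule.subset_span (by simp))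
      · exact Submodule.smul_mem _ _ (Submodule.subset_span (by simp))
      · exact Submodule.smul_mem _ _ (Submodule.subset_span (by simp))
    have ha0 : a 0 = 0 := by
      by_contra ha
      apply hk
      have hJ : θ (∑ l, a l • X l) ∈ Jn (Ann φ) 1 := ⟨hqI, hθhom 1 _ hq⟩
      have e2 : (X k : MvPolynomial (Fin N) K) = (a 0)⁻¹ • (θ (∑ l, a l • X l)) -
          (a 0)⁻¹ • (a 1 • lf c + a 2 • lf c' + a 3 • X j) := by
        rw [e, smul_add, smul_smul, inv_mul_cancel₀ ha, one_smul]
        abel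
      rw [e2]
      exact Submodule.sub_mem _ (Submodule.mem_sup_left (Submodule.smul_mem _ _ hJ))
        (Submodule.mem_sup_right (Submodule.smul_mem _ _ hmemspan))
    rw [ha0, zero_smul, zero_add] at e
    have hF : (a 1 • X 0 + a 2 • X 1 + a 3 • X 2 : MvPolynomial (Fin 3) K) = 0 := by
      apply hind
      apply hlow
      have e3 : aeval ![lf c, lf c', X j] (a 1 • X 0 + a 2 • X 1 + a 3 • X 2 :
          MvPolynomial (Fin 3) K) = θ (∑ l, a l • X l) := by
        rw [e]
        simp only [map_add, map_smul, aeval_X, Matrix.cons_val_zero, Matrix.cons_val_one,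
          Matrix.cons_val]
      rw [e3]
      exact mem_low hqI hi (hθhom 1 _ hq)
    have hco : ∀ l : Fin 3, coeff (Finsupp.single l 1)
        (a 1 • X 0 + a 2 • X 1 + a 3 • X 2 : MvPolynomial (Fin 3) K) = 0 := by
      intro l; rw [hF, coeff_zero]
    have c1 := hco 0
    have c2 := hco 1
    have c3 := hco 2
    simp [coeff_X', Finsupp.single_left_inj (one_ne_zero : (1 : ℕ) ≠ 0)] at c1 c2 c3
    refine Finset.sum_eq_zero fun l _ => ?_
    fin_cases l
    · simp [ha0]
    · simp [c1]
    · simp [c2]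
    · simp [c3]
  -- the prime
  have h𝔮 : (𝔔.comap (θ : MvPolynomial (Fin 4) K →+* MvPolynomial (Fin N) K)).IsPrime :=
    Ideal.IsPrime.comap _
  have hA : ∀ g : MvPolynomial (Fin 3) K, rename Fin.succ g ∈
      𝔔.comap (θ : MvPolynomial (Fin 4) K →+* MvPolynomial (Fin N) K) → g = 0 := by
    intro g hg
    apply hind
    have h2 : θ (rename Fin.succ g) ∈ 𝔔 := hg
    rw [hθ, aeval_rename] at h2
    have e : (![(X k : MvPolynomial (Fin N) K), lf c, lf c', X j] ∘ Fin.succ) =
        ![lf c, lf c', X j] := by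
      funext l
      fin_cases l <;> rfl
    rwa [e] at h2
  have hmem𝔮 : ∀ (m : ℕ) (u : MvPolynomial (Fin 4) K), m ≤ i → u.IsHomogeneous m →
      θ u ∈ Ann φ → u ∈ 𝔔.comap (θ : MvPolynomial (Fin 4) K →+* MvPolynomial (Fin N) K) := by
    intro m u hm hu huI
    exact hlow (mem_low huI hm (hθhom m u hu))
  refine le_trans ?_ (SurfC_comap (I := Ann φ) θ i (hθhom i))
  have hadd := hd_add ((Ann φ).comap (θ : MvPolynomial (Fin 4) K →+* MvPolynomial (Fin N) K)) i
  rw [finrank_S] at hadd
  suffices hV : finrank K (Jn ((Ann φ).comap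
      (θ : MvPolynomial (Fin 4) K →+* MvPolynomial (Fin N) K)) i) + (i + 1) ^ 2 ≤ Cn 4 i by omega
  by_cases hVb : Jn ((Ann φ).comap
      (θ : MvPolynomial (Fin 4) K →+* MvPolynomial (Fin N) K)) i = ⊥
  · rw [hVb, finrank_bot, zero_add]
    exact Cn_four_ge i
  · obtain ⟨f, hfV, hf0⟩ := Submodule.exists_mem_ne_zero_of_ne_bot hVb
    have hfI : θ f ∈ Ann φ := hfV.1
    have hfh : f.IsHomogeneous i := hfV.2
    obtain ⟨δ, q, hδ, hq, hq𝔮, hq0, hdiv⟩ := principal h𝔮 hA hfh hf0 (hmem𝔮 i f le_rfl hfh hfI)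
    -- division with homogeneous quotient
    have hquot : ∀ (m : ℕ) (u : MvPolynomial (Fin 4) K), u.IsHomogeneous m → u ≠ 0 →
        u ∈ 𝔔.comap (θ : MvPolynomial (Fin 4) K →+* MvPolynomial (Fin N) K) →
        δ ≤ m ∧ ∃ v : MvPolynomial (Fin 4) K, v.IsHomogeneous (m - δ) ∧ u = q * v := by
      intro m u hu hu0 hu𝔮
      obtain ⟨v, rfl⟩ := hdiv u hu𝔮
      have hle : δ ≤ m := by
        by_contra hlt
        apply hu0
        rw [← homogeneousComponent_eq_self hu, homComp_mul_lt hq (by omega)]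
      refine ⟨hle, homogeneousComponent (m - δ) v, homogeneousComponent_isHomogeneous _ _, ?_⟩
      conv_lhs => rw [← homogeneousComponent_eq_self hu]
      have e : m = (m - δ) + δ := by omega
      conv_lhs => rw [e]
      rw [homComp_mul hq]
    rcases Nat.lt_or_ge δ 2 with hδ2 | hδ2
    · -- `δ = 1`
      have hδ1 : δ = 1 := by omega
      subst hδ1
      exfalso
      have hqI : θ q ∉ Ann φ := fun h => hq0 (hind4 q hq h)
      have hall : ∀ m : ℕ, m ≤ i → ∀ u : MvPolynomial (Fin 4) K, u.IsHomogeneous m →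
          θ u ∈ Ann φ → u = 0 := by
        intro m
        induction m with
        | zero =>
          intro _ u hu huI
          have hu' : u ∈ homogeneousSubmodule (Fin 4) K 0 := hu
          have htot : u.totalDegree = 0 := (totalDegree_zero_iff_isHomogeneous _).2 hu
          obtain ⟨a, rfl⟩ : ∃ a, u = C a := ⟨_, totalDegree_eq_zero_iff_eq_C.1 htot⟩
          by_contra hne
          have ha : a ≠ 0 := by
            rintro rfl
            exact hne (map_zero _)
          apply hφ0
          apply LinearMap.ext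
          intro g
          have e : θ (C a) = C a := by
            rw [hθ, aeval_C]
            rfl
          rw [e] at huI
          have h2 := mem_Ann'.1 huI (C a⁻¹ * g)
          rw [← mul_assoc, ← C_mul, mul_inv_cancel₀ ha, C_1, one_mul] at h2
          rw [h2, LinearMap.zero_apply]
        | succ m ih =>
          intro hm u hu huI
          by_contra hne
          obtain ⟨-, v, hv, hvu⟩ := hquot (m + 1) u hu hne (hmem𝔮 (m + 1) u hm hu huI)
          rw [Nat.add_sub_cancel] at hv
          have h2 : θ q * θ v ∈ Ann φ := by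
            rw [← map_mul, ← hvu]
            exact huI
          have h3 := hZ (θ q) (θ v) m (hθhom 1 q hq) hqI (hθhom m v hv) hm h2
          have h4 := ih (by omega) v hv h3
          apply hne
          rw [hvu, h4, mul_zero]
      exact hf0 (hall i le_rfl f hfh hfI)
    · -- `δ ≥ 2`
      obtain ⟨hδi, -⟩ := hquot i f hfh hf0 (hmem𝔮 i f le_rfl hfh hfI)
      have hle : Jn ((Ann φ).comap (θ : MvPolynomial (Fin 4) K →+* MvPolynomial (Fin N) K)) i ≤
          (homogeneousSubmodule (Fin 4) K (i - δ)).map (LinearMap.mulLeft K q) := by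
        rintro u ⟨huI, hu⟩
        by_cases hu0 : u = 0
        · rw [hu0]; exact Submodule.zero_mem _
        · obtain ⟨-, v, hv, rfl⟩ := hquot i u hu hu0 (hmem𝔮 i u le_rfl hu huI)
          exact ⟨v, hv, rfl⟩
      have h2 : finrank K (Jn ((Ann φ).comap
          (θ : MvPolynomial (Fin 4) K →+* MvPolynomial (Fin N) K)) i) ≤ Cn 4 (i - δ) := by
        rw [← finrank_S (K := K) (N := 4) (i - δ),
          ← finrank_map_mul hq0 (homogeneousSubmodule (Fin 4) K (i - δ))]
        exact Submodule.finrank_mono hle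
      have h3 : Cn 4 (i - δ) ≤ Cn 4 (i - 2) := SurfC_Cn_mono 3 (i - δ) (i - 2) (by omega)
      have h4 := Cn_four (i - 2)
      have e1 : i - 2 + 2 = i := by omega
      have e2 : i - 2 + 3 = i + 1 := by omega
      rw [e1, e2] at h4
      omega

end Pool.Agent.CB3
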