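import Pool.Agent.CB3.NP
import Pool.Agent.CB3.NumB
import Pool.Agent.CB3.RankOne
import Pool.Agent.CB3.SurfB
import Pool.Agent.CB3.SurfC
import Pool.Agent.CB3.Choice

/-!
# From a minimal failing index to `NumData` (module CTX)

`I := Ann φ`, `hb i := hd (I ⊔ (lf c)) i`, `b i := hd (I ⊔ (lf c) ⊔ (lf c')) i`, `(c, c')` from `exists_gen`.
-/

set_option autoImplicit false
set_option linter.all false

noncomputable section

namespace Pool.Agent.CB3

open Pool.Agent.CB Module MvPolynomial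

variable {K : Type*} [Field K] {N : ℕ}

lemma ctx_act_ne_zero {φ : MvPolynomial (Fin N) K →ₗ[K] K} (hφ0 : φ ≠ 0) :
    (1 : MvPolynomial (Fin N) K) ∉ Ann φ := by
  intro h
  apply hφ0
  apply LinearMap.ext
  intro f
  have h1 := mem_Ann'.1 h f
  rw [one_mul] at h1
  rw [h1, LinearMap.zero_apply]

lemma ctx_C_notMem {φ : MvPolynomial (Fin N) K →ₗ[K] K} (hφ0 : φ ≠ 0) {a : K} (ha : a ≠ 0) :
    (C a : MvPolynomial (Fin N) K) ∉ Ann φ := by
  intro h
  apply ctx_act_ne_zero hφ0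
  have h1 := (Ann φ).mul_mem_left (C a⁻¹) h
  rwa [← C_mul, inv_mul_cancel₀ ha, C_1] at h1

lemma ctx_hd_zero {φ : MvPolynomial (Fin N) K →ₗ[K] K} (hφ0 : φ ≠ 0) : hd (Ann φ) 0 = 1 := by
  have h1 := hd_add (Ann φ) 0
  have h2 : finrank K (homogeneousSubmodule (Fin N) K 0) = 1 := by
    rw [homogeneousSubmodule_zero, Submodule.one_eq_span]
    exact finrank_span_singleton one_ne_zero
  have h3 : hd (Ann φ) 0 ≠ 0 := by
    intro h
    exact ctx_act_ne_zero hφ0 (hd_eq_zero_iff.1 h 1 (isHomogeneous_one _ _))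
  omega

lemma ctx_inj {I : Ideal (MvPolynomial (Fin N) K)} (hI : HI I) {f : MvPolynomial (Fin N) K}
    {d n : ℕ} (hf : f.IsHomogeneous d)
    (h : hd I (n + d) = hd I n + hd (I ⊔ Ideal.span {f}) (n + d)) {x : MvPolynomial (Fin N) K}
    (hx : x.IsHomogeneous n) (hfx : f * x ∈ I) : x ∈ I := by
  have h1 := hd_col hI hf n
  have h2 := hd_add (col I f) n
  have h3 := hd_add I n
  have h4 : Jn I n = Jn (col I f) n :=
    Submodule.eq_of_le_of_finrank_eq (Jn_mono (le_col I f) n) (by omega)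
  have h5 : x ∈ Jn (col I f) n := ⟨hfx, hx⟩
  rw [← h4] at h5
  exact h5.1

/-- PROOF.  `act v φ ∈ DD (t - β)` (`act_mem_DD`), nonzero since `v ∉ Ann φ`, and `Ann φ ≤ Ann (act v φ)`
(`Ann_act`, `le_col`), same `F`. -/
theorem Adm.act {φ : MvPolynomial (Fin N) K →ₗ[K] K} {t e D E : ℕ} (A : Adm φ t e D E)
    {v : MvPolynomial (Fin N) K} {β : ℕ} (hv : v.IsHomogeneous β) (hβ : β ≤ e) (hv0 : v ∉ Ann φ) :
    Adm (act v φ) (t - β) (e - β) D E := by
  have h0 := A.num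
  have h1 := A.hD
  have h2 := A.hDE
  refine ⟨act_mem_DD hv (by rw [Nat.sub_add_cancel (by omega)]; exact A.mem), hv0, A.hN, by omega,
    by omega, h2, ?_⟩
  obtain ⟨F, hF1, hF2, hF3⟩ := A.F
  refine ⟨F, hF1, fun i hi hi' => ?_, hF3⟩
  rw [Ann_act]
  exact le_col _ _ (hF2 i hi hi')

/-- PROOF.  For `p ≠ 0` some `F i` does not vanish at `p` (`NZ`), degree `≤ E`. -/
theorem Adm.baseFree {φ : MvPolynomial (Fin N) K →ₗ[K] K} {t e D E : ℕ} (A : Adm φ t e D E) :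
    BaseFree φ E := by
  intro p hp
  obtain ⟨F, hF1, hF2, hF3⟩ := A.F
  by_contra hcon
  push Not at hcon
  apply hp
  apply hF3
  intro a ha
  obtain ⟨i, hi, hi', rfl⟩ := mem_EL.1 ha
  refine hcon (F i) (dg N D E i) (hF1 i hi hi') ?_ (hF2 i hi hi')
  have := A.hDE
  unfold dg
  split_ifs <;> omega

/-- PROOF.  `hd_col` with `q`, `d = 1` in degree `j = (j-1) + 1` (`j ≥ 1` because `TT D E e 0 = 1 ≤ hd I 0`:
`hd I 0 ≠ 0`, otherwise `1 ∈ I`), `col I q = Ann (act q φ)` (`Ann_act`), `Adm.act` with `β = 1` and `IH (e-1)` give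
`hd (I ⊔ (q)) j = hd I j - hd (Ann (act q φ)) (j-1) ≤ hd I j - TT D E (e-1) (j-1)`, and
`TT D E e j = T0 D E j + TT D E (e-1) (j-1)`. -/
theorem two_a {φ : MvPolynomial (Fin N) K →ₗ[K] K} {t e D E σ j : ℕ} (A : Adm φ t e D E)
    (he : 1 ≤ e)
    (IH : ∀ (e' : ℕ), e' < e → ∀ (t' : ℕ) (ψ : MvPolynomial (Fin N) K →ₗ[K] K),
      Adm ψ t' e' D E → ∀ i, TT D E e' i ≤ hd (Ann ψ) i)
    (hj : hd (Ann φ) j + σ < TT D E e j) {q : MvPolynomial (Fin N) K} (hq : q.IsHomogeneous 1)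
    (hq0 : q ∉ Ann φ) : hd (Ann φ ⊔ Ideal.span {q}) j + 1 + σ ≤ T0 D E j := by
  have h0 := A.num
  have h1 := A.hD
  have h2 := A.hDE
  obtain ⟨e', rfl⟩ : ∃ e', e = e' + 1 := ⟨e - 1, by omega⟩
  rcases j with _ | j
  · exfalso
    rw [TT_zero_right (by omega) (by omega)] at hj
    rw [ctx_hd_zero A.ne] at hj
    omega
  · have h3 := hd_col (HI_Ann A.mem) hq j
    rw [← Ann_act] at h3
    have h4 := IH e' (by omega) (t - 1) (act q φ) (by
      have := A.act hq (by omega) hq0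
      rwa [Nat.add_sub_cancel] at this) j
    have h5 : TT D E (e' + 1) (j + 1) = T0 D E (j + 1) + TT D E e' j := rfl
    omega

/-- PROOF.  Suppose `v ∉ Ann φ`.  `β = 0`: `v = C a`, `a ≠ 0`, so `q ∈ Ann φ`, contradiction.  `β ≥ 1`:
`Ann φ ⊔ (q) ≤ col (Ann φ) v = Ann (act v φ)`, so by `hd_mono`, `Adm.act` and `IH (e - β)`:
`hd (Ann φ ⊔ (q)) j ≥ TT D E (e - β) j ≥ T0 D E j` (`T0_le_TT`), contradicting `two_a`. -/
theorem zprop {φ : MvPolynomial (Fin N) K →ₗ[K] K} {t e D E σ j : ℕ} (A : Adm φ t e D E)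
    (he : 1 ≤ e)
    (IH : ∀ (e' : ℕ), e' < e → ∀ (t' : ℕ) (ψ : MvPolynomial (Fin N) K →ₗ[K] K),
      Adm ψ t' e' D E → ∀ i, TT D E e' i ≤ hd (Ann ψ) i)
    (hj : hd (Ann φ) j + σ < TT D E e j) {q v : MvPolynomial (Fin N) K} {β : ℕ}
    (hq : q.IsHomogeneous 1) (hq0 : q ∉ Ann φ) (hv : v.IsHomogeneous β) (hβ : β ≤ e)
    (hqv : q * v ∈ Ann φ) : v ∈ Ann φ := by
  by_contra hv0
  have h0 := A.num
  have h1 := A.hD
  have h2 := A.hDE
  have h3 := two_a A he IH hj hq hq0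
  rcases Nat.eq_zero_or_pos β with hβ0 | hβ0
  · subst hβ0
    obtain ⟨a, rfl⟩ : ∃ a, v = C a := by
      have h4 := (totalDegree_zero_iff_isHomogeneous _).2 hv
      exact ⟨_, totalDegree_eq_zero_iff_eq_C.1 h4⟩
    apply hq0
    have ha : a ≠ 0 := by
      rintro rfl
      apply hv0
      rw [C_0]
      exact Ideal.zero_mem _
    have h4 := (Ann φ).mul_mem_left (C a⁻¹) hqv
    rwa [mul_left_comm, ← C_mul, inv_mul_cancel₀ ha, C_1, mul_one] at h4
  · have h4 := IH (e - β) (by omega) (t - β) (act v φ) (A.act hv hβ hv0) j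
    rw [Ann_act] at h4
    have h5 : Ann φ ⊔ Ideal.span {q} ≤ col (Ann φ) v := by
      refine sup_le (le_col _ _) ?_
      rw [Ideal.span_singleton_le_iff_mem, mem_col, mul_comm]
      exact hqv
    have h6 := hd_mono h5 j
    have h7 := T0_le_TT D E (e - β) j
    omega

/-- PROOF.  With `(c, c')` from `exists_gen` (`hd I 1 ≥ 4`).
`idt`: `hd_col` for `lf c`: `hd (col I (lf c)) (i-1) + hb i = h i` and
`hd (col I (lf c)) (t-i) + hb (t+1-i) = h (t+1-i) = h (i-1)`, and `col I (lf c) = Ann (act (lf c) φ)` with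
`act (lf c) φ ∈ DD (t-1)`, so `hd_symm` (`(i-1) + (t-i) = t-1`).  `hbj`: `two_a`.
`G1`, `G2`: `Gen`.  `B0`: `hd_zero_succ`.  `B1`: `hd_succ_le`.
`F2`: by `B0`, `B1` `hb (i+1) ≤ hb i`; equality is excluded by `flat_point` with `I ⊔ (lf c)` and `c'`:
the point `p ≠ 0` is a zero of `lf c` and of all forms of degree `≤ D ≤ i+1` of `I`, contradicting `Gen.pc`.
`F4`: `flat_base` (`Inv.lean`) with `i`, `s = t - i - 1`: `P φ (s+1) = PI I i` (`PI_Ann`) is good (`good_iff`),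
`finrank_P_eq`, `hd_symm`; the base point contradicts `Adm.baseFree` as `E ≤ i + 1`.
`F4'`: `base_mid`.
`NP`: `plateau` with `n = i - 1`, `τ = hb i`: `inj`: `hd (col I (lf c)) (i-1) = h i - hb i = h (i-1)`, so
`Jn (col I (lf c)) (i-1) = Jn I (i-1)`; `inj'` similarly in degree `i`; `h1` is `b i = 0`; `pt` is `Gen.pc'`.
`S1` (`Surf i := Surf I c c' i`): `surf_prime` (with `Gen.P1`, `Gen.P2`, `i ≤ e + 1 ≤ t + 1`) and `surf_bound` with
`hZ` from `zprop` (`β + 1 ≤ i ≤ e + 1`).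
`S2`: `J := I ⊔ (lf c) ⊔ (lf c')`, `hd J i ≤ 1 ≤ i`, so `exists_hd_zero` gives `a` with `hd (J ⊔ (lf a)) i = 0`; then
`hd J (i+1) ≤ hd J i ≤ 1` (`hd_zero_succ`, `hd_succ_le`); if `hd J (i+1) = 1` then `hd J i = 1` (`hd_zero_succ`) and
`flat_point` gives a point showing `Surf (i+1)`.  `S3`: clear. -/
theorem ctx [IsAlgClosed K] {φ : MvPolynomial (Fin N) K →ₗ[K] K} {t e D E σ j : ℕ}
    (A : Adm φ t e D E) (he : 1 ≤ e) (hσ : σ ≤ 1) (h1 : 4 ≤ hd (Ann φ) 1)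
    (IH : ∀ (e' : ℕ), e' < e → ∀ (t' : ℕ) (ψ : MvPolynomial (Fin N) K →ₗ[K] K),
      Adm ψ t' e' D E → ∀ i, TT D E e' i ≤ hd (Ann ψ) i)
    (hjt : 2 * j ≤ t) (hj : hd (Ann φ) j + σ < TT D E e j)
    (hmin : ∀ i, i < j → TT D E e i ≤ hd (Ann φ) i + σ) :
    ∃ (hb b : ℕ → ℕ) (Sf : ℕ → Prop), NumData e D E t σ j (hd (Ann φ)) hb b Sf := by
  have n0 := A.num
  have n1 := A.hD
  have n2 := A.hDE
  obtain ⟨c, c', G⟩ := exists_gen A (by omega : 1 ≤ hd (Ann φ) 1)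
  have hI : HI (Ann φ) := HI_Ann A.mem
  have hJ : HI (Ann φ ⊔ Ideal.span {lf c}) := HI_sup hI (HI_span (lf_hom c))
  have hJ' : HI (Ann φ ⊔ Ideal.span {lf c} ⊔ Ideal.span {lf c'}) :=
    HI_sup hJ (HI_span (lf_hom c'))
  have hinf : Infinite K := IsAlgClosed.instInfinite
  have hc1 : lf c ∈ Ann φ ⊔ Ideal.span {lf c} :=
    Ideal.mem_sup_right (Ideal.mem_span_singleton_self _)
  have hne : ∀ i, i ≤ t → hd (Ann φ) i ≠ 0 := by
    intro i hi h0
    have h2 := hd_zero_le h0 hi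
    rw [← hd_symm A.mem (show 0 + t = t by omega), ctx_hd_zero A.ne] at h2
    omega
  refine ⟨fun i => hd (Ann φ ⊔ Ideal.span {lf c}) i,
    fun i => hd (Ann φ ⊔ Ideal.span {lf c} ⊔ Ideal.span {lf c'}) i,
    fun i => Surf (Ann φ) c c' i, ?_⟩
  have hB0 : ∀ i, hd (Ann φ ⊔ Ideal.span {lf c} ⊔ Ideal.span {lf c'}) i = 0 →
      hd (Ann φ ⊔ Ideal.span {lf c} ⊔ Ideal.span {lf c'}) (i + 1) = 0 := fun i h => hd_zero_succ h
  have hB1 : ∀ i, hd (Ann φ ⊔ Ideal.span {lf c} ⊔ Ideal.span {lf c'}) (i + 1) = 0 →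
      hd (Ann φ ⊔ Ideal.span {lf c}) (i + 1) ≤ hd (Ann φ ⊔ Ideal.span {lf c}) i :=
    fun i h => hd_succ_le hJ h
  refine
    { num := n0
      he := he
      hD := n1
      hDE := n2
      hσ := hσ
      h0 := ctx_hd_zero A.ne
      h1 := h1
      jt := hjt
      fail := hj
      mn := hmin
      hsym := fun i k h => hd_symm A.mem h
      idt := ?_
      hbj := two_a A he IH hj (lf_hom c) G.cne
      G1 := G.G1
      G2 := G.G2
      B0 := hB0
      B1 := hB1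
      F2 := ?_
      F4 := ?_
      F4' := ?_
      NP := ?_
      S1 := ?_
      S2 := ?_
      S3 := ?_ }
  · -- idt
    intro i hi hit
    obtain ⟨k, rfl⟩ : ∃ k, i = k + 1 := ⟨i - 1, by omega⟩
    obtain ⟨m, hm⟩ : ∃ m, k + 1 + m = t := ⟨t - (k + 1), by omega⟩
    have a1 := hd_col hI (lf_hom c) k
    have a2 := hd_col hI (lf_hom c) m
    rw [← Ann_act] at a1 a2
    have a3 : act (lf c) φ ∈ DD K N (k + m) :=
      act_mem_DD (lf_hom c) (by rw [show k + m + 1 = t by omega]; exact A.mem)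
    have a4 := hd_symm a3 (rfl : k + m = k + m)
    have a5 : hd (Ann φ) (m + 1) = hd (Ann φ) k := hd_symm A.mem (by omega)
    have a6 : t + 1 - (k + 1) = m + 1 := by omega
    simp only [a6, Nat.add_sub_cancel]
    omega
  · -- F2
    intro i hi hb0 hbi
    have a1 := hB1 i (hB0 i hb0)
    rcases Nat.lt_or_ge (hd (Ann φ ⊔ Ideal.span {lf c}) (i + 1))
      (hd (Ann φ ⊔ Ideal.span {lf c}) i) with h | h
    · exact h
    · exfalso
      obtain ⟨p, hp, hp'⟩ := flat_point hJ hb0 (le_antisymm a1 h) hbi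
      obtain ⟨f, hf, k, hk, hfk, hfp⟩ := G.pc p hp (hp' _ hc1 1 (by omega) (lf_hom c))
      exact hfp (hp' f (Ideal.mem_sup_left hf) k (by omega) hfk)
  · -- F4
    intro i hi hit h0 heq
    obtain ⟨p, hp, hp'⟩ := flat_point hI h0 heq.symm (hne i (by omega))
    obtain ⟨f, k, hf, hk, hfφ, hpf⟩ := A.baseFree p hp
    exact hpf (hp' f hfφ k (by omega) hf)
  · -- F4'
    intro p hp hE h0
    exact base_mid A.mem A.ne hp hE A.baseFree h0
  · -- NP
    intro i hi hb0 hbi heq r1 r2 e1 e2 e3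
    obtain ⟨n, rfl⟩ : ∃ n, i = n + 1 := ⟨i - 1, by omega⟩
    simp only [Nat.add_sub_cancel] at r1
    refine plateau (φ := φ) (t := t) (n := n) (τ := hd (Ann φ ⊔ Ideal.span {lf c}) (n + 1))
      (D := D) (E := E) (c := c) (c' := c') ?_
    refine
      { mem := A.mem
        ne := A.ne
        h1 := hb0
        inj := fun x hx hcx => ctx_inj hI (lf_hom c) r1 hx hcx
        inj' := fun x hx hcx => ctx_inj hI (lf_hom c) r2 hx hcx
        g1 := r1
        g2 := by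
          rw [heq] at r2
          exact r2
        hτ := hbi
        bf := A.baseFree
        hE1 := by omega
        hE := by omega
        hD1 := by omega
        hD := by omega
        hDE := e3
        pt := G.pc' }
  · -- S1
    intro i hi hie hS
    obtain ⟨𝔔, k, h𝔔, hlow, hind⟩ := surf_prime (G.P1 i (by omega)) (G.P2 i (by omega)) hS
    refine surf_bound A.mem A.ne hi h1 h𝔔 hlow hind ?_
    intro q v β hq hq0 hv hβ hqv
    exact zprop A he IH hj hq hq0 hv (by omega) hqv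
  · -- S2
    intro i hi hS hb1
    obtain ⟨a, ha⟩ := exists_hd_zero hJ' (hb1.trans hi)
    have a1 := hd_succ_le hJ' (hd_zero_succ ha)
    by_contra h0
    obtain ⟨p, hp, hp'⟩ := flat_point hJ' ha (by omega) (by omega)
    apply hS
    refine ⟨p, hp, fun f hf k hk hfk => ?_, ?_, ?_⟩
    · exact hp' f (Ideal.mem_sup_left (Ideal.mem_sup_left hf)) k hk hfk
    · exact hp' _ (Ideal.mem_sup_left hc1) 1 (by omega) (lf_hom c)
    · exact hp' _ (Ideal.mem_sup_right (Ideal.mem_span_singleton_self _)) 1 (by omega) (lf_hom c')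
  · -- S3
    rintro i ⟨p, hp, h1, h2, h3⟩
    exact ⟨p, hp, fun f hf k hk hfk => h1 f hf k (by omega) hfk, h2, h3⟩

end Pool.Agent.CB3
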