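import Mathlib
import Pool.Agent.CB.CIRed

/-!
# Definitions for the interval `k = c - 3`
-/

set_option autoImplicit false
set_option linter.all false

noncomputable section

namespace Pool.Agent.CB3

open Pool.Agent.CB Module MvPolynomial

/-- Hilbert function of a complete intersection of type `(D, E)` in two variables. -/
def T0 (D E j : ℕ) : ℕ := min (min (j + 1) D) (D + E - 1 - j)

/-- Hilbert function of a complete intersection of type `(e + 1, D, E)` in three variables:
`TT D E e j = ∑ x ≤ e, T0 D E (j - x)` (terms with `x > j` are zero). -/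
def TT (D E : ℕ) : ℕ → ℕ → ℕ
  | 0, j => T0 D E j
  | _ + 1, 0 => T0 D E 0
  | e + 1, j + 1 => T0 D E (j + 1) + TT D E e j

/-- the first difference of `TT D E e` in the first half. -/
def gam (e D t i : ℕ) : ℕ := min (min (i + 1) (e + 1)) (min (e + D - i) (t + 1 - 2 * i))

/-- dimension of the space of forms of degree `j` in `r` variables. -/
def Cn : ℕ → ℕ → ℕ
  | 0, 0 => 1
  | 0, _ + 1 => 0
  | _ + 1, 0 => 1
  | r + 1, j + 1 => Cn (r + 1) j + Cn r (j + 1)

variable {K : Type*} [Field K] {N : ℕ}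

/-- functionals of degree `i` vanishing on the ideal `I`. -/
def PI (I : Ideal (MvPolynomial (Fin N) K)) (i : ℕ) :
    Submodule K (MvPolynomial (Fin N) K →ₗ[K] K) where
  carrier := {ψ | ψ ∈ DD K N i ∧ ∀ f ∈ I, ψ f = 0}
  add_mem' := by
    rintro a b ⟨ha, ha'⟩ ⟨hb, hb'⟩
    exact ⟨Submodule.add_mem _ ha hb, fun f hf => by
      rw [LinearMap.add_apply, ha' f hf, hb' f hf, add_zero]⟩
  zero_mem' := ⟨Submodule.zero_mem _, fun f hf => rfl⟩
  smul_mem' := by
    rintro c a ⟨ha, ha'⟩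
    exact ⟨Submodule.smul_mem _ c ha, fun f hf => by
      rw [LinearMap.smul_apply, ha' f hf, smul_zero]⟩

/-- the ideal generated by the forms of degree at most `i` of `I`. -/
def low (I : Ideal (MvPolynomial (Fin N) K)) (i : ℕ) : Ideal (MvPolynomial (Fin N) K) :=
  Ideal.span {f | f ∈ I ∧ ∃ k, k ≤ i ∧ f.IsHomogeneous k}

/-- there is a point on `lf c = lf c' = 0` at which all forms of degree `≤ i` of `I` vanish. -/
def Surf (I : Ideal (MvPolynomial (Fin N) K)) (c c' : Fin N → K) (i : ℕ) : Prop :=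
  ∃ p : Fin N → K, p ≠ 0 ∧ (∀ f ∈ I, ∀ k, k ≤ i → f.IsHomogeneous k → eval p f = 0) ∧
    eval p (lf c) = 0 ∧ eval p (lf c') = 0

/-- the degrees `D, …, D, E`. -/
def dg (N D E i : ℕ) : ℕ := if i < N then D else E

/-- The standing hypotheses: `φ` is a nonzero functional of degree `t` with `t + 2 = e + D + E`
annihilated by a system of parameters of degrees `D, …, D, E`. -/
structure Adm (φ : MvPolynomial (Fin N) K →ₗ[K] K) (t e D E : ℕ) : Prop where
  mem : φ ∈ DD K N t
  ne : φ ≠ 0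
  hN : 3 ≤ N
  num : t + 2 = e + D + E
  hD : e + 2 ≤ D
  hDE : D ≤ E
  F : ∃ F : ℕ → MvPolynomial (Fin N) K,
    (∀ i, 1 ≤ i → i ≤ N → (F i).IsHomogeneous (dg N D E i)) ∧
    (∀ i, 1 ≤ i → i ≤ N → F i ∈ Ann φ) ∧ NZ (EL (dg N D E) F N)

end Pool.Agent.CB3
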