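import Pool.Agent.CB3.Perp
import Pool.Agent.CB.CIK1

/-!
# The interval `k = 0` (module KZERO)

PROOF of `k0_core`.  `l := EL d F n` is `CI` (`CI_of_NZ`), `sd l = (d 1 - 1) + ∑_{i ≥ 2} (d i - 1)`.  `IL l ≤ Ann φ`, so
`t ≤ sd l` (`CI.zero`), `γ := sd l - t`, `γ + e = d 1 - 1`, `φ = act g Ψ` (`CI.exists_dual`, `exists_repr`),
`Ann φ = col (IL l) g`, exactly as in `k1_core` (file `CIK1.lean`).  If `γ = 0` then `IL l ⊔ (g) = ⊤`.  If `γ ≥ 1`:
`(γ, g)` alone is `WR` (`g ≠ 0` in a domain), so `Ht`; extend with `ext_all` (`r = 1`) to a list of degrees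
`γ, d 2, …, d n` in `IL l ⊔ (g)` which is `CI`, so `∑ hd (IL l ⊔ (g)) ≤ γ * ∏_{i ≥ 2} d i`.
`sum_col`: `∑ hd (Ann φ) = d 1 * ∏_{i≥2} d i - ∑ hd (IL l ⊔ (g)) ≥ (d 1 - γ) ∏_{i ≥ 2} d i = (e + 1) ∏_{i ≥ 2} d i`.
(The proof is a simplification of `k1_core`: replace `p`, `a` by `F 1`, `d 1`; no coprimality argument is needed, the
second extension starts from the single form `g`.)
-/

set_option autoImplicit false
set_option linter.all false

noncomputable section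

namespace Pool.Agent.CB3

open Pool.Agent.CB Module MvPolynomial

variable {K : Type*} [Field K]

lemma kz_Icc_split {n : ℕ} (hn : 1 ≤ n) :
    Finset.Icc 1 n = insert 1 (Finset.Icc 2 n) := by
  ext i
  simp only [Finset.mem_Icc, Finset.mem_insert]
  omega

lemma kz_prod_split {n : ℕ} (hn : 1 ≤ n) (f : ℕ → ℕ) :
    ∏ i ∈ Finset.Icc 1 n, f i = f 1 * ∏ i ∈ Finset.Icc 2 n, f i := by
  rw [kz_Icc_split hn, Finset.prod_insert]
  simp

lemma kz_sum_split {n : ℕ} (hn : 1 ≤ n) (f : ℕ → ℕ) :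
    ∑ i ∈ Finset.Icc 1 n, f i = f 1 + ∑ i ∈ Finset.Icc 2 n, f i := by
  rw [kz_Icc_split hn, Finset.sum_insert]
  simp


theorem k0_core [IsAlgClosed K] {n : ℕ} (hn : 1 ≤ n) {d : ℕ → ℕ}
    {F : ℕ → MvPolynomial (Fin n) K}
    (hd1 : ∀ i, 1 ≤ i → i ≤ n → 1 ≤ d i)
    (hmono : ∀ i j, 1 ≤ i → i ≤ j → j ≤ n → d i ≤ d j)
    (hF : ∀ i, 1 ≤ i → i ≤ n → (F i).IsHomogeneous (d i))
    {φ : MvPolynomial (Fin n) K →ₗ[K] K} {t e : ℕ} (hφ : φ ∈ DD K n t) (hφ0 : φ ≠ 0)
    (hFφ : ∀ i, 1 ≤ i → i ≤ n → F i ∈ Ann φ) (hnz : NZ (EL d F n))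
    (ht : t = e + ∑ i ∈ Finset.Icc 2 n, (d i - 1)) :
    (e + 1) * ∏ i ∈ Finset.Icc 2 n, d i ≤ ∑ s ∈ Finset.range (t + 1), finrank K (P φ s) := by
  classical
  have hinf : Infinite K := IsAlgClosed.instInfinite
  -- the given complete intersection
  have hokF := okf_EL hd1 hF
  have hciF : CI (EL d F n) := CI_of_NZ _ (EL_length _ _ _) hokF hnz
  obtain ⟨I, hIdef⟩ : ∃ I, I = IL (EL d F n) := ⟨_, rfl⟩
  have hIA : I ≤ Ann φ := by
    rw [hIdef]
    refine IL_le fun b hb => ?_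
    obtain ⟨i, h1, h2, rfl⟩ := mem_EL.1 hb
    exact hFφ i h1 h2
  have hIF : ∀ i, 1 ≤ i → i ≤ n → F i ∈ I := by
    intro i h1 h2
    rw [hIdef]
    exact mem_IL (a := (d i, F i)) (mem_EL.2 ⟨i, h1, h2, rfl⟩)
  have hHI : HI I := by rw [hIdef]; exact HI_IL hokF
  have hsd : sd (EL d F n) = (d 1 - 1) + ∑ i ∈ Finset.Icc 2 n, (d i - 1) := by
    rw [sd_EL, kz_sum_split hn]
  have hpd : pd (EL d F n) = d 1 * ∏ i ∈ Finset.Icc 2 n, d i := by
    rw [pd_EL, kz_prod_split hn]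
  have hts : t ≤ sd (EL d F n) := by
    by_contra hcon
    apply hφ0
    refine eq_zero_of_DD hφ ?_
    intro f hf
    have h1 := hd_eq_zero_iff.1 (hciF.zero t (by omega)) f hf
    rw [← hIdef] at h1
    have h2 := mem_Ann'.1 (hIA h1) 1
    rw [mul_one] at h2
    exact h2
  obtain ⟨γ, hγ⟩ := Nat.exists_eq_add_of_le hts
  obtain ⟨Ψ, hΨ, hAΨ⟩ := CI.exists_dual hokF hciF
  obtain ⟨g, hg, hgφ⟩ := exists_repr hΨ hφ hγ.symm (by rw [hAΨ, ← hIdef]; exact hIA)
  have hAcol : Ann φ = col I g := by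
    rw [← hgφ, Ann_act, hAΨ, ← hIdef]
  have hγe : γ + e = d 1 - 1 := by omega
  have hg0 : g ≠ 0 := by
    rintro rfl
    apply hφ0
    rw [← hgφ]
    apply LinearMap.ext
    intro f
    simp
  -- the length
  have hlen : ∀ M, t < M → ∑ s ∈ Finset.range (t + 1), finrank K (P φ s) =
      ∑ s ∈ Finset.range M, hd (col I g) s := by
    intro M hM
    rw [← hAcol]
    have h1 : ∀ s, finrank K (P φ s) = hd (Ann φ) s := finrank_P_eq φ
    simp only [h1]
    apply Finset.sum_subset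
    · intro s hs
      rw [Finset.mem_range] at *
      omega
    · intro s _ hs
      rw [Finset.mem_range] at hs
      exact hd_eq_zero_iff.2 fun x hx => mem_Ann_of_lt hφ (by omega) hx
  have hd11 : 1 ≤ d 1 := hd1 1 le_rfl hn
  suffices H : ∃ M₀, ∀ M, M₀ ≤ M → ∑ j ∈ Finset.range (γ + M), hd (I ⊔ Ideal.span {g}) j ≤
      γ * ∏ i ∈ Finset.Icc 2 n, d i by
    obtain ⟨M₀, hM₀⟩ := H
    obtain ⟨M, hM⟩ : ∃ M, M = M₀ + t + sd (EL d F n) + 1 := ⟨_, rfl⟩
    rw [hlen M (by omega)]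
    have h1 := sum_col hHI hg M
    have h2 := hM₀ M (by omega)
    have h3 : ∑ j ∈ Finset.range (γ + M), hd I j = pd (EL d F n) := by
      rw [hIdef]
      exact hciF.len _ (by omega)
    rw [hpd] at h3
    have h4 : (e + 1) * ∏ i ∈ Finset.Icc 2 n, d i + γ * ∏ i ∈ Finset.Icc 2 n, d i =
        d 1 * ∏ i ∈ Finset.Icc 2 n, d i := by
      rw [← add_mul]
      congr 1
      omega
    omega
  by_cases hγ0 : γ = 0
  · -- `g` is a nonzero constant
    refine ⟨0, fun M _ => ?_⟩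
    rw [hγ0] at hg
    have h1 : g.totalDegree = 0 := Nat.le_zero.1 (IsHomogeneous.totalDegree_le hg)
    rw [totalDegree_eq_zero_iff_eq_C] at h1
    have h2 : coeff 0 g ≠ 0 := by
      intro h3
      rw [h3, C_0] at h1
      exact hg0 h1
    have h3 : I ⊔ Ideal.span {g} = ⊤ := by
      rw [eq_top_iff]
      refine le_trans ?_ le_sup_right
      rw [top_le_iff, Ideal.span_singleton_eq_top]
      rw [h1]
      exact (isUnit_iff_ne_zero.2 h2).map C
    rw [h3]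
    simp [hd_top]
  · have hγ1 : 1 ≤ γ := Nat.one_le_iff_ne_zero.2 hγ0
    let D₂ : ℕ → ℕ := fun i => if i ≤ 1 then γ else d i
    have hD21 : D₂ 1 = γ := by simp [D₂]
    have hD22 : ∀ i, 1 < i → D₂ i = d i := by
      intro i hi
      simp only [D₂]
      rw [if_neg (by omega)]
    have hHt2 : Ht (EL D₂ (fun _ => g) 1) := by
      apply WR.ht
      refine ⟨trivial, ?_⟩
      intro u hu
      rw [show EL D₂ (fun _ => g) 0 = [] from rfl, IL_nil, Ideal.mem_bot] at hu ⊢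
      exact (mul_eq_zero.1 hu).resolve_left hg0
    obtain ⟨G, hG1, hG2, hG3⟩ := ext_all (D := d) (E := F) (J := I) hn hd1 hmono hF
      hciF.wr hIF hHt2 (fun i hi _ => hD22 i hi)
    have hG1' : G 1 = g := hG1 1 le_rfl
    have hD2pos : ∀ i, 1 ≤ i → i ≤ n → 1 ≤ D₂ i := by
      intro i h1 h2
      rcases Nat.lt_or_ge 1 i with h | h
      · rw [hD22 i h]; exact hd1 i h1 h2
      · have : i = 1 := by omega
        subst this
        rw [hD21]; exact hγ1
    have hGhom : ∀ i, 1 ≤ i → i ≤ n → (G i).IsHomogeneous (D₂ i) := by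
      intro i h1 h2
      rcases Nat.lt_or_ge 1 i with h | h
      · exact (hG2 i h h2).2
      · have : i = 1 := by omega
        subst this
        rw [hD21, hG1']; exact hg
    have hGmem : ∀ i, 1 ≤ i → i ≤ n → G i ∈ I ⊔ Ideal.span {g} := by
      intro i h1 h2
      rcases Nat.lt_or_ge 1 i with h | h
      · exact Ideal.mem_sup_left (hG2 i h h2).1
      · have : i = 1 := by omega
        subst this
        rw [hG1']
        exact Ideal.mem_sup_right (Ideal.mem_span_singleton_self g)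
    have hokG := okf_EL hD2pos hGhom
    have hciG : CI (EL D₂ G n) := CI_of_NZ _ (EL_length _ _ _) hokG
      (NZ_of_Ht (EL_length _ _ _) hokG hG3)
    have hpd2 : pd (EL D₂ G n) = γ * ∏ i ∈ Finset.Icc 2 n, d i := by
      rw [pd_EL, kz_prod_split hn, hD21]
      congr 1
      refine Finset.prod_congr rfl fun i hi => ?_
      rw [Finset.mem_Icc] at hi
      rw [hD22 i (by omega)]
    have hle : IL (EL D₂ G n) ≤ I ⊔ Ideal.span {g} := by
      refine IL_le fun b hb => ?_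
      obtain ⟨i, h1, h2, rfl⟩ := mem_EL.1 hb
      exact hGmem i h1 h2
    refine ⟨sd (EL D₂ G n) + 1, fun M hM => ?_⟩
    rw [← hpd2, ← hciG.len (γ + M) (by omega)]
    exact Finset.sum_le_sum fun j _ => hd_mono hle j

end Pool.Agent.CB3
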