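import Pool.Agent.CB3.Core
import Pool.Agent.CB3.KZero
import Pool.Agent.CB.MainK1
import Pool.Agent.CB.Main

/-!
# The intervals `k = 0` and `k ≥ c - 3` of the conjecture (module FINAL)

PROOF of `exists_sop`.  `n` forms `F i` of degrees `d i` (monotone) with `NZ`, `D = d (n-1)`, `E = d n`.  One builds
`F' 1, …, F' (n-1)` of degree `D` in `J` one after another: given `q = EL _ F' r`, `r < n - 1`, with `Ht q`, every minimal prime
`𝔮` of `IL q` has height `≤ r` (`height_le_length`), and if all forms of degree `D` of `J` were in `𝔮`, then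
`X l ^ (D - d i) * F i ∈ 𝔮` for `i ≤ r + 1` (`d i ≤ D`), so `F i ∈ 𝔮` if `X l ∉ 𝔮`, contradicting `(WR_EL_le …).ht`; if all `X l ∈ 𝔮`
then `IL (EL d F n) ≤ 𝔮`, same contradiction: this is the proof of `ext_step` (`CIHeight.lean`) with `D (r+1)` replaced by any
number `δ ≥ d (r+1)`.  The last form of degree `E` from `ext_step`.  `NZ_of_Ht`.

PROOF of `main3`.  `reduction` (`MainK1.lean`), restriction to the hyperplane `lf a = 0` as in `mainK1`
(same file; copy): `φ' ` on `c` variables, of degree `t = m + 1`, `∑ finrank (P φ' s) ≤ ∑ finrank (P φ s) ≤ D₀`, forms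
`rho a j (F i) ∈ Ann φ'` of degree `d i` with `NZ`.
`k = 0`: `k0_core` with `n = c`.
`c ≤ k + 3`, `k + 1 ≤ c`: `k = c - 1`: the sum is empty, `e = m + 1`, the claim is `m + 2 ≤ D₀` : `hd (Ann φ') s ≥ 1` for
`s ≤ t` (`hd_zero_le` and `φ' ≠ 0`), or `main` (`Main.lean`).  `k = c - 2`: `Pool.Agent.CB.main` with `d c - 1 ≤ m + 1 ≤ 2 (d c - 1)`
(because `m + 1 < (d (c-1) - 1) + (d c - 1)`).  `k = c - 3` (`c ≥ 3`): `D := d (c-1)`, `E := d c`, `e := m + 1 - (D - 1) - (E - 1)`,
`e < d (c-2) - 1 ≤ D - 1` so `e + 2 ≤ D`; `Adm φ' (m+1) e D E` by `exists_sop`; `total`, `finrank_P_eq`.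
-/

set_option autoImplicit false
set_option linter.all false

noncomputable section

namespace Pool.Agent.CB3

open Pool.Agent.CB Module MvPolynomial

/-- one step of the extension, with a form of any degree `δ ≥ d (r + 1)` -/
lemma Final_step {K : Type*} [Field K] [Infinite K] {N n r δ : ℕ} {D : ℕ → ℕ}
    {E : ℕ → MvPolynomial (Fin N) K}
    (hrn : r < n) (hD1 : ∀ i, 1 ≤ i → i ≤ n → 1 ≤ D i)
    (hδ : ∀ i, 1 ≤ i → i ≤ r + 1 → D i ≤ δ)
    (hE : ∀ i, 1 ≤ i → i ≤ n → (E i).IsHomogeneous (D i)) (hwr : WR (EL D E n))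
    {J : Ideal (MvPolynomial (Fin N) K)} (hJ : ∀ i, 1 ≤ i → i ≤ n → E i ∈ J)
    {q : List (ℕ × MvPolynomial (Fin N) K)} (hq : q.length = r) (hHt : Ht q) :
    ∃ f ∈ J, f.IsHomogeneous δ ∧ Ht ((δ, f) :: q) := by
  obtain ⟨f, hfJ, hf, hf2⟩ := exists_avoid (J := J) (d := δ)
    (Ideal.finite_minimalPrimes_of_isNoetherianRing _ (IL q)) (by
      intro 𝔮 h𝔮
      by_contra hcon
      push Not at hcon
      have h𝔮p : 𝔮.IsPrime := h𝔮.1.1
      have hlow : 𝔮.height ≤ (r : ℕ∞) := by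
        rw [← hq]
        exact height_le_length h𝔮
      by_cases hX : ∃ l : Fin N, (X l : MvPolynomial (Fin N) K) ∉ 𝔮
      · obtain ⟨l, hl⟩ := hX
        have h1 : IL (EL D E (r + 1)) ≤ 𝔮 := by
          refine IL_le ?_
          intro a ha
          obtain ⟨i, h1, h2, rfl⟩ := mem_EL.1 ha
          have h3 : D i ≤ δ := hδ i h1 h2
          have h4 : (X l : MvPolynomial (Fin N) K) ^ (δ - D i) * E i ∈ 𝔮 := by
            refine hcon _ (J.mul_mem_left _ (hJ i h1 (by omega))) ?_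
            have h5 := ((isHomogeneous_X K l).pow (δ - D i)).mul (hE i h1 (by omega))
            rw [one_mul, Nat.sub_add_cancel h3] at h5
            exact h5
          rcases h𝔮p.mem_or_mem h4 with h5 | h5
          · exact absurd (h𝔮p.mem_of_pow_mem _ h5) hl
          · exact h5
        have h2 := (WR_EL_le (by omega : r + 1 ≤ n) hwr).ht 𝔮 h𝔮p h1
        rw [EL_length] at h2
        have h3 := h2.trans hlow
        have h4 : r + 1 ≤ r := by exact_mod_cast h3
        omega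
      · push Not at hX
        have h3 : idealOfVars (Fin N) K ≤ 𝔮 := by
          rw [idealOfVars, Ideal.span_le]
          rintro _ ⟨i, rfl⟩
          exact hX i
        have h1 : IL (EL D E n) ≤ 𝔮 := by
          refine IL_le ?_
          intro a ha
          obtain ⟨i, h1, h2, rfl⟩ := mem_EL.1 ha
          apply h3
          have h4 : E i ∈ idealOfVars (Fin N) K ^ 1 := by
            rw [mem_pow_idealOfVars_iff]
            intro x hx
            have h5 : Finsupp.degree x = D i := by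
              rw [Finsupp.degree_eq_weight_one]
              exact hE i h1 h2 (MvPolynomial.mem_support_iff.1 hx)
            rw [h5]
            exact hD1 i h1 h2
          rwa [pow_one] at h4
        have h2 := hwr.ht 𝔮 h𝔮p h1
        rw [EL_length] at h2
        have h3 := h2.trans hlow
        have h4 : n ≤ r := by exact_mod_cast h3
        omega)
  exact ⟨f, hfJ, hf, Ht_cons hHt hf2⟩

theorem exists_sop {K : Type*} [Field K] [IsAlgClosed K] {n : ℕ} (hn : 2 ≤ n) {d : ℕ → ℕ}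
    {F : ℕ → MvPolynomial (Fin n) K}
    (hd1 : ∀ i, 1 ≤ i → i ≤ n → 1 ≤ d i)
    (hmono : ∀ i j, 1 ≤ i → i ≤ j → j ≤ n → d i ≤ d j)
    (hF : ∀ i, 1 ≤ i → i ≤ n → (F i).IsHomogeneous (d i)) (hnz : NZ (EL d F n))
    {J : Ideal (MvPolynomial (Fin n) K)} (hFJ : ∀ i, 1 ≤ i → i ≤ n → F i ∈ J) :
    ∃ F' : ℕ → MvPolynomial (Fin n) K,
      (∀ i, 1 ≤ i → i ≤ n → (F' i).IsHomogeneous (dg n (d (n - 1)) (d n) i)) ∧
      (∀ i, 1 ≤ i → i ≤ n → F' i ∈ J) ∧ NZ (EL (dg n (d (n - 1)) (d n)) F' n) := by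
  classical
  have hinf : Infinite K := IsAlgClosed.instInfinite
  have hCI := CI_of_NZ (EL d F n) (EL_length d F n) (okf_EL hd1 hF) hnz
  obtain ⟨D', hD'⟩ : ∃ D' : ℕ → ℕ, D' = dg n (d (n - 1)) (d n) := ⟨_, rfl⟩
  rw [← hD']
  have hge : ∀ i k, 1 ≤ i → i ≤ k → k ≤ n → d i ≤ D' k := by
    intro i k h1 h2 h3
    rw [hD']
    unfold dg
    split_ifs with h4
    · exact hmono i (n - 1) h1 (by omega) (by omega)
    · exact hmono i n h1 (by omega) le_rfl
  have H : ∀ k, k ≤ n → ∃ E'' : ℕ → MvPolynomial (Fin n) K,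
      (∀ i, 1 ≤ i → i ≤ k → E'' i ∈ J ∧ (E'' i).IsHomogeneous (D' i)) ∧ Ht (EL D' E'' k) := by
    intro k
    induction k with
    | zero =>
      intro _
      refine ⟨fun _ => 0, fun i h1 h2 => by omega, ?_⟩
      intro 𝔭 _ _
      simp [EL]
    | succ k ih =>
      intro hk
      obtain ⟨E₀, h2, h3⟩ := ih (by omega)
      obtain ⟨f, hfJ, hf, hf2⟩ := Final_step (r := k) (n := n) (δ := D' (k + 1)) (by omega) hd1
        (fun i h4 h5 => hge i (k + 1) h4 h5 hk) hF hCI.wr hFJ (EL_length D' E₀ k) h3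
      refine ⟨Function.update E₀ (k + 1) f, ?_, ?_⟩
      · intro i hi1 hi2
        by_cases hi : i = k + 1
        · subst hi
          rw [Function.update_self]
          exact ⟨hfJ, hf⟩
        · rw [Function.update_of_ne hi]
          exact h2 i hi1 (by omega)
      · rw [EL, Function.update_self]
        have e2 : EL D' (Function.update E₀ (k + 1) f) k = EL D' E₀ k := by
          apply EL_congr
          intro i _ hi
          refine ⟨rfl, ?_⟩
          rw [Function.update_of_ne (by omega)]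
        rw [e2]
        exact hf2
  obtain ⟨E'', h1, h2⟩ := H n le_rfl
  refine ⟨E'', fun i hi1 hi2 => (h1 i hi1 hi2).2, fun i hi1 hi2 => (h1 i hi1 hi2).1, ?_⟩
  exact NZ_of_Ht (EL_length _ _ _) (okf_EL (fun i hi1 hi2 =>
    (hd1 i hi1 hi2).trans (hge i i hi1 le_rfl hi2)) (fun i hi1 hi2 => (h1 i hi1 hi2).2)) h2

theorem main3 (K : Type) [Field K] [IsAlgClosed K] (c : ℕ) (d : ℕ → ℕ)
    (F : ℕ → MvPolynomial (Fin (c+1)) K)
    (hd1 : ∀ i ∈ Finset.Icc 1 c, 1 ≤ d i)
    (hmono : ∀ i j : ℕ, 1 ≤ i → i ≤ j → j ≤ c → d i ≤ d j)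
    (hF : ∀ i ∈ Finset.Icc 1 c, (F i).IsHomogeneous (d i))
    (hfin : ∀ j : Fin (c+1), Set.Finite {x : Fin (c+1) → K |
        x j = 1 ∧ ∀ i ∈ Finset.Icc 1 c, MvPolynomial.eval x (F i) = 0})
    (J : Ideal (MvPolynomial (Fin (c+1)) K))
    (hJh : ∀ f ∈ J, ∀ n : ℕ, MvPolynomial.homogeneousComponent n f ∈ J)
    (hsat : ∀ f : MvPolynomial (Fin (c+1)) K,
        (∃ N : ℕ, ∀ i : Fin (c+1), MvPolynomial.X i ^ N * f ∈ J) → f ∈ J)
    (hFJ : ∀ i ∈ Finset.Icc 1 c, F i ∈ J)
    (h : ℕ → ℕ)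
    (hh : ∀ n : ℕ, h n =
        Module.finrank K (MvPolynomial.homogeneousSubmodule (Fin (c+1)) K n) -
        Module.finrank K
          ↥(Submodule.restrictScalars K J ⊓ MvPolynomial.homogeneousSubmodule (Fin (c+1)) K n))
    (D : ℕ) (hD : ∃ N : ℕ, ∀ n ≥ N, h n = D) (m k : ℕ) (hkc : k + 1 ≤ c)
    (hk : k = 0 ∨ c ≤ k + 3)
    (hm1 : (∑ i ∈ Finset.Icc (k+2) c, (d i - 1)) ≤ m + 1)
    (hm2 : m + 1 < ∑ i ∈ Finset.Icc (k+1) c, (d i - 1))
    (hlt : h m < D) :
    (m + 1 - (∑ i ∈ Finset.Icc (k+2) c, (d i - 1)) + 1) * ∏ i ∈ Finset.Icc (k+2) c, d i ≤ D := by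
  classical
  obtain ⟨a, φ, hl0, hnz, hreg, hφ, hφ0, hφJ, hφl, hsum⟩ :=
    reduction K c d F hF hfin J hJh hsat hFJ h hh D hD m hlt
  obtain ⟨j, hj⟩ : ∃ j, a j ≠ 0 := by
    by_contra hcon
    push Not at hcon
    apply hl0
    simp [lf, hcon]
  have hJA : ∀ f ∈ J, f ∈ Ann φ := by
    intro f hf
    rw [mem_Ann']
    intro u
    exact hφJ _ (J.mul_mem_right u hf)
  -- the restricted data
  obtain ⟨φ', hφ'⟩ : ∃ φ' : MvPolynomial (Fin c) K →ₗ[K] K,
    φ' = φ ∘ₗ (iot (K := K) j).toLinearMap := ⟨_, rfl⟩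
  have hφ'D : φ' ∈ DD K c (m + 1) := by rw [hφ']; exact res_DD hj hφl hφ
  have hφ'0 : φ' ≠ 0 := by rw [hφ']; exact res_ne hj hφl hφ0
  have hF' : ∀ i, 1 ≤ i → i ≤ c → (rho a j (F i)).IsHomogeneous (d i) :=
    fun i h1 h2 => rho_hom a j (hF i (Finset.mem_Icc.2 ⟨h1, h2⟩))
  have hF'A : ∀ i, 1 ≤ i → i ≤ c → rho a j (F i) ∈ Ann φ' := by
    intro i h1 h2
    rw [hφ']
    exact res_Ann hj hφl (hJA _ (hFJ i (Finset.mem_Icc.2 ⟨h1, h2⟩)))
  have hd1' : ∀ i, 1 ≤ i → i ≤ c → 1 ≤ d i := fun i h1 h2 => hd1 i (Finset.mem_Icc.2 ⟨h1, h2⟩)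
  have hnz' : NZ (EL d (fun i => rho a j (F i)) c) := by
    intro x hx
    let y : Fin (c+1) → K := fun i => eval x (rho a j (X i))
    have hy : ∀ f, eval x (rho a j f) = eval y f := by
      intro f
      have : ((eval x : MvPolynomial (Fin c) K →+* K).comp
          (rho a j : MvPolynomial (Fin (c+1)) K →+* MvPolynomial (Fin c) K)) =
          (eval y : MvPolynomial (Fin (c+1)) K →+* K) := by
        apply MvPolynomial.ringHom_ext
        · intro b
          simp [y, rho]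
        · intro i
          simp [y]
      exact congrArg (fun k : MvPolynomial (Fin (c+1)) K →+* K => k f) this
    have hy0 : y = 0 := by
      apply hnz
      · intro i hi
        rw [← hy]
        rw [Finset.mem_Icc] at hi
        exact hx (d i, rho a j (F i)) (mem_EL.2 ⟨i, hi.1, hi.2, rfl⟩)
      · rw [← hy, rho_lf a j hj, map_zero]
    funext i
    have h1 : y (j.succAbove i) = x i := by
      change eval x (rho a j (X (j.succAbove i))) = x i
      rw [rho_X_succ, eval_X]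
    rw [← h1, hy0]
    rfl
  have hsum' : ∑ s ∈ Finset.range (m + 1 + 1), finrank K (P φ' s) ≤ D := by
    refine le_trans (Finset.sum_le_sum fun s _ => ?_) hsum
    rw [hφ']
    exact res_finrank hj hφl s
  rcases Nat.eq_zero_or_pos k with hk0 | hk0
  · -- `k = 0`
    subst hk0
    rw [Nat.zero_add] at hm1 ⊢
    exact (k0_core (K := K) (n := c) (by omega) (d := d) (F := fun i => rho a j (F i)) hd1' hmono
      hF' hφ'D hφ'0 hF'A hnz' (e := m + 1 - ∑ i ∈ Finset.Icc 2 c, (d i - 1)) (by omega)).trans hsum'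
  have hk3 : c ≤ k + 3 := by omega
  have hcases : c = k + 1 ∨ c = k + 2 ∨ c = k + 3 := by omega
  rcases hcases with hc | hc | hc
  · -- `k = c - 1`
    have he : Finset.Icc (k + 2) c = ∅ := Finset.Icc_eq_empty (by omega)
    rw [he, Finset.sum_empty, Finset.prod_empty, mul_one, Nat.sub_zero]
    refine le_trans ?_ hsum'
    have h1 : ∀ s ∈ Finset.range (m + 1 + 1), 1 ≤ finrank K (P φ' s) := by
      intro s hs
      rw [Finset.mem_range] at hs
      rw [finrank_P_eq, Nat.one_le_iff_ne_zero]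
      intro h0
      have h2 := hd_zero_le h0 (show s ≤ m + 1 by omega)
      apply hφ'0
      apply eq_zero_of_DD hφ'D
      intro f hf
      have h3 := mem_Ann'.1 (hd_eq_zero_iff.1 h2 f hf) 1
      rwa [mul_one] at h3
    have h2 := Finset.sum_le_sum h1
    simpa using h2
  · -- `k = c - 2`
    subst hc
    rw [Finset.Icc_self, Finset.sum_singleton, Finset.prod_singleton] at *
    rw [Finset.sum_Icc_succ_top (by omega), Finset.Icc_self, Finset.sum_singleton] at hm2
    have h1 : d (k + 1) ≤ d (k + 2) := hmono _ _ (by omega) (by omega) (by omega)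
    have e0 : d (k + 1 + 1) = d (k + 2) := rfl
    rw [e0] at hm2
    exact Pool.Agent.CB.main K (k + 2) d F (by omega) hmono hF hfin J hJh hsat hFJ h hh D hD m
      hm1 (by omega) hlt
  · -- `k = c - 3`
    subst hc
    rw [Finset.sum_Icc_succ_top (by omega), Finset.Icc_self, Finset.sum_singleton] at hm1
    rw [Finset.sum_Icc_succ_top (by omega), Finset.sum_Icc_succ_top (by omega), Finset.Icc_self,
      Finset.sum_singleton] at hm2
    rw [Finset.sum_Icc_succ_top (by omega), Finset.Icc_self, Finset.sum_singleton,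
      Finset.prod_Icc_succ_top (by omega), Finset.Icc_self, Finset.prod_singleton]
    have h1 : d (k + 1) ≤ d (k + 1 + 1) := hmono _ _ (by omega) (by omega) (by omega)
    have h2 : d (k + 2) ≤ d (k + 2 + 1) := hmono _ _ (by omega) (by omega) (by omega)
    have h3 := hd1' (k + 1) (by omega) (by omega)
    have h4 := hd1' (k + 2) (by omega) (by omega)
    have h5 := hd1' (k + 2 + 1) (by omega) (by omega)
    obtain ⟨e, he⟩ : ∃ e, e = m + 1 - (d (k + 2) - 1 + (d (k + 2 + 1) - 1)) := ⟨_, rfl⟩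
    rw [← he]
    obtain ⟨F', hF1, hF2, hF3⟩ := exists_sop (n := k + 3) (by omega) hd1' hmono hF' hnz' hF'A
    have e1 : k + 3 - 1 = k + 2 := by omega
    rw [e1] at hF1 hF3
    have hadm : Adm φ' (m + 1) e (d (k + 2)) (d (k + 3)) := by
      refine ⟨hφ'D, hφ'0, by omega, ?_, ?_, h2, F', hF1, hF2, hF3⟩
      · have e2 : d (k + 3) = d (k + 2 + 1) := rfl
        rw [e2]
        omega
      · have e3 : d (k + 2) = d (k + 1 + 1) := rfl
        have e4 : d (k + 3) = d (k + 2 + 1) := rfl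
        omega
    have h6 := total hadm
    rw [← mul_assoc]
    refine le_trans h6 (le_trans (le_of_eq ?_) hsum')
    exact Finset.sum_congr rfl fun s _ => (finrank_P_eq φ' s).symm

end Pool.Agent.CB3
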