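import Pool.Agent.CB3.Perp

/-!
# Hilbert functions of ideals generated by linear forms (module LINHF)

PROOF of `hd_linear`.  Induction on `r`, generalizing `T`.  The list `T.map fun i => (1, f i)` is a
regular sequence by `WR_linear` (so `NZD`), `HI` by `HI_IL`.
`r = 0`: `T` is a nodup list of length `N` in `Fin N`, so it contains every `i`; every `X i`
is `aeval f (g i)`, a form of positive degree in the `f i`'s ... (see the end of `CI_linear` in
`CIThm.lean`: there `hmem` shows that all forms of positive degree are in the ideal and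
`hd (IL l) 0 = 1`).  Hence `hd = Cn 0 j`.
`r + 1`: `T.length < N`, pick `i ∉ T` and put `T' = i :: T`, so `IL T' = IL T ⊔ span {f i}` (`IL_cons`).
`hd_col` with the nonzerodivisor `f i` (`NZD.col_eq`): `hd (IL T) j + hd (IL T') (j + 1) =
hd (IL T) (j + 1)`, and `hd (IL T) 0 = hd (IL T') 0` (`hd_low`).  Induction on `j` gives
`hd (IL T) j = Cn (r + 1) j`.

PROOF of `finrank_S`: `hd ⊥ j = finrank S_j` (`Jn ⊥ j = ⊥`), and `hd_linear` with `f = g = X`, `T = []`.

`Cn_four`: `Cn 3 j = (j+1)(j+2)/2`, `Cn 4 (j+2) = Cn 4 j + Cn 3 (j+1) + Cn 3 (j+2)`.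
-/

set_option autoImplicit false
set_option linter.all false

noncomputable section

namespace Pool.Agent.CB3

open Pool.Agent.CB Module MvPolynomial

variable {K : Type*} [Field K] {N : ℕ}

lemma Cn_zz : Cn 0 0 = 1 := by rw [Cn]
lemma Cn_zs (j : ℕ) : Cn 0 (j + 1) = 0 := by rw [Cn]
lemma Cn_sz (r : ℕ) : Cn (r + 1) 0 = 1 := by rw [Cn]
lemma Cn_ss (r j : ℕ) : Cn (r + 1) (j + 1) = Cn (r + 1) j + Cn r (j + 1) := by rw [Cn]
lemma Cn_z (r : ℕ) : Cn r 0 = 1 := by
  cases r with
  | zero => exact Cn_zz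
  | succ r => exact Cn_sz r

lemma hd_IL_all {l : List (ℕ × MvPolynomial (Fin N) K)} (hok : ∀ a ∈ l, okf a)
    (hX : ∀ i, (X i : MvPolynomial (Fin N) K) ∈ IL l) (j : ℕ) : hd (IL l) j = Cn 0 j := by
  have hmem : ∀ (j : ℕ) (u : MvPolynomial (Fin N) K), u.IsHomogeneous j → 0 < j → u ∈ IL l := by
    intro j u hu hj
    have h3 : idealOfVars (Fin N) K ≤ IL l := by
      rw [idealOfVars, Ideal.span_le]
      rintro _ ⟨i, rfl⟩
      exact hX i
    apply h3
    have h4 : u ∈ idealOfVars (Fin N) K ^ 1 := by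
      rw [mem_pow_idealOfVars_iff]
      intro x hx
      have h5 : Finsupp.degree x = j := by
        rw [Finsupp.degree_eq_weight_one]
        exact hu (MvPolynomial.mem_support_iff.1 hx)
      omega
    rwa [pow_one] at h4
  cases j with
  | zero =>
    have h3 : Jn (IL l) 0 = ⊥ := by
      rw [eq_bot_iff]
      rintro x ⟨hx1, hx2⟩
      have h4 : x.totalDegree = 0 := Nat.le_zero.1 (IsHomogeneous.totalDegree_le hx2)
      rw [totalDegree_eq_zero_iff_eq_C] at h4
      have h5 : eval (0 : Fin N → K) x = 0 :=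
        eval_eq_zero_of_mem_IL (fun a ha => eval_zero_of_hom (hok a ha).1 (hok a ha).2) hx1
      rw [h4, eval_C] at h5
      rw [Submodule.mem_bot, h4, h5, C_0]
    have h6 := hd_add (IL l) 0
    rw [h3, finrank_S0] at h6
    rw [Cn_zz]
    simpa using h6
  | succ j =>
    rw [Cn_zs]
    exact hd_eq_zero_iff.2 fun x hx => hmem _ x hx (Nat.succ_pos j)

theorem hd_linear (f g : Fin N → MvPolynomial (Fin N) K)
    (h1 : ∀ i, aeval g (f i) = X i) (h2 : ∀ i, aeval f (g i) = X i)
    (hf : ∀ i, (f i).IsHomogeneous 1) (hg : ∀ i, (g i).IsHomogeneous 1)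
    (r : ℕ) (T : List (Fin N)) (hT : T.Nodup) (hr : T.length + r = N) (j : ℕ) :
    hd (IL (T.map fun i => ((1 : ℕ), f i))) j = Cn r j := by
  induction r generalizing T j with
  | zero =>
    have hok : ∀ a ∈ T.map fun i => ((1 : ℕ), f i), okf a := by
      intro a ha
      obtain ⟨i, -, rfl⟩ := List.mem_map.1 ha
      exact ⟨le_rfl, hf i⟩
    have hall : ∀ i, i ∈ T := by
      intro i
      have hc : T.toFinset.card = N := by
        rw [List.toFinset_card_of_nodup hT]
        omega
      have hu : T.toFinset = Finset.univ :=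
        Finset.eq_univ_of_card _ (by rw [hc, Fintype.card_fin])
      rw [← List.mem_toFinset, hu]
      exact Finset.mem_univ i
    refine hd_IL_all hok (fun i => ?_) j
    rw [← h2 i]
    obtain ⟨c, hc⟩ := exists_lf_eq (hg i)
    rw [hc]
    have : aeval f (lf c) = ∑ j, c j • f j := by
      simp [lf, map_sum]
    rw [this]
    refine Ideal.sum_mem _ fun k _ => ?_
    rw [smul_eq_C_mul]
    exact Ideal.mul_mem_left _ _ (mem_IL (a := (1, f k))
      (List.mem_map.2 ⟨k, hall k, rfl⟩))
  | succ r ih =>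
    have hok : ∀ T' : List (Fin N), ∀ a ∈ T'.map fun i => ((1 : ℕ), f i), okf a := by
      intro T' a ha
      obtain ⟨i, -, rfl⟩ := List.mem_map.1 ha
      exact ⟨le_rfl, hf i⟩
    obtain ⟨i, hi⟩ : ∃ i, i ∉ T := by
      by_contra hcon
      push Not at hcon
      have hu : T.toFinset = Finset.univ := by
        ext i
        simp [hcon i]
      have hc : T.toFinset.card = N := by rw [hu, Finset.card_univ, Fintype.card_fin]
      rw [List.toFinset_card_of_nodup hT] at hc
      omega
    have hT' : (i :: T).Nodup := List.nodup_cons.2 ⟨hi, hT⟩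
    have hwr := WR_linear f g h1 h2 (i :: T) hT'
    have hnzd : NZD (IL (T.map fun i => ((1 : ℕ), f i))) (f i) := hwr.2
    have hI := HI_IL (hok T)
    have e1 : ∀ j, hd (IL (T.map fun i => ((1 : ℕ), f i)) ⊔ Ideal.span {f i}) j = Cn r j := by
      intro j
      have := ih (i :: T) hT' (by simp only [List.length_cons]; omega) j
      rw [List.map_cons, IL_cons] at this
      exact this
    have e2 : ∀ j, hd (IL (T.map fun i => ((1 : ℕ), f i))) j +
        Cn r (j + 1) = hd (IL (T.map fun i => ((1 : ℕ), f i))) (j + 1) := by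
      intro j
      have := hd_col hI (hf i) j
      rw [hnzd.col_eq, e1] at this
      exact this
    have e3 : hd (IL (T.map fun i => ((1 : ℕ), f i))) 0 = Cn r 0 := by
      rw [← hd_low hI (hf i) (by norm_num : (0 : ℕ) < 1), e1]
    induction j with
    | zero =>
      rw [e3, Cn_z, Cn_z]
    | succ j ihj =>
      rw [← e2, ihj, Cn_ss]

theorem finrank_S (j : ℕ) : finrank K (homogeneousSubmodule (Fin N) K j) = Cn N j := by
  have h := hd_linear (K := K) (N := N) X X (fun i => by simp) (fun i => by simp)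
    (fun i => isHomogeneous_X K i) (fun i => isHomogeneous_X K i) N [] List.nodup_nil (by simp) j
  rw [List.map_nil, IL_nil] at h
  rw [← h]
  have h1 := hd_add (⊥ : Ideal (MvPolynomial (Fin N) K)) j
  have h2 : Jn (⊥ : Ideal (MvPolynomial (Fin N) K)) j = ⊥ := by
    rw [eq_bot_iff]
    rintro x ⟨hx, -⟩
    exact hx
  rw [h2] at h1
  simpa using h1.symm

theorem Cn_one (j : ℕ) : Cn 1 j = 1 := by
  induction j with
  | zero => exact Cn_sz 0
  | succ j ih => rw [Cn_ss, ih, Cn_zs]

theorem Cn_two (j : ℕ) : Cn 2 j = j + 1 := by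
  induction j with
  | zero => exact Cn_sz 1
  | succ j ih => rw [Cn_ss, ih, Cn_one]

theorem Cn_three (j : ℕ) : 2 * Cn 3 j = (j + 1) * (j + 2) := by
  induction j with
  | zero => rw [Cn_sz]
  | succ j ih =>
    rw [Cn_ss, mul_add, ih, Cn_two]
    ring

theorem Cn_four (j : ℕ) : Cn 4 (j + 2) = Cn 4 j + (j + 3) ^ 2 := by
  have e : Cn 4 (j + 2) = Cn 4 j + Cn 3 (j + 1) + Cn 3 (j + 2) := by
    rw [Cn_ss, Cn_ss]
  have h1 := Cn_three (j + 1)
  have h2 := Cn_three (j + 2)
  rw [e]
  nlinarith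

theorem Cn_four_ge (j : ℕ) : (j + 1) ^ 2 ≤ Cn 4 j := by
  have key : ∀ j, (j + 1) ^ 2 ≤ Cn 4 j ∧ (j + 2) ^ 2 ≤ Cn 4 (j + 1) := by
    intro j
    induction j with
    | zero =>
      refine ⟨by rw [Cn_sz]; norm_num, ?_⟩
      have h1 : 2 * Cn 3 (0 + 1) = (1 + 1) * (1 + 2) := Cn_three 1
      rw [Cn_ss, Cn_sz]
      omega
    | succ j ih =>
      refine ⟨ih.2, ?_⟩
      rw [show j + 1 + 1 = j + 2 from rfl, Cn_four]
      nlinarith [ih.1]
  exact (key j).1

end Pool.Agent.CB3
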