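import Pool.Agent.CB3.NPDefs

/-!
# The plateau lemma, step 2: the finite scheme of a plateau (module NP2)

PROOF of `exists_pts`.  `B := PI I (n+1)`, `B' := PI I (n+2)`, both of dimension `τ` (`finrank_PI`).
`f := L (XX K N) c` is injective on `B` (`good_iff`, `h0`), hence on `B'` (`good_succ`), and maps `B'`
to `B` (`XX_PI`), so `f : B' ≃ B`.  Operators `T j := X j ∘ (f|B')⁻¹ : B → B` commute (copy from `flat`).
`ev : MvPolynomial (Fin N) K →ₐ[K] Module.End K B`, `X j ↦ T j` (e.g. `aeval` into the commutative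
subalgebra `Algebra.adjoin K (range T)`, or `MvPolynomial.aeval` needs a commutative target: use the
subalgebra), `𝔟 := ker ev`, i.e. `g ∈ 𝔟 ↔ ∀ ψ ∈ B, g(T) ψ = 0`.
(1) `f (T j ψ) = X j ψ` in degree `n` (`f` commutes with `X j`), so for `g ∈ S_{n+1}`, `ψ ∈ B`:
`f^{n+1} (g(T) ψ) = act g ψ` and `(g(T) ψ) (lf c ^ (n+1)) = ψ g`.  [monomials, induction on degree:
`f^k (g(T) ψ) = act g ψ` for `g ∈ S_k`, any `ψ ∈ B`, `k ≤ n + 1`; evaluate at `1`.]
(2) `ev (lf c) = id` since `∑ c j T j = f ∘ f⁻¹`; so `lf c - 1 ∈ 𝔟`.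
(3) If `g` satisfies `(g(T) ψ)(lf c ^ (n+1)) = 0` for all `ψ ∈ B` then `g ∈ 𝔟`: for `u ∈ S_{n+1}`,
`(g(T) ψ) u = (u(T) g(T) ψ)(lf c^(n+1)) = (g(T) (u(T) ψ))(lf c^(n+1)) = 0`, so `g(T) ψ = 0`
(`eq_zero_of_DD`).
(4) For `u ∈ S_{n+1}`: `u ∈ 𝔟 ↔ ∀ ψ ∈ B, ψ u = 0 ↔ u ∈ I` (`mem_of_PI`).
For `u ∈ S_{n+2}` and `ψ ∈ B`, `ψ' = (f|B')⁻¹ ψ`: `(u(T) ψ)(lf c^(n+1)) = ψ' u` (`u = X j v`:
`T j ψ = X j ψ'`, use (1)), so `I ∩ S_{n+2} ⊆ 𝔟`.  For a form `u ∈ I` of degree `k ≤ n+1`:
`lf c ^ (n+1-k) * u ∈ 𝔟` and `lf c ≡ 1`, so `u ∈ 𝔟`.  Hence `low I (n+2) ≤ 𝔟`.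
(5) The pairing `(S/𝔟) × B → K`, `(g, ψ) ↦ (g(T) ψ)(lf c^(n+1))` is nondegenerate on both sides ((3);
and `ψ u = 0` for all `u ∈ S_{n+1}` gives `ψ = 0`), so `S/𝔟` is finite and `finrank (S/𝔟) = τ`.
[`S/𝔟` embeds into `Dual B`, and `B` embeds into `Dual (S/𝔟)`.]
(6) `surj`: the image of `S_n` in `S/𝔟 ≅ Dual B` is everything: otherwise there is `0 ≠ ψ ∈ B` with
`(g(T) ψ)(lf c^(n+1)) = 0` for all `g ∈ S_n`, i.e. (`ev (lf c) = id`) `ψ (lf c * g) = 0` for all `g ∈ S_n`,
so `f ψ = 0` (`eq_zero_of_DD`), `ψ = 0` as `c` is good on `B`.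

`exists_BS`: `I := Ann φ ⊔ (lf r)`, `r = rr c c' s`; `hd I (n+1) = τ` and `hd I (n+2) = τ` by `hd_col`
and `Plat.inj_r` (as in step (a) of module NP1), `I ⊔ (lf c) = Ann φ ⊔ (lf c) ⊔ (lf c')`;
`low (Ann φ) (n+2) ≤ low I (n+2)`, `lf r ∈ low I (n+2)`.
-/

set_option autoImplicit false
set_option linter.all false

noncomputable section

namespace Pool.Agent.CB3

open Pool.Agent.CB Module MvPolynomial

variable {K : Type*} [Field K] {N : ℕ}

/-- evaluation of polynomials at commuting elements. -/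
theorem exists_ev {A ι : Type*} [Ring A] [Algebra K A] (T : ι → A)
    (hT : ∀ i j, T i * T j = T j * T i) :
    ∃ ev : MvPolynomial ι K →ₐ[K] A, ∀ j, ev (X j) = T j := by
  have hcomm : ∀ a ∈ Set.range T, ∀ b ∈ Set.range T, a * b = b * a := by
    rintro _ ⟨i, rfl⟩ _ ⟨j, rfl⟩
    exact hT i j
  letI := Algebra.adjoinCommRingOfComm K hcomm
  let f : MvPolynomial ι K →ₐ[K] Algebra.adjoin K (Set.range T) :=
    aeval fun j => ⟨T j, Algebra.subset_adjoin ⟨j, rfl⟩⟩
  refine ⟨(Algebra.adjoin K (Set.range T)).val.comp f, fun j => ?_⟩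
  rw [AlgHom.comp_apply]
  have : f (X j) = ⟨T j, Algebra.subset_adjoin ⟨j, rfl⟩⟩ := aeval_X _ _
  rw [this]
  rfl

lemma hom_succ_le {M : Submodule K (MvPolynomial (Fin N) K)} {k : ℕ}
    (h : ∀ (j : Fin N) (v : MvPolynomial (Fin N) K), v.IsHomogeneous k → X j * v ∈ M) :
    homogeneousSubmodule (Fin N) K (k + 1) ≤ M := by
  rw [← homogeneousSubmodule_one_pow (σ := Fin N) (R := K) (n := k + 1), pow_succ',
    homogeneousSubmodule_one_pow, Submodule.mul_le]
  intro u hu v hv
  obtain ⟨a, rfl⟩ := exists_lf_eq (show u.IsHomogeneous 1 from hu)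
  unfold lf
  rw [Finset.sum_mul]
  refine Submodule.sum_mem _ fun j _ => ?_
  rw [smul_mul_assoc]
  exact Submodule.smul_mem _ _ (h j v hv)

/-- the operators `X j ∘ c⁻¹`. -/
theorem exists_ops {K W : Type*} [Field K] [AddCommGroup W] [Module K W] {n : ℕ}
    {X : Fin n → Module.End K W} {D : ℕ → Submodule K W} (S : Sys X D) (i : ℕ) {c : Fin n → K}
    {A B : Submodule K W} [FiniteDimensional K A] [FiniteDimensional K B]
    (hA : A ≤ D (i + 1)) (hAB : ∀ j, ∀ w ∈ A, X j w ∈ B) (hB : Good X c B)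
    (hdim : finrank K A = finrank K B) :
    ∃ (s : B → A) (T : Fin n → Module.End K B), (∀ b, L X c (s b) = b) ∧
      (∀ j b, ((T j b : B) : W) = X j (s b)) ∧ (∀ i j, T i * T j = T j * T i) := by
  have hgA : Good X c A := good_succ S i hA hAB hB
  let f : A →ₗ[K] B := (L X c).restrict (fun w hw => L_mem hAB hw)
  have hf : Function.Injective f := by
    rw [← LinearMap.ker_eq_bot, Submodule.eq_bot_iff]
    intro w hw
    rw [LinearMap.mem_ker] at hw
    have : L X c w.1 = 0 := by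
      have := congrArg Subtype.val hw
      simpa [f] using this
    exact Subtype.ext (hgA w.1 w.2 this)
  let e : A ≃ₗ[K] B := LinearEquiv.ofInjectiveOfFinrankEq f hf hdim
  have he : ∀ a : A, ((e a : B) : W) = L X c a := by
    intro a
    have : e a = f a := rfl
    rw [this]; rfl
  have hes : ∀ b : B, L X c ((e.symm b : A) : W) = b := by
    intro b
    rw [← he, e.apply_symm_apply]
  let T : Fin n → Module.End K B := fun j =>
    ((X j).restrict (fun w hw => hAB j w hw) : A →ₗ[K] B) ∘ₗ e.symm.toLinearMap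
  have hTv : ∀ j (b : B), ((T j b : B) : W) = X j ((e.symm b : A) : W) := fun j b => rfl
  refine ⟨e.symm, T, hes, hTv, ?_⟩
  intro i j
  apply LinearMap.ext
  intro b
  apply Subtype.ext
  have hLT : ∀ j (b : B), L X c ((T j b : B) : W) = X j (b : W) := by
    intro j b
    rw [hTv, L_comm S.comm, hes]
  have hsub : ((T i * T j) b : W) - ((T j * T i) b : W) = 0 := by
    refine hB _ (B.sub_mem ((T i * T j) b).2 ((T j * T i) b).2) ?_
    rw [map_sub]
    have h1 : L X c (((T i * T j) b : B) : W) = X i ((T j b : B) : W) := hLT i (T j b)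
    have h2 : L X c (((T j * T i) b : B) : W) = X j ((T i b : B) : W) := hLT j (T i b)
    rw [h1, h2, hTv, hTv, sub_eq_zero]
    exact LinearMap.congr_fun (S.comm i j).eq _
  exact sub_eq_zero.1 hsub

theorem exists_ops_ev {K W : Type*} [Field K] [AddCommGroup W] [Module K W] {n : ℕ}
    {X : Fin n → Module.End K W} {D : ℕ → Submodule K W} (S : Sys X D) (i : ℕ) {c : Fin n → K}
    {A B : Submodule K W} [FiniteDimensional K A] [FiniteDimensional K B]
    (hA : A ≤ D (i + 1)) (hAB : ∀ j, ∀ w ∈ A, X j w ∈ B) (hB : Good X c B)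
    (hdim : finrank K A = finrank K B) :
    ∃ (s : B → A) (ev : MvPolynomial (Fin n) K →ₐ[K] Module.End K B), (∀ b, L X c (s b) = b) ∧
      (∀ j b, ((ev (MvPolynomial.X j) b : B) : W) = X j (s b)) := by
  obtain ⟨s, T, h1, h2, h3⟩ := exists_ops S i hA hAB hB hdim
  obtain ⟨ev, hev⟩ := exists_ev (K := K) T h3
  exact ⟨s, ev, h1, fun j b => by rw [hev]; exact h2 j b⟩

theorem pairing_aux {K W : Type*} [Field K] [AddCommGroup W] [Module K W] {B : Submodule K W}
    [FiniteDimensional K B] {R : Type*} [CommRing R] [Algebra K R] (𝔟 : Ideal R)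
    (Sn : Submodule K R) [FiniteDimensional K Sn] (lam : R →ₗ[K] B →ₗ[K] K)
    (hker : ∀ g, lam g = 0 ↔ g ∈ 𝔟) (hflip : ∀ b, (∀ g ∈ Sn, lam g b = 0) → b = 0) :
    Module.Finite K (R ⧸ 𝔟) ∧ finrank K (R ⧸ 𝔟) = finrank K B ∧ ∀ u, ∃ v ∈ Sn, u - v ∈ 𝔟 := by
  let lamn := lam.domRestrict Sn
  have hflip' : Function.Injective lamn.flip := by
    rw [← LinearMap.ker_eq_bot, Submodule.eq_bot_iff]
    intro b hb
    rw [LinearMap.mem_ker] at hb
    exact hflip b fun g hg => LinearMap.congr_fun hb ⟨g, hg⟩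
  have hsurj : LinearMap.range lamn = ⊤ := by
    apply Submodule.eq_top_of_finrank_eq
    rw [← finrank_range_flip lamn]
    exact (LinearMap.finrank_range_of_inj hflip').trans Subspace.dual_finrank_eq.symm
  have hkk : LinearMap.ker lam = Submodule.restrictScalars K 𝔟 := by
    ext g
    rw [LinearMap.mem_ker, hker]
    rfl
  have hlamsurj : Function.Surjective lam := by
    intro θ
    have : θ ∈ LinearMap.range lamn := by rw [hsurj]; trivial
    obtain ⟨v, hv⟩ := this
    exact ⟨v.1, hv⟩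
  let E1 : (R ⧸ 𝔟) ≃ₗ[K] Module.Dual K B :=
    (Submodule.Quotient.restrictScalarsEquiv K 𝔟).symm ≪≫ₗ
      (Submodule.quotEquivOfEq _ _ hkk.symm) ≪≫ₗ (lam.quotKerEquivOfSurjective hlamsurj)
  refine ⟨Module.Finite.equiv E1.symm, E1.finrank_eq.trans Subspace.dual_finrank_eq, ?_⟩
  intro u
  have : lam u ∈ LinearMap.range lamn := by rw [hsurj]; trivial
  obtain ⟨v, hv⟩ := this
  refine ⟨v.1, v.2, ?_⟩
  rw [← hker, map_sub, sub_eq_zero]
  exact hv.symm

theorem exists_pts {I : Ideal (MvPolynomial (Fin N) K)} (hI : HI I) {c : Fin N → K} {n τ : ℕ}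
    (h0 : hd (I ⊔ Ideal.span {lf c}) (n + 1) = 0) (h1 : hd I (n + 1) = τ)
    (h2 : hd I (n + 2) = τ) :
    ∃ 𝔟 : Ideal (MvPolynomial (Fin N) K), low I (n + 2) ≤ 𝔟 ∧ lf c - 1 ∈ 𝔟 ∧
      (∀ u : MvPolynomial (Fin N) K, u.IsHomogeneous (n + 1) → u ∈ 𝔟 → u ∈ I) ∧
      Module.Finite K (MvPolynomial (Fin N) K ⧸ 𝔟) ∧
      finrank K (MvPolynomial (Fin N) K ⧸ 𝔟) = τ ∧
      ∀ u : MvPolynomial (Fin N) K, ∃ v : MvPolynomial (Fin N) K, v.IsHomogeneous n ∧
        u - v ∈ 𝔟 := by
  have hgB : Good (XX K N) c (PI I (n + 1)) := (good_iff hI).2 h0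
  have hAB : ∀ j, ∀ w ∈ PI I (n + 2), XX K N j w ∈ PI I (n + 1) := fun j w hw => XX_PI j w hw
  have hfr : finrank K (PI I (n + 2)) = finrank K (PI I (n + 1)) := by
    rw [finrank_PI hI, finrank_PI hI, h1, h2]
  obtain ⟨sy, ev, hes, hTv'⟩ := exists_ops_ev (sysXX (K := K) (N := N)) (n + 1)
    (PI_le I (n + 2)) hAB hgB hfr
  obtain ⟨T, hT⟩ : ∃ T : Fin N → Module.End K (PI I (n + 1)), T = fun j => ev (X j) := ⟨_, rfl⟩
  have hev : ∀ j, ev (X j) = T j := fun j => by rw [hT]
  have hTv : ∀ j (b : PI I (n + 1)), ((T j b : PI I (n + 1)) : MvPolynomial (Fin N) K →ₗ[K] K) =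
      XX K N j ((sy b : PI I (n + 2)) : MvPolynomial (Fin N) K →ₗ[K] K) := fun j b => by
    rw [← hev]
    exact hTv' j b
  have hLT : ∀ j (b : PI I (n + 1)), L (XX K N) c ((T j b : PI I (n + 1)) :
      MvPolynomial (Fin N) K →ₗ[K] K) = XX K N j (b : MvPolynomial (Fin N) K →ₗ[K] K) := by
    intro j b
    rw [hTv, L_comm (sysXX (K := K) (N := N)).comm, hes]
  have hevcomm : ∀ g g' (b : PI I (n + 1)), ev g (ev g' b) = ev g' (ev g b) := by
    intro g g' b
    have h1 : ev g (ev g' b) = ev (g * g') b := by rw [map_mul]; rfl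
    have h2 : ev g' (ev g b) = ev (g' * g) b := by rw [map_mul]; rfl
    rw [h1, h2, mul_comm]
  have hevmul : ∀ g g' (b : PI I (n + 1)), ev (g * g') b = ev g (ev g' b) := by
    intro g g' b
    rw [map_mul]; rfl
  -- `ev (lf c) = 1`
  have hevc : ev (lf c) = 1 := by
    apply LinearMap.ext
    intro b
    apply Subtype.ext
    have h3 : ev (lf c) = ∑ j, c j • T j := by
      simp only [lf, map_sum, map_smul, hev]
    rw [h3]
    change ((((∑ j, c j • T j) b : PI I (n + 1)) : MvPolynomial (Fin N) K →ₗ[K] K)) = b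
    rw [LinearMap.sum_apply]
    have h4 : (((∑ j, (c j • T j) b : PI I (n + 1)) : MvPolynomial (Fin N) K →ₗ[K] K)) =
        ∑ j, c j • XX K N j ((sy b : PI I (n + 2)) : MvPolynomial (Fin N) K →ₗ[K] K) := by
      rw [AddSubmonoidClass.coe_finsetSum]
      refine Finset.sum_congr rfl fun j _ => ?_
      rw [← hTv j b]
      rfl
    rw [h4, ← CB.L_apply]
    exact hes b
  -- claim (1)
  have hact : ∀ k, ∀ g ∈ homogeneousSubmodule (Fin N) K k, ∀ b : PI I (n + 1),
      act (lf c ^ k) ((ev g b : PI I (n + 1)) : MvPolynomial (Fin N) K →ₗ[K] K) =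
        act g (b : MvPolynomial (Fin N) K →ₗ[K] K) := by
    intro k
    induction k with
    | zero =>
      intro g hg b
      have h4 : g.totalDegree = 0 := Nat.le_zero.1 (IsHomogeneous.totalDegree_le hg)
      rw [totalDegree_eq_zero_iff_eq_C] at h4
      rw [h4, ← mul_one (C (coeff 0 g)), ← smul_eq_C_mul, map_smul, map_one, pow_zero, act_smul]
      apply LinearMap.ext
      intro x
      simp
    | succ k ih =>
      let M : Submodule K (MvPolynomial (Fin N) K) :=
        { carrier := {g | ∀ b : PI I (n + 1),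
            act (lf c ^ (k + 1)) ((ev g b : PI I (n + 1)) : MvPolynomial (Fin N) K →ₗ[K] K) =
              act g (b : MvPolynomial (Fin N) K →ₗ[K] K)}
          add_mem' := by
            intro x y hx hy b
            rw [map_add, LinearMap.add_apply, Submodule.coe_add, map_add, hx b, hy b, act_add]
          zero_mem' := by
            intro b
            rw [map_zero, LinearMap.zero_apply, Submodule.coe_zero, map_zero]
            apply LinearMap.ext
            intro x
            simp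
          smul_mem' := by
            intro a x hx b
            rw [map_smul, LinearMap.smul_apply, Submodule.coe_smul, map_smul, hx b, act_smul] }
      have hM : homogeneousSubmodule (Fin N) K (k + 1) ≤ M := by
        refine hom_succ_le fun j v hv => ?_
        intro b
        rw [hevmul, hev, pow_succ', act_mul]
        have h5 : act (lf c) ((T j (ev v b) : PI I (n + 1)) :
            MvPolynomial (Fin N) K →ₗ[K] K) = XX K N j ((ev v b : PI I (n + 1)) :
            MvPolynomial (Fin N) K →ₗ[K] K) := by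
          rw [← L_XX_lf]
          exact hLT j _
        rw [h5]
        change act (lf c ^ k) (act (X j) _) = _
        rw [act_comm, ih v hv b, mul_comm, act_mul]
      exact fun g hg b => hM hg b
  have heps : ∀ u : MvPolynomial (Fin N) K, u.IsHomogeneous (n + 1) → ∀ b : PI I (n + 1),
      ((ev u b : PI I (n + 1)) : MvPolynomial (Fin N) K →ₗ[K] K) (lf c ^ (n + 1)) =
        (b : MvPolynomial (Fin N) K →ₗ[K] K) u := by
    intro u hu b
    have := LinearMap.congr_fun (hact (n + 1) u hu b) 1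
    rw [act_apply, act_apply, mul_one, mul_one] at this
    exact this
  -- (3)
  have h3 : ∀ g, (∀ b : PI I (n + 1),
      ((ev g b : PI I (n + 1)) : MvPolynomial (Fin N) K →ₗ[K] K) (lf c ^ (n + 1)) = 0) →
      ev g = 0 := by
    intro g hg
    apply LinearMap.ext
    intro b
    apply Subtype.ext
    refine eq_zero_of_DD (ev g b).2.1 fun u hu => ?_
    rw [← heps u hu, hevcomm]
    exact hg _
  -- (4)
  have h4 : ∀ u : MvPolynomial (Fin N) K, u.IsHomogeneous (n + 1) → (ev u = 0 ↔ u ∈ I) := by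
    intro u hu
    constructor
    · intro h
      refine mem_of_PI hI hu fun ψ hψ => ?_
      have := heps u hu ⟨ψ, hψ⟩
      rw [h] at this
      rw [← this]
      rfl
    · intro h
      apply h3
      intro b
      rw [heps u hu]
      exact b.2.2 u h
  have h5 : ∀ u : MvPolynomial (Fin N) K, u.IsHomogeneous (n + 2) → ∀ b : PI I (n + 1),
      ((ev u b : PI I (n + 1)) : MvPolynomial (Fin N) K →ₗ[K] K) (lf c ^ (n + 1)) =
        ((sy b : PI I (n + 2)) : MvPolynomial (Fin N) K →ₗ[K] K) u := by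
    let M : Submodule K (MvPolynomial (Fin N) K) :=
      { carrier := {g | ∀ b : PI I (n + 1),
          ((ev g b : PI I (n + 1)) : MvPolynomial (Fin N) K →ₗ[K] K) (lf c ^ (n + 1)) =
            ((sy b : PI I (n + 2)) : MvPolynomial (Fin N) K →ₗ[K] K) g}
        add_mem' := by
          intro x y hx hy b
          rw [map_add, LinearMap.add_apply, Submodule.coe_add, LinearMap.add_apply, hx b, hy b,
            map_add]
        zero_mem' := by
          intro b
          rw [map_zero, LinearMap.zero_apply, map_zero]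
          rfl
        smul_mem' := by
          intro a x hx b
          rw [map_smul, LinearMap.smul_apply, Submodule.coe_smul, LinearMap.smul_apply, hx b,
            map_smul] }
    have hM : homogeneousSubmodule (Fin N) K (n + 1 + 1) ≤ M := by
      refine hom_succ_le fun j v hv => ?_
      intro b
      rw [mul_comm, hevmul, hev, heps v hv, hTv, mul_comm]
      rfl
    exact fun u hu b => hM hu b
  have h6 : ∀ u ∈ I, u.IsHomogeneous (n + 2) → ev u = 0 := by
    intro u hu hu2
    apply h3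
    intro b
    rw [h5 u hu2]
    exact (sy b).2.2 u hu
  have h7 : ∀ k, k ≤ n + 2 → ∀ u ∈ I, u.IsHomogeneous k → ev u = 0 := by
    intro k hk u hu huk
    rcases Nat.lt_or_ge k (n + 2) with hk' | hk'
    · obtain ⟨m, hm⟩ := Nat.exists_eq_add_of_le (show k ≤ n + 1 by omega)
      have h8 : (u * lf c ^ m).IsHomogeneous (n + 1) := by
        have := huk.mul ((lf_hom c).pow m)
        rw [one_mul, ← hm] at this
        exact this
      have h9 := (h4 _ h8).2 (I.mul_mem_right _ hu)
      rw [map_mul, map_pow, hevc, one_pow, mul_one] at h9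
      exact h9
    · have : k = n + 2 := le_antisymm hk hk'
      subst this
      exact h6 u hu huk
  -- the pairing with `S_n`
  let lam : MvPolynomial (Fin N) K →ₗ[K] Module.Dual K (PI I (n + 1)) :=
    { toFun := fun g =>
        { toFun := fun b => ((ev g b : PI I (n + 1)) : MvPolynomial (Fin N) K →ₗ[K] K)
            (lf c ^ (n + 1))
          map_add' := by
            intro x y
            rw [map_add]; rfl
          map_smul' := by
            intro a x
            rw [map_smul]; rfl }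
      map_add' := by
        intro x y
        apply LinearMap.ext
        intro b
        change ((ev (x + y) b : PI I (n + 1)) : MvPolynomial (Fin N) K →ₗ[K] K) _ = _
        rw [map_add]; rfl
      map_smul' := by
        intro a x
        apply LinearMap.ext
        intro b
        change ((ev (a • x) b : PI I (n + 1)) : MvPolynomial (Fin N) K →ₗ[K] K) _ = _
        rw [map_smul]; rfl }
  have hlam : ∀ g (b : PI I (n + 1)), lam g b =
      ((ev g b : PI I (n + 1)) : MvPolynomial (Fin N) K →ₗ[K] K) (lf c ^ (n + 1)) :=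
    fun _ _ => rfl
  have hker : ∀ g, lam g = 0 ↔ ev g = 0 := by
    intro g
    constructor
    · intro h
      exact h3 g fun b => LinearMap.congr_fun h b
    · intro h
      apply LinearMap.ext
      intro b
      rw [hlam, h]
      rfl
  have hflip : ∀ b : PI I (n + 1), (∀ g ∈ homogeneousSubmodule (Fin N) K n, lam g b = 0) →
      b = 0 := by
    intro b hb
    have h8 : L (XX K N) c (b : MvPolynomial (Fin N) K →ₗ[K] K) = 0 := by
      refine eq_zero_of_DD (i := n) ?_ fun g hg => ?_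
      · rw [L_XX_lf]
        exact act_mem_DD (lf_hom c) b.2.1
      · have h9 : lam g b = 0 := hb g hg
        have h10 : ev g = ev (lf c * g) := by rw [map_mul, hevc, one_mul]
        rw [hlam, h10, heps _ (by
          have := (lf_hom c).mul hg
          rw [add_comm] at this
          exact this)] at h9
        rw [L_XX_lf]
        exact h9
    exact Subtype.ext (hgB _ b.2 h8)
  let 𝔟 : Ideal (MvPolynomial (Fin N) K) := RingHom.ker ev
  have h𝔟 : ∀ g, g ∈ 𝔟 ↔ ev g = 0 := fun g => Iff.rfl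
  obtain ⟨hfin, hrank, hsu⟩ := pairing_aux (K := K) 𝔟 (homogeneousSubmodule (Fin N) K n) lam
    (fun g => by rw [hker, h𝔟]) hflip
  refine ⟨𝔟, ?_, ?_, ?_, hfin, ?_, ?_⟩
  · refine Ideal.span_le.2 ?_
    rintro u ⟨hu, k, hk, huk⟩
    exact (h𝔟 u).2 (h7 k hk u hu huk)
  · rw [h𝔟, ← hker, map_sub, sub_eq_zero]
    apply LinearMap.ext
    intro b
    rw [hlam, hlam, hevc, map_one]
  · intro u hu hu0
    exact (h4 u hu).1 ((h𝔟 u).1 hu0)
  · rw [hrank, finrank_PI hI, h1]
  · intro u
    obtain ⟨v, hv, hv'⟩ := hsu u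
    exact ⟨v, hv, hv'⟩

theorem exists_BS {φ : MvPolynomial (Fin N) K →ₗ[K] K} {t n τ D E : ℕ}
    {c c' : Fin N → K} (H : Plat φ t n τ D E c c') (s : K)
    (hr : (∀ x : MvPolynomial (Fin N) K, x.IsHomogeneous n → lf (rr c c' s) * x ∈ Ann φ →
        x ∈ Ann φ) ∧
      (∀ x : MvPolynomial (Fin N) K, x.IsHomogeneous (n + 1) → lf (rr c c' s) * x ∈ Ann φ →
        x ∈ Ann φ)) :
    ∃ 𝔟, BS φ n τ c (rr c c' s) 𝔟 := by
  have hI := HI_Ann H.mem
  have hI' : HI (Ann φ ⊔ Ideal.span {lf (rr c c' s)}) := HI_sup hI (HI_span (lf_hom _))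
  have key : ∀ m, (∀ x : MvPolynomial (Fin N) K, x.IsHomogeneous m →
      lf (rr c c' s) * x ∈ Ann φ → x ∈ Ann φ) →
      hd (Ann φ) m + hd (Ann φ ⊔ Ideal.span {lf (rr c c' s)}) (m + 1) = hd (Ann φ) (m + 1) := by
    intro m hm
    have h1 := hd_col hI (lf_hom (rr c c' s)) m
    have h2 : hd (col (Ann φ) (lf (rr c c' s))) m = hd (Ann φ) m := by
      have : Jn (col (Ann φ) (lf (rr c c' s))) m = Jn (Ann φ) m := by
        apply le_antisymm
        · rintro x ⟨hx, hxm⟩
          exact ⟨hm x hxm hx, hxm⟩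
        · exact Jn_mono (le_col _ _) m
      unfold hd
      rw [this]
    rw [h2] at h1
    exact h1
  have hk1 := key n hr.1
  have hk2 := key (n + 1) hr.2
  have hg1 := H.g1
  have hg2 := H.g2
  have hsup : Ann φ ⊔ Ideal.span {lf (rr c c' s)} ⊔ Ideal.span {lf c} =
      Ann φ ⊔ Ideal.span {lf c} ⊔ Ideal.span {lf c'} := by
    rw [lf_rr]
    apply le_antisymm
    · refine sup_le (sup_le (le_sup_left.trans le_sup_left) ?_) (le_sup_right.trans le_sup_left)
      rw [Ideal.span_le, Set.singleton_subset_iff]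
      refine Ideal.sub_mem _ (Ideal.mem_sup_right (Ideal.mem_span_singleton_self _))
        (Ideal.mem_sup_left (Ideal.mem_sup_right ?_))
      exact Ideal.mul_mem_left _ _ (Ideal.mem_span_singleton_self _)
    · refine sup_le (sup_le (le_sup_left.trans le_sup_left) le_sup_right) ?_
      rw [Ideal.span_le, Set.singleton_subset_iff]
      have h : (lf c' - C s * lf c) + C s * lf c ∈
          Ann φ ⊔ Ideal.span {lf c' - C s * lf c} ⊔ Ideal.span {lf c} :=
        Ideal.add_mem _ (Ideal.mem_sup_left (Ideal.mem_sup_right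
          (Ideal.mem_span_singleton_self _))) (Ideal.mem_sup_right (Ideal.mul_mem_left _ _
          (Ideal.mem_span_singleton_self _)))
      rwa [sub_add_cancel] at h
  obtain ⟨𝔟, hb1, hb2, hb3, hb4, hb5, hb6⟩ := exists_pts hI' (c := c) (n := n) (τ := τ)
    (by rw [hsup]; exact H.h1) (by omega) (by
      have : n + 1 + 1 = n + 2 := rfl
      rw [this] at hk2
      omega)
  refine ⟨𝔟, ⟨?_, ?_, hb2, hb3, hb4, hb5, hb6⟩⟩
  · refine le_trans ?_ hb1
    refine Ideal.span_le.2 ?_
    rintro f ⟨hf, k, hk, hfk⟩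
    exact mem_low (Ideal.mem_sup_left hf) hk hfk
  · exact hb1 (mem_low (Ideal.mem_sup_right (Ideal.mem_span_singleton_self _)) (by omega)
      (lf_hom _))

end Pool.Agent.CB3
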