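import Pool.Agent.CB3.NPDefs

/-!
# The plateau lemma, step 3: lower bound for the Hilbert function of `low (Ann φ) (n+2)` (module NP3)

Notation `r s := lf (rr c c' s) = lf c' - C s * lf c`, `𝔟 s` as in `BS`, `S = MvPolynomial (Fin N) K`.
For an arbitrary (not homogeneous) ideal `𝔠`, `hd 𝔠 m = dim S_m - dim (𝔠 ∩ S_m)` still makes sense.
PROOF.
(a) For `m ≥ n`, `S_m → S / 𝔟 s` is surjective (multiply the `v` of `surj` by `lf c ^ (m - n)`,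
`lf c ≡ 1`), so `hd (𝔟 s) m = τ`.
(b) For `λ ≠ s`, `r λ ≡ (s - λ)` modulo `𝔟 s` (since `r λ = r s + C (s - λ) * lf c`), a unit.
(c) For a finite set `Λ`, `I_Λ := ⨅ λ ∈ Λ, 𝔟 λ`.  If `λ₀ ∉ Λ`, `m ≥ n`:
`hd (I_Λ) m + τ ≤ hd (I_{insert λ₀ Λ}) (m+1)`.  Proof: multiplication by `r λ₀` maps `S_m` into
`S_{m+1} ∩ 𝔟 λ₀`, and `r λ₀ u ∈ I_Λ` implies `u ∈ I_Λ` by (b); so
`dim (S_{m+1} ∩ 𝔟 λ₀) - dim (S_{m+1} ∩ 𝔟 λ₀ ∩ I_Λ) ≥ dim S_m - dim (S_m ∩ I_Λ)`; and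
`dim S_{m+1} - dim (S_{m+1} ∩ 𝔟 λ₀) = τ` by (a).
(d) There is a finite `Λ` with `S_n ∩ I_Λ = S_n ∩ Ann φ`.  `⊇`: `low_le`.  Choose `Λ` finite with
`finrank (S_n ∩ I_Λ)` minimal, `V := S_n ∩ I_Λ`; then `V = S_n ∩ I_{Λ'}` for all finite `Λ' ⊇ Λ`, so
`V ≤ 𝔟 μ` for all `μ : K`.  Suppose `V ≠ S_n ∩ Ann φ`.  Fix `λ ∉ Λ`.  For `u ∈ V`: `lf c * u ∈ S_{n+1} ∩
𝔟 λ`, so by `mem_of` and `mem_sup_span`, `lf c * u = a + r λ * w`, `a ∈ Ann φ`, `w ∈ S_n`.  `w` is unique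
modulo `Ann φ` (`Plat.inj_r`: hypothesis `hr`), and `w ∈ V`: for `μ ∈ Λ`, `a ∈ 𝔟 μ` (`a` is a form of degree
`n + 1` of `Ann φ`), `u ∈ 𝔟 μ`, so `r λ * w ∈ 𝔟 μ`, and `r λ` is a unit modulo `𝔟 μ` (b).
So we get a linear map `Φ` on `V̄ := V / (S_n ∩ Ann φ)` (nonzero, finite-dimensional) with
`lf c * u ≡ r λ * Φ u mod Ann φ`; it is injective by `H.inj`.  Let `Φ ū = κ ū`, `ū ≠ 0`, an eigenvector,
`κ ≠ 0`: `lf c * u - κ (lf c' - λ lf c) u ∈ Ann φ`, i.e. `-κ * r (λ + κ⁻¹) * u ∈ Ann φ`, so `u ∈ Ann φ` by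
`hr (λ + κ⁻¹)`, contradiction.
[To avoid quotients one may choose a complement, or work with the images `act u φ ∈ P φ n`.]
(e) With `Λ` from (d) and `k` further elements (`K` is infinite), (c) gives
`hd (Ann φ) n + k τ = hd I_Λ n + k τ ≤ hd I_{Λ'} (n+k) ≤ hd (low (Ann φ) (n+2)) (n+k)` (`hd_mono`).
-/

set_option autoImplicit false
set_option linter.all false

noncomputable section

namespace Pool.Agent.CB3

open Pool.Agent.CB Module MvPolynomial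

variable {K : Type*} [Field K] {N : ℕ}

/-- the intersection of finitely many `𝔟 s`. -/
def IΛ (𝔟 : K → Ideal (MvPolynomial (Fin N) K)) (Λ : Finset K) : Ideal (MvPolynomial (Fin N) K) :=
  ⨅ s ∈ Λ, 𝔟 s

lemma mem_IΛ {𝔟 : K → Ideal (MvPolynomial (Fin N) K)} {Λ : Finset K}
    {x : MvPolynomial (Fin N) K} : x ∈ IΛ 𝔟 Λ ↔ ∀ s ∈ Λ, x ∈ 𝔟 s := by
  unfold IΛ
  simp only [Submodule.mem_iInf]

/-- (a) -/
lemma hd_BS {φ : MvPolynomial (Fin N) K →ₗ[K] K} {n τ : ℕ} {c r : Fin N → K}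
    {𝔟 : Ideal (MvPolynomial (Fin N) K)} (h : BS φ n τ c r 𝔟) {m : ℕ} (hm : n ≤ m) :
    hd 𝔟 m = τ := by
  set I' : Submodule K (MvPolynomial (Fin N) K) := Submodule.restrictScalars K 𝔟 with hI'
  have hpow : ∀ k : ℕ, lf c ^ k - 1 ∈ 𝔟 := by
    intro k
    have h1 : lf c - 1 ∣ lf c ^ k - 1 := by
      have := sub_dvd_pow_sub_pow (lf c) 1 k
      rwa [one_pow] at this
    exact 𝔟.mem_of_dvd h1 h.one
  have h1 := finrank_map_add_inf_ker (I'.mkQ) (homogeneousSubmodule (Fin N) K m)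
  have h2 : (homogeneousSubmodule (Fin N) K m ⊓ LinearMap.ker I'.mkQ : Submodule K _)
      = Jn 𝔟 m := by
    rw [Submodule.ker_mkQ, inf_comm]
    rfl
  have h3 : (homogeneousSubmodule (Fin N) K m).map I'.mkQ = ⊤ := by
    rw [eq_top_iff]
    rintro y -
    obtain ⟨u, rfl⟩ := I'.mkQ_surjective y
    obtain ⟨v, hv, huv⟩ := h.surj u
    refine ⟨v * lf c ^ (m - n), ?_, ?_⟩
    · have h4 := hv.mul ((lf_hom c).pow (m - n))
      rw [one_mul, Nat.add_sub_cancel' hm] at h4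
      exact h4
    · rw [Submodule.mkQ_apply, Submodule.mkQ_apply, Submodule.Quotient.eq]
      show v * lf c ^ (m - n) - u ∈ 𝔟
      have h5 : v * lf c ^ (m - n) - u = v * (lf c ^ (m - n) - 1) - (u - v) := by ring
      rw [h5]
      exact 𝔟.sub_mem (𝔟.mul_mem_left _ (hpow _)) huv
  have h4 : finrank K (⊤ : Submodule K (MvPolynomial (Fin N) K ⧸ I')) = τ := by
    rw [finrank_top]
    exact h.rank
  rw [h2, h3, h4] at h1
  unfold hd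
  omega

/-- (b) -/
lemma unit_BS {φ : MvPolynomial (Fin N) K →ₗ[K] K} {n τ : ℕ} {c c' : Fin N → K} {s l : K}
    {𝔟 : Ideal (MvPolynomial (Fin N) K)} (h : BS φ n τ c (rr c c' s) 𝔟) (hl : l ≠ s)
    {u : MvPolynomial (Fin N) K} (hu : lf (rr c c' l) * u ∈ 𝔟) : u ∈ 𝔟 := by
  have h1 : C (s - l) * u = lf (rr c c' l) * u - lf (rr c c' s) * u
      - C (s - l) * (lf c - 1) * u := by
    rw [lf_rr, lf_rr, C_sub]
    ring
  have h2 : C (s - l) * u ∈ 𝔟 := by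
    rw [h1]
    exact 𝔟.sub_mem (𝔟.sub_mem hu (𝔟.mul_mem_right _ h.r_mem))
      (𝔟.mul_mem_right _ (𝔟.mul_mem_left _ h.one))
  have h3 : u = C (s - l)⁻¹ * (C (s - l) * u) := by
    rw [← mul_assoc, ← C_mul, inv_mul_cancel₀ (sub_ne_zero.2 (Ne.symm hl)), C_1, one_mul]
  rw [h3]
  exact 𝔟.mul_mem_left _ h2

/-- (c) -/
lemma step_BS [DecidableEq K] {φ : MvPolynomial (Fin N) K →ₗ[K] K} {n τ : ℕ} {c c' : Fin N → K}
    {𝔟 : K → Ideal (MvPolynomial (Fin N) K)} (h𝔟 : ∀ s, BS φ n τ c (rr c c' s) (𝔟 s))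
    {Λ : Finset K} {l : K} (hl : l ∉ Λ) {m : ℕ} (hm : n ≤ m) :
    hd (IΛ 𝔟 Λ) m + τ ≤ hd (IΛ 𝔟 (insert l Λ)) (m + 1) := by
  set I' : Submodule K (MvPolynomial (Fin N) K) := Submodule.restrictScalars K (IΛ 𝔟 Λ) with hI'
  have e1 := finrank_map_add_inf_ker (I'.mkQ) (Jn (𝔟 l) (m + 1))
  have e2 := finrank_map_add_inf_ker (I'.mkQ ∘ₗ LinearMap.mulLeft K (lf (rr c c' l)))
    (homogeneousSubmodule (Fin N) K m)
  have h1 : (Jn (𝔟 l) (m + 1) ⊓ LinearMap.ker I'.mkQ : Submodule K _)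
      = Jn (IΛ 𝔟 (insert l Λ)) (m + 1) := by
    ext x
    rw [Submodule.mem_inf, Submodule.ker_mkQ, mem_Jn, mem_Jn, mem_IΛ]
    constructor
    · rintro ⟨⟨h1, h2⟩, h3⟩
      refine ⟨fun s hs => ?_, h2⟩
      rw [Finset.mem_insert] at hs
      rcases hs with rfl | hs
      · exact h1
      · exact mem_IΛ.1 h3 s hs
    · rintro ⟨h1, h2⟩
      exact ⟨⟨h1 l (Finset.mem_insert_self _ _), h2⟩,
        mem_IΛ.2 fun s hs => h1 s (Finset.mem_insert_of_mem hs)⟩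
  have h2 : (homogeneousSubmodule (Fin N) K m ⊓
      LinearMap.ker (I'.mkQ ∘ₗ LinearMap.mulLeft K (lf (rr c c' l))) : Submodule K _)
      = Jn (IΛ 𝔟 Λ) m := by
    ext x
    rw [Submodule.mem_inf, LinearMap.mem_ker, mem_Jn, LinearMap.comp_apply,
      Submodule.mkQ_apply, Submodule.Quotient.mk_eq_zero, LinearMap.mulLeft_apply]
    constructor
    · rintro ⟨h1, h2⟩
      refine ⟨mem_IΛ.2 fun s hs => ?_, h1⟩
      refine unit_BS (h𝔟 s) (l := l) (by rintro rfl; exact hl hs) (mem_IΛ.1 h2 s hs)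
    · rintro ⟨h1, h2⟩
      exact ⟨h2, (IΛ 𝔟 Λ).mul_mem_left _ h1⟩
  have h3 : (homogeneousSubmodule (Fin N) K m).map
      (I'.mkQ ∘ₗ LinearMap.mulLeft K (lf (rr c c' l))) ≤ (Jn (𝔟 l) (m + 1)).map I'.mkQ := by
    rintro _ ⟨u, hu, rfl⟩
    refine ⟨lf (rr c c' l) * u, ⟨(𝔟 l).mul_mem_right _ (h𝔟 l).r_mem, ?_⟩, rfl⟩
    have := (lf_hom (rr c c' l)).mul (show u.IsHomogeneous m from hu)
    rw [add_comm] at this
    exact this
  have h4 := Submodule.finrank_mono h3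
  rw [h1] at e1
  rw [h2] at e2
  have h5 := hd_BS (h𝔟 l) (m := m + 1) (by omega)
  have h6 := hd_add (𝔟 l) (m + 1)
  have h7 := hd_add (IΛ 𝔟 (insert l Λ)) (m + 1)
  have h8 := hd_add (IΛ 𝔟 Λ) m
  omega

/-- generalised eigenvalue -/
lemma exists_gen_eigen [IsAlgClosed K] {V W : Type*} [AddCommGroup V] [Module K V]
    [AddCommGroup W] [Module K W] [FiniteDimensional K V] [Nontrivial V] (A B : V →ₗ[K] W)
    (hB : Function.Injective B) (hAB : LinearMap.range A ≤ LinearMap.range B) :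
    ∃ (κ : K) (v : V), v ≠ 0 ∧ A v = κ • B v := by
  let e := LinearEquiv.ofInjective B hB
  let F : V →ₗ[K] V := e.symm.toLinearMap ∘ₗ
    (A.codRestrict (LinearMap.range B) fun v => hAB ⟨v, rfl⟩)
  obtain ⟨κ, hκ⟩ := Module.End.exists_eigenvalue F
  obtain ⟨v, hv⟩ := hκ.exists_hasEigenvector
  refine ⟨κ, v, hv.2, ?_⟩
  have h1 : F v = κ • v := hv.apply_eq_smul
  have h2 : e (F v) = (A.codRestrict (LinearMap.range B) fun v => hAB ⟨v, rfl⟩) v := by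
    simp only [F, LinearMap.comp_apply, LinearEquiv.coe_coe, LinearEquiv.apply_symm_apply]
  have h3 : ((e (F v) : LinearMap.range B) : W) = B (F v) := LinearEquiv.ofInjective_apply B (F v)
  have h4 : A v = B (F v) := by
    rw [← h3, h2]
    rfl
  rw [h4, h1, map_smul]

lemma exists_gen_eigen' [IsAlgClosed K] {Y : Type*} [AddCommGroup Y] [Module K Y]
    (W : Submodule K Y) [FiniteDimensional K W] (hW : W ≠ ⊥) (A B : Module.End K Y)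
    (hB : ∀ y ∈ W, B y = 0 → y = 0) (hAB : ∀ y ∈ W, ∃ z ∈ W, A y = B z) :
    ∃ κ : K, ∃ y ∈ W, y ≠ 0 ∧ A y = κ • B y := by
  have : Nontrivial W := by
    rw [Submodule.nontrivial_iff_ne_bot]
    exact hW
  obtain ⟨κ, ⟨y, hy⟩, hy0, h⟩ := exists_gen_eigen (A.domRestrict W) (B.domRestrict W) (by
    rw [← LinearMap.ker_eq_bot, LinearMap.ker_eq_bot']
    rintro ⟨y, hy⟩ h
    exact Subtype.ext (hB y hy h)) (by
    rintro _ ⟨⟨y, hy⟩, rfl⟩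
    obtain ⟨z, hz, h⟩ := hAB y hy
    exact ⟨⟨z, hz⟩, h.symm⟩)
  exact ⟨κ, y, hy, fun h0 => hy0 (Subtype.ext h0), h⟩

lemma exists_eigen [IsAlgClosed K] (φ : MvPolynomial (Fin N) K →ₗ[K] K)
    (V : Submodule K (MvPolynomial (Fin N) K)) [FiniteDimensional K V]
    (hV : ∃ x ∈ V, x ∉ Ann φ) (f g : MvPolynomial (Fin N) K)
    (hg : ∀ x ∈ V, g * x ∈ Ann φ → x ∈ Ann φ)
    (hfg : ∀ x ∈ V, ∃ w ∈ V, f * x - g * w ∈ Ann φ) :
    ∃ (κ : K), ∃ x ∈ V, x ∉ Ann φ ∧ f * x - κ • (g * x) ∈ Ann φ := by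
  obtain ⟨κ, ψ, hψ, hψ0, hκ⟩ := exists_gen_eigen' (V.map (actφ φ)) (by
    intro hbot
    obtain ⟨x, hx, hx0⟩ := hV
    have : actφ φ x ∈ V.map (actφ φ) := Submodule.mem_map_of_mem hx
    rw [hbot, Submodule.mem_bot] at this
    exact hx0 this) (act f) (act g) (by
    rintro _ ⟨u, hu, rfl⟩ h
    rw [actφ_apply, ← act_mul, mul_comm] at h
    exact hg u hu h) (by
    rintro _ ⟨u, hu, rfl⟩
    obtain ⟨w, hw, h⟩ := hfg u hu
    refine ⟨actφ φ w, Submodule.mem_map_of_mem hw, ?_⟩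
    have h1 : f * u = g * w + (f * u - g * w) := by ring
    rw [actφ_apply, actφ_apply, ← act_mul, ← act_mul, mul_comm u, h1, act_add, mem_Ann.1 h,
      add_zero, mul_comm w])
  obtain ⟨u, hu, rfl⟩ := hψ
  refine ⟨κ, u, hu, fun h => hψ0 h, ?_⟩
  rw [actφ_apply, ← act_mul, ← act_mul] at hκ
  have h3 : f * u - κ • (g * u) = u * f + (-κ) • (u * g) := by
    rw [neg_smul, ← sub_eq_add_neg, mul_comm u f, mul_comm u g]
  rw [h3, mem_Ann, act_add, act_smul, hκ, ← add_smul, add_neg_cancel, zero_smul]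

/-- (d) -/
lemma exists_Λ [IsAlgClosed K] [DecidableEq K] {φ : MvPolynomial (Fin N) K →ₗ[K] K}
    {t n τ D E : ℕ} {c c' : Fin N → K} (H : Plat φ t n τ D E c c')
    (hr : ∀ (s : K) (x : MvPolynomial (Fin N) K), x.IsHomogeneous n →
      lf (rr c c' s) * x ∈ Ann φ → x ∈ Ann φ)
    (𝔟 : K → Ideal (MvPolynomial (Fin N) K))
    (h𝔟 : ∀ s, BS φ n τ c (rr c c' s) (𝔟 s)) :
    ∃ Λ : Finset K, Jn (IΛ 𝔟 Λ) n = Jn (Ann φ) n := by
  -- minimal choice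
  obtain ⟨Λ, hΛ⟩ : ∃ Λ : Finset K, ∀ Λ' : Finset K,
      finrank K (Jn (IΛ 𝔟 Λ) n) ≤ finrank K (Jn (IΛ 𝔟 Λ') n) := by
    have hne : (Set.range (fun Λ : Finset K => finrank K (Jn (IΛ 𝔟 Λ) n))).Nonempty :=
      ⟨_, ∅, rfl⟩
    obtain ⟨Λ, hΛ⟩ := Nat.sInf_mem hne
    exact ⟨Λ, fun Λ' => hΛ.le.trans (Nat.sInf_le ⟨Λ', rfl⟩)⟩
  have hsub : Jn (Ann φ) n ≤ Jn (IΛ 𝔟 Λ) n := by
    rintro x ⟨hx, hxn⟩
    exact ⟨mem_IΛ.2 fun s _ => (h𝔟 s).low_le (mem_low hx (by omega) hxn), hxn⟩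
  have hall : ∀ x ∈ Jn (IΛ 𝔟 Λ) n, ∀ s, x ∈ 𝔟 s := by
    intro x hx s
    have h1 : Jn (IΛ 𝔟 (insert s Λ)) n ≤ Jn (IΛ 𝔟 Λ) n := by
      rintro y ⟨hy, hyn⟩
      exact ⟨mem_IΛ.2 fun t ht => mem_IΛ.1 hy t (Finset.mem_insert_of_mem ht), hyn⟩
    have h2 : Jn (IΛ 𝔟 (insert s Λ)) n = Jn (IΛ 𝔟 Λ) n :=
      Submodule.eq_of_le_of_finrank_le h1 (hΛ _)
    rw [← h2] at hx
    exact mem_IΛ.1 hx.1 s (Finset.mem_insert_self _ _)
  refine ⟨Λ, ?_⟩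
  by_contra hne
  have hV : ∃ x ∈ Jn (IΛ 𝔟 Λ) n, x ∉ Ann φ := by
    by_contra hcon
    push Not at hcon
    exact hne (le_antisymm (fun x hx => ⟨hcon x hx, hx.2⟩) hsub)
  obtain ⟨l, hl⟩ := Infinite.exists_notMem_finset Λ
  obtain ⟨κ, u, hu, hu0, hκ⟩ := exists_eigen φ (Jn (IΛ 𝔟 Λ) n) hV (lf c) (lf (rr c c' l))
    (fun x hx h => hr l x hx.2 h) (by
      intro u hu
      have h1 : (lf c * u).IsHomogeneous (n + 1) := by
        have := (lf_hom c).mul hu.2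
        rwa [add_comm] at this
      have h2 := (h𝔟 l).mem_of (lf c * u) h1 ((𝔟 l).mul_mem_left _ (hall u hu l))
      obtain ⟨a, ha, w, hw, he⟩ := mem_sup_span (HI_Ann H.mem) (lf_hom _) h1 h2
      have hah : a.IsHomogeneous (n + 1) := by
        have h3 : a = lf c * u - lf (rr c c' l) * w := by rw [he]; ring
        rw [h3]
        refine h1.sub ?_
        have := (lf_hom (rr c c' l)).mul hw
        rwa [add_comm] at this
      refine ⟨w, ⟨mem_IΛ.2 fun s hs => ?_, hw⟩, ?_⟩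
      · refine unit_BS (h𝔟 s) (l := l) (by rintro rfl; exact hl hs) ?_
        have h3 : lf (rr c c' l) * w = lf c * u - a := by rw [he]; ring
        rw [h3]
        exact (𝔟 s).sub_mem ((𝔟 s).mul_mem_left _ (hall u hu s))
          ((h𝔟 s).low_le (mem_low ha (by omega) hah))
      · have h3 : lf c * u - lf (rr c c' l) * w = a := by rw [he]; ring
        rw [h3]
        exact ha)
  by_cases hκ0 : κ = 0
  · rw [hκ0, zero_smul, sub_zero] at hκ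
    exact hu0 (H.inj u hu.2 hκ)
  · apply hu0
    apply hr (l + κ⁻¹) u hu.2
    have h1 : lf (rr c c' (l + κ⁻¹)) * u
        = C (-κ⁻¹) * (lf c * u - κ • (lf (rr c c' l) * u)) := by
      have h2 : (C κ⁻¹ : MvPolynomial (Fin N) K) * C κ = 1 := by
        rw [← C_mul, inv_mul_cancel₀ hκ0, C_1]
      rw [lf_rr, lf_rr, C_add, C_neg, smul_eq_C_mul]
      linear_combination (lf c' - C l * lf c) * u * (-h2)
    rw [h1]
    exact (Ann φ).mul_mem_left _ hκ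

theorem lower_bound [IsAlgClosed K] {φ : MvPolynomial (Fin N) K →ₗ[K] K} {t n τ D E : ℕ}
    {c c' : Fin N → K} (H : Plat φ t n τ D E c c')
    (hr : ∀ (s : K) (x : MvPolynomial (Fin N) K), x.IsHomogeneous n →
      lf (rr c c' s) * x ∈ Ann φ → x ∈ Ann φ)
    (𝔟 : K → Ideal (MvPolynomial (Fin N) K))
    (h𝔟 : ∀ s, BS φ n τ c (rr c c' s) (𝔟 s)) (k : ℕ) :
    hd (Ann φ) n + k * τ ≤ hd (low (Ann φ) (n + 2)) (n + k) := by
  classical
  have key : ∀ k : ℕ, ∃ Λ : Finset K, hd (Ann φ) n + k * τ ≤ hd (IΛ 𝔟 Λ) (n + k) := by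
    intro k
    induction k with
    | zero =>
      obtain ⟨Λ, hΛ⟩ := exists_Λ H hr 𝔟 h𝔟
      refine ⟨Λ, ?_⟩
      unfold hd
      rw [add_zero, hΛ, zero_mul, add_zero]
    | succ k ih =>
      obtain ⟨Λ, hΛ⟩ := ih
      obtain ⟨l, hl⟩ := Infinite.exists_notMem_finset Λ
      refine ⟨insert l Λ, ?_⟩
      have := step_BS h𝔟 hl (m := n + k) (by omega)
      rw [← add_assoc]
      calc hd (Ann φ) n + (k + 1) * τ = hd (Ann φ) n + k * τ + τ := by ring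
        _ ≤ _ := by omega
  obtain ⟨Λ, hΛ⟩ := key k
  refine hΛ.trans (hd_mono ?_ _)
  intro x hx
  exact mem_IΛ.2 fun s _ => (h𝔟 s).low_le hx

end Pool.Agent.CB3
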