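import Pool.Agent.CB3.NPDefs

/-!
# The plateau lemma, step 4: structure of `low (Ann φ) (n+2)` (module NP4)

PROOF of `plat_struct`.  `J := low (Ann φ) (n+2)` (`HI_low`; `hd J m = hd (Ann φ) m` for `m ≤ n+2` by
`hd_low_eq`), `J' := J ⊔ (lf c')`.
(a) `hd J' (n+1) = τ`, `hd J' (n+2) = τ`: `hd_col` for `lf c'` on `J` with
`hd (col J (lf c')) n = hd J n` (if `lf c' * x ∈ J ≤ Ann φ`, `x ∈ S_n`, then `x ∈ Ann φ` by `hr`, so
`x ∈ J`, `mem_low`) and the same in degree `n+1`, and `g1`, `g2`.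
(b) `hd (J' ⊔ (lf c)) (m) = 0` for `m ≥ n+1`: `S_{n+1} ⊆ Ann φ + (lf c) + (lf c')` (`h1`), and the forms of
degree `n+1` of `Ann φ` are in `J`; `hd_zero_le`.  So `hd J' (m+1) ≤ hd J' m` for `m ≥ n` … (`hd_succ_le`
with `c`), hence `hd J' m ≤ τ` for all `m ≥ n+1`.
(c) `hd J (m+1) = hd (col J (lf c')) m + hd J' (m+1) ≤ hd J m + τ` for `m ≥ n`.  So
`hd J (n+k) ≤ hd (Ann φ) n + k τ`, and with hypothesis `hlow` equality everywhere; hence for `m ≥ n`:
`hd J' (m+1) = τ` and `hd (col J (lf c')) m = hd J m`.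
(d) The last equality and `J ≤ col J (lf c')` give the second claim (`Jn` of both agree in degree `m`).
(e) For `m ≥ n+1`: `J' ≤ 𝔟` (`low_le`, `r_mem`), `hd 𝔟 m = τ` because `S_m → S/𝔟` is surjective (`surj`
times `lf c ^ (m-n)`, `lf c ≡ 1`) and `rank`; so `Jn J' m = Jn 𝔟 m` (equal dimension), first claim.
-/

set_option autoImplicit false
set_option linter.all false

noncomputable section

namespace Pool.Agent.CB3

open Pool.Agent.CB Module MvPolynomial

variable {K : Type*} [Field K] {N : ℕ}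

/-- equal Hilbert functions in one degree -/
private lemma NP4_mem_of_hd {I I' : Ideal (MvPolynomial (Fin N) K)} (hle : I ≤ I') {m : ℕ}
    (h : hd I' m = hd I m) {u : MvPolynomial (Fin N) K} (hu : u.IsHomogeneous m) (huI : u ∈ I') :
    u ∈ I := by
  have h1 := hd_add I m
  have h2 := hd_add I' m
  have h3 : Jn I m = Jn I' m :=
    Submodule.eq_of_le_of_finrank_eq (Jn_mono hle m) (by omega)
  have h4 : u ∈ Jn I' m := ⟨huI, hu⟩
  rw [← h3] at h4
  exact h4.1

/-- the converse -/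
private lemma NP4_hd_of_mem {I I' : Ideal (MvPolynomial (Fin N) K)} (hle : I ≤ I') {m : ℕ}
    (h : ∀ u : MvPolynomial (Fin N) K, u.IsHomogeneous m → u ∈ I' → u ∈ I) :
    hd I' m = hd I m := by
  have : Jn I' m = Jn I m := by
    apply le_antisymm
    · rintro x ⟨hx, hxm⟩
      exact ⟨h x hxm hx, hxm⟩
    · exact Jn_mono hle m
  unfold hd
  rw [this]

/-- the Hilbert function of an ideal such that `S_m` maps onto the quotient -/
private lemma NP4_hd_of_surj {𝔟 : Ideal (MvPolynomial (Fin N) K)} {m : ℕ}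
    (h : ∀ u : MvPolynomial (Fin N) K, ∃ v : MvPolynomial (Fin N) K, v.IsHomogeneous m ∧ u - v ∈ 𝔟) :
    hd 𝔟 m = finrank K (MvPolynomial (Fin N) K ⧸ 𝔟) := by
  set q : MvPolynomial (Fin N) K →ₗ[K] (MvPolynomial (Fin N) K ⧸ 𝔟) :=
    (Ideal.Quotient.mkₐ K 𝔟).toLinearMap with hq
  have e := finrank_map_add_inf_ker q (homogeneousSubmodule (Fin N) K m)
  have hq0 : ∀ x, q x = 0 ↔ x ∈ 𝔟 := by
    intro x
    rw [hq]
    exact Ideal.Quotient.eq_zero_iff_mem
  have h1 : (homogeneousSubmodule (Fin N) K m ⊓ LinearMap.ker q : Submodule K _) = Jn 𝔟 m := by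
    ext x
    rw [Submodule.mem_inf, LinearMap.mem_ker, hq0, mem_Jn]
    exact and_comm
  have h2 : (homogeneousSubmodule (Fin N) K m).map q = ⊤ := by
    rw [eq_top_iff]
    rintro y -
    obtain ⟨u, rfl⟩ := Ideal.Quotient.mk_surjective y
    obtain ⟨v, hv, huv⟩ := h u
    refine ⟨v, hv, ?_⟩
    have h3 : q (u - v) = 0 := (hq0 _).2 huv
    rw [map_sub, sub_eq_zero] at h3
    exact h3.symm
  rw [h1, h2, finrank_top] at e
  have h3 := hd_add 𝔟 m
  omega

theorem plat_struct {φ : MvPolynomial (Fin N) K →ₗ[K] K} {t n τ D E : ℕ}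
    {c c' : Fin N → K} (H : Plat φ t n τ D E c c')
    (hr : (∀ x : MvPolynomial (Fin N) K, x.IsHomogeneous n → lf c' * x ∈ Ann φ → x ∈ Ann φ) ∧
      (∀ x : MvPolynomial (Fin N) K, x.IsHomogeneous (n + 1) → lf c' * x ∈ Ann φ → x ∈ Ann φ))
    (hlow : ∀ k, hd (Ann φ) n + k * τ ≤ hd (low (Ann φ) (n + 2)) (n + k))
    {𝔟 : Ideal (MvPolynomial (Fin N) K)} (h𝔟 : BS φ n τ c c' 𝔟) :
    (∀ m, n + 1 ≤ m → ∀ u : MvPolynomial (Fin N) K, u.IsHomogeneous m → u ∈ 𝔟 →
      u ∈ low (Ann φ) (n + 2) ⊔ Ideal.span {lf c'}) ∧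
    (∀ m, n ≤ m → ∀ u : MvPolynomial (Fin N) K, u.IsHomogeneous m →
      lf c' * u ∈ low (Ann φ) (n + 2) → u ∈ low (Ann φ) (n + 2)) := by
  set J := low (Ann φ) (n + 2) with hJ
  have hJH : HI J := HI_low _ _
  have hJle : J ≤ Ann φ := low_le _ _
  have hl' := lf_hom c'
  have hl := lf_hom c
  have hJ'H : HI (J ⊔ Ideal.span {lf c'}) := HI_sup hJH (HI_span hl')
  -- (a)
  have hcol : ∀ m, m = n ∨ m = n + 1 → hd (col J (lf c')) m = hd J m := by
    intro m hm
    refine NP4_hd_of_mem (le_col J _) fun u hu huJ => ?_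
    have h1 : lf c' * u ∈ Ann φ := hJle (mem_col.1 huJ)
    rcases hm with rfl | rfl
    · exact mem_low (hr.1 u hu h1) (by omega) hu
    · exact mem_low (hr.2 u hu h1) (by omega) hu
  have hJn : hd J n = hd (Ann φ) n := hd_low_eq _ (by omega)
  have hJn1 : hd J (n + 1) = hd (Ann φ) (n + 1) := hd_low_eq _ (by omega)
  have hJn2 : hd J (n + 2) = hd (Ann φ) (n + 2) := hd_low_eq _ (by omega)
  have g1 := H.g1
  have g2 := H.g2
  have hJ'1 : hd (J ⊔ Ideal.span {lf c'}) (n + 1) = τ := by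
    have h1 := hd_col hJH hl' n
    have h2 := hcol n (Or.inl rfl)
    omega
  -- (b)
  have hb : hd (J ⊔ Ideal.span {lf c'} ⊔ Ideal.span {lf c}) (n + 1) = 0 := by
    rw [hd_eq_zero_iff]
    intro x hx
    have h1 := (hd_eq_zero_iff.1 H.h1) x hx
    obtain ⟨a, ha, u, hu, hxa⟩ := mem_sup_span (HI_sup (HI_Ann H.mem) (HI_span hl)) hl' hx h1
    have ha2 : a.IsHomogeneous (n + 1) := by
      have h2 : a = x - lf c' * u := by rw [hxa]; ring
      rw [h2]
      have h3 := hl'.mul hu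
      rw [add_comm] at h3
      exact hx.sub h3
    obtain ⟨b, hb, v, hv, hab⟩ := mem_sup_span (HI_Ann H.mem) hl ha2 ha
    have hb2 : b.IsHomogeneous (n + 1) := by
      have h2 : b = a - lf c * v := by rw [hab]; ring
      rw [h2]
      have h3 := hl.mul hv
      rw [add_comm] at h3
      exact ha2.sub h3
    have hbJ : b ∈ J := mem_low hb (by omega) hb2
    rw [hxa, hab]
    refine Ideal.add_mem _ (Ideal.add_mem _ ?_ ?_) ?_
    · exact Ideal.mem_sup_left (Ideal.mem_sup_left hbJ)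
    · exact Ideal.mem_sup_right (Ideal.mul_mem_right _ _ (Ideal.mem_span_singleton_self _))
    · exact Ideal.mem_sup_left (Ideal.mem_sup_right
        (Ideal.mul_mem_right _ _ (Ideal.mem_span_singleton_self _)))
  have hJ'le : ∀ m, n + 1 ≤ m → hd (J ⊔ Ideal.span {lf c'}) m ≤ τ := by
    intro m hm
    induction m, hm using Nat.le_induction with
    | base => exact hJ'1.le
    | succ m hm ih =>
      have h1 : hd (J ⊔ Ideal.span {lf c'} ⊔ Ideal.span {lf c}) (m + 1) = 0 :=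
        hd_zero_le hb (by omega)
      exact (hd_succ_le hJ'H h1).trans ih
  -- (c)
  have hstep : ∀ m, n ≤ m → hd (col J (lf c')) m + hd (J ⊔ Ideal.span {lf c'}) (m + 1) =
      hd J (m + 1) := fun m _ => hd_col hJH hl' m
  have hcolle : ∀ m, hd (col J (lf c')) m ≤ hd J m := fun m => hd_mono (le_col J _) m
  have hup : ∀ k, hd J (n + k) ≤ hd (Ann φ) n + k * τ := by
    intro k
    induction k with
    | zero =>
      rw [add_zero, hJn]
      omega
    | succ k ih =>
      have h1 := hstep (n + k) (by omega)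
      have h2 := hcolle (n + k)
      have h3 := hJ'le (n + k + 1) (by omega)
      have h4 : n + (k + 1) = n + k + 1 := by omega
      have h5 : (k + 1) * τ = k * τ + τ := by ring
      rw [h4, h5]
      omega
  have heq : ∀ k, hd J (n + k) = hd (Ann φ) n + k * τ := fun k => le_antisymm (hup k) (hlow k)
  have hfin : ∀ m, n ≤ m → hd (J ⊔ Ideal.span {lf c'}) (m + 1) = τ ∧
      hd (col J (lf c')) m = hd J m := by
    intro m hm
    obtain ⟨k, rfl⟩ := Nat.exists_eq_add_of_le hm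
    have h1 := hstep (n + k) (by omega)
    have h2 := hcolle (n + k)
    have h3 := hJ'le (n + k + 1) (by omega)
    have h4 := heq k
    have h5 := heq (k + 1)
    have h6 : n + (k + 1) = n + k + 1 := by omega
    have h7 : (k + 1) * τ = k * τ + τ := by ring
    rw [h6, h7] at h5
    constructor <;> omega
  refine ⟨?_, ?_⟩
  · -- (e)
    intro m hm u hu hub
    have hle : J ⊔ Ideal.span {lf c'} ≤ 𝔟 := by
      refine sup_le h𝔟.low_le ?_
      rw [Ideal.span_le, Set.singleton_subset_iff]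
      exact h𝔟.r_mem
    refine NP4_mem_of_hd hle ?_ hu hub
    obtain ⟨m', rfl⟩ : ∃ m', m = m' + 1 := ⟨m - 1, by omega⟩
    rw [(hfin m' (by omega)).1, ← h𝔟.rank]
    refine NP4_hd_of_surj fun u => ?_
    obtain ⟨v, hv, huv⟩ := h𝔟.surj u
    have hpow : ∀ k : ℕ, lf c ^ k - 1 ∈ 𝔟 := by
      intro k
      induction k with
      | zero => simp
      | succ k ih =>
        have e : lf c ^ (k + 1) - 1 = lf c ^ k * (lf c - 1) + (lf c ^ k - 1) := by ring
        rw [e]
        exact 𝔟.add_mem (𝔟.mul_mem_left _ h𝔟.one) ih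
    refine ⟨v * lf c ^ (m' + 1 - n), ?_, ?_⟩
    · have h1 := hv.mul (hl.pow (m' + 1 - n))
      have h2 : n + 1 * (m' + 1 - n) = m' + 1 := by omega
      rw [h2] at h1
      exact h1
    · have e : u - v * lf c ^ (m' + 1 - n) = (u - v) - v * (lf c ^ (m' + 1 - n) - 1) := by ring
      rw [e]
      exact 𝔟.sub_mem huv (𝔟.mul_mem_left _ (hpow _))
  · -- (d)
    intro m hm u hu huJ
    exact NP4_mem_of_hd (le_col J (lf c')) (hfin m hm).2 hu (mem_col.2 huJ)

end Pool.Agent.CB3
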