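import Pool.Agent.CB3.NPDefs

/-!
# The plateau lemma, step 5: the contradiction (module NP5)

`J := low (Ann φ) (n+2)`, `r := lf c'`, `S = MvPolynomial (Fin N) K`, `μ := min τ (n+1)`.
PROOF of `plat_end`.
(a) Points.  `Z := {p | ∀ f ∈ 𝔟, f(p) = 0}` is finite because `S/𝔟` is finite (each `X i` is integral over
`K` modulo `𝔟`; copy the last part of `finite_slice` in `CIList.lean`).  For `p ∈ Z`: `lf c (p) = 1` (`one`),
so `p ≠ 0`, and `r(p) = 0` (`r_mem`); by `pt` there is a form of degree `k ≤ D` of `Ann φ` not vanishing at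
`p`; times `lf c ^ (D - k)`: a form of degree `D` of `Ann φ` not vanishing at `p`.  The forms of degree `D`
of `Ann φ` vanishing at `p` are a proper subspace of `Jn (Ann φ) D`, so (`Subspace.biUnion_ne_univ_of_top_notMem`,
as in `exists_lf`) there is `f ∈ Ann φ`, homogeneous of degree `D`, with `f(p) ≠ 0` for all `p ∈ Z`.  By the
Nullstellensatz `𝔟 ⊔ (f) = ⊤` (`vanishingIdeal_zeroLocus_eq_radical`): `f g - 1 ∈ 𝔟` for some `g`.
(b) For `d ≥ min (τ-1) n` every `u ∈ S` is congruent to a form of degree `d` modulo `𝔟`.  Let `V_d` be the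
image of `S_d` in `S/𝔟`.  `V_d ≤ V_{d+1}` (`lf c ≡ 1`), `V_n = ⊤` (`surj`), so `V_d = ⊤` for `d ≥ n`.  If
`V_d = V_{d+1}` then `V_{d+1} = V_{d+2}` (`S_{d+2} = S_1 S_{d+1}`), so `V_d = V_n = ⊤`.  So
`min (d+1) τ ≤ finrank V_d`, and `V_{τ-1} = ⊤` (`τ ≥ 1`, `finrank (S/𝔟) = τ`, `V_0 ≠ 0`).
(c) `m ≥ n+1`, `m + 1 ≥ D + μ` (so `m ≥ D + min (τ-1) n`): `S_m ⊆ J ⊔ (r) ⊔ (f)`: `u ∈ S_m`; `g u ≡ v` with
`v ∈ S_{m-D}` by (b), `u - f v ∈ 𝔟 ∩ S_m ⊆ J ⊔ (r)` (`hs1`).
(d) If `y ∈ S_m`, `m ≥ n+1`, `f y ∈ J ⊔ (r)` then `y ∈ J ⊔ (r)`: `J ⊔ (r) ≤ 𝔟`, `f` a unit mod `𝔟`, `hs1`.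
(e) Choice of `f'`.  `V(J, f) ∩ {r = 0} = 0` by (c) (all forms of large degree, in particular powers of the
variables, are in `J ⊔ (r) ⊔ (f)`).  So `Z' = {p | J, f vanish at p, r(p) = 1}` is finite
(`finite_slice` applied to a finite list of generators of `J` by forms of positive degree together
with `(D, f)`; the forms of degree `m`, `1 ≤ m ≤ n+2`, of `Ann φ` are spanned by finite bases; forms of degree
`0` of `Ann φ` are `0` as `φ ≠ 0`).  By `BaseFree φ E` (times a power of a linear form not vanishing at `p`)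
and avoidance there is `f' ∈ Ann φ` homogeneous of degree `E`, not vanishing on `Z'`.  Then `J, f, f'` have no
common zero `p ≠ 0` (if `r(p) ≠ 0` scale to `r(p) = 1`), so (`exists_pow_mem`, `exists_deg`) there is `M` with
`S_m ⊆ J ⊔ (f) ⊔ (f')` for `m ≥ M`.
(f) Let `x ∈ S_t`; show `x ∈ J ⊔ (f) ⊔ (f') ≤ Ann φ` (this contradicts `φ ≠ 0`: `φ x = 0` for all `x ∈ S_t`,
`eq_zero_of_DD`).  Take `k` with `t + k ≥ M`: `r^k x = a + f y + f' z` with `a ∈ J`, `y ∈ S_{t+k-D}`,
`z ∈ S_{t+k-E}` (homogeneous components; `mem_sup_span` twice).  By (c), every form of degree `m` with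
`m ≥ n+1`, `m + 1 ≥ D + μ` is in `J ⊔ (f) + r S_{m-1}`; applying this `k` times
to `z` (all degrees are `≥ t - E + 1 ≥ max (n+1) (D + μ - 1)` by `hE`, `hDE`) `z ≡ r^k z'` modulo `J ⊔ (f)` with
`z' ∈ S_{t-E}`.  So `r^k (x - f' z') ∈ J ⊔ (f)`.
(g) Claim: if `w ∈ S_t` and `r^k w ∈ J ⊔ (f)` then `w ∈ J ⊔ (f)`.  Induction on `k`: `r^k w = a + f y`,
`k ≥ 1`, `y ∈ S_{t+k-D}`, `t + k - D ≥ n + 1` (`hD`).  `f y ∈ J ⊔ (r)`, so by (d) `y = a' + r y'`,
`a' ∈ J`, so `r (r^{k-1} w - f y') ∈ J`, and by `hs2` (degree `t + k - 1 ≥ n`) `r^{k-1} w - f y' ∈ J`.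
So `x - f' z' ∈ J ⊔ (f)`, `x ∈ J ⊔ (f) ⊔ (f')`.
-/

set_option autoImplicit false
set_option linter.all false

noncomputable section

namespace Pool.Agent.CB3

open Pool.Agent.CB Module MvPolynomial

variable {K : Type*} [Field K] {N : ℕ}

/-- an ideal of finite codimension has finitely many zeros -/
lemma finite_zeros {𝔟 : Ideal (MvPolynomial (Fin N) K)}
    (h : Module.Finite K (MvPolynomial (Fin N) K ⧸ 𝔟)) :
    Set.Finite {x : Fin N → K | ∀ f ∈ 𝔟, eval x f = 0} := by
  have hint : ∀ i : Fin N, IsIntegral K (Ideal.Quotient.mk 𝔟 (X i)) := fun i =>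
    Algebra.IsIntegral.isIntegral _
  choose p hp hp0 using hint
  refine Set.Finite.subset (Set.Finite.pi' fun i : Fin N => (p i).rootSet_finite K) ?_
  intro x hx i
  have hker : 𝔟 ≤ RingHom.ker (eval x : MvPolynomial (Fin N) K →+* K) := fun f hf => hx f hf
  let e : (MvPolynomial (Fin N) K ⧸ 𝔟) →+* K := Ideal.Quotient.lift 𝔟 (eval x) hker
  have he : e.comp (algebraMap K (MvPolynomial (Fin N) K ⧸ 𝔟)) = RingHom.id K := by
    ext c
    change Ideal.Quotient.lift 𝔟 (eval x) hker (Ideal.Quotient.mk 𝔟 (C c)) = c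
    rw [Ideal.Quotient.lift_mk, eval_C]
  rw [Polynomial.mem_rootSet]
  refine ⟨(hp i).ne_zero, ?_⟩
  have h1 := congrArg e (hp0 i)
  rw [map_zero, Polynomial.hom_eval₂, he] at h1
  have h2 : e (Ideal.Quotient.mk 𝔟 (X i)) = x i := by
    change Ideal.Quotient.lift 𝔟 (eval x) hker (Ideal.Quotient.mk 𝔟 (X i)) = _
    rw [Ideal.Quotient.lift_mk, eval_X]
  rw [h2] at h1
  rw [Polynomial.aeval_def]
  exact h1

/-- a form of an ideal which vanishes at none of finitely many points -/
lemma avoid_points [Infinite K] {J : Ideal (MvPolynomial (Fin N) K)} {d : ℕ}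
    {Z : Set (Fin N → K)} (hZ : Z.Finite)
    (h : ∀ p ∈ Z, ∃ f ∈ J, f.IsHomogeneous d ∧ eval p f ≠ 0) :
    ∃ f ∈ J, f.IsHomogeneous d ∧ ∀ p ∈ Z, eval p f ≠ 0 := by
  obtain ⟨f, hf, hfd, hfT⟩ := exists_avoid (J := J) (d := d)
    (hZ.image fun p : Fin N → K => RingHom.ker (eval p : MvPolynomial (Fin N) K →+* K)) (by
      rintro _ ⟨p, hp, rfl⟩
      obtain ⟨f, hf, hfd, hfp⟩ := h p hp
      exact ⟨f, hf, hfd, fun hk => hfp hk⟩)
  exact ⟨f, hf, hfd, fun p hp h0 => hfT _ ⟨p, hp, rfl⟩ h0⟩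

/-- Nullstellensatz: units modulo an ideal -/
lemma unit_mod [IsAlgClosed K] {𝔟 : Ideal (MvPolynomial (Fin N) K)} {f : MvPolynomial (Fin N) K}
    (h : ∀ x : Fin N → K, (∀ g ∈ 𝔟, eval x g = 0) → eval x f ≠ 0) :
    ∃ g, f * g - 1 ∈ 𝔟 := by
  have h1 : (1 : MvPolynomial (Fin N) K) ∈ (𝔟 ⊔ Ideal.span {f}).radical := by
    rw [← MvPolynomial.vanishingIdeal_zeroLocus_eq_radical (K := K)]
    intro x hx
    have hx' : ∀ g ∈ 𝔟 ⊔ Ideal.span {f}, aeval x g = 0 := hx
    exfalso
    refine h x (fun g hg => ?_) ?_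
    · rw [← aeval_eval_eq]; exact hx' g (Ideal.mem_sup_left hg)
    · rw [← aeval_eval_eq]
      exact hx' f (Ideal.mem_sup_right (Ideal.mem_span_singleton_self _))
  obtain ⟨m, hm⟩ := h1
  rw [one_pow] at hm
  obtain ⟨a, ha, b, hb, hab⟩ := Submodule.mem_sup.1 hm
  obtain ⟨u, rfl⟩ := Ideal.mem_span_singleton'.1 hb
  refine ⟨u, ?_⟩
  have : f * u - 1 = -a := by rw [← hab]; ring
  rw [this]
  exact 𝔟.neg_mem ha

/-- the forms of degree `d + 1` are generated by the forms of degree `d` -/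
lemma hom_succ {d : ℕ} {u : MvPolynomial (Fin N) K} (hu : u.IsHomogeneous (d + 1)) :
    ∃ w : Fin N → MvPolynomial (Fin N) K, (∀ i, (w i).IsHomogeneous d) ∧ u = ∑ i, X i * w i := by
  classical
  have h1 : ∀ m ∈ u.support, ∃ w : Fin N → MvPolynomial (Fin N) K, (∀ i, (w i).IsHomogeneous d) ∧
      monomial m (coeff m u) = ∑ i, X i * w i := by
    intro m hm
    have hdeg : Finsupp.degree m = d + 1 := by
      have h4 := hu (mem_support_iff.1 hm)
      rw [Finsupp.degree_eq_weight_one]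
      exact h4
    have hne : ∃ i, m i ≠ 0 := by
      by_contra hcon
      push Not at hcon
      have : m = 0 := Finsupp.ext hcon
      rw [this] at hdeg
      simp at hdeg
    obtain ⟨i, hi⟩ := hne
    have hle : Finsupp.single i 1 ≤ m := by
      rw [Finsupp.single_le_iff]
      omega
    have hadd : Finsupp.single i 1 + (m - Finsupp.single i 1) = m := add_tsub_cancel_of_le hle
    refine ⟨Pi.single i (monomial (m - Finsupp.single i 1) (coeff m u)), ?_, ?_⟩
    · intro j
      by_cases hj : j = i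
      · subst hj
        rw [Pi.single_eq_same]
        apply isHomogeneous_monomial
        have h5 := congrArg Finsupp.degree hadd
        rw [map_add, hdeg, Finsupp.degree_single] at h5
        omega
      · rw [Pi.single_eq_of_ne hj]
        exact isHomogeneous_zero _ _ _
    · rw [Finset.sum_eq_single i]
      · rw [Pi.single_eq_same, X, monomial_mul, one_mul, hadd]
      · intro j _ hj
        rw [Pi.single_eq_of_ne hj, mul_zero]
      · intro h
        exact absurd (Finset.mem_univ i) h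
  choose! w hw hw' using h1
  refine ⟨fun i => ∑ m ∈ u.support, w m i, fun i => ?_, ?_⟩
  · exact IsHomogeneous.sum _ _ _ fun m hm => hw m hm i
  · conv_lhs => rw [u.as_sum]
    rw [Finset.sum_congr rfl hw', Finset.sum_comm]
    exact Finset.sum_congr rfl fun i _ => (Finset.mul_sum _ _ _).symm

lemma span_deg {𝔟 : Ideal (MvPolynomial (Fin N) K)} {n τ : ℕ} {c : Fin N → K} (hτ : 1 ≤ τ)
    (one : lf c - 1 ∈ 𝔟) (fin : Module.Finite K (MvPolynomial (Fin N) K ⧸ 𝔟))
    (rank : finrank K (MvPolynomial (Fin N) K ⧸ 𝔟) = τ)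
    (surj : ∀ u : MvPolynomial (Fin N) K, ∃ v : MvPolynomial (Fin N) K, v.IsHomogeneous n ∧ u - v ∈ 𝔟)
    {d : ℕ} (hd : min (τ - 1) n ≤ d) (u : MvPolynomial (Fin N) K) :
    ∃ v : MvPolynomial (Fin N) K, v.IsHomogeneous d ∧ u - v ∈ 𝔟 := by
  let q : MvPolynomial (Fin N) K →ₗ[K] MvPolynomial (Fin N) K ⧸ 𝔟 :=
    (Ideal.Quotient.mkₐ K 𝔟).toLinearMap
  have hq : ∀ a b, q a = q b ↔ a - b ∈ 𝔟 := fun a b => Ideal.Quotient.eq
  have hqm : ∀ a b, q (a * b) = q a * q b := fun a b => map_mul (Ideal.Quotient.mkₐ K 𝔟) a b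
  let V : ℕ → Submodule K (MvPolynomial (Fin N) K ⧸ 𝔟) := fun d =>
    (homogeneousSubmodule (Fin N) K d).map q
  have hV : ∀ d x, x ∈ V d ↔ ∃ v : MvPolynomial (Fin N) K, v.IsHomogeneous d ∧ q v = x :=
    fun d x => Iff.rfl
  have hmono1 : ∀ d, V d ≤ V (d + 1) := by
    intro d x hx
    obtain ⟨v, hv, rfl⟩ := (hV d x).1 hx
    refine (hV _ _).2 ⟨lf c * v, ?_, ?_⟩
    · have := (lf_hom c).mul hv
      rwa [add_comm] at this
    · rw [hq]
      have : lf c * v - v = (lf c - 1) * v := by ring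
      rw [this]
      exact 𝔟.mul_mem_right _ one
  have hmono : ∀ d e, d ≤ e → V d ≤ V e := fun d e h => monotone_nat_of_le_succ hmono1 h
  have hn : V n = ⊤ := by
    rw [eq_top_iff]
    rintro x -
    obtain ⟨a, rfl⟩ := Ideal.Quotient.mk_surjective x
    obtain ⟨v, hv, hav⟩ := surj a
    refine (hV _ _).2 ⟨v, hv, ?_⟩
    exact ((hq a v).2 hav).symm
  have hstep : ∀ d, V d = V (d + 1) → V (d + 1) = V (d + 2) := by
    intro d hd
    refine le_antisymm (hmono1 _) ?_
    intro x hx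
    obtain ⟨u, hu, rfl⟩ := (hV _ _).1 hx
    obtain ⟨w, hw, rfl⟩ := hom_succ (d := d + 1) hu
    rw [map_sum]
    refine Submodule.sum_mem _ fun i _ => ?_
    have h1 : q (w i) ∈ V d := by
      rw [hd]; exact (hV _ _).2 ⟨w i, hw i, rfl⟩
    obtain ⟨w', hw', hww'⟩ := (hV _ _).1 h1
    refine (hV _ _).2 ⟨X i * w', ?_, ?_⟩
    · have := (isHomogeneous_X K i).mul hw'
      rwa [add_comm] at this
    · rw [hqm, hqm, hww']
  have hstab : ∀ d, V d = V (d + 1) → V d = ⊤ := by
    intro d hd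
    have h1 : ∀ e, V (d + e) = V (d + e + 1) := by
      intro e
      induction e with
      | zero => exact hd
      | succ e ih => exact hstep _ ih
    have h2 : ∀ e, V (d + e) = V d := by
      intro e
      induction e with
      | zero => rfl
      | succ e ih => rw [← add_assoc, ← h1 e, ih]
    rw [← h2 n, eq_top_iff, ← hn]
    exact hmono _ _ (by omega)
  have hrank : ∀ d, min (d + 1) τ ≤ finrank K (V d) := by
    intro d
    induction d with
    | zero =>
      have h1 : 1 ≤ finrank K (V 0) := by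
        rw [Nat.one_le_iff_ne_zero]
        intro h0
        rw [Submodule.finrank_eq_zero] at h0
        have h2 : q 1 ∈ V 0 := (hV _ _).2 ⟨1, isHomogeneous_one _ _, rfl⟩
        rw [h0, Submodule.mem_bot] at h2
        have h3 : Subsingleton (MvPolynomial (Fin N) K ⧸ 𝔟) := by
          refine subsingleton_of_zero_eq_one ?_
          rw [← h2]
          exact map_one (Ideal.Quotient.mkₐ K 𝔟)
        rw [Module.finrank_zero_of_subsingleton] at rank
        omega
      omega
    | succ d ih =>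
      by_cases h : V d = V (d + 1)
      · have h1 := hstab d h
        rw [← h, h1, finrank_top, rank]
        exact min_le_right _ _
      · have h1 : finrank K (V d) < finrank K (V (d + 1)) :=
          Submodule.finrank_lt_finrank_of_lt (lt_of_le_of_ne (hmono1 d) h)
        omega
  have htop : V d = ⊤ := by
    rcases le_or_gt n d with h | h
    · rw [eq_top_iff, ← hn]; exact hmono _ _ h
    · have h1 : τ ≤ finrank K (V d) := by
        have := hrank d
        have h2 : τ ≤ d + 1 := by omega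
        omega
      exact Submodule.eq_top_of_finrank_eq (le_antisymm (Submodule.finrank_le _) (by rw [rank]; exact h1))
  have h1 : q u ∈ V d := by rw [htop]; trivial
  obtain ⟨v, hv, hvu⟩ := (hV _ _).1 h1
  exact ⟨v, hv, (hq u v).1 hvu.symm⟩

/-- finitely many forms of positive degree generating `low (Ann φ) i` -/
lemma low_list {φ : MvPolynomial (Fin N) K →ₗ[K] K} (hφ : φ ≠ 0) (i : ℕ) :
    ∃ l : List (ℕ × MvPolynomial (Fin N) K), (∀ a ∈ l, okf a) ∧ IL l = low (Ann φ) i := by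
  classical
  have hfg : (low (Ann φ) i).FG := IsNoetherian.noetherian _
  unfold low at hfg
  obtain ⟨s, hs, hspan⟩ := (Submodule.fg_span_iff_fg_span_finset_subset _).1 hfg
  have h1 : ∀ g ∈ s, ∃ k, 1 ≤ k ∧ g.IsHomogeneous k := by
    intro g hg
    obtain ⟨hgA, k, -, hgk⟩ := hs hg
    rcases Nat.eq_zero_or_pos k with rfl | hk
    · by_cases hg0 : g = 0
      · exact ⟨1, le_rfl, by rw [hg0]; exact isHomogeneous_zero _ _ _⟩
      · exfalso
        apply hφ
        have hgC := totalDegree_eq_zero_iff_eq_C.1 (Nat.le_zero.1 hgk.totalDegree_le)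
        have ha : coeff 0 g ≠ 0 := by
          intro h
          apply hg0
          rw [hgC, h, map_zero]
        apply LinearMap.ext
        intro x
        have h2 := mem_Ann'.1 hgA x
        rw [hgC, ← smul_eq_C_mul, map_smul, smul_eq_mul] at h2
        exact (mul_eq_zero.1 h2).resolve_left ha
    · exact ⟨k, hk, hgk⟩
  choose! k hk1 hk2 using h1
  refine ⟨s.toList.map fun g => (k g, g), ?_, ?_⟩
  · intro a ha
    obtain ⟨g, hg, rfl⟩ := List.mem_map.1 ha
    exact ⟨hk1 g (Finset.mem_toList.1 hg), hk2 g (Finset.mem_toList.1 hg)⟩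
  · unfold IL low
    refine Eq.trans ?_ hspan.symm
    show Ideal.span _ = Ideal.span _
    congr 1
    ext f
    constructor
    · rintro ⟨a, ha, rfl⟩
      obtain ⟨g, hg, rfl⟩ := List.mem_map.1 ha
      exact Finset.mem_toList.1 hg
    · intro hf
      exact ⟨(k f, f), List.mem_map.2 ⟨f, Finset.mem_toList.2 hf, rfl⟩, rfl⟩

theorem plat_end [IsAlgClosed K] {φ : MvPolynomial (Fin N) K →ₗ[K] K} {t n τ D E : ℕ}
    {c c' : Fin N → K} (H : Plat φ t n τ D E c c')
    {𝔟 : Ideal (MvPolynomial (Fin N) K)} (h𝔟 : BS φ n τ c c' 𝔟)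
    (hs1 : ∀ m, n + 1 ≤ m → ∀ u : MvPolynomial (Fin N) K, u.IsHomogeneous m → u ∈ 𝔟 →
      u ∈ low (Ann φ) (n + 2) ⊔ Ideal.span {lf c'})
    (hs2 : ∀ m, n ≤ m → ∀ u : MvPolynomial (Fin N) K, u.IsHomogeneous m →
      lf c' * u ∈ low (Ann φ) (n + 2) → u ∈ low (Ann φ) (n + 2)) : False := by
  have hinf : Infinite K := IsAlgClosed.instInfinite
  obtain ⟨hmem, hne, -, -, -, -, -, hτ, hbf, hE1, hE, hD1, hD, hDE, hpt⟩ := H
  obtain ⟨hlow, hr, hone, -, hfin, hrank, hsurj⟩ := h𝔟
  set r : MvPolynomial (Fin N) K := lf c' with hrdef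
  have hr1 : r.IsHomogeneous 1 := lf_hom c'
  obtain ⟨l, hl, hlJ⟩ := low_list hne (n + 2)
  set J : Ideal (MvPolynomial (Fin N) K) := low (Ann φ) (n + 2) with hJdef
  have hJH : HI J := HI_low _ _
  have hJA : J ≤ Ann φ := low_le _ _
  -- (a)
  obtain ⟨f, hfA, hfD, hfZ⟩ := avoid_points (J := Ann φ) (d := D) (finite_zeros hfin) (by
    intro p hp
    have hp1 : eval p (lf c) = 1 := by
      have := hp _ hone
      rw [map_sub, map_one, sub_eq_zero] at this
      exact this
    have hp0 : p ≠ 0 := by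
      rintro rfl
      rw [eval_zero_of_hom le_rfl (lf_hom c)] at hp1
      exact zero_ne_one hp1
    obtain ⟨f0, hf0, k, hk, hf0k, hf0p⟩ := hpt p hp0 (hp _ hr)
    refine ⟨lf c ^ (D - k) * f0, (Ann φ).mul_mem_left _ hf0, ?_, ?_⟩
    · have := ((lf_hom c).pow (D - k)).mul hf0k
      rwa [one_mul, Nat.sub_add_cancel hk] at this
    · rw [map_mul, map_pow, hp1, one_pow, one_mul]
      exact hf0p)
  obtain ⟨g, hg⟩ := unit_mod (𝔟 := 𝔟) (f := f) (fun x hx => hfZ x hx)
  have hJr : J ⊔ Ideal.span {r} ≤ 𝔟 :=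
    sup_le hlow ((Ideal.span_singleton_le_iff_mem _).2 hr)
  -- (c)
  have hc : ∀ m, n + 1 ≤ m → D + min τ (n + 1) ≤ m + 1 → ∀ u : MvPolynomial (Fin N) K,
      u.IsHomogeneous m → u ∈ J ⊔ Ideal.span {f} ⊔ Ideal.span {r} := by
    intro m hm hm' u hu
    obtain ⟨v, hv, huv⟩ := span_deg hτ hone hfin hrank hsurj (d := m - D) (by omega) (g * u)
    have h1 : u - f * v ∈ 𝔟 := by
      have : u - f * v = -((f * g - 1) * u) + f * (g * u - v) := by ring
      rw [this]
      exact 𝔟.add_mem (𝔟.neg_mem (𝔟.mul_mem_right _ hg)) (𝔟.mul_mem_left _ huv)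
    have h2 : (f * v).IsHomogeneous m := by
      have := hfD.mul hv
      rwa [Nat.add_sub_cancel' (by omega)] at this
    have h3 := hs1 m hm _ (hu.sub h2) h1
    have h4 : u = (u - f * v) + f * v := by ring
    rw [h4]
    refine Ideal.add_mem _ ?_ ?_
    · have h5 : J ⊔ Ideal.span {r} ≤ J ⊔ Ideal.span {f} ⊔ Ideal.span {r} :=
        sup_le_sup_right le_sup_left _
      exact h5 h3
    · exact Ideal.mem_sup_left (Ideal.mem_sup_right
        (Ideal.mul_mem_right _ _ (Ideal.mem_span_singleton_self _)))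
  -- (d)
  have hd' : ∀ m, n + 1 ≤ m → ∀ y : MvPolynomial (Fin N) K, y.IsHomogeneous m →
      f * y ∈ J ⊔ Ideal.span {r} → y ∈ J ⊔ Ideal.span {r} := by
    intro m hm y hy hfy
    refine hs1 m hm y hy ?_
    have : y = g * (f * y) - (f * g - 1) * y := by ring
    rw [this]
    exact 𝔟.sub_mem (𝔟.mul_mem_left _ (hJr hfy)) (𝔟.mul_mem_right _ hg)
  -- (e)
  have hDf : okf ((D, f) : ℕ × MvPolynomial (Fin N) K) := ⟨hD1, hfD⟩
  have hl' : ∀ a ∈ (D, f) :: l, okf a := by
    intro a ha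
    rcases List.mem_cons.1 ha with rfl | ha
    · exact hDf
    · exact hl a ha
  have hIL' : IL ((D, f) :: l) = J ⊔ Ideal.span {f} := by rw [IL_cons, hlJ]
  have hNZ : NZ ((1, r) :: (D, f) :: l) := by
    intro x hx
    have hx' : ∀ w ∈ IL ((1, r) :: (D, f) :: l), eval x w = 0 := fun w hw =>
      eval_eq_zero_of_mem_IL hx hw
    rw [IL_cons, hIL'] at hx'
    funext i
    have h1 : ((X i : MvPolynomial (Fin N) K) ^ (n + 1 + D + τ)).IsHomogeneous (n + 1 + D + τ) := by
      have := (isHomogeneous_X K i).pow (n + 1 + D + τ)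
      rwa [one_mul] at this
    have h2 := hx' _ (hc _ (by omega) (by omega) _ h1)
    rw [map_pow, eval_X] at h2
    exact pow_eq_zero_iff (by omega) |>.1 h2
  obtain ⟨f', hf'A, hf'E, hf'Z⟩ := avoid_points (J := Ann φ) (d := E)
    (finite_slice hl' le_rfl hr1 hNZ) (by
      rintro p ⟨-, hp1⟩
      have hp0 : p ≠ 0 := by
        rintro rfl
        rw [eval_zero_of_hom le_rfl hr1] at hp1
        exact zero_ne_one hp1
      obtain ⟨f0, k, hf0k, hk, hf0, hf0p⟩ := hbf p hp0
      refine ⟨r ^ (E - k) * f0, (Ann φ).mul_mem_left _ (mem_Ann.2 hf0), ?_, ?_⟩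
      · have := (hr1.pow (E - k)).mul hf0k
        rwa [one_mul, Nat.sub_add_cancel hk] at this
      · rw [map_mul, map_pow, hp1, one_pow, one_mul]
        exact hf0p)
  have hNZ' : NZ ((E, f') :: (D, f) :: l) := by
    intro x hx
    by_contra hx0
    have hxl : ∀ a ∈ (D, f) :: l, eval x a.2 = 0 := fun a ha => hx a (List.mem_cons_of_mem _ ha)
    by_cases hrx : eval x r = 0
    · exact hx0 (hNZ x fun a ha => by
        rcases List.mem_cons.1 ha with rfl | ha
        · exact hrx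
        · exact hxl a ha)
    · refine hf'Z (fun j => (eval x r)⁻¹ * x j) ⟨fun a ha => ?_, ?_⟩ ?_
      · rw [eval_smul_hom (hl' a ha).2, hxl a ha, mul_zero]
      · rw [eval_smul_hom hr1, pow_one, inv_mul_cancel₀ hrx]
      · rw [eval_smul_hom hf'E, hx _ List.mem_cons_self, mul_zero]
  obtain ⟨M, hM⟩ := hNZ'.exists_deg
  rw [IL_cons, hIL'] at hM
  have hJfH : HI (J ⊔ Ideal.span {f}) := HI_sup hJH (HI_span hfD)
  -- iterate (c)
  have hiter : ∀ k, ∀ z : MvPolynomial (Fin N) K, z.IsHomogeneous (t - E + k) →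
      ∃ z' : MvPolynomial (Fin N) K, z'.IsHomogeneous (t - E) ∧
        z - r ^ k * z' ∈ J ⊔ Ideal.span {f} := by
    intro k
    induction k with
    | zero =>
      intro z hz
      exact ⟨z, hz, by simp⟩
    | succ k ih =>
      intro z hz
      have h1 := hc (t - E + (k + 1)) (by omega) (by omega) z hz
      obtain ⟨a, ha, u', hu', hz'⟩ := mem_sup_span hJfH hr1 (j := t - E + k)
        (by rw [add_assoc]; exact hz) h1
      obtain ⟨z', hz'h, hz''⟩ := ih u' hu'
      refine ⟨z', hz'h, ?_⟩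
      have : z - r ^ (k + 1) * z' = a + r * (u' - r ^ k * z') := by rw [hz']; ring
      rw [this]
      exact Ideal.add_mem _ ha (Ideal.mul_mem_left _ _ hz'')
  -- (g)
  have hgclaim : ∀ k, ∀ w : MvPolynomial (Fin N) K, w.IsHomogeneous t →
      r ^ k * w ∈ J ⊔ Ideal.span {f} → w ∈ J ⊔ Ideal.span {f} := by
    intro k
    induction k with
    | zero =>
      intro w _ hw
      rwa [pow_zero, one_mul] at hw
    | succ k ih =>
      intro w hw hrw
      apply ih w hw
      have hdeg : (r ^ (k + 1) * w).IsHomogeneous (t + k + 1 - D + D) := by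
        have := (hr1.pow (k + 1)).mul hw
        rwa [one_mul, show k + 1 + t = t + k + 1 - D + D by omega] at this
      obtain ⟨a, ha, y, hy, hay⟩ := mem_sup_span hJH hfD hdeg hrw
      have hfy : f * y ∈ J ⊔ Ideal.span {r} := by
        have : f * y = r * (r ^ k * w) - a := by
          rw [eq_sub_iff_add_eq, add_comm, ← hay, pow_succ']
          ring
        rw [this]
        exact Ideal.sub_mem _ (Ideal.mem_sup_right (Ideal.mul_mem_right _ _
          (Ideal.mem_span_singleton_self _))) (Ideal.mem_sup_left ha)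
      have hy' := hd' (t + k + 1 - D) (by omega) y hy hfy
      obtain ⟨a', ha', y', hy'h, hya⟩ := mem_sup_span hJH hr1 (j := t + k - D)
        (by rw [show t + k - D + 1 = t + k + 1 - D by omega]; exact hy) hy'
      have h5 : r * (r ^ k * w - f * y') ∈ J := by
        have : r * (r ^ k * w - f * y') = a + f * a' := by
          have h6 : r ^ (k + 1) * w = a + f * (a' + r * y') := by rw [hay, hya]
          have h7 : r * (r ^ k * w - f * y') = r ^ (k + 1) * w - f * (r * y') := by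
            rw [pow_succ']; ring
          rw [h7, h6]; ring
        rw [this]
        exact J.add_mem ha (J.mul_mem_left _ ha')
      have h8 : (r ^ k * w - f * y').IsHomogeneous (t + k) := by
        refine IsHomogeneous.sub ?_ ?_
        · have := (hr1.pow k).mul hw
          rwa [one_mul, add_comm] at this
        · have := hfD.mul hy'h
          rwa [show D + (t + k - D) = t + k by omega] at this
      have h9 := hs2 (t + k) (by omega) _ h8 h5
      have h10 : r ^ k * w = (r ^ k * w - f * y') + f * y' := by ring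
      rw [h10]
      exact Ideal.add_mem _ (Ideal.mem_sup_left h9) (Ideal.mem_sup_right
        (Ideal.mul_mem_right _ _ (Ideal.mem_span_singleton_self _)))
  -- (f)
  apply hne
  refine eq_zero_of_DD hmem fun x hx => ?_
  have hxA : x ∈ Ann φ := by
    have h1 : (r ^ M * x).IsHomogeneous (t - E + M + E) := by
      have := (hr1.pow M).mul hx
      rwa [one_mul, show M + t = t - E + M + E by omega] at this
    obtain ⟨a, ha, z, hz, hxz⟩ := mem_sup_span hJfH hf'E h1 (hM _ (by omega) _ h1)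
    obtain ⟨z', hz', hzz'⟩ := hiter M z hz
    have h2 : r ^ M * (x - f' * z') ∈ J ⊔ Ideal.span {f} := by
      have : r ^ M * (x - f' * z') = a + f' * (z - r ^ M * z') := by
        have : r ^ M * (x - f' * z') = r ^ M * x - f' * (r ^ M * z') := by ring
        rw [this, hxz]; ring
      rw [this]
      exact Ideal.add_mem _ ha (Ideal.mul_mem_left _ _ hzz')
    have h3 : (x - f' * z').IsHomogeneous t := by
      refine hx.sub ?_
      have := hf'E.mul hz'
      rwa [show E + (t - E) = t by omega] at this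
    have h4 := hgclaim M _ h3 h2
    have h5 : J ⊔ Ideal.span {f} ≤ Ann φ :=
      sup_le hJA ((Ideal.span_singleton_le_iff_mem _).2 hfA)
    have h6 : x = (x - f' * z') + f' * z' := by ring
    rw [h6]
    exact (Ann φ).add_mem (h5 h4) ((Ann φ).mul_mem_right _ hf'A)
  have := mem_Ann'.1 hxA 1
  rwa [mul_one] at this

end Pool.Agent.CB3
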