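import Pool.Agent.CB3.NP1
import Pool.Agent.CB3.NP2
import Pool.Agent.CB3.NP3
import Pool.Agent.CB3.NP4
import Pool.Agent.CB3.NP5

/-!
# The plateau lemma
-/

set_option autoImplicit false
set_option linter.all false

noncomputable section

namespace Pool.Agent.CB3

open Pool.Agent.CB Module MvPolynomial

variable {K : Type*} [Field K] {N : ℕ}

theorem plateau [IsAlgClosed K] {φ : MvPolynomial (Fin N) K →ₗ[K] K} {t n τ D E : ℕ}
    {c c' : Fin N → K} (H : Plat φ t n τ D E c c') : False := by
  choose 𝔟 h𝔟 using fun s => exists_BS H s (H.inj_r s)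
  have hlow := lower_bound H (fun s => (H.inj_r s).1) 𝔟 h𝔟
  have h0 := h𝔟 0
  have hr := H.inj_r 0
  rw [rr_zero] at h0 hr
  obtain ⟨h1, h2⟩ := plat_struct H hr hlow h0
  exact plat_end H h0 h1 h2

end Pool.Agent.CB3
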