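import Pool.Agent.CB3.NPDefs

/-!
# The plateau lemma, step 1: the pencil is injective (module NP1)

PROOF.  `I := Ann φ` (`HI_Ann`), `r := rr c c' s`, `lf_rr`.  As ideals
`I ⊔ (lf c) ⊔ (lf c') = I ⊔ (lf c) ⊔ (lf r)`.
(a) `hd (I ⊔ (lf c)) (n+1) = τ` and `hd (I ⊔ (lf c)) (n+2) = τ`: `hd_col` for `lf c` with
`hd (col I (lf c)) n = hd I n` (`inj`: `Jn (col I (lf c)) n = Jn I n`) and similarly in degree `n+1`
(`inj'`), with `g1`, `g2`.
(b) Let `J := I ⊔ (lf c)`.  `hd (J ⊔ (lf r)) (n+2) = 0` (`hd_zero_succ` from `h1`), so `hd_col` gives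
`hd (col J (lf r)) (n+1) = hd J (n+2) = τ = hd J (n+1)`, so `Jn (col J (lf r)) (n+1) = Jn J (n+1)`
(`J ≤ col`, equal dimension): if `x ∈ S_{n+1}` and `lf r * x ∈ I` then `x ∈ J`, i.e. (`mem_sup_span`)
`x = a + lf c * y`, `a ∈ I`, `y ∈ S_n`, and then `lf c * (lf r * y) ∈ I` so `lf r * y ∈ I` by `inj'`.
(c) `T := P φ n ⊓ ker (L (XX K N) r) = {act x φ | x ∈ S_n, lf r * x ∈ I}`,
`T' := P φ (n+1) ⊓ ker (L (XX K N) r)`.  `L (XX K N) c` is injective on `P φ n` and `P φ (n+1)`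
(`inj`, `inj'`: `L c (act x φ) = act (lf c * x) φ`), maps `T` into `T'`, and onto by (b).  So
`finrank T = finrank T'`.  Suppose `T ≠ ⊥` (equivalently `T' ≠ ⊥`).  `n + 1 ≤ t`.  Apply `flat`
(`Abs.lean`) with `i := t - n - 1`, `A := T`, `B := T'` (`X j` maps `T` to `T'`): get `ψ ∈ T`, `ψ ≠ 0`,
`X j ψ = p j • L c ψ`; `base_of_eigen` (`ψ ∈ DD (t - n)`, `P_le_DD`): `p ≠ 0` and every form of degree
`≤ t - n` annihilating `ψ`, in particular every form in `I` (`ψ = act x φ`), vanishes at `p`.  This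
contradicts `bf`, `hE`.  So `T = ⊥`, `T' = ⊥`, which is the claim.
-/

set_option autoImplicit false
set_option linter.all false

noncomputable section

namespace Pool.Agent.CB3

open Pool.Agent.CB Module MvPolynomial

variable {K : Type*} [Field K] {N : ℕ}

lemma sup_rr (I : Ideal (MvPolynomial (Fin N) K)) (c c' : Fin N → K) (s : K) :
    I ⊔ Ideal.span {lf c} ⊔ Ideal.span {lf (rr c c' s)} =
      I ⊔ Ideal.span {lf c} ⊔ Ideal.span {lf c'} := by
  have hc : ∀ J : Ideal (MvPolynomial (Fin N) K), lf c ∈ I ⊔ Ideal.span {lf c} ⊔ J := fun J =>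
    Ideal.mem_sup_left (Ideal.mem_sup_right (Ideal.mem_span_singleton_self _))
  apply le_antisymm
  · refine sup_le le_sup_left ?_
    rw [Ideal.span_singleton_le_iff_mem, lf_rr]
    exact Ideal.sub_mem _ (Ideal.mem_sup_right (Ideal.mem_span_singleton_self _))
      (Ideal.mul_mem_left _ _ (hc _))
  · refine sup_le le_sup_left ?_
    rw [Ideal.span_singleton_le_iff_mem]
    have h : lf c' = lf (rr c c' s) + C s * lf c := by rw [lf_rr]; ring
    rw [h]
    exact Ideal.add_mem _ (Ideal.mem_sup_right (Ideal.mem_span_singleton_self _))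
      (Ideal.mul_mem_left _ _ (hc _))

lemma hd_col_eq {I : Ideal (MvPolynomial (Fin N) K)} {f : MvPolynomial (Fin N) K} {n : ℕ}
    (h : ∀ x : MvPolynomial (Fin N) K, x.IsHomogeneous n → f * x ∈ I → x ∈ I) :
    hd (col I f) n = hd I n := by
  have : Jn (col I f) n = Jn I n := by
    apply le_antisymm
    · rintro x ⟨hx, hxn⟩
      exact ⟨h x hxn hx, hxn⟩
    · exact Jn_mono (le_col I f) n
  unfold hd
  rw [this]

lemma Jn_eq_of_hd {I I' : Ideal (MvPolynomial (Fin N) K)} (h : I ≤ I') {j : ℕ}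
    (hh : hd I' j = hd I j) : Jn I j = Jn I' j := by
  haveI : FiniteDimensional K (Jn I' j) := Submodule.finiteDimensional_of_le (Jn_le I' j)
  apply Submodule.eq_of_le_of_finrank_eq (Jn_mono h j)
  have h1 := hd_add I j
  have h2 := hd_add I' j
  omega

theorem Plat.inj_r [IsAlgClosed K] {φ : MvPolynomial (Fin N) K →ₗ[K] K} {t n τ D E : ℕ}
    {c c' : Fin N → K} (H : Plat φ t n τ D E c c') (s : K) :
    (∀ x : MvPolynomial (Fin N) K, x.IsHomogeneous n → lf (rr c c' s) * x ∈ Ann φ → x ∈ Ann φ) ∧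
    (∀ x : MvPolynomial (Fin N) K, x.IsHomogeneous (n + 1) → lf (rr c c' s) * x ∈ Ann φ →
      x ∈ Ann φ) := by
  set r := rr c c' s with hr
  set I := Ann φ with hIdef
  have hI : HI I := HI_Ann H.mem
  have hE1 := H.hE1
  have hE := H.hE
  -- (a)
  have a1 : hd (I ⊔ Ideal.span {lf c}) (n + 1) = τ := by
    have h1 := hd_col hI (lf_hom c) n
    have h2 : hd (col I (lf c)) n = hd I n := hd_col_eq H.inj
    have h3 : hd I (n + 1) = hd I n + τ := H.g1
    omega
  have a2 : hd (I ⊔ Ideal.span {lf c}) (n + 2) = τ := by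
    have h1 : hd (col I (lf c)) (n + 1) + hd (I ⊔ Ideal.span {lf c}) (n + 2) = hd I (n + 2) :=
      hd_col hI (lf_hom c) (n + 1)
    have h2 : hd (col I (lf c)) (n + 1) = hd I (n + 1) := hd_col_eq H.inj'
    have h3 : hd I (n + 2) = hd I (n + 1) + τ := H.g2
    omega
  -- (b)
  set J := I ⊔ Ideal.span {lf c} with hJ
  have hJI : HI J := HI_sup hI (HI_span (lf_hom c))
  have b0 : hd (J ⊔ Ideal.span {lf r}) (n + 2) = 0 := by
    apply hd_zero_succ
    rw [hJ, hr, sup_rr]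
    exact H.h1
  have b1 : Jn J (n + 1) = Jn (col J (lf r)) (n + 1) := by
    apply Jn_eq_of_hd (le_col J (lf r))
    have h1 : hd (col J (lf r)) (n + 1) + hd (J ⊔ Ideal.span {lf r}) (n + 2) = hd J (n + 2) :=
      hd_col hJI (lf_hom r) (n + 1)
    omega
  have b2 : ∀ x : MvPolynomial (Fin N) K, x.IsHomogeneous (n + 1) → lf r * x ∈ I →
      ∃ a ∈ I, ∃ y : MvPolynomial (Fin N) K, y.IsHomogeneous n ∧ x = a + lf c * y ∧
        lf r * y ∈ I := by
    intro x hx hrx
    have h1 : x ∈ Jn J (n + 1) := by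
      rw [b1]
      exact ⟨Ideal.mem_sup_left hrx, hx⟩
    obtain ⟨a, ha, y, hy, hxy⟩ := mem_sup_span hI (lf_hom c) hx h1.1
    refine ⟨a, ha, y, hy, hxy, ?_⟩
    refine H.inj' (lf r * y) ?_ ?_
    · have := (lf_hom r).mul hy
      rw [add_comm] at this
      exact this
    · have h2 : lf c * (lf r * y) = lf r * x - a * lf r := by rw [hxy]; ring
      rw [h2]
      exact I.sub_mem hrx (I.mul_mem_right _ ha)
  -- (c)
  set T : Submodule K (MvPolynomial (Fin N) K →ₗ[K] K) :=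
    P φ n ⊓ LinearMap.ker (L (XX K N) r) with hT
  set T' : Submodule K (MvPolynomial (Fin N) K →ₗ[K] K) :=
    P φ (n + 1) ⊓ LinearMap.ker (L (XX K N) r) with hT'
  have act_zero : ∀ x : MvPolynomial (Fin N) K, act x φ = 0 ↔ x ∈ I := by
    intro x
    rw [hIdef, mem_Ann]
  have Lact : ∀ (d : Fin N → K) (x : MvPolynomial (Fin N) K),
      L (XX K N) d (act x φ) = act (lf d * x) φ := by
    intro d x
    rw [L_XX_lf, act_mul, act_comm]
  have hXT : ∀ j, ∀ w ∈ T, XX K N j w ∈ T' := by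
    rintro j w ⟨hw, hw0⟩
    refine ⟨XX_P j w hw, ?_⟩
    rw [SetLike.mem_coe, LinearMap.mem_ker] at hw0 ⊢
    rw [L_comm sysXX.comm, hw0, map_zero]
  have hgB : Good (XX K N) c T' := by
    rintro w ⟨⟨x, hx, rfl⟩, -⟩ hw0
    rw [actφ_apply] at hw0 ⊢
    rw [Lact, act_zero] at hw0
    rw [act_zero]
    exact H.inj' x hx hw0
  have hgA : Good (XX K N) c T := by
    rintro w ⟨⟨x, hx, rfl⟩, -⟩ hw0
    rw [actφ_apply] at hw0 ⊢
    rw [Lact, act_zero] at hw0
    rw [act_zero]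
    exact H.inj x hx hw0
  haveI fT : FiniteDimensional K T := Submodule.finiteDimensional_of_le (inf_le_left : T ≤ P φ n)
  haveI fT' : FiniteDimensional K T' :=
    Submodule.finiteDimensional_of_le (inf_le_left : T' ≤ P φ (n + 1))
  have hfin : finrank K T = finrank K T' := by
    let f : T →ₗ[K] T' := (L (XX K N) c).restrict (fun w hw => L_mem hXT hw)
    have hf : Function.Injective f := by
      intro a b hab
      have h1 : L (XX K N) c a.1 = L (XX K N) c b.1 := congrArg Subtype.val hab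
      have h2 : L (XX K N) c (a.1 - b.1) = 0 := by rw [map_sub, h1, sub_self]
      exact Subtype.ext (sub_eq_zero.1 (hgA _ (T.sub_mem a.2 b.2) h2))
    have hfs : Function.Surjective f := by
      rintro ⟨w, ⟨x, hx, rfl⟩, hw0⟩
      rw [SetLike.mem_coe, LinearMap.mem_ker, actφ_apply, Lact, act_zero] at hw0
      obtain ⟨a, ha, y, hy, hxy, hry⟩ := b2 x hx hw0
      refine ⟨⟨act y φ, ⟨y, hy, rfl⟩, ?_⟩, ?_⟩
      · rw [SetLike.mem_coe, LinearMap.mem_ker, Lact, act_zero]
        exact hry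
      · apply Subtype.ext
        show L (XX K N) c (act y φ) = actφ φ x
        rw [Lact, actφ_apply, hxy, act_add, (act_zero a).2 ha, zero_add]
    exact (LinearEquiv.ofBijective f ⟨hf, hfs⟩).finrank_eq
  have hbot : T' = ⊥ := by
    by_contra hne
    have ht1 : (t - n - 1) + 1 + n = t := by omega
    have hA : T ≤ DD K N (t - n - 1 + 1) := inf_le_left.trans (P_le_DD H.mem ht1)
    obtain ⟨p, ψ, hψ, hψ0, hX, -⟩ := flat (sysXX (K := K) (N := N)) (t - n - 1) (A := T) (B := T')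
      hA hXT hgB hfin hne
    obtain ⟨hp, hp'⟩ := base_of_eigen (hA hψ) hψ0 hX
    obtain ⟨f, k, hf, hk, hfφ, hpf⟩ := H.bf p hp
    refine hpf (hp' f k hf (by omega) ?_)
    obtain ⟨⟨x, hx, rfl⟩, -⟩ := hψ
    rw [actφ_apply, act_comm, hfφ, map_zero]
  have hbotT : T = ⊥ := by
    have : finrank K T = 0 := by rw [hfin, hbot]; simp
    exact Submodule.finrank_eq_zero.1 this
  constructor
  · intro x hx hrx
    have h1 : act x φ ∈ T := by
      refine ⟨⟨x, hx, rfl⟩, ?_⟩
      rw [SetLike.mem_coe, LinearMap.mem_ker, Lact, act_zero]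
      exact hrx
    rw [hbotT, Submodule.mem_bot, act_zero] at h1
    exact h1
  · intro x hx hrx
    have h1 : act x φ ∈ T' := by
      refine ⟨⟨x, hx, rfl⟩, ?_⟩
      rw [SetLike.mem_coe, LinearMap.mem_ker, Lact, act_zero]
      exact hrx
    rw [hbot, Submodule.mem_bot, act_zero] at h1
    exact h1

end Pool.Agent.CB3
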