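import Pool.Agent.CB3.Perp

/-!
# The plateau lemma: definitions
-/

set_option autoImplicit false
set_option linter.all false

noncomputable section

namespace Pool.Agent.CB3

open Pool.Agent.CB Module MvPolynomial

variable {K : Type*} [Field K] {N : ℕ}

/-- hypotheses of the plateau lemma: two consecutive equal first differences `τ` of the Hilbert function
of `S / Ann φ`, in degrees `n + 1` and `n + 2`. -/
structure Plat (φ : MvPolynomial (Fin N) K →ₗ[K] K) (t n τ D E : ℕ) (c c' : Fin N → K) : Prop where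
  mem : φ ∈ DD K N t
  ne : φ ≠ 0
  h1 : hd (Ann φ ⊔ Ideal.span {lf c} ⊔ Ideal.span {lf c'}) (n + 1) = 0
  inj : ∀ x : MvPolynomial (Fin N) K, x.IsHomogeneous n → lf c * x ∈ Ann φ → x ∈ Ann φ
  inj' : ∀ x : MvPolynomial (Fin N) K, x.IsHomogeneous (n + 1) → lf c * x ∈ Ann φ → x ∈ Ann φ
  g1 : hd (Ann φ) (n + 1) = hd (Ann φ) n + τ
  g2 : hd (Ann φ) (n + 2) = hd (Ann φ) (n + 1) + τ
  hτ : 1 ≤ τ
  bf : BaseFree φ E
  hE1 : 1 ≤ E
  hE : E + n ≤ t
  hD1 : 1 ≤ D
  hD : D + n ≤ t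
  hDE : D + E + min τ (n + 1) ≤ t + 2
  pt : ∀ p : Fin N → K, p ≠ 0 → eval p (lf c') = 0 →
    ∃ f ∈ Ann φ, ∃ k, k ≤ D ∧ f.IsHomogeneous k ∧ eval p f ≠ 0

/-- the pencil `lf c' - s lf c`. -/
def rr (c c' : Fin N → K) (s : K) : Fin N → K := c' - s • c

lemma rr_zero (c c' : Fin N → K) : rr c c' 0 = c' := by simp [rr]

lemma lf_add (a b : Fin N → K) : lf (a + b) = lf a + lf b := by
  simp [lf, add_smul, Finset.sum_add_distrib]

lemma lf_smul (s : K) (a : Fin N → K) : lf (s • a) = C s * lf a := by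
  simp only [lf, Pi.smul_apply, smul_eq_mul, mul_smul, Finset.mul_sum]
  refine Finset.sum_congr rfl fun j _ => ?_
  rw [smul_eq_C_mul]

lemma lf_sub (a b : Fin N → K) : lf (a - b) = lf a - lf b := by
  simp [lf, sub_smul, Finset.sum_sub_distrib]

lemma lf_rr (c c' : Fin N → K) (s : K) : lf (rr c c' s) = lf c' - C s * lf c := by
  rw [rr, lf_sub, lf_smul]

/-- the ideal `𝔟` of a finite subscheme of the affine space `lf c = 1`, containing the forms of degree
`≤ n + 2` of `Ann φ` and `lf r`. -/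
structure BS (φ : MvPolynomial (Fin N) K →ₗ[K] K) (n τ : ℕ) (c r : Fin N → K)
    (𝔟 : Ideal (MvPolynomial (Fin N) K)) : Prop where
  low_le : low (Ann φ) (n + 2) ≤ 𝔟
  r_mem : lf r ∈ 𝔟
  one : lf c - 1 ∈ 𝔟
  mem_of : ∀ u : MvPolynomial (Fin N) K, u.IsHomogeneous (n + 1) → u ∈ 𝔟 →
    u ∈ Ann φ ⊔ Ideal.span {lf r}
  fin : Module.Finite K (MvPolynomial (Fin N) K ⧸ 𝔟)
  rank : finrank K (MvPolynomial (Fin N) K ⧸ 𝔟) = τ
  surj : ∀ u : MvPolynomial (Fin N) K, ∃ v : MvPolynomial (Fin N) K, v.IsHomogeneous n ∧ u - v ∈ 𝔟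

lemma HI_low (I : Ideal (MvPolynomial (Fin N) K)) (i : ℕ) : HI (low I i) := by
  intro f hf n
  unfold low at hf ⊢
  refine Submodule.span_induction (p := fun f _ => homogeneousComponent n f ∈
    Ideal.span {f | f ∈ I ∧ ∃ k, k ≤ i ∧ f.IsHomogeneous k}) ?_ ?_ ?_ ?_ hf
  · rintro g ⟨hg, k, hk, hgk⟩
    rw [homogeneousComponent_of_mem ((mem_homogeneousSubmodule _ _).2 hgk)]
    split_ifs
    · exact Ideal.subset_span ⟨hg, k, hk, hgk⟩
    · exact Ideal.zero_mem _
  · simp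
  · intro x y _ _ hx hy
    rw [map_add]
    exact Ideal.add_mem _ hx hy
  · intro a x hxs hx
    have h1 : ∀ x ∈ Ideal.span {f | f ∈ I ∧ ∃ k, k ≤ i ∧ f.IsHomogeneous k},
        ∀ n, homogeneousComponent n x ∈
          Ideal.span {f | f ∈ I ∧ ∃ k, k ≤ i ∧ f.IsHomogeneous k} := by
      intro x hx
      refine Submodule.span_induction (p := fun f _ => ∀ n, homogeneousComponent n f ∈
        Ideal.span {f | f ∈ I ∧ ∃ k, k ≤ i ∧ f.IsHomogeneous k}) ?_ ?_ ?_ ?_ hx
      · rintro g ⟨hg, k, hk, hgk⟩ n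
        rw [homogeneousComponent_of_mem ((mem_homogeneousSubmodule _ _).2 hgk)]
        split_ifs
        · exact Ideal.subset_span ⟨hg, k, hk, hgk⟩
        · exact Ideal.zero_mem _
      · simp
      · intro x y _ _ hx hy n
        rw [map_add]
        exact Ideal.add_mem _ (hx n) (hy n)
      · intro a x _ hx n
        rw [smul_eq_mul, ← sum_homogeneousComponent x, Finset.mul_sum, map_sum]
        refine Ideal.sum_mem _ fun k _ => ?_
        rcases le_or_gt k n with hkn | hkn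
        · obtain ⟨m, rfl⟩ := Nat.exists_eq_add_of_le' hkn
          rw [mul_comm, homComp_mul (homogeneousComponent_isHomogeneous k x)]
          exact Ideal.mul_mem_right _ _ (hx k)
        · rw [mul_comm, homComp_mul_lt (homogeneousComponent_isHomogeneous k x) hkn]
          exact Ideal.zero_mem _
    exact h1 _ (Ideal.mul_mem_left _ a hxs) n

lemma hd_low_eq (I : Ideal (MvPolynomial (Fin N) K)) {i m : ℕ} (h : m ≤ i) :
    hd (low I i) m = hd I m := by
  have : Jn (low I i) m = Jn I m := by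
    apply le_antisymm
    · exact Jn_mono (low_le I i) m
    · rintro x ⟨hx, hxm⟩
      exact ⟨mem_low hx h hxm, hxm⟩
  unfold hd
  rw [this]

end Pool.Agent.CB3
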