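import Pool.Agent.CB3.TNum

/-!
# Two arithmetic estimates (module NUMA)

Both were checked by brute force for `e < 14`.  Notation `t = e + D + E - 2`, `p = t / 2`,
`P = (t + 1) / 2`, `o = t % 2`, so `P + p = t`, `P = p + o`.

PROOF of `L1`.  With `k = p - i` one has `t + 1 - 2 i = 2 k + 1 + o`, `P + 1 - i = k + 1 + o`, and
`gam ≤ min (e + 1) (t + 1 - 2 i)`, so the summand is `≤ min (e - k) k` (truncated subtraction); the sum
is `≤ ∑ k ∈ range n, min (e - k) k` and `4 * ∑ k ∈ range n, min (e - k) k ≤ e ^ 2`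
(terms with `k ≥ e` vanish, and `S (e+2) = S e + (e + 1)` for `S e = ∑ k ∈ range (e + 1), min (e-k) k`).

PROOF of `L2`.  Put `R j = V j - TT D E e j` (in `ℤ`), `V j = a^2 + (P - a) + ∑_{a < i ≤ j} (P + 1 - i)`.
(i) `j = a`: `2 TT D E e a = (a+1)(a+2)` (`TT_small`), `2 P ≥ t ≥ 3 e + 2 ≥ 3 a + 2`, so
`2 R a = 2 a^2 + 2 (P - a) - (a+1)(a+2) ≥ a^2 - 2 a ≥ 0`.
(ii) `j ≥ a + 1`, hypothesis `hj`: `P + 2 ≤ j + gam e D t j`, i.e. `P + 2 - j ≤ j + 1`,
`P + 2 - j ≤ e + 1`, `P + 2 - j ≤ e + D - j`, `P + 2 - j ≤ t + 1 - 2 j`.  Then for `j < i ≤ p`: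
`P + 1 - i ≤ gam e D t i`, so (with `TT_succ`) `R p ≤ R j`; moreover `P + 2 ≤ e + D`, hence
`E + 2 ≤ e + D`, `E ≤ p`.
Closed forms (induction on `i` with `TT_succ`): `2 TT i = (e+1)(2i+2-e)` for `e ≤ i ≤ D-1`;
`2 TT i = (e+1)(2D-e) + (i+1-D)(2e+D-i)` for `D-1 ≤ i ≤ E-1`;
`2 TT i = (e+1)(2D-e) + (E-D)(2e+D-E+1) + 2 (i+1-E)(e+D-1-i)` for `E-1 ≤ i ≤ p`.
With `x = e+1`, `y = D = x + 1 + α`, `z = E = y + β`, `Σ = x+y+z = t+3`, one gets
`4 TT p = Σ^2 - 2(x^2+y^2+z^2) + [t even]`, and `2 (V p) = 2a^2 + 2(P-a) + (P-a)(P-a+1) - 2 [t odd]`.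
For `t` even put `s = 6 a - Σ` (odd!): `24 R p = s^2 - 25 + 8 (α^2 + β^2 + 2α + β + αβ)`, so
`R p ≥ -1`, with equality iff `α = β = 0` and `s = ±1`; then `D = E = e + 2`, `6 a = 3 e + 5 ± 1`, so
`e` is even and `a = e/2 + 1`, `P - a = e`.  If `e = 2` then `P - a ≤ a` and the extra `+1` in the
claim gives the bound; so `e ≥ 4`.  In this case `gam e D t (p - 1) = 3 > 2 = P + 1 - (p - 1)`
(so `R (p-1) ≥ R p + 1` etc.): if `j ≤ p - 2` then `R j ≥ R p + 1 ≥ 0`.  Hence `t ≤ 2 j + 2`.
For `t` odd put `s = 6 a - Σ - 1` (odd): `24 R p = s^2 + 8 P - 33 + 8 (α^2 + β^2 + 2α + β + αβ) + ...`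
(please recompute) `≥ 1 + 8 P - 33 + 8 ≥ 0` because `P ≥ 5` (`e ≥ a ≥ 2`).
-/

set_option autoImplicit false
set_option linter.all false

noncomputable section

namespace Pool.Agent.CB3

/-- the sum `∑ k < n, min (e - k) k` is at most `e ^ 2 / 4`. -/
theorem L1_aux (e : ℕ) : ∀ n : ℕ, 4 * ∑ k ∈ Finset.range n, min (e - k) k ≤ e ^ 2 := by
  induction e using Nat.strong_induction_on with
  | _ e ih =>
    intro n
    rcases e with _ | _ | e
    · have : ∑ k ∈ Finset.range n, min (0 - k) k = 0 := by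
        apply Finset.sum_eq_zero
        intro k _
        omega
      rw [this]
      norm_num
    · have : ∑ k ∈ Finset.range n, min (0 + 1 - k) k = 0 := by
        apply Finset.sum_eq_zero
        intro k _
        omega
      rw [this]
      norm_num
    · rcases n with _ | n
      · simp
      · rw [Finset.sum_range_succ']
        have h1 : ∀ k ∈ Finset.range n, min (e + 1 + 1 - (k + 1)) (k + 1) =
            min (e - k) k + (if k < e + 1 then 1 else 0) := by
          intro k _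
          split_ifs with hk <;> omega
        rw [Finset.sum_congr rfl h1, Finset.sum_add_distrib]
        have h2 : ∑ k ∈ Finset.range n, (if k < e + 1 then 1 else 0) ≤ e + 1 := by
          rw [← Finset.sum_filter, Finset.sum_const, smul_eq_mul, mul_one]
          calc (Finset.filter (fun k => k < e + 1) (Finset.range n)).card
              ≤ (Finset.range (e + 1)).card := by
                apply Finset.card_le_card
                intro k hk
                rw [Finset.mem_filter] at hk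
                exact Finset.mem_range.2 hk.2
            _ = e + 1 := Finset.card_range _
        have h3 := ih e (by omega) n
        have h4 : min (e + 1 + 1 - 0) 0 = 0 := by omega
        rw [h4]
        nlinarith

theorem L1 {e D E t : ℕ} (hD : e + 2 ≤ D) (hDE : D ≤ E) (ht : t + 2 = e + D + E) (j : ℕ)
    (hj : j ≤ t / 2) :
    4 * ∑ i ∈ Finset.Ioc e j, (gam e D t i - ((t + 1) / 2 + 1 - i)) ≤ e ^ 2 := by
  refine le_trans ?_ (L1_aux e (t / 2 - e))
  apply Nat.mul_le_mul_left
  have h1 : ∑ i ∈ Finset.Ioc e j, (gam e D t i - ((t + 1) / 2 + 1 - i)) ≤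
      ∑ i ∈ Finset.Ioc e j, min (e - (t / 2 - i)) (t / 2 - i) := by
    apply Finset.sum_le_sum
    intro i hi
    rw [Finset.mem_Ioc] at hi
    unfold gam
    omega
  refine le_trans h1 ?_
  have h2 : ∑ i ∈ Finset.Ioc e j, min (e - (t / 2 - i)) (t / 2 - i) =
      ∑ k ∈ (Finset.Ioc e j).image (fun i => t / 2 - i), min (e - k) k := by
    rw [Finset.sum_image]
    intro x hx y hy hxy
    have hx' := Finset.mem_Ioc.1 (Finset.mem_coe.1 hx)
    have hy' := Finset.mem_Ioc.1 (Finset.mem_coe.1 hy)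
    simp only at hxy
    omega
  rw [h2]
  apply Finset.sum_le_sum_of_subset
  intro k hk
  rw [Finset.mem_image] at hk
  obtain ⟨i, hi, rfl⟩ := hk
  rw [Finset.mem_Ioc] at hi
  rw [Finset.mem_range]
  omega

/-- first range. -/
theorem TT_r1 {e D E t : ℕ} (hD : e + 2 ≤ D) (hDE : D ≤ E) (ht : t + 2 = e + D + E) :
    ∀ k : ℕ, e + k + 1 ≤ D →
      (2 * (TT D E e (e + k) : ℤ)) = (e + 1) * (2 * k + e + 2) := by
  intro k
  induction k with
  | zero =>
    intro _
    have h := TT_small (e := e) (D := D) (E := E) (j := e) (by omega) hDE le_rfl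
    have h' : (2 * (TT D E e e : ℤ)) = (e + 1) * (e + 2) := by exact_mod_cast h
    rw [add_zero, h']
    push_cast
    ring
  | succ k ih =>
    intro hk
    have h := TT_succ (e := e) (D := D) (E := E) (t := t) (i := e + k) (by omega) hDE ht
      (by omega)
    have hg : gam e D t (e + k + 1) = e + 1 := by
      unfold gam
      omega
    have h2 := ih (by omega)
    rw [← add_assoc, h, hg]
    push_cast
    linear_combination h2

/-- second range. -/
theorem TT_r2 {e d E t : ℕ} (hD : e + 1 ≤ d) (hDE : d + 1 ≤ E) (ht : t + 2 = e + (d + 1) + E)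
    (hE : E + 1 ≤ e + d) : ∀ k : ℕ, d + k + 1 ≤ E →
      (2 * (TT (d + 1) E e (d + k) : ℤ)) =
        (e + 1) * (2 * d + 2 - e) + k * (2 * e + 1 - k) := by
  intro k
  induction k with
  | zero =>
    intro _
    obtain ⟨m, rfl⟩ := Nat.exists_eq_add_of_le (show e ≤ d by omega)
    have h := TT_r1 (e := e) (D := e + m + 1) (E := E) (t := t) (by omega) hDE ht m le_rfl
    rw [add_zero, h]
    push_cast
    ring
  | succ k ih =>
    intro hk
    have h := TT_succ (e := e) (D := d + 1) (E := E) (t := t) (i := d + k) (by omega) hDE ht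
      (by omega)
    have hg : gam e (d + 1) t (d + k + 1) + k = e := by
      unfold gam
      omega
    have hg' : ((gam e (d + 1) t (d + k + 1) : ℕ) : ℤ) = e - k := by
      have : ((gam e (d + 1) t (d + k + 1) : ℕ) : ℤ) + k = e := by exact_mod_cast hg
      linarith
    have h2 := ih (by omega)
    rw [← add_assoc, h]
    push_cast
    rw [hg']
    linear_combination h2

/-- third range. -/
theorem TT_r3 {e d f t : ℕ} (hD : e + 1 ≤ d) (hDE : d ≤ f) (ht : t + 2 = e + (d + 1) + (f + 1))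
    (hE : f + 2 ≤ e + d) : ∀ k : ℕ, 2 * (f + k) ≤ t →
      (2 * (TT (d + 1) (f + 1) e (f + k) : ℤ)) =
        (e + 1) * (2 * d + 2 - e) + (f - d) * (2 * e + 1 - f + d)
          + 2 * k * (e + d - f - k) := by
  intro k
  induction k with
  | zero =>
    intro _
    obtain ⟨m, rfl⟩ := Nat.exists_eq_add_of_le hDE
    have h := TT_r2 (e := e) (d := d) (E := d + m + 1) (t := t) (by omega) (by omega) (by omega)
      (by omega) m (by omega)
    rw [add_zero, h]
    push_cast
    ring
  | succ k ih =>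
    intro hk
    have h := TT_succ (e := e) (D := d + 1) (E := f + 1) (t := t) (i := f + k) (by omega)
      (by omega) ht (by omega)
    have hg : gam e (d + 1) t (f + k + 1) + 2 * k + f + 1 = e + d := by
      unfold gam
      omega
    have hg' : ((gam e (d + 1) t (f + k + 1) : ℕ) : ℤ) = e + d - f - 1 - 2 * k := by
      have : ((gam e (d + 1) t (f + k + 1) : ℕ) : ℤ) + 2 * k + f + 1 = e + d := by
        exact_mod_cast hg
      linarith
    have h2 := ih (by omega)
    rw [← add_assoc, h]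
    push_cast
    rw [hg']
    linear_combination h2

/-- closed form of the arithmetic sum. -/
theorem sumIoc (a P : ℕ) : ∀ n : ℕ, a + n ≤ P →
    (2 * ((∑ m ∈ Finset.Ioc a (a + n), (P + 1 - m) : ℕ) : ℤ)) = n * (2 * (P - a) + 1 - n) := by
  intro n
  induction n with
  | zero => intro _; simp
  | succ n ih =>
    intro h
    have h1 := ih (by omega)
    rw [← add_assoc, Finset.sum_Ioc_succ_top (by omega)]
    have h2 : P + 1 - (a + n + 1) + a + n = P := by omega
    have h3 : ((P + 1 - (a + n + 1) : ℕ) : ℤ) = P - a - n := by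
      have : ((P + 1 - (a + n + 1) : ℕ) : ℤ) + a + n = P := by exact_mod_cast h2
      linarith
    rw [Nat.cast_add, h3]
    push_cast at h1 ⊢
    linear_combination h1

/-- monotonicity of the difference. -/
theorem L2_mono {e D E t a j : ℕ} (hD : e + 2 ≤ D) (hDE : D ≤ E) (ht : t + 2 = e + D + E)
    (haj : a + 1 ≤ j) (hj : (t + 1) / 2 + 2 ≤ j + gam e D t j) :
    ∀ i : ℕ, j ≤ i → 2 * i ≤ t →
      ∑ m ∈ Finset.Ioc a i, ((t + 1) / 2 + 1 - m) + TT D E e j ≤
        ∑ m ∈ Finset.Ioc a j, ((t + 1) / 2 + 1 - m) + TT D E e i := by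
  intro i hi
  induction i, hi using Nat.le_induction with
  | base => intro _; exact le_rfl
  | succ i hi ih =>
    intro h
    have h1 := ih (by omega)
    rw [Finset.sum_Ioc_succ_top (by omega), TT_succ (by omega) hDE ht h]
    have h2 : (t + 1) / 2 + 1 - (i + 1) ≤ gam e D t (i + 1) := by
      unfold gam at hj ⊢
      omega
    omega

theorem sq_ge_four {s : ℤ} (h : 2 ≤ s ∨ s ≤ -2) : 4 ≤ s ^ 2 := by
  rcases h with h | h <;> nlinarith

theorem Q_nonneg (α β : ℕ) :
    ((α : ℤ) + β) ≤ α ^ 2 + β ^ 2 + 2 * α + β + α * β := by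
  have hα0 : (0 : ℤ) ≤ α := Int.natCast_nonneg _
  have hβ0 : (0 : ℤ) ≤ β := Int.natCast_nonneg _
  nlinarith [mul_nonneg hα0 hβ0]

/-- the strict version in the exceptional case. -/
theorem L2_strict {e D E t a j q : ℕ} (hD : D = e + 2) (hDE : E = e + 2) (ht : t + 2 = e + D + E)
    (he : 4 ≤ e) (haq : a ≤ q) (haj : a + 1 ≤ j) (hjq : j ≤ q) (htq : t = 2 * (q + 2))
    (hj : (t + 1) / 2 + 2 ≤ j + gam e D t j) :
    ∑ m ∈ Finset.Ioc a (q + 2), ((t + 1) / 2 + 1 - m) + TT D E e j + 1 ≤
        ∑ m ∈ Finset.Ioc a j, ((t + 1) / 2 + 1 - m) + TT D E e (q + 2) := by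
  have hm2 := L2_mono (E := E) (by omega) (by omega) ht haj hj q hjq (by omega)
  have hs1 := Finset.sum_Ioc_succ_top (show a ≤ q by omega) (fun m => (t + 1) / 2 + 1 - m)
  have hs2 := Finset.sum_Ioc_succ_top (show a ≤ q + 1 by omega)
    (fun m => (t + 1) / 2 + 1 - m)
  have ht1 := TT_succ (e := e) (D := D) (E := E) (t := t) (i := q) (by omega)
    (by omega) ht (by omega)
  have ht2 := TT_succ (e := e) (D := D) (E := E) (t := t) (i := q + 1)
    (by omega) (by omega) ht (by omega)
  have hg1 : gam e D t (q + 1) = 3 := by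
    unfold gam
    omega
  have hg2 : gam e D t (q + 1 + 1) = 1 := by
    unfold gam
    omega
  rw [hg1] at ht1
  rw [hg2] at ht2
  rw [show q + 2 = q + 1 + 1 from rfl]
  have h1 : (t + 1) / 2 + 1 - (q + 1) = 2 := by omega
  have h2 : (t + 1) / 2 + 1 - (q + 1 + 1) = 1 := by omega
  rw [h1] at hs1
  rw [h2] at hs2
  omega

set_option maxHeartbeats 1000000 in
theorem L2 {e D E t a j : ℕ} (hD : e + 2 ≤ D) (hDE : D ≤ E) (ht : t + 2 = e + D + E)
    (ha2 : 2 ≤ a) (hae : a ≤ e) (hPa : (t + 1) / 2 ≤ 3 * a) (haj : a ≤ j) (hjp : 2 * j ≤ t)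
    (hj : a + 1 ≤ j → (t + 1) / 2 + 2 ≤ j + gam e D t j) {V : ℕ}
    (hV : a ^ 2 + ((t + 1) / 2 - a) + ∑ i ∈ Finset.Ioc a j, ((t + 1) / 2 + 1 - i) ≤ V)
    (hV' : (t + 1) / 2 - a ≤ a →
      a ^ 2 + ((t + 1) / 2 - a) + 1 + ∑ i ∈ Finset.Ioc a j, ((t + 1) / 2 + 1 - i) ≤ V) :
    TT D E e j ≤ V + 1 ∧ (TT D E e j ≤ V ∨
      (D = e + 2 ∧ E = e + 2 ∧ 4 ≤ e ∧ t ≤ 2 * j + 2 ∧ 2 ∣ t)) := by
  rcases Nat.eq_or_lt_of_le haj with h | hlt
  · subst h
    have h1 := TT_small (e := e) (D := D) (E := E) (j := a) (by omega) hDE hae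
    rw [Finset.Ioc_self, Finset.sum_empty, add_zero] at hV
    have h2 : 3 * a + 2 ≤ 2 * ((t + 1) / 2) := by omega
    have h3 : 3 * a + 2 ≤ 2 * ((t + 1) / 2 - a) + 2 * a := by omega
    have h4 : TT D E e a ≤ V := by nlinarith
    exact ⟨by omega, Or.inl h4⟩
  · have hj' := hj hlt
    obtain ⟨α, rfl⟩ := Nat.exists_eq_add_of_le hD
    obtain ⟨β, rfl⟩ := Nat.exists_eq_add_of_le hDE
    have hfacts : j + 1 ≤ t / 2 ∧ (t + 1) / 2 + 2 ≤ e + (e + 2 + α) := by
      unfold gam at hj'
      omega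
    obtain ⟨hjp', hPe⟩ := hfacts
    have hmono := L2_mono hD hDE ht hlt hj'
    rcases Nat.even_or_odd' t with ⟨p, hp | hp⟩
    · -- even case
      have hP : (t + 1) / 2 = p := by omega
      rw [hP] at hV hV' hPa hPe hmono hj'
      obtain ⟨k, hk⟩ := Nat.exists_eq_add_of_le (show e + 1 + α + β ≤ p by omega)
      obtain ⟨w, hw⟩ := Nat.exists_eq_add_of_le (show a ≤ p by omega)
      have hT := TT_r3 (e := e) (d := e + 1 + α) (f := e + 1 + α + β) (t := t) (by omega)
        (by omega) (by omega) (by omega) k (by omega)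
      rw [← hk] at hT
      have hTe : TT (e + 1 + α + 1) (e + 1 + α + β + 1) e p =
          TT (e + 2 + α) (e + 2 + α + β) e p := by
        congr 1 <;> omega
      rw [hTe] at hT
      have hS := sumIoc a p w (by omega)
      rw [← hw] at hS
      have hm := hmono p (by omega) (by omega)
      have he : e = β + 2 * k := by omega
      have hkey : (24 * (a ^ 2 + w + ((∑ m ∈ Finset.Ioc a p, (p + 1 - m) : ℕ) : ℤ)) -
          24 * (TT (e + 2 + α) (e + 2 + α + β) e p : ℤ)) =
          (6 * a - (2 * p + 3)) ^ 2 - 25 + 8 * (α ^ 2 + β ^ 2 + 2 * α + β + α * β) := by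
        have hk' : (p : ℤ) = e + 1 + α + β + k := by exact_mod_cast hk
        have he' : (e : ℤ) = β + 2 * k := by exact_mod_cast he
        have hw' : (w : ℤ) = p - a := by
          have : (p : ℤ) = a + w := by exact_mod_cast hw
          linarith
        have hT' := hT
        push_cast at hT' hS ⊢
        have h24 : (24 * (TT (e + 2 + α) (e + 2 + α + β) e p : ℤ)) = 12 *
          ((↑e + 1) * (2 * (↑e + 1 + ↑α) + 2 - ↑e) + (↑e + 1 + ↑α + ↑β - (↑e + 1 + ↑α)) *
            (2 * ↑e + 1 - (↑e + 1 + ↑α + ↑β) + (↑e + 1 + ↑α)) +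
            2 * ↑k * (↑e + (↑e + 1 + ↑α) - (↑e + 1 + ↑α + ↑β) - ↑k)) := by
          linarith
        rw [h24]
        have h24' : (24 * (∑ m ∈ Finset.Ioc a p, ((p + 1 - m : ℕ) : ℤ))) =
            12 * (w * (2 * (p - a) + 1 - w)) := by
          linarith
        rw [mul_add, h24', hw', hk', he']
        ring
      have hwa : p - a = w := by omega
      rw [hwa] at hV hV'
      have hα0 : (0 : ℤ) ≤ α := Int.natCast_nonneg _
      have hβ0 : (0 : ℤ) ≤ β := Int.natCast_nonneg _
      have hQ := Q_nonneg α β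
      -- passage to the integers
      have hVz : (a ^ 2 + w + ((∑ m ∈ Finset.Ioc a j, (p + 1 - m) : ℕ) : ℤ)) ≤ V := by
        exact_mod_cast hV
      have hmz : ((∑ m ∈ Finset.Ioc a p, (p + 1 - m) : ℕ) : ℤ) +
          (TT (e + 2 + α) (e + 2 + α + β) e j : ℤ) ≤
          ((∑ m ∈ Finset.Ioc a j, (p + 1 - m) : ℕ) : ℤ) +
          (TT (e + 2 + α) (e + 2 + α + β) e p : ℤ) := by
        exact_mod_cast hm
      have hsq := sq_nonneg (6 * (a : ℤ) - (2 * p + 3))
      have hone : TT (e + 2 + α) (e + 2 + α + β) e j ≤ V + 1 := by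
        have : (TT (e + 2 + α) (e + 2 + α + β) e j : ℤ) < V + 2 := by linarith
        omega
      refine ⟨hone, ?_⟩
      by_cases hc : 1 ≤ α + β ∨ 2 ≤ 6 * (a : ℤ) - (2 * p + 3) ∨ 6 * (a : ℤ) - (2 * p + 3) ≤ -2
      · left
        have : (TT (e + 2 + α) (e + 2 + α + β) e j : ℤ) < V + 1 := by
          rcases hc with hc | hc
          · have hc' : (1 : ℤ) ≤ α + β := by exact_mod_cast hc
            linarith
          · have h4 := sq_ge_four hc
            linarith
        omega
      · have hα : α = 0 := by omega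
        have hβ : β = 0 := by omega
        have ha : a = k + 1 := by omega
        have hw2 : w = 2 * k := by omega
        have hQ0 : (0 : ℤ) ≤ α ^ 2 + β ^ 2 + 2 * α + β + α * β := by linarith
        by_cases hk1 : k = 1
        · left
          have hV1 := hV' (by omega)
          have hVz' : (a ^ 2 + w + 1 + ((∑ m ∈ Finset.Ioc a j, (p + 1 - m) : ℕ) : ℤ)) ≤ V := by
            exact_mod_cast hV1
          have : (TT (e + 2 + α) (e + 2 + α + β) e j : ℤ) < V + 1 := by
            linarith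
          omega
        · by_cases htj : t ≤ 2 * j + 2
          · right
            exact ⟨by omega, by omega, by omega, htj, ⟨p, hp⟩⟩
          · left
            obtain ⟨q, hq⟩ := Nat.exists_eq_add_of_le' (show 2 ≤ p by omega)
            have hm3 := L2_strict (e := e) (D := e + 2 + α) (E := e + 2 + α + β) (t := t)
              (a := a) (j := j) (q := q) (by omega) (by omega) ht (by omega) (by omega) hlt
              (by omega) (by omega) (by rw [hP]; exact hj')
            rw [hP, ← hq] at hm3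
            have hmz' : ((∑ m ∈ Finset.Ioc a p, (p + 1 - m) : ℕ) : ℤ) +
                (TT (e + 2 + α) (e + 2 + α + β) e j : ℤ) + 1 ≤
                ((∑ m ∈ Finset.Ioc a j, (p + 1 - m) : ℕ) : ℤ) +
                (TT (e + 2 + α) (e + 2 + α + β) e p : ℤ) := by
              exact_mod_cast hm3
            have : (TT (e + 2 + α) (e + 2 + α + β) e j : ℤ) < V + 1 := by
              linarith
            omega
    · -- odd case
      have hP : (t + 1) / 2 = p + 1 := by omega
      rw [hP] at hV hV' hPa hPe hmono hj'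
      obtain ⟨k, hk⟩ := Nat.exists_eq_add_of_le (show e + 1 + α + β ≤ p by omega)
      obtain ⟨w, hw⟩ := Nat.exists_eq_add_of_le (show a ≤ p by omega)
      have hT := TT_r3 (e := e) (d := e + 1 + α) (f := e + 1 + α + β) (t := t) (by omega)
        (by omega) (by omega) (by omega) k (by omega)
      rw [← hk] at hT
      have hTe : TT (e + 1 + α + 1) (e + 1 + α + β + 1) e p =
          TT (e + 2 + α) (e + 2 + α + β) e p := by
        congr 1 <;> omega
      rw [hTe] at hT
      have hS := sumIoc a (p + 1) w (by omega)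
      rw [← hw] at hS
      have hm := hmono p (by omega) (by omega)
      have he : e = β + 2 * k + 1 := by omega
      have hkey : (24 * (a ^ 2 + (w + 1) + ((∑ m ∈ Finset.Ioc a p, (p + 1 + 1 - m) : ℕ) : ℤ)) -
          24 * (TT (e + 2 + α) (e + 2 + α + β) e p : ℤ)) =
          (6 * a - (2 * p + 5)) ^ 2 + 8 * p - 25 + 8 * (α ^ 2 + β ^ 2 + 2 * α + β + α * β) := by
        have hk' : (p : ℤ) = e + 1 + α + β + k := by exact_mod_cast hk
        have he' : (e : ℤ) = β + 2 * k + 1 := by exact_mod_cast he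
        have hw' : (w : ℤ) = p - a := by
          have : (p : ℤ) = a + w := by exact_mod_cast hw
          linarith
        have hT' := hT
        push_cast at hT' hS ⊢
        have h24 : (24 * (TT (e + 2 + α) (e + 2 + α + β) e p : ℤ)) = 12 *
          ((↑e + 1) * (2 * (↑e + 1 + ↑α) + 2 - ↑e) + (↑e + 1 + ↑α + ↑β - (↑e + 1 + ↑α)) *
            (2 * ↑e + 1 - (↑e + 1 + ↑α + ↑β) + (↑e + 1 + ↑α)) +
            2 * ↑k * (↑e + (↑e + 1 + ↑α) - (↑e + 1 + ↑α + ↑β) - ↑k)) := by
          linarith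
        rw [h24]
        have h24' : (24 * (∑ m ∈ Finset.Ioc a p, ((p + 1 + 1 - m : ℕ) : ℤ))) =
            12 * (w * (2 * (p + 1 - a) + 1 - w)) := by
          linarith
        rw [mul_add, h24', hw', hk', he']
        ring
      have hwa : p + 1 - a = w + 1 := by omega
      rw [hwa] at hV hV'
      have hα0 : (0 : ℤ) ≤ α := Int.natCast_nonneg _
      have hβ0 : (0 : ℤ) ≤ β := Int.natCast_nonneg _
      have hQ := Q_nonneg α β
      have hVz : (a ^ 2 + (w + 1) + ((∑ m ∈ Finset.Ioc a j, (p + 1 + 1 - m) : ℕ) : ℤ)) ≤ V := by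
        exact_mod_cast hV
      have hmz : ((∑ m ∈ Finset.Ioc a p, (p + 1 + 1 - m) : ℕ) : ℤ) +
          (TT (e + 2 + α) (e + 2 + α + β) e j : ℤ) ≤
          ((∑ m ∈ Finset.Ioc a j, (p + 1 + 1 - m) : ℕ) : ℤ) +
          (TT (e + 2 + α) (e + 2 + α + β) e p : ℤ) := by
        exact_mod_cast hm
      have hsq := sq_nonneg (6 * (a : ℤ) - (2 * p + 5))
      have hp4 : (4 : ℤ) ≤ p := by
        have : 4 ≤ p := by omega
        exact_mod_cast this
      have hlt' : (TT (e + 2 + α) (e + 2 + α + β) e j : ℤ) < V + 1 := by linarith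
      have hle : TT (e + 2 + α) (e + 2 + α + β) e j ≤ V := by omega
      exact ⟨by omega, Or.inl hle⟩

end Pool.Agent.CB3
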