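import Pool.Agent.CB3.Defs

/-!
# Inverse systems of homogeneous ideals
-/

set_option autoImplicit false
set_option linter.all false

noncomputable section

namespace Pool.Agent.CB3

open Pool.Agent.CB Module MvPolynomial

variable {K : Type*} [Field K] {N : ℕ}

lemma mem_PI {I : Ideal (MvPolynomial (Fin N) K)} {i : ℕ}
    {ψ : MvPolynomial (Fin N) K →ₗ[K] K} :
    ψ ∈ PI I i ↔ ψ ∈ DD K N i ∧ ∀ f ∈ I, ψ f = 0 := Iff.rfl

/-- a functional on the forms of degree `i`, extended by zero. -/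
def ext0 (i : ℕ) : Module.Dual K (homogeneousSubmodule (Fin N) K i) →ₗ[K]
    (MvPolynomial (Fin N) K →ₗ[K] K) :=
  ((homogeneousComponent i : MvPolynomial (Fin N) K →ₗ[K] _).codRestrict
    (homogeneousSubmodule (Fin N) K i)
    (fun f => homogeneousComponent_isHomogeneous i f)).dualMap

lemma ext0_apply (i : ℕ) (θ : Module.Dual K (homogeneousSubmodule (Fin N) K i))
    (f : MvPolynomial (Fin N) K) :
    ext0 i θ f = θ ⟨homogeneousComponent i f, homogeneousComponent_isHomogeneous i f⟩ := rfl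

lemma ext0_hom (i : ℕ) (θ : Module.Dual K (homogeneousSubmodule (Fin N) K i))
    (f : MvPolynomial (Fin N) K) (hf : f.IsHomogeneous i) :
    ext0 i θ f = θ ⟨f, hf⟩ := by
  rw [ext0_apply]
  congr 1
  exact Subtype.ext (homogeneousComponent_eq_self hf)

lemma ext0_mem (i : ℕ) (θ : Module.Dual K (homogeneousSubmodule (Fin N) K i)) :
    ext0 i θ ∈ DD K N i := by
  intro f m hf hm
  rw [ext0_apply]
  have : homogeneousComponent i f = 0 := by
    rw [homogeneousComponent_of_mem ((mem_homogeneousSubmodule _ _).2 hf), if_neg (Ne.symm hm)]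
  have h2 : (⟨homogeneousComponent i f, homogeneousComponent_isHomogeneous i f⟩ :
      homogeneousSubmodule (Fin N) K i) = 0 := Subtype.ext this
  rw [h2, map_zero]

lemma range_ext0 (i : ℕ) : LinearMap.range (ext0 (K := K) (N := N) i) = DD K N i := by
  apply le_antisymm
  · rintro _ ⟨θ, rfl⟩
    exact ext0_mem i θ
  · intro ψ hψ
    refine ⟨ψ ∘ₗ (homogeneousSubmodule (Fin N) K i).subtype, ?_⟩
    rw [← sub_eq_zero]
    refine eq_zero_of_DD (Submodule.sub_mem _ (ext0_mem i _) hψ) fun f hf => ?_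
    rw [LinearMap.sub_apply, ext0_hom i _ f hf]
    exact sub_self _

instance finDD (i : ℕ) : FiniteDimensional K (DD K N i) := by
  rw [← range_ext0]
  infer_instance

lemma PI_le (I : Ideal (MvPolynomial (Fin N) K)) (i : ℕ) : PI I i ≤ DD K N i := fun _ h => h.1

instance finPI (I : Ideal (MvPolynomial (Fin N) K)) (i : ℕ) : FiniteDimensional K (PI I i) :=
  Submodule.finiteDimensional_of_le (PI_le I i)

lemma finrank_PI {I : Ideal (MvPolynomial (Fin N) K)} (hI : HI I) (i : ℕ) :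
    finrank K (PI I i) = hd I i := by
  -- the annihilator of `I_i` inside the dual of `S_i`
  let A : Submodule K (homogeneousSubmodule (Fin N) K i) :=
    (Submodule.restrictScalars K I).comap (homogeneousSubmodule (Fin N) K i).subtype
  have h1 : PI I i = A.dualAnnihilator.map (ext0 i) := by
    apply le_antisymm
    · rintro ψ ⟨hψ, hψI⟩
      rw [← range_ext0] at hψ
      obtain ⟨θ, rfl⟩ := hψ
      refine ⟨θ, ?_, rfl⟩
      rw [SetLike.mem_coe, Submodule.mem_dualAnnihilator]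
      rintro ⟨a, ha⟩ haI
      have := hψI a haI
      rw [ext0_hom i θ a ha] at this
      exact this
    · rintro _ ⟨θ, hθ, rfl⟩
      refine ⟨ext0_mem i θ, fun f hf => ?_⟩
      rw [SetLike.mem_coe, Submodule.mem_dualAnnihilator] at hθ
      rw [ext0_apply]
      exact hθ _ (hI f hf i)
  have hinj : Function.Injective (ext0 (K := K) (N := N) i) := by
    intro θ θ' h
    apply LinearMap.ext
    rintro ⟨a, ha⟩
    rw [← ext0_hom i θ a ha, ← ext0_hom i θ' a ha, h]
  have h2 : finrank K (PI I i) = finrank K A.dualAnnihilator := by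
    rw [h1]
    exact (LinearEquiv.finrank_eq (Submodule.equivMapOfInjective _ hinj _)).symm
  have h3 := Subspace.finrank_add_finrank_dualAnnihilator_eq A
  have h4 : finrank K A = finrank K (Jn I i) := by
    have h5 : Jn I i = A.map (homogeneousSubmodule (Fin N) K i).subtype := by
      rw [Submodule.map_comap_subtype]
      unfold Jn
      rw [inf_comm]
    rw [h5]
    exact (LinearEquiv.finrank_eq (Submodule.equivMapOfInjective _
      (homogeneousSubmodule (Fin N) K i).injective_subtype _))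
  have h6 := hd_add I i
  omega

lemma mem_of_PI {I : Ideal (MvPolynomial (Fin N) K)} (hI : HI I) {i : ℕ}
    {f : MvPolynomial (Fin N) K} (hf : f.IsHomogeneous i) (h : ∀ ψ ∈ PI I i, ψ f = 0) :
    f ∈ I := by
  by_contra hcon
  have hf' : f ∉ Jn I i := fun hx => hcon hx.1
  obtain ⟨θ, hθ0, hθ⟩ := Submodule.exists_le_ker_of_notMem hf'
  apply hθ0
  have h1 := h (θ ∘ₗ homogeneousComponent i) ⟨?_, ?_⟩
  · rw [LinearMap.comp_apply, homogeneousComponent_eq_self hf] at h1
    exact h1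
  · intro g m hg hm
    rw [LinearMap.comp_apply, homogeneousComponent_of_mem ((mem_homogeneousSubmodule _ _).2 hg),
      if_neg (Ne.symm hm), map_zero]
  · intro g hg
    rw [LinearMap.comp_apply]
    exact LinearMap.mem_ker.1 (hθ ⟨hI g hg i, homogeneousComponent_isHomogeneous _ _⟩)

lemma L_XX_lf (c : Fin N → K) (ψ : MvPolynomial (Fin N) K →ₗ[K] K) :
    L (XX K N) c ψ = act (lf c) ψ := by
  rw [L_XX]
  rfl

lemma PI_sup_lf (I : Ideal (MvPolynomial (Fin N) K)) (c : Fin N → K) (i : ℕ) :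
    PI (I ⊔ Ideal.span {lf c}) i = PI I i ⊓ LinearMap.ker (L (XX K N) c) := by
  ext ψ
  rw [Submodule.mem_inf, LinearMap.mem_ker, L_XX_lf, mem_PI, mem_PI]
  constructor
  · rintro ⟨h1, h2⟩
    refine ⟨⟨h1, fun f hf => h2 f (Ideal.mem_sup_left hf)⟩, ?_⟩
    apply LinearMap.ext
    intro g
    rw [act_apply]
    exact h2 _ (Ideal.mem_sup_right (Ideal.mul_mem_right _ _ (Ideal.mem_span_singleton_self _)))
  · rintro ⟨⟨h1, h2⟩, h3⟩
    refine ⟨h1, fun f hf => ?_⟩
    obtain ⟨a, ha, b, hb, rfl⟩ := Submodule.mem_sup.1 hf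
    obtain ⟨u, rfl⟩ := Ideal.mem_span_singleton'.1 hb
    rw [map_add, h2 a ha, zero_add, mul_comm]
    exact LinearMap.congr_fun h3 u

lemma XX_PI {I : Ideal (MvPolynomial (Fin N) K)} {i : ℕ} (j : Fin N)
    (ψ : MvPolynomial (Fin N) K →ₗ[K] K) (hψ : ψ ∈ PI I (i + 1)) : XX K N j ψ ∈ PI I i := by
  refine ⟨sysXX.lower i j ψ hψ.1, fun f hf => ?_⟩
  exact hψ.2 _ (I.mul_mem_left _ hf)

lemma PI_Ann {φ : MvPolynomial (Fin N) K →ₗ[K] K} {t i s : ℕ} (hφ : φ ∈ DD K N t)
    (h : i + s = t) : PI (Ann φ) i = P φ s := by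
  symm
  apply Submodule.eq_of_le_of_finrank_eq
  · rintro _ ⟨g, hg, rfl⟩
    refine ⟨act_mem_DD hg (by rw [h]; exact hφ), fun f hf => ?_⟩
    rw [actφ_apply, act_apply, mul_comm]
    exact mem_Ann'.1 hf g
  · rw [finrank_PI (HI_Ann hφ), ← finrank_P_eq]
    exact finrank_P_symm hφ (by omega)

lemma good_iff {I : Ideal (MvPolynomial (Fin N) K)} (hI : HI I) {c : Fin N → K} {i : ℕ} :
    Good (XX K N) c (PI I i) ↔ hd (I ⊔ Ideal.span {lf c}) i = 0 := by
  rw [← finrank_PI (HI_sup hI (HI_span (lf_hom c))), PI_sup_lf, Submodule.finrank_eq_zero,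
    Submodule.eq_bot_iff]
  constructor
  · rintro h ψ ⟨h1, h2⟩
    exact h ψ h1 h2
  · intro h ψ h1 h2
    exact h ψ ⟨h1, h2⟩

lemma hd_zero_succ {I : Ideal (MvPolynomial (Fin N) K)} {i : ℕ} (h : hd I i = 0) :
    hd I (i + 1) = 0 := by
  rw [hd_eq_zero_iff] at h ⊢
  intro x hx
  have h1 : homogeneousSubmodule (Fin N) K (i + 1) ≤ Submodule.restrictScalars K I := by
    rw [← homogeneousSubmodule_one_pow (σ := Fin N) (R := K) (n := i + 1), pow_succ',
      homogeneousSubmodule_one_pow, Submodule.mul_le]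
    intro u _ v hv
    exact I.mul_mem_left u (h v hv)
  exact h1 hx

lemma hd_zero_le {I : Ideal (MvPolynomial (Fin N) K)} {i : ℕ} (h : hd I i = 0) {j : ℕ}
    (hj : i ≤ j) : hd I j = 0 := by
  induction j, hj using Nat.le_induction with
  | base => exact h
  | succ j _ ih => exact hd_zero_succ ih

lemma hd_succ_le {I : Ideal (MvPolynomial (Fin N) K)} (hI : HI I) {c : Fin N → K} {i : ℕ}
    (h : hd (I ⊔ Ideal.span {lf c}) (i + 1) = 0) : hd I (i + 1) ≤ hd I i := by
  have h1 := hd_col hI (lf_hom c) i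
  have h2 := hd_mono (le_col I (lf c)) i
  omega

lemma base_of_eigen {c p : Fin N → K} {ψ : MvPolynomial (Fin N) K →ₗ[K] K} {i : ℕ}
    (hψ : ψ ∈ DD K N (i + 1)) (hψ0 : ψ ≠ 0)
    (hX : ∀ j, XX K N j ψ = p j • L (XX K N) c ψ) :
    p ≠ 0 ∧ ∀ (f : MvPolynomial (Fin N) K) (k : ℕ), f.IsHomogeneous k → k ≤ i + 1 →
      act f ψ = 0 → eval p f = 0 := by
  have hX' : ∀ j, act (X j) ψ = p j • act (lf c) ψ := by
    intro j
    have := hX j
    rw [L_XX_lf] at this
    exact this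
  obtain ⟨f0, hf0, hne0⟩ : ∃ f0 : MvPolynomial (Fin N) K, f0.IsHomogeneous (i + 1) ∧ ψ f0 ≠ 0 := by
    by_contra hcon
    push Not at hcon
    exact hψ0 (eq_zero_of_DD hψ hcon)
  have h1 : ψ (lf c ^ (i + 1)) ≠ 0 := by
    intro h0
    have := LinearMap.congr_fun (act_of_eigen hX' hf0) 1
    simp only [act_apply, LinearMap.smul_apply, mul_one, h0, smul_zero] at this
    exact hne0 this
  refine ⟨?_, ?_⟩
  · rintro rfl
    apply h1
    have h2 : act (lf c) ψ = 0 := by
      have : act (lf c) ψ = ∑ j, c j • act (X j) ψ := by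
        rw [← L_XX_lf, CB.L_apply]
        rfl
      rw [this]
      refine Finset.sum_eq_zero fun j _ => ?_
      rw [hX' j]
      simp
    have := LinearMap.congr_fun h2 (lf c ^ i)
    rw [act_apply, ← pow_succ'] at this
    simpa using this
  · intro f k hf hk hfψ
    have h4 := act_of_eigen hX' hf
    rw [hfψ] at h4
    have := LinearMap.congr_fun h4 (lf c ^ (i + 1 - k))
    rw [LinearMap.zero_apply, LinearMap.smul_apply, act_apply, ← pow_add,
      Nat.add_sub_cancel' hk, smul_eq_mul] at this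
    rcases mul_eq_zero.1 this.symm with h5 | h5
    · exact h5
    · exact absurd h5 h1

/-- a functional vanishing on an ideal is annihilated by it -/
lemma act_eq_zero_of_PI {I : Ideal (MvPolynomial (Fin N) K)} {i : ℕ}
    {ψ : MvPolynomial (Fin N) K →ₗ[K] K} (hψ : ψ ∈ PI I i) {f : MvPolynomial (Fin N) K}
    (hf : f ∈ I) : act f ψ = 0 := by
  apply LinearMap.ext
  intro g
  rw [act_apply]
  exact hψ.2 _ (I.mul_mem_right _ hf)

/-- **Flatness**: a base point from equality of two consecutive values of the Hilbert function. -/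
lemma flat_point [IsAlgClosed K] {I : Ideal (MvPolynomial (Fin N) K)} (hI : HI I)
    {c : Fin N → K} {i : ℕ} (h0 : hd (I ⊔ Ideal.span {lf c}) i = 0)
    (h1 : hd I (i + 1) = hd I i) (h2 : hd I i ≠ 0) :
    ∃ p : Fin N → K, p ≠ 0 ∧ ∀ f ∈ I, ∀ k, k ≤ i + 1 → f.IsHomogeneous k → eval p f = 0 := by
  have hB : PI I i ≠ ⊥ := by
    intro hb
    apply h2
    rw [← finrank_PI hI, hb]
    simp
  obtain ⟨p, ψ, hψ, hψ0, hX, -⟩ := flat (sysXX (K := K) (N := N)) i (A := PI I (i + 1))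
    (B := PI I i) (PI_le I (i + 1)) (fun j w hw => XX_PI j w hw) ((good_iff hI).2 h0)
    (by rw [finrank_PI hI, finrank_PI hI, h1]) hB
  obtain ⟨hp, hp'⟩ := base_of_eigen hψ.1 hψ0 hX
  exact ⟨p, hp, fun f hf k hk hfk => hp' f k hfk hk (act_eq_zero_of_PI hψ hf)⟩

/-- generic linear forms -/
lemma exists_hd_zero [Infinite K] {I : Ideal (MvPolynomial (Fin N) K)} (hI : HI I) {i : ℕ}
    (h : hd I i ≤ i) : ∃ c : Fin N → K, hd (I ⊔ Ideal.span {lf c}) i = 0 := by
  obtain ⟨c, hc⟩ := exists_good_of_finrank_le (sysXX (K := K) (N := N)) i (PI I i) (PI_le I i)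
    (by rw [finrank_PI hI]; exact h)
  exact ⟨c, (good_iff hI).1 hc⟩

/-- symmetry of the Hilbert function -/
lemma hd_symm {φ : MvPolynomial (Fin N) K →ₗ[K] K} {t i j : ℕ} (hφ : φ ∈ DD K N t)
    (h : i + j = t) : hd (Ann φ) i = hd (Ann φ) j := by
  rw [← finrank_P_eq, ← finrank_P_eq]
  exact finrank_P_symm hφ h

lemma hd_eq_zero_of_lt {φ : MvPolynomial (Fin N) K →ₗ[K] K} {t i : ℕ} (hφ : φ ∈ DD K N t)
    (h : t < i) : hd (Ann φ) i = 0 :=
  hd_eq_zero_iff.2 fun _ hx => mem_Ann_of_lt hφ h hx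

lemma low_le (I : Ideal (MvPolynomial (Fin N) K)) (i : ℕ) : low I i ≤ I :=
  Ideal.span_le.2 fun _ h => h.1

lemma low_mono (I : Ideal (MvPolynomial (Fin N) K)) {i j : ℕ} (h : i ≤ j) :
    low I i ≤ low I j :=
  Ideal.span_mono fun _ ⟨h1, k, h2, h3⟩ => ⟨h1, k, h2.trans h, h3⟩

lemma mem_low {I : Ideal (MvPolynomial (Fin N) K)} {i k : ℕ} {f : MvPolynomial (Fin N) K}
    (hf : f ∈ I) (hk : k ≤ i) (h : f.IsHomogeneous k) : f ∈ low I i :=
  Ideal.subset_span ⟨hf, k, hk, h⟩

end Pool.Agent.CB3
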